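import Pool.Agent.MP_b3b911_al.Defs

namespace Pool.Agent.MP_b3b911_al

/-- The word length: the least number of letters, each in `S` or the inverse of an element of `S`,
whose product is `g`. -/
noncomputable def wl {G : Type*} [Group G] (S : Finset G) (g : G) : ℕ :=
  sInf {n : ℕ | ∃ l : List G, l.length = n ∧ (∀ x ∈ l, x ∈ S ∨ x⁻¹ ∈ S) ∧ l.prod = g}

/-- The word length of the powers of `g` stays at bounded distance from a linear function. -/
def Straight {G : Type*} [Group G] (S : Finset G) (g : G) : Prop :=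
  ∃ τ C : ℝ, ∀ j : ℕ, |(wl S (g ^ j) : ℝ) - τ * j| ≤ C

/-- A torsion free group with two maps to the integers such that the first is onto, its kernel is
abelian to first order, the second does not vanish on this kernel, and the common kernel consists
of roots of the commutator subgroup. -/
structure Filiform {H : Type*} [Group H] (φ ψ : H →* Multiplicative ℤ) : Prop where
  tf : ∀ g : H, IsOfFinOrder g → g = 1
  onto : Function.Surjective φ
  ideal : ∀ j : ℕ, ∀ x ∈ φ.ker, ∀ y ∈ φ.ker, y ∈ (⊤ : Subgroup H).lowerCentralSeries j →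
    ∃ n : ℕ, 0 < n ∧ (x * y * x⁻¹ * y⁻¹) ^ n ∈ (⊤ : Subgroup H).lowerCentralSeries (j + 2)
  ind : ∃ b, φ b = 1 ∧ ψ b ≠ 1
  rank : ∀ x, φ x = 1 → ψ x = 1 → ∃ m : ℕ, 0 < m ∧ x ^ m ∈ commutator H

end Pool.Agent.MP_b3b911_al
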