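import Pool.Agent.MP_b3b911_al.Dich.St2

open Finset MeasureTheory

noncomputable section

namespace Pool.Agent.MP_b3b911_al.Dich

open Fil

universe u

section


section
variable {N : Type u} [Group N] {len : N → ℝ} {ω C : ℝ}

theorem mono_PCS {C' : ℝ} {l : List N} {τ τ' σ σ' : ℝ} (h1 : C ≤ C') (h2 : τ ≤ τ') (h3 : σ ≤ σ')
    (h : Pcs len ω C l τ σ) : Pcs len ω C' l τ' σ' := by
  obtain ⟨L, a, b, c, d⟩ := h
  exact ⟨L, a, b.trans h3, c.trans h2, fun p hp =>
    ⟨(d p hp).1, (d p hp).2.1, fun v hv => ((d p hp).2.2 v hv).trans (by linarith)⟩⟩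

theorem app_PCS {l l' : List N} {τ τ' σ σ' : ℝ} (h : Pcs len ω C l τ σ)
    (h' : Pcs len ω C l' τ' σ') : Pcs len ω C (l ++ l') (τ + τ') (σ + σ') := by
  obtain ⟨L, a, b, c, d⟩ := h
  obtain ⟨L', a', b', c', d'⟩ := h'
  refine ⟨L ++ L', by simp [a, a'], ?_, ?_, fun p hp => (List.mem_append.1 hp).elim (d p) (d' p)⟩
  · rw [List.length_append, Nat.cast_add]
    exact add_le_add b b'
  · rw [List.map_append, List.sum_append]
    exact add_le_add c c'

theorem nil_PCS : Pcs len ω C [] 0 0 := ⟨[], rfl, by simp, by simp, by simp⟩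

theorem one_PCS {p : List N × ℝ} {w : List N} (hw : w <:+: p.1)
    (h : 0 ≤ p.2 ∧ ω ≤ p.2 ∧ ∀ v, v <:+: p.1 → len v.prod ≤ p.2 * v.length + C) :
    Pcs len ω C w (p.2 * w.length) 1 :=
  ⟨[(w, p.2)], by simp, by simp, by simp, fun q hq => by
    rw [List.mem_singleton.1 hq]
    exact ⟨h.1, h.2.1, fun v hv => h.2.2 v (hv.trans hw)⟩⟩

theorem split_PCS (L : List (List N × ℝ))
    (h : ∀ p ∈ L, 0 ≤ p.2 ∧ ω ≤ p.2 ∧ ∀ v, v <:+: p.1 → len v.prod ≤ p.2 * v.length + C)
    (l l' : List N) (e : (L.map Prod.fst).flatten = l ++ l') : ∃ τ τ' σ σ' : ℝ,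
    Pcs len ω C l τ σ ∧ Pcs len ω C l' τ' σ' ∧
      τ + τ' ≤ (L.map fun p : List N × ℝ => p.2 * (p.1.length : ℝ)).sum ∧
      σ + σ' ≤ L.length + 1 := by
  induction L generalizing l with
  | nil =>
    obtain ⟨rfl, rfl⟩ := List.append_eq_nil_iff.1 e.symm
    exact ⟨0, 0, 0, 0, nil_PCS, nil_PCS, by simp, by simp⟩
  | cons p L ih =>
    have hp := h p List.mem_cons_self
    have hL := fun q hq => h q (List.mem_cons_of_mem p hq)
    rw [List.map_cons, List.flatten_cons] at e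
    rw [List.map_cons, List.sum_cons, List.length_cons, Nat.cast_succ]
    rcases List.append_eq_append_iff.1 e with ⟨a, rfl, e2⟩ | ⟨b, e1, rfl⟩
    · obtain ⟨τ, τ', σ, σ', a1, a2, a3, a4⟩ := ih hL a e2
      exact ⟨_, _, _, _, app_PCS (one_PCS List.infix_rfl hp) a1, a2, by linarith, by linarith⟩
    · refine ⟨_, _, _, _, one_PCS (e1 ▸ (List.prefix_append l b).isInfix) hp,
        app_PCS (one_PCS (e1 ▸ (List.suffix_append l b).isInfix) hp) ⟨L, rfl, le_rfl, le_rfl, hL⟩,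
        ?_, by linarith⟩
      rw [e1, List.length_append, Nat.cast_add]
      linarith

variable {T : Finset N} {C0 : ℝ}

theorem let_PCS (h : Len T len C0) {x : N} (hx : x ∈ T) : len x ≤ 1 + C0 := by
  simpa using h.pow x hx 1

theorem wrd_PCS (h : Len T len C0) (l : List N) (hl : ∀ x ∈ l, x ∈ T) :
    len l.prod ≤ (C0 + 1) * l.length := by
  induction l with
  | nil => simp [h.one]
  | cons x l ih =>
    have := h.mul x l.prod
    have := let_PCS h (hl x List.mem_cons_self)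
    have := ih fun y hy => hl y (List.mem_cons_of_mem x hy)
    rw [List.prod_cons, List.length_cons, Nat.cast_succ]
    linarith

theorem pc_PCS (h : Len T len C0) {p : List N} {ρ : ℝ}
    (hp : ∀ v, v <:+: p → len v.prod ≤ ρ * v.length + C) {v v' : List N} (s : v.Sublist v')
    (hT : ∀ x ∈ v', x ∈ T) (a : List N) (ha : a ++ v <:+: p) :
    len (a ++ v').prod ≤ ρ * (a.length + v.length) + C + (C + C0 + 1) * (v'.length - v.length) := by
  induction s generalizing a with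
  | slnil => simpa using hp _ ha
  | @cons v v' x _ ih =>
    have a1 := hp a ((List.prefix_append a v).isInfix.trans ha)
    have a2 := ih (fun y hy => hT y (List.mem_cons_of_mem x hy)) []
      ((List.suffix_append a v).isInfix.trans ha)
    have a3 := let_PCS h (hT x List.mem_cons_self)
    have a4 := h.mul a.prod (x * v'.prod)
    have a5 := h.mul x v'.prod
    rw [List.nil_append, List.length_nil, Nat.cast_zero] at a2
    rw [List.prod_append, List.prod_cons, List.length_cons, Nat.cast_succ]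
    linarith
  | @cons_cons v v' x _ ih =>
    have := ih (fun y hy => hT y (List.mem_cons_of_mem x hy)) (a ++ [x]) (by simpa using ha)
    simp only [List.append_assoc, List.singleton_append, List.length_append, List.length_singleton,
      Nat.cast_add, Nat.cast_one] at this
    simp only [List.length_cons, Nat.cast_succ]
    linarith

theorem sub_PCS (h : Len T len C0) (hC : 0 ≤ C) (L : List (List N × ℝ))
    (hL : ∀ p ∈ L, ∀ v, v <:+: p.1 → len v.prod ≤ p.2 * v.length + C) (l' : List N)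
    (s : (L.map Prod.fst).flatten.Sublist l') (hT : ∀ x ∈ l', x ∈ T) :
    len l'.prod ≤ (L.map fun p : List N × ℝ => p.2 * (p.1.length : ℝ)).sum + C * L.length +
      (C + C0 + 1) * (l'.length - (L.map Prod.fst).flatten.length) := by
  induction L generalizing l' with
  | nil =>
    have := wrd_PCS h l' hT
    have := mul_nonneg hC (Nat.cast_nonneg (α := ℝ) l'.length)
    simp only [List.map_nil, List.sum_nil, List.length_nil, List.flatten_nil, Nat.cast_zero]
    linarith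
  | cons p L ih =>
    rw [List.map_cons, List.flatten_cons] at s
    obtain ⟨l₁, l₂, rfl, s1, s2⟩ := List.append_sublist_iff.1 s
    have a1 := pc_PCS h (hL p List.mem_cons_self) s1
      (fun x hx => hT x (List.mem_append_left _ hx)) [] List.infix_rfl
    have a2 := ih (fun q hq => hL q (List.mem_cons_of_mem p hq)) l₂ s2
      fun x hx => hT x (List.mem_append_right _ hx)
    have a3 := h.mul l₁.prod l₂.prod
    rw [List.nil_append, List.length_nil, Nat.cast_zero] at a1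
    rw [List.prod_append, List.map_cons, List.map_cons, List.flatten_cons, List.sum_cons,
      List.length_cons, List.length_append, List.length_append]
    push_cast
    linarith

theorem syl_PCS (h : Len T len C0) (hω : ω ≤ 1) (L : List (N × ℕ)) (hL : ∀ p ∈ L, p.1 ∈ T) :
    Pcs len ω C0 (syl L) (syl L).length L.length := by
  induction L with
  | nil => simpa [syl] using nil_PCS
  | cons p L ih =>
    have a := one_PCS (len := len) (ω := ω) (C := C0) (p := (List.replicate p.2 p.1, 1))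
      List.infix_rfl ⟨zero_le_one, hω, fun v hv => by
        have e : v = List.replicate v.length p.1 :=
          List.eq_replicate_of_mem fun y hy => List.eq_of_mem_replicate (hv.subset hy)
        rw [e, List.prod_replicate, List.length_replicate, one_mul]
        exact h.pow _ (hL p List.mem_cons_self) _⟩
    have b := app_PCS a (ih fun q hq => hL q (List.mem_cons_of_mem p hq))
    have e : syl (p :: L) = List.replicate p.2 p.1 ++ syl L := by simp [syl]
    rw [e, List.length_append, List.length_cons]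
    push_cast
    exact mono_PCS le_rfl (by simp) (by linarith) b

theorem low_PCS (L : List (List N × ℝ)) (hL : ∀ p ∈ L, ω ≤ p.2) :
    ω * (L.map Prod.fst).flatten.length ≤
      (L.map fun p : List N × ℝ => p.2 * (p.1.length : ℝ)).sum := by
  induction L with
  | nil => simp
  | cons p L ih =>
    have a := ih fun q hq => hL q (List.mem_cons_of_mem p hq)
    have b := mul_le_mul_of_nonneg_right (hL p List.mem_cons_self)
      (Nat.cast_nonneg (α := ℝ) p.1.length)
    rw [List.map_cons, List.flatten_cons, List.map_cons, List.sum_cons, List.length_append]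
    push_cast
    linarith

end

theorem PCS_pf : PCS_st.{u} := by
  intro N _ T len C0 ω h hω
  refine ⟨fun C C' l τ τ' σ σ' => mono_PCS, fun C l l' τ τ' σ σ' => app_PCS, ?_,
    syl_PCS h hω, ?_, ?_⟩
  · rintro C l l' v τ τ' σ σ' ⟨L, a, b, c, d⟩ hv
    obtain ⟨τ₁, τ₂, σ₁, σ₂, a1, a2, a3, a4⟩ := split_PCS L d l l' a
    exact mono_PCS le_rfl (by linarith) (by linarith) (app_PCS (app_PCS a1 hv) a2)
  · rintro C l τ σ ⟨L, rfl, -, c, d⟩
    exact (low_PCS L fun p hp => (d p hp).2.1).trans c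
  · rintro C l l' τ σ hC ⟨L, rfl, b, c, d⟩ s hT
    have := sub_PCS h hC L (fun p hp => (d p hp).2.2) l' s hT
    have := mul_le_mul_of_nonneg_left b hC
    linarith

end

section


theorem isum_NEA {α : Type u} (a : α → ℤ) (β : α → ℝ) (e : ℕ) (d : α) (l : List α) : ∀ y : ℤ,
    Isum a β e y l = ∑ i ∈ range l.length,
      β (l.getD i d) * ((y + ∑ i' ∈ range i, a (l.getD i' d) : ℤ) : ℝ) ^ e := by
  induction l with
  | nil => intro y; simp [Isum]
  | cons s l ih =>
    intro y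
    rw [Isum, ih, List.length_cons, sum_range_succ', add_comm]
    refine congrArg₂ _ (sum_congr rfl fun i _ => ?_) (by simp)
    rw [sum_range_succ']
    simp only [List.getD_cons_succ, List.getD_cons_zero]
    rw [add_assoc y, add_comm (a s)]

theorem NEA_pf : NEA_st.{u} := by
  intro N _ T J _ F A
  have h1 : ∀ l : List N, F.P.a l.prod = (l.map F.P.a).sum ∧ F.P.β l.prod = (l.map F.P.β).sum := by
    intro l
    induction l with
    | nil => simp [F.a_one, F.β_one]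
    | cons s l ih => simp [F.a_mul, F.β_mul, ih.1, ih.2]
  refine ⟨h1, fun l e => ?_, fun l i hi => ?_, ?_⟩
  · rw [isum_NEA _ _ _ 1]
    simp only [Itm.mom, Itm.h, zero_add, one_mul]
  · induction i with
    | zero => simp [F.a_one, Itm.h]
    | succ i ih =>
      rw [List.prod_take_succ l i hi, F.a_mul, ih (by omega), Itm.h_succ]
      exact congrArg (fun x => _ + F.P.a x) (List.getD_eq_getElem l 1 hi).symm
  obtain ⟨C, hC, h⟩ := F.Z.sum_est
  have hM : 1 ≤ max A 1 := le_max_right _ _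
  have hp : 1 ≤ max A 1 ^ F.r := one_le_pow₀ hM
  refine ⟨1 + C * max A 1 ^ F.r, le_add_of_nonneg_right (by positivity), fun K l hK hl hA => ?_⟩
  have ea : (fun s => F.Z.co s F.Z.j0) = F.P.a := funext fun s => (F.ha s).symm
  constructor
  · beta_reduce
    rw [← F.ha, (h1 l).1, sub_self, abs_zero]
    positivity
  · intro j hj
    have h2 := h (max A 1 * K) (one_le_mul_of_one_le_of_one_le hM hK) l ((F.word l).2 hl)
      (hA.trans (mul_le_mul_of_nonneg_right (le_max_left _ _) (by linarith))) j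
    have h3 : ∀ (e : ℕ) (l : List N), (∀ x ∈ l, x ∈ T) → ∀ y : ℤ,
        Isum F.P.a (fun s => F.Z.c s j) e y l = F.κ j * Isum F.P.a F.P.β e y l := by
      intro e l
      induction l with
      | nil => intro _ y; simp [Isum]
      | cons s l ih =>
        intro hl y
        rw [Isum, Isum, ih (fun x hx => hl x (List.mem_cons_of_mem _ hx)),
          F.sh.cκ s (hl s List.mem_cons_self) j hj, F.hβ]
        ring
    rw [ea, h3 _ l hl, mul_pow] at h2
    refine h2.trans ?_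
    have h4 : max A 1 ^ (F.Z.W j - 1) ≤ max A 1 ^ F.r := pow_le_pow_right₀ hM (F.W_lt j).le
    have h5 : 0 ≤ K ^ (F.Z.W j - 1) := by positivity
    rw [← mul_assoc]
    refine mul_le_mul_of_nonneg_right ?_ h5
    linarith [mul_le_mul_of_nonneg_left h4 hC]

end

section


theorem add_DSC {N : Type u} [Group N] {M : Type} [AddCommMonoid M] (f : N → M) (h1 : f 1 = 0)
    (hm : ∀ g h, f (g * h) = f g + f h) (y : ℕ → N) (i m : ℕ) :
    f ((List.range' i m).map y).prod = ∑ j ∈ Ico i (i + m), f (y j) := by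
  induction m with
  | zero => simp [h1]
  | succ m ih =>
    rw [List.range'_1_concat, List.map_append, List.prod_append, hm, ih, ← add_assoc,
      sum_Ico_succ_top (Nat.le_add_right i m)]
    simp

theorem add0_DSC {N : Type u} [Group N] {M : Type} [AddCommMonoid M] (f : N → M) (h1 : f 1 = 0)
    (hm : ∀ g h, f (g * h) = f g + f h) (y : ℕ → N) (m : ℕ) :
    f ((List.range m).map y).prod = ∑ j ∈ range m, f (y j) := by
  rw [List.range_eq_range', add_DSC f h1 hm, zero_add, range_eq_Ico]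

theorem sum_DSC {α : Type u} (a : α → ℤ) (y : ℕ → α) (n : ℕ) :
    (((List.range n).map y).map a).sum = ∑ i ∈ range n, a (y i) := by
  induction n with
  | zero => simp
  | succ n ih => rw [List.range_succ, List.map_append, List.map_append, List.sum_append, ih,
      sum_range_succ]; simp

theorem isum_DSC {α : Type u} (a : α → ℤ) (c : α → ℝ) (e : ℕ) (y : ℕ → α) (n : ℕ) :
    Isum a c e 0 ((List.range n).map y) =
      ∑ i ∈ range n, c (y i) * ((∑ j ∈ range i, a (y j) : ℤ) : ℝ) ^ e := by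
  induction n with
  | zero => simp [Isum]
  | succ n ih => rw [List.range_succ, List.map_append, List.map_singleton, CSum_snoc, ih,
      sum_range_succ, zero_add, sum_DSC]

theorem root_DSC {N : Type u} [Group N] {T : Finset N} {J : Type} [Fintype J] (F : Fd T J)
    {x y : N} {w : ℝ} (h : ∃ m : ℕ, y ^ m = x ∧ m * w = 1) :
    (F.P.a y : ℝ) = w * F.P.a x ∧ F.P.β y = w * F.P.β x := by
  obtain ⟨m, rfl, h⟩ := h
  rw [F.a_pow, F.β_pow]
  push_cast
  rw [← mul_assoc, ← mul_assoc, mul_comm w, h, one_mul, one_mul]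
  exact ⟨rfl, rfl⟩

theorem DSC_pf (h : NEA_st.{u}) : DSC_st.{u} := by
  intro N _ T J _ F len C0 w0 R0 hw0 hE
  have hθ := F.P.θ_pos
  have hm : ∀ {s}, s ∈ T → s ∈ F.P.T := fun hs => by rwa [F.hT]
  have hlen : ∀ (n : ℕ) (w : ℕ → ℝ) (k : ℝ), (∀ i < n, w0 ≤ w i) → ∑ i ∈ range n, w i ≤ k →
      (n : ℝ) ≤ k / w0 := fun n w k h1 h2 => by
    rw [le_div_iff₀ hw0]
    refine le_trans ?_ h2
    simpa using card_nsmul_le_sum (range n) w w0 fun i hi => h1 i (mem_range.1 hi)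
  have hu : ∀ (n : ℕ) (y : ℕ → N) (ρ : N), (∀ i < n, y i ∈ T) → ρ ∈ T →
      ∀ z ∈ (List.range n).map y ++ [ρ], z ∈ T := fun n y ρ h1 h2 z hz => by
    rcases List.mem_append.1 hz with hz | hz
    · obtain ⟨i, hi, rfl⟩ := List.mem_map.1 hz
      exact h1 i (List.mem_range.1 hi)
    · rw [List.mem_singleton.1 hz]; exact h2
  have hf : ∀ (i m : ℕ) (y : ℕ → N), F.P.β ((List.range' i m).map y).prod +
      F.P.lam * F.P.a ((List.range' i m).map y).prod =
      ∑ j ∈ Ico i (i + m), (F.P.β (y j) + F.P.lam * F.P.a (y j)) := fun i m y =>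
    add_DSC (fun g => F.P.β g + F.P.lam * F.P.a g) (by simp [F.a_one, F.β_one])
      (fun g h => by rw [F.a_mul, F.β_mul]; push_cast; ring) y i m
  refine ⟨fun k => (ball_finite T (k / w0 + 1)).subset fun g hg => ?_, ⟨F.P.θ, fun g => ?_⟩, ?_⟩
  · obtain ⟨n, x, y, w, lab, ρ, h1, h2, h3, h4, -⟩ := hE g
    refine ⟨(List.range n).map y ++ [ρ], ?_,
      (F.word _).2 (hu n y ρ (fun i hi => (h1 i hi).2.1) h2), by simpa using h3⟩
    simpa using hlen n w k (fun i hi => (h1 i hi).2.2.1) (h4.trans hg)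
  · obtain ⟨n, x, y, w, lab, ρ, h1, h2, h3, h4, -⟩ := hE g
    have h5 := hf 0 n y
    rw [← List.range_eq_range', zero_add, ← range_eq_Ico] at h5
    have h6 : ∑ j ∈ range n, (F.P.β (y j) + F.P.lam * F.P.a (y j)) ≤ ∑ j ∈ range n, F.P.θ * w j := by
      refine sum_le_sum fun j hj => ?_
      obtain ⟨a1, -, a2, -, a3⟩ := h1 j (mem_range.1 hj)
      obtain ⟨e1, e2⟩ := root_DSC F a3
      have := mul_le_mul_of_nonneg_left (F.P.up _ (hm a1)) (hw0.le.trans a2)
      rw [e1, e2]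
      linarith
    rw [← mul_sum] at h6
    have h7 := F.P.up ρ (hm h2)
    have h8 := mul_le_mul_of_nonneg_left h4 hθ.le
    have h9 := congrArg F.P.β h3
    have h10 := congrArg (fun g => (F.P.a g : ℝ)) h3
    simp only [F.a_mul, F.β_mul, Int.cast_add] at h9 h10
    rw [← h9, ← h10]
    linarith
  obtain ⟨-, -, -, C1, hC1, hN⟩ := h N T J F (1 / w0 + 1)
  obtain ⟨B, hB1, hB⟩ := F.P.bd
  obtain ⟨κ, hκ1, hκ⟩ := F.kbd
  have hB1' : (1 : ℝ) ≤ B := by exact_mod_cast hB1
  have hR : (B : ℝ) ≤ (B : ℝ) ^ (F.r + 1) := le_self_pow₀ hB1' (by omega)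
  have hR' : (B : ℝ) ^ (F.r + 1) ≤ κ * (B : ℝ) ^ (F.r + 1) :=
    le_mul_of_one_le_left (by positivity) hκ1
  have hA : 0 < 1 / w0 + 1 := by positivity
  refine ⟨C1 + 0 + κ * (B : ℝ) ^ (F.r + 1) + (1 / w0 + 1), by linarith, fun K g hK hg => ?_⟩
  obtain ⟨n, x, y, w, lab, ρ, h1, h2, h3, h4, h5, h6⟩ := hE g
  have hρ := hB ρ (hm h2)
  have e1 := fun i hi => (root_DSC F (h1 i hi).2.2.2.2).1
  have e2 := fun i hi => (root_DSC F (h1 i hi).2.2.2.2).2
  have hT := hu n y ρ (fun i hi => (h1 i hi).2.1) h2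
  have hL : ((((List.range n).map y ++ [ρ]).length : ℕ) : ℝ) ≤ (1 / w0 + 1) * K := by
    have := hlen n w K (fun i hi => (h1 i hi).2.2.1) (h4.trans hg)
    rw [add_mul, one_div_mul_eq_div]
    simp only [List.length_append, List.length_map, List.length_range, List.length_singleton]
    push_cast
    linarith
  have hP : ((List.range n).map y ++ [ρ]).prod = g := by simpa using h3
  let I : Itm N := ⟨n, x, w, fun i => F.P.a (y i)⟩
  have hh : ∀ i, I.h i = ∑ j ∈ range i, F.P.a (y j) := fun _ => rfl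
  have hn : |(I.h n : ℝ)| ≤ B * K := by
    rw [hh, Int.cast_sum]
    refine (abs_sum_le_sum_abs _ _).trans (le_trans (sum_le_sum (g := fun i => B * w i)
      fun i hi => ?_) ?_)
    · obtain ⟨a1, -, a2, -⟩ := h1 i (mem_range.1 hi)
      rw [e1 i (mem_range.1 hi), abs_mul, abs_of_nonneg (hw0.le.trans a2), mul_comm]
      exact mul_le_mul_of_nonneg_right (hB _ (hm a1)).2.1 (hw0.le.trans a2)
    · rw [← mul_sum]
      exact mul_le_mul_of_nonneg_left (h4.trans hg) (by positivity)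
  refine ⟨I, lab, fun i hi => ⟨hm (h1 i hi).1, hw0.le.trans (h1 i hi).2.2.1,
    (h1 i hi).2.2.2.1, e1 i hi⟩, fun i hi => (h1 i hi).2.2.1, h4, ?_, h5,
    ⟨_, (F.word _).2 hT, hL.trans (mul_le_mul_of_nonneg_right (by linarith) (by linarith)), hP,
      fun i => ?_⟩, fun hre i i' hi hi' hl he => ?_⟩
  · have c1 := hN K _ hK hT hL
    rw [hP] at c1
    refine (c1.move (R1 := 0) (R2 := (B : ℝ) ^ (F.r + 1)) hκ hκ1 (by linarith) (fun j => by simp)
      ?_ fun e he => ?_).mono (by linarith) (by linarith)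
    · rw [List.map_append, List.sum_append, sum_DSC, ← hh]
      simpa [I] using hρ.2.1.trans hR
    · have c2 : I.mom F.P.β e = Isum F.P.a F.P.β e 0 ((List.range n).map y) := by
        rw [isum_DSC]
        exact sum_congr rfl fun i hi => by rw [e2 i (mem_range.1 hi)]; rfl
      rw [CSum_snoc, c2, add_sub_cancel_left, zero_add, sum_DSC, ← hh, abs_mul, abs_pow]
      calc _ ≤ B * (B * K) ^ e :=
            mul_le_mul hρ.2.2 (pow_le_pow_left₀ (abs_nonneg _) hn e) (by positivity) (by positivity)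
        _ = (B : ℝ) ^ (e + 1) * K ^ e := by ring
        _ ≤ _ := mul_le_mul_of_nonneg_right (pow_le_pow_right₀ hB1' (by omega)) (by positivity)
  · rw [← F.ha]
    rcases le_or_gt i n with hi | hi
    · refine ⟨i, hi, ?_⟩
      rw [List.take_append_of_le_length (by simpa using hi), ← List.map_take, List.take_range,
        min_eq_left hi, add0_DSC F.P.a F.a_one F.a_mul, hh, sub_self, Int.cast_zero, abs_zero]
      linarith
    · refine ⟨n, le_rfl, ?_⟩
      rw [List.take_of_length_le (by simpa using hi), List.prod_append, List.prod_singleton,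
        F.a_mul, add0_DSC F.P.a F.a_one F.a_mul, hh, add_sub_cancel_left]
      linarith [hρ.2.1]
  · by_contra hc
    have ht : ∀ j ∈ Ico i i', F.P.β (x j) + F.P.lam * F.P.a (x j) = F.P.θ := fun j hj => by
      by_contra h7
      exact hc ⟨j, (mem_Ico.1 hj).1, (mem_Ico.1 hj).2, h7⟩
    have hlt : ∀ j ∈ Ico i i', j < n := fun j hj => (mem_Ico.1 hj).2.trans_le hi'
    have c1 : F.P.a ((List.range' i (i' - i)).map y).prod = 0 := by
      rw [add_DSC F.P.a F.a_one F.a_mul, Nat.add_sub_cancel' hi.le, sum_Ico_eq_sub _ hi.le, ← hh,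
        ← hh, he, sub_self]
    have c2 := hf i (i' - i) y
    rw [c1, Int.cast_zero, mul_zero, add_zero, Nat.add_sub_cancel' hi.le,
      sum_congr rfl (g := fun j => w j * F.P.θ) fun j hj => by
        rw [e1 j (hlt j hj), e2 j (hlt j hj), ← ht j hj]; ring, ← sum_mul] at c2
    refine hre ⟨_, c1, ?_, C0, fun j => ?_⟩
    · rw [c2]
      exact mul_pos (sum_pos (fun j hj => hw0.trans_le (h1 j (hlt j hj)).2.2.1)
        (nonempty_Ico.2 hi)) hθ
    · rw [c2, ← mul_assoc, mul_div_cancel_right₀ _ hθ.ne']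
      exact h6 i i' hi.le hi' hl j

end

section


section
variable {N : Type u}

theorem sum_VPW (a : N → ℤ) (w : List N) (h : (w.map a).sum = 0) (j : ℕ) :
    ((List.replicate j w).flatten.map a).sum = 0 := by
  induction j with
  | zero => simp
  | succ j ih => rw [List.replicate_succ, List.flatten_cons, List.map_append, List.sum_append, h, ih,
      add_zero]

theorem rep_VPW (a : N → ℤ) (β : N → ℝ) (e : ℕ) (y : ℤ) (w : List N) (h : (w.map a).sum = 0)
    (j : ℕ) : Isum a β e y (List.replicate j w).flatten = j * Isum a β e y w := by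
  induction j with
  | zero => simp [Isum]
  | succ j ih =>
    rw [List.replicate_succ, List.flatten_cons, isum_app, h, add_zero, ih]
    push_cast
    ring

theorem one_VPW (a : N → ℤ) (β : N → ℝ) (e : ℕ) (y B D M : ℝ) (hB : 0 ≤ B) (hM : |y| + D ≤ M)
    (l : List N) (hl : ∀ s ∈ l, |(a s : ℝ)| ≤ B ∧ |β s| ≤ B) (z : ℤ)
    (hz : |z - y| + B * l.length ≤ D) :
    M * |Isum a β e z l - (l.map β).sum * y ^ e| ≤ l.length * (B * (e * D * M ^ e)) := by
  induction l generalizing z with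
  | nil => simp [Isum]
  | cons s l ih =>
    obtain ⟨h1, h2⟩ := hl s (by simp)
    rw [List.length_cons] at hz ⊢
    push_cast at hz ⊢
    have h3 : 0 ≤ B * l.length := by positivity
    have h4 : |(z : ℝ) - y| ≤ D := by linarith
    have hD : 0 ≤ D := (abs_nonneg _).trans h4
    have h5 : 0 ≤ M := by linarith [abs_nonneg y]
    have h6 := ih (fun t ht => hl t (List.mem_cons_of_mem _ ht)) (z + a s) (by
      have := abs_add_le ((z : ℝ) - y) (a s)
      push_cast
      rw [add_sub_right_comm]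
      linarith)
    have h7 := pow_dif (x := z) (y := y) (M := M)
      (by linarith [abs_sub_abs_le_abs_sub (z : ℝ) y]) (by linarith) e
    have h8 : (e : ℝ) * |z - y| * M ^ e ≤ e * D * M ^ e := by gcongr
    have h9 : M * |β s * ((z : ℝ) ^ e - y ^ e)| ≤ B * (e * D * M ^ e) := by
      rw [abs_mul, mul_left_comm]
      exact mul_le_mul h2 (h7.trans h8) (by positivity) hB
    have h10 := mul_le_mul_of_nonneg_left (abs_add_le (β s * ((z : ℝ) ^ e - y ^ e))
      (Isum a β e (z + a s) l - (l.map β).sum * y ^ e)) h5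
    have e1 : Isum a β e z (s :: l) - ((s :: l).map β).sum * y ^ e =
        β s * ((z : ℝ) ^ e - y ^ e) + (Isum a β e (z + a s) l - (l.map β).sum * y ^ e) := by
      simp only [Isum, List.map_cons, List.sum_cons]
      ring
    rw [e1]
    linarith

variable [Group N]

theorem pre_VPW (w : List N) (j : ℕ) (p : List N) (h : p <+: (List.replicate j w).flatten) :
    ∃ (i : ℕ) (q : List N), q <:+: w ∧ p.prod = w.prod ^ i * q.prod ∧ i * w.length ≤ p.length := by
  induction j generalizing p with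
  | zero => exact ⟨0, [], List.nil_infix, by simp [List.prefix_nil.1 h], by simp⟩
  | succ j ih =>
    obtain ⟨t, ht⟩ := h
    rw [List.replicate_succ, List.flatten_cons, List.append_eq_append_iff] at ht
    rcases ht with ⟨c, h1, -⟩ | ⟨c, rfl, h2⟩
    · exact ⟨0, p, List.IsPrefix.isInfix ⟨c, h1.symm⟩, by simp, by simp⟩
    · obtain ⟨i, q, k1, k2, k3⟩ := ih c ⟨t, h2.symm⟩
      refine ⟨i + 1, q, k1, by rw [List.prod_append, k2, pow_succ', mul_assoc], ?_⟩
      rw [List.length_append]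
      linarith

theorem inf_VPW (w : List N) (j : ℕ) (p : List N) (h : p <:+: (List.replicate j w).flatten) :
    ∃ (i : ℕ) (q q' : List N), q <:+: w ∧ q' <:+: w ∧ p.prod = q.prod * w.prod ^ i * q'.prod ∧
      i * w.length ≤ p.length := by
  induction j with
  | zero => exact ⟨0, [], [], List.nil_infix, List.nil_infix, by simp [List.infix_nil.1 h], by simp⟩
  | succ j ih =>
    rw [List.replicate_succ, List.flatten_cons, List.infix_append_iff] at h
    rcases h with h | h | ⟨l₁, l₂, rfl, h1, h2⟩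
    · exact ⟨0, p, [], h, List.nil_infix, by simp, by simp⟩
    · exact ih h
    · obtain ⟨i, q, k1, k2, k3⟩ := pre_VPW w j l₂ h2
      refine ⟨i, l₁, q, h1.isInfix, k1, by rw [List.prod_append, k2, mul_assoc], ?_⟩
      rw [List.length_append]
      omega

theorem wl_VPW {T : Finset N} {len : N → ℝ} {C0 : ℝ} (h : Len T len C0) (l : List N)
    (hl : ∀ x ∈ l, x ∈ T) : len l.prod ≤ l.length * (1 + C0) := by
  induction l with
  | nil => simp [h.one]
  | cons s l ih =>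
    have h1 := h.pow s (hl s (by simp)) 1
    have h2 := ih fun x hx => hl x (List.mem_cons_of_mem _ hx)
    have h3 := h.mul s l.prod
    rw [pow_one] at h1
    rw [List.prod_cons, List.length_cons]
    push_cast at h1 ⊢
    linarith

theorem main_VPW {T : Finset N} {J : Type} [Fintype J] (F : Fd T J) (len : N → ℝ)
    (C0 ω C1 σ b B A M C : ℝ) (n : ℕ) (w : List N) (hL : Len T len C0) (hw : ∀ x ∈ w, x ∈ T)
    (hn : w.length = n) (hn1 : 1 ≤ n) (ha : (w.map F.P.a).sum = 0)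
    (hβ : (w.map F.P.β).sum = σ * b) (hσ : |σ| = 1) (hb : 0 < b)
    (h1 : ∀ j : ℕ, len (w.prod ^ j) ≤ j * b / F.P.θ + C1) (hω : ω * n ≤ b / F.P.θ)
    (hB : 1 ≤ B) (hB' : ∀ s ∈ T, |(F.P.a s : ℝ)| ≤ B ∧ |F.P.β s| ≤ B) (hA : 0 ≤ A)
    (hM : M = A + B * n) (c1 : 1 ≤ C) (c2 : A / b * n ≤ C) (c3 : 2 * (n * (1 + C0)) + C1 ≤ C)
    (c4 : (n * (B * (F.r * (B * n))) / b + b) * M ^ F.r ≤ C) (K R ν : ℝ) (hK : 1 ≤ K)
    (hR : 1 ≤ R) (h0 : 0 ≤ ν) (hν : ν ≤ A * K) : ∃ v, F.Vp len ω A C K R (σ * ν) v := by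
  have hθ := F.P.θ_pos
  have hn' : (1 : ℝ) ≤ n := by exact_mod_cast hn1
  obtain ⟨j, j1, j2⟩ : ∃ j : ℕ, j * b ≤ ν ∧ ν ≤ j * b + b :=
    ⟨⌊ν / b⌋₊, (le_div_iff₀ hb).1 (Nat.floor_le (by positivity)), by
      have := (div_lt_iff₀ hb).1 (Nat.lt_floor_add_one (ν / b))
      linarith⟩
  have j3 : (j : ℝ) ≤ A / b * K := by
    rw [div_mul_eq_mul_div, le_div_iff₀ hb]
    linarith
  have hlen : ((List.replicate j w).flatten.length : ℝ) = j * n := by simp [hn]
  have hCR : C ≤ C * R := le_mul_of_one_le_right (by linarith) hR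
  refine ⟨(List.replicate j w).flatten, fun x hx => ?_, sum_VPW _ w ha j, ?_,
    ⟨[((List.replicate j w).flatten, b / F.P.θ / n)], by simp, by simpa using c1.trans hCR, ?_,
      fun p hp => ?_⟩, fun y hy e he => ?_⟩
  · obtain ⟨l, hl, hx⟩ := List.mem_flatten.1 hx
    exact hw x (List.eq_of_mem_replicate hl ▸ hx)
  · rw [hlen]
    calc (j : ℝ) * n ≤ A / b * K * n := by gcongr
      _ = A / b * n * K := by ring
      _ ≤ C * K := by gcongr
  · simp only [List.map_cons, List.map_nil, List.sum_cons, List.sum_nil, add_zero]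
    rw [hlen, abs_mul, hσ, one_mul, abs_of_nonneg h0]
    calc b / F.P.θ / n * (j * n) = j * b / F.P.θ := by field_simp
      _ ≤ ν / F.P.θ := by gcongr
      _ ≤ _ := by linarith
  · rw [List.mem_singleton.1 hp]
    refine ⟨by positivity, (le_div_iff₀ (by linarith)).2 hω, fun v hv => ?_⟩
    obtain ⟨i, q, q', k1, k2, k3, k4⟩ := inf_VPW w j v hv
    have f : ∀ q : List N, q <:+: w → len q.prod ≤ n * (1 + C0) := fun q hq =>
      (wl_VPW hL q fun x hx => hw x (hq.subset hx)).trans (mul_le_mul_of_nonneg_right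
        (by exact_mod_cast hn ▸ hq.length_le) (by linarith [hL.nn]))
    have k5 : (i : ℝ) * n ≤ v.length := by exact_mod_cast hn ▸ k4
    have k6 : i * b / F.P.θ ≤ b / F.P.θ / n * v.length := by
      calc i * b / F.P.θ = b / F.P.θ / n * (i * n) := by field_simp
        _ ≤ _ := by gcongr
    have := hL.mul (q.prod * w.prod ^ i) q'.prod
    have := hL.mul q.prod (w.prod ^ i)
    have := f q k1
    have := f q' k2
    have := h1 i
    rw [k3]
    dsimp only
    linarith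
  · have b1 : 1 ≤ B * n := one_le_mul_of_one_le_of_one_le hB hn'
    have hM1 : 1 ≤ M := by linarith
    have hAM : A ≤ M := by linarith
    have k1 := one_VPW F.P.a F.P.β e y B (B * n) (M * K) (by linarith) (by
      have : B * n ≤ B * n * K := le_mul_of_one_le_right (by linarith) hK
      rw [hM, add_mul]
      linarith) w (fun s hs => hB' s (hw s hs)) y (by simp [hn])
    rw [hβ, hn, mul_pow] at k1
    have he' : (e : ℝ) ≤ F.r := by exact_mod_cast he.le
    have k2 : M ^ e ≤ M ^ F.r := pow_le_pow_right₀ hM1 he.le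
    have k3 : |(y : ℝ) ^ e| ≤ M ^ F.r * K ^ e := by
      rw [abs_pow]
      calc |(y : ℝ)| ^ e ≤ (M * K) ^ e := by
            gcongr
            exact hy.trans (by gcongr)
        _ = M ^ e * K ^ e := mul_pow _ _ _
        _ ≤ _ := by gcongr
    have k4 : j * |Isum F.P.a F.P.β e y w - σ * b * (y : ℝ) ^ e| ≤
        n * (B * (F.r * (B * n))) / b * M ^ F.r * K ^ e := by
      calc j * |Isum F.P.a F.P.β e y w - σ * b * (y : ℝ) ^ e|
          ≤ M / b * K * |Isum F.P.a F.P.β e y w - σ * b * (y : ℝ) ^ e| := by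
            gcongr
            exact j3.trans (by gcongr)
        _ = M * K * |Isum F.P.a F.P.β e y w - σ * b * (y : ℝ) ^ e| / b := by ring
        _ ≤ n * (B * (e * (B * n) * (M ^ e * K ^ e))) / b := by gcongr
        _ ≤ n * (B * (F.r * (B * n) * (M ^ F.r * K ^ e))) / b := by gcongr
        _ = _ := by ring
    have k5 : |σ * (j * b - ν) * (y : ℝ) ^ e| ≤ b * (M ^ F.r * K ^ e) := by
      rw [abs_mul, abs_mul, hσ, one_mul]
      exact mul_le_mul (abs_le.2 ⟨by linarith, by linarith⟩) k3 (abs_nonneg _) hb.le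
    have e1 : j * Isum F.P.a F.P.β e y w - σ * ν * (y : ℝ) ^ e =
        j * (Isum F.P.a F.P.β e y w - σ * b * (y : ℝ) ^ e) + σ * (j * b - ν) * (y : ℝ) ^ e := by
      ring
    rw [rep_VPW _ _ _ _ _ ha, e1]
    refine (abs_add_le _ _).trans ?_
    rw [abs_mul, Nat.abs_cast]
    have k6 : (n * (B * (F.r * (B * n))) / b + b) * M ^ F.r * K ^ e ≤ C * R * K ^ e :=
      mul_le_mul_of_nonneg_right (c4.trans hCR) (by positivity)
    linarith

end

theorem VPW_pf (h1 : PCS_st.{u}) (h2 : NEA_st.{u}) : VPW_st.{u} := by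
  intro N _ T J _ F len C0 ω C1 w hL hw ha hb h3 hω A
  have _ := h1
  have hs := (h2 N T J F A).1
  obtain ⟨B, hB, hB'⟩ := F.P.bd
  rw [F.hT] at hB'
  have hn : 1 ≤ w.length := by
    rcases w with _ | ⟨s, w⟩
    · simp [F.β_one] at hb
    · simp
  obtain ⟨C, c1, c2, c3, c4⟩ : ∃ C : ℝ, 1 ≤ C ∧ A / F.P.β w.prod * w.length ≤ C ∧
      2 * (w.length * (1 + C0)) + C1 ≤ C ∧ (w.length * (B * (F.r * (B * w.length))) /
        F.P.β w.prod + F.P.β w.prod) * (A + B * w.length) ^ F.r ≤ C :=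
    ⟨max (max _ _) (max _ _), le_max_of_le_left (le_max_left _ _),
      le_max_of_le_left (le_max_right _ _), le_max_of_le_right (le_max_left _ _),
      le_max_of_le_right (le_max_right _ _)⟩
  refine ⟨C, by linarith, fun K R hK hR hRA _ μ hμ => ?_⟩
  have hA : 0 ≤ A := by
    by_contra h
    nlinarith
  have hB1 : (1 : ℝ) ≤ B := by exact_mod_cast hB
  rcases le_total 0 μ with h0 | h0
  · simpa using main_VPW F len C0 ω C1 1 _ B A _ C _ w hL hw rfl hn ((hs w).1.symm.trans ha)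
      (by rw [one_mul, (hs w).2]) abs_one hb h3 hω hB1 (fun s h => (hB' s h).2) hA rfl c1 c2 c3
      c4 K R μ hK hR h0 ((le_abs_self μ).trans hμ)
  · simpa using main_VPW F len C0 ω C1 (-1) _ B A _ C w.length (w.map fun x => x⁻¹).reverse hL
      (fun x hx => by
        obtain ⟨y, hy, rfl⟩ := List.mem_map.1 (List.mem_reverse.1 hx)
        exact F.sym y (hw y hy)) (by simp) hn
      (by rw [← (hs _).1, ← List.prod_inv_reverse, F.a_inv, ha, neg_zero])
      (by rw [← (hs _).2, ← List.prod_inv_reverse, F.β_inv, neg_one_mul]) (by simp) hb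
      (fun j => by rw [← List.prod_inv_reverse, inv_pow, hL.inv]; exact h3 j) hω hB1
      (fun s h => (hB' s h).2) hA rfl c1 c2 c3 c4 K R (-μ) hK hR (by linarith)
      ((neg_le_abs μ).trans hμ)

end

section


theorem rep_ZIG {α : Type u} (a : α → ℤ) (β : α → ℝ) (e : ℕ) (t : α) (j : ℕ) (y : ℤ) :
    Isum a β e y (List.replicate j t) = β t * ∑ k ∈ range j, ((y : ℝ) + k * a t) ^ e := by
  induction j generalizing y with
  | zero => simp [Isum]
  | succ j ih =>
    rw [List.replicate_succ, Isum, ih, sum_range_succ', mul_add, add_comm]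
    congr 2
    · refine sum_congr rfl fun k _ => ?_
      push_cast
      ring
    · simp

theorem tay_ZIG {y v M : ℝ} (hy : |y| ≤ M) (hv : |y + v| ≤ M) (e : ℕ) :
    M ^ 2 * |(y + v) ^ e - y ^ e - e * y ^ (e - 1) * v| ≤ e ^ 2 * v ^ 2 * M ^ e := by
  have hM : 0 ≤ M := (abs_nonneg _).trans hy
  induction e with
  | zero => simp
  | succ e ih =>
    rcases e with _ | e
    · simp
      positivity
    simp only [Nat.add_sub_cancel] at ih ⊢
    have a1 : (y + v) ^ (e + 1 + 1) - y ^ (e + 1 + 1) - ((e + 1 + 1 : ℕ) : ℝ) * y ^ (e + 1) * v =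
        (y + v) * ((y + v) ^ (e + 1) - y ^ (e + 1) - ((e + 1 : ℕ) : ℝ) * y ^ e * v) +
          ((e + 1 : ℕ) : ℝ) * y ^ e * v ^ 2 := by
      push_cast
      ring
    rw [a1]
    generalize (y + v) ^ (e + 1) - y ^ (e + 1) - ((e + 1 : ℕ) : ℝ) * y ^ e * v = T at ih
    have a2 : |(y + v) * T + ((e + 1 : ℕ) : ℝ) * y ^ e * v ^ 2| ≤
        M * |T| + ((e + 1 : ℕ) : ℝ) * M ^ e * v ^ 2 := by
      refine (abs_add_le _ _).trans ?_
      rw [abs_mul, abs_mul, abs_mul, abs_pow, abs_pow, sq_abs, Nat.abs_cast]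
      gcongr
    have a3 := mul_le_mul_of_nonneg_left a2 (sq_nonneg M)
    have a4 := mul_le_mul_of_nonneg_left ih hM
    have a5 : 0 ≤ ((e : ℝ) + 2) * v ^ 2 * M ^ (e + 2) := by positivity
    push_cast at a3 a4 ⊢
    have a6 : M ^ 2 * (M * |T| + (e + 1) * M ^ e * v ^ 2) =
        M * (M ^ 2 * |T|) + (e + 1) * v ^ 2 * M ^ (e + 2) := by ring
    have a7 : M * ((e + 1) ^ 2 * v ^ 2 * M ^ (e + 1)) = (e + 1) ^ 2 * v ^ 2 * M ^ (e + 2) := by ring
    have a8 : ((e : ℝ) + 1 + 1) ^ 2 * v ^ 2 * M ^ (e + 1 + 1) = (e + 1) ^ 2 * v ^ 2 * M ^ (e + 2) +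
        (e + 1) * v ^ 2 * M ^ (e + 2) + (e + 2) * v ^ 2 * M ^ (e + 2) := by ring
    linarith

theorem blk_ZIG {y c d H M : ℝ} {j : ℕ} (e : ℕ) (hM : |y| + H ≤ M)
    (h : ∀ k : ℕ, k < j → |c + k * d| ≤ H) (hH : 0 ≤ H) :
    M ^ 2 * |∑ k ∈ range j, (y + c + k * d) ^ e - j * y ^ e -
      e * y ^ (e - 1) * (j * c + d * (j * (j - 1) / 2))| ≤
      j * if e ≤ 1 then 0 else e ^ 2 * H ^ 2 * M ^ e := by
  have hy : |y| ≤ M := by linarith
  have hM0 : 0 ≤ M := (abs_nonneg _).trans hy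
  have a1 : ∀ j : ℕ, ∑ k ∈ range j, (y + c + k * d) ^ e - j * y ^ e -
      e * y ^ (e - 1) * (j * c + d * (j * (j - 1) / 2)) =
      ∑ k ∈ range j, ((y + (c + k * d)) ^ e - y ^ e - e * y ^ (e - 1) * (c + k * d)) := by
    intro j
    induction j with
    | zero => simp
    | succ j ih =>
      rw [sum_range_succ, sum_range_succ, ← ih, add_assoc y c]
      push_cast
      ring
  rw [a1]
  refine (mul_le_mul_of_nonneg_left (abs_sum_le_sum_abs _ _) (sq_nonneg M)).trans ?_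
  rw [mul_sum]
  refine (sum_le_card_nsmul _ _ _ fun k hk => ?_).trans_eq (by rw [card_range, nsmul_eq_mul])
  have b1 := h k (mem_range.1 hk)
  split_ifs with he
  · interval_cases e <;> simp
  · refine (tay_ZIG hy ((abs_add_le _ _).trans (by linarith)) e).trans ?_
    rw [← sq_abs (c + k * d)]
    gcongr

theorem ZIG_pf : ZIG_st.{u} := by
  intro α a β s s' A r hs hs'
  obtain ⟨p, hp⟩ : ∃ p : ℕ, a s = p := ⟨(a s).natAbs, by omega⟩
  obtain ⟨q, hq⟩ : ∃ q : ℕ, a s' = -q := ⟨(a s').natAbs, by omega⟩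
  obtain ⟨M0, hM1, hM2⟩ : ∃ M0 : ℝ, 1 ≤ M0 ∧ A * (1 + p * q) ≤ M0 :=
    ⟨max 1 (A * (1 + p * q)), le_max_left _ _, le_max_right _ _⟩
  have e1 : (a s).natAbs = p := by omega
  have e2 : (a s').natAbs = q := by omega
  refine ⟨r * M0 ^ r * (p * q) * (|β s| + |β s'|) +
    2 * (q * |β s| + p * |β s'|) * r ^ 2 * (p * q) ^ 2 * M0 ^ r, by positivity,
    fun i y K hK hi hy e he => ?_⟩
  have hH : (0 : ℝ) ≤ i * p * q := by positivity
  have hM : |(y : ℝ)| + i * p * q ≤ M0 * K := by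
    have b1 : (i : ℝ) * (p * q) ≤ A * K * (p * q) := by gcongr
    have b2 : A * (1 + p * q) * K ≤ M0 * K := by gcongr
    linarith
  have t1 := blk_ZIG (c := 0) (d := p) (j := i * q) e hM (fun k hk => by
    have : (k : ℝ) ≤ i * q := by exact_mod_cast hk.le
    have := mul_le_mul_of_nonneg_right this (p.cast_nonneg (α := ℝ))
    rw [zero_add, abs_of_nonneg (by positivity)]
    linarith) hH
  have t2 := blk_ZIG (c := i * p * q) (d := -q) (j := 2 * i * p) e hM (fun k hk => by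
    have : (k : ℝ) ≤ 2 * i * p := by exact_mod_cast hk.le
    have := mul_le_mul_of_nonneg_right this (q.cast_nonneg (α := ℝ))
    have : (0 : ℝ) ≤ k * q := by positivity
    rw [abs_le]
    constructor <;> linarith) hH
  have t3 := blk_ZIG (c := -(i * p * q)) (d := p) (j := i * q) e hM (fun k hk => by
    have : (k : ℝ) ≤ i * q := by exact_mod_cast hk.le
    have := mul_le_mul_of_nonneg_right this (p.cast_nonneg (α := ℝ))
    have : (0 : ℝ) ≤ k * p := by positivity
    rw [abs_le]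
    constructor <;> linarith) hH
  have a1 : Isum a β e y (syl [(s, i * (a s').natAbs), (s', 2 * i * (a s).natAbs),
      (s, i * (a s').natAbs)]) = β s * ∑ k ∈ range (i * q), ((y : ℝ) + 0 + k * p) ^ e +
      (β s' * ∑ k ∈ range (2 * i * p), ((y : ℝ) + i * p * q + k * -q) ^ e +
        β s * ∑ k ∈ range (i * q), ((y : ℝ) + -(i * p * q) + k * p) ^ e) := by
    simp only [syl, List.flatMap_cons, List.flatMap_nil, List.append_nil, isum_app, rep_ZIG, e1, e2,
      List.map_replicate, List.sum_replicate, nsmul_eq_mul]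
    rw [hp, hq]
    push_cast
    congr 2
    · simp
    · congr 1
      refine sum_congr rfl fun k _ => ?_
      ring
    · congr 1
      refine sum_congr rfl fun k _ => ?_
      ring
  rw [a1, e1, e2]
  push_cast at t1 t2 t3
  generalize ∑ k ∈ range (i * q), ((y : ℝ) + 0 + k * p) ^ e = S1 at t1
  generalize ∑ k ∈ range (2 * i * p), ((y : ℝ) + i * p * q + k * -q) ^ e = S2 at t2
  generalize ∑ k ∈ range (i * q), ((y : ℝ) + -(i * p * q) + k * p) ^ e = S3 at t3
  have hK0 : 0 ≤ K := by linarith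
  have hr : (e : ℝ) ≤ r := by exact_mod_cast he.le
  have hp0 : M0 ^ e ≤ M0 ^ r := pow_le_pow_right₀ hM1 he.le
  have a2 : K * |e * (y : ℝ) ^ (e - 1)| ≤ r * M0 ^ r * K ^ e := by
    rcases e with _ | e
    · simp
      positivity
    · rw [Nat.add_sub_cancel, abs_mul, abs_pow, Nat.abs_cast]
      have b1 : |(y : ℝ)| ^ e ≤ M0 ^ r * K ^ e :=
        calc |(y : ℝ)| ^ e ≤ (M0 * K) ^ e := by gcongr; linarith
          _ ≤ _ := by
            rw [mul_pow]
            gcongr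
            omega
      calc K * (((e + 1 : ℕ) : ℝ) * |(y : ℝ)| ^ e) ≤ K * (r * (M0 ^ r * K ^ e)) := by gcongr
        _ = _ := by ring
  obtain ⟨Z, hZ, hZ0, hZ1⟩ : ∃ Z : ℝ, Z = (if e ≤ 1 then 0 else (i : ℝ) ^ 3) ∧ 0 ≤ Z ∧
      i * (if e ≤ 1 then 0 else (e : ℝ) ^ 2 * (i * p * q) ^ 2 * (M0 * K) ^ e) ≤
        r ^ 2 * (p * q) ^ 2 * M0 ^ r * Z * K ^ e := by
    refine ⟨_, rfl, by positivity, ?_⟩
    split_ifs
    · simp
    · calc (i : ℝ) * (e ^ 2 * (i * p * q) ^ 2 * (M0 * K) ^ e) =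
            e ^ 2 * (p * q) ^ 2 * M0 ^ e * i ^ 3 * K ^ e := by ring
        _ ≤ _ := by gcongr
  rw [← hZ]
  generalize (if e ≤ 1 then 0 else (e : ℝ) ^ 2 * (i * p * q) ^ 2 * (M0 * K) ^ e) = E at *
  generalize (e : ℝ) * (y : ℝ) ^ (e - 1) = D at *
  generalize h1 : S1 - i * q * (y : ℝ) ^ e - D * (i * q * 0 + p * (i * q * (i * q - 1) / 2)) = R1
    at t1
  generalize h2 : S2 - 2 * i * p * (y : ℝ) ^ e -
    D * (2 * i * p * (i * p * q) + -q * (2 * i * p * (2 * i * p - 1) / 2)) = R2 at t2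
  generalize h3 : S3 - i * q * (y : ℝ) ^ e -
    D * (i * q * -(i * p * q) + p * (i * q * (i * q - 1) / 2)) = R3 at t3
  have a3 : β s * S1 + (β s' * S2 + β s * S3) - 2 * i * (q * β s + p * β s') * (y : ℝ) ^ e =
      β s * R1 + β s' * R2 + β s * R3 + D * (i * p * q) * (β s' - β s) := by
    rw [← h1, ← h2, ← h3]
    ring
  have a4 : |β s * R1 + β s' * R2 + β s * R3 + D * (i * p * q) * (β s' - β s)| ≤
      |β s| * |R1| + |β s'| * |R2| + |β s| * |R3| + |D| * (i * p * q) * (|β s| + |β s'|) := by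
    refine (abs_add_le _ _).trans (add_le_add ((abs_add_three _ _ _).trans_eq (by
      rw [abs_mul, abs_mul, abs_mul])) ?_)
    rw [abs_mul, abs_mul, abs_of_nonneg hH]
    gcongr
    exact (abs_sub _ _).trans_eq (add_comm _ _)
  have a5 : ∀ x : ℝ, K ^ 2 * |x| ≤ (M0 * K) ^ 2 * |x| := fun x => by
    gcongr
    exact le_mul_of_one_le_left hK0 hM1
  have b1 := mul_le_mul_of_nonneg_left ((a5 _).trans t1) (abs_nonneg (β s))
  have b2 := mul_le_mul_of_nonneg_left ((a5 _).trans t2) (abs_nonneg (β s'))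
  have b3 := mul_le_mul_of_nonneg_left ((a5 _).trans t3) (abs_nonneg (β s))
  have b4 := mul_le_mul_of_nonneg_left hZ1
    (show 0 ≤ 2 * (q * |β s| + p * |β s'|) by positivity)
  have b5 := mul_le_mul_of_nonneg_left a2
    (show 0 ≤ K * (i * p * q) * (|β s| + |β s'|) by positivity)
  have b6 := mul_le_mul_of_nonneg_left a4 (sq_nonneg K)
  have b7 : 0 ≤ r * M0 ^ r * (p * q) * (|β s| + |β s'|) * Z * K ^ e := by positivity
  have b8 : 0 ≤ 2 * (q * |β s| + p * |β s'|) * r ^ 2 * (p * q) ^ 2 * M0 ^ r * (K * i) * K ^ e := by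
    positivity
  rw [a3]
  linarith

end

section


lemma rep_VPZ {α : Type u} (a : α → ℤ) (β : α → ℝ) (Z : List (α × ℕ))
    (h : ((syl Z).map a).sum = 0) (n : ℕ) : ∃ L : List (α × ℕ), (∀ p ∈ L, p ∈ Z) ∧
      L.length = n * Z.length ∧ ((syl L).map a).sum = 0 ∧ (syl L).length = n * (syl Z).length ∧
      ∀ e y, Isum a β e y (syl L) = n * Isum a β e y (syl Z) := by
  induction n with
  | zero => exact ⟨[], by simp, by simp, by simp [syl], by simp [syl], by simp [syl, Isum]⟩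
  | succ n ih =>
    obtain ⟨L, h1, h2, h3, h4, h5⟩ := ih
    have e : syl (Z ++ L) = syl Z ++ syl L := List.flatMap_append
    refine ⟨Z ++ L, fun p hp => (List.mem_append.1 hp).elim id (h1 p), ?_, ?_, ?_, fun e' y => ?_⟩
    · rw [List.length_append, h2]; ring
    · rw [e, List.map_append, List.sum_append, h, h3, add_zero]
    · rw [e, List.length_append, h4]; ring
    · rw [e, isum_app, h, add_zero, h5]; push_cast; ring

lemma cub_VPZ {B K R n i : ℝ} (hB : 0 ≤ B) (hK : 1 ≤ K) (hR : 1 ≤ R) (hi : 0 ≤ i) (hn : R ≤ n)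
    (h : n * i ≤ B * K) (hc : K ≤ R ^ 3) : n * i ^ 3 ≤ B ^ 3 * (K ^ 2 * R) := by
  have h1 : R * i ≤ B * K := (mul_le_mul_of_nonneg_right hn hi).trans h
  have h2 : (R * i) ^ 2 ≤ (B * K) ^ 2 := pow_le_pow_left₀ (by positivity) h1 2
  have h3 : B ^ 2 * K * K ≤ B ^ 2 * K * R ^ 3 := mul_le_mul_of_nonneg_left hc (by positivity)
  have h4 : i ^ 2 ≤ B ^ 2 * K * R :=
    le_of_mul_le_mul_left (a := R ^ 2) (by linarith) (by positivity)
  calc n * i ^ 3 = n * i * i ^ 2 := by ring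
    _ ≤ B * K * (B ^ 2 * K * R) := mul_le_mul h h4 (by positivity) (by positivity)
    _ = _ := by ring

lemma core_VPZ (h1 : ZIG_st.{u}) (h2 : PCS_st.{u}) {N : Type u} [Group N] {T : Finset N}
    {J : Type} [Fintype J] (F : Fd T J) {len : N → ℝ} {C0 : ℝ} (hL : Len T len C0) {t t' : N}
    (ht : t ∈ T) (ht' : t' ∈ T) (ha : 0 < F.P.a t) (ha' : F.P.a t' < 0) {σ : ℝ} (hσ : |σ| = 1)
    (hb : ((F.P.a t').natAbs : ℝ) * F.P.β t + (F.P.a t).natAbs * F.P.β t' =
      σ * (F.P.θ * ((F.P.a t').natAbs + (F.P.a t).natAbs))) {A : ℝ} (hA : 0 ≤ A) :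
    ∃ C : ℝ, 0 ≤ C ∧ ∀ C', C ≤ C' → ∀ K R : ℝ, 1 ≤ K → 1 ≤ R → (K ≤ R ^ 3 ∨ F.r ≤ 2) →
      ∀ ν : ℝ, 0 ≤ ν → ν ≤ A * K → ∃ v, F.Vp len 0 A C' K R (σ * ν) v := by
  obtain ⟨p, hp⟩ : ∃ p, p = (F.P.a t').natAbs := ⟨_, rfl⟩
  obtain ⟨q, hq⟩ : ∃ q, q = (F.P.a t).natAbs := ⟨_, rfl⟩
  have hθ := F.P.θ_pos
  have hq0 : (0 : ℝ) < q := by exact_mod_cast (by omega : 0 < q)
  obtain ⟨b, hb'⟩ : ∃ b : ℝ, b = 2 * (F.P.θ * (p + q)) := ⟨_, rfl⟩
  have hb0 : 0 < b := by rw [hb']; positivity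
  obtain ⟨B, hB⟩ : ∃ B : ℝ, B = A / b := ⟨_, rfl⟩
  have hB0 : 0 ≤ B := by rw [hB]; positivity
  have hBA : b * B = A := by rw [hB]; field_simp
  obtain ⟨Cz, hCz, hz⟩ := h1 N F.P.a F.P.β t t' (A + B) F.r ha ha'
  rw [hb, ← hp, ← hq] at hz
  have hC0 := hL.nn
  obtain ⟨c1, hc1⟩ : ∃ c1, c1 = Cz * (B + B ^ 3) + 2 * b * (1 + A) ^ F.r := ⟨_, rfl⟩
  have hc10 : 0 ≤ c1 := by rw [hc1]; positivity
  have hAθ : 0 ≤ A / F.P.θ := by positivity
  refine ⟨c1 + A / F.P.θ + C0 + 6, by positivity, fun C hC K R hK hR hp3 ν hν hνA => ?_⟩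
  obtain ⟨n, hn⟩ : ∃ n, n = ⌈R⌉₊ := ⟨_, rfl⟩
  have hn1 : R ≤ n := hn ▸ Nat.le_ceil R
  have hn2 : (n : ℝ) ≤ 2 * R := by
    have := Nat.ceil_lt_add_one (by linarith : 0 ≤ R)
    rw [hn]; linarith
  have hbn : 0 < b * n := mul_pos hb0 (by linarith)
  obtain ⟨i, hi⟩ : ∃ i, i = ⌊ν / (b * n)⌋₊ := ⟨_, rfl⟩
  have hi1 : (i : ℝ) * (b * n) ≤ ν := (le_div_iff₀ hbn).1 (hi ▸ Nat.floor_le (by positivity))
  have hi2 : ν < (i + 1) * (b * n) := (div_lt_iff₀ hbn).1 (hi ▸ Nat.lt_floor_add_one _)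
  have hi0 : (0 : ℝ) ≤ i := by positivity
  have hni : (n : ℝ) * i ≤ B * K :=
    le_of_mul_le_mul_left (a := b) (by rw [← mul_assoc b B, hBA]; linarith) hb0
  have hiK : (i : ℝ) ≤ (A + B) * K := by
    have := mul_le_mul_of_nonneg_right (hR.trans hn1) hi0
    have := mul_nonneg hA (by linarith : 0 ≤ K)
    linarith
  obtain ⟨L, l1, l2, l3, l4, l5⟩ := rep_VPZ F.P.a F.P.β
    [(t, i * p), (t', 2 * i * q), (t, i * p)] (by
      have e1 : F.P.a t = q := by omega
      have e2 : F.P.a t' = -p := by omega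
      simp [syl, e1, e2]
      ring) n
  have lT : ∀ x ∈ L, x.1 ∈ T := fun x hx => by
    have := l1 x hx
    simp only [List.mem_cons, List.not_mem_nil, or_false] at this
    rcases this with rfl | rfl | rfl <;> assumption
  have hlen : ((syl L).length : ℝ) ≤ ν / F.P.θ := by
    rw [l4, le_div_iff₀ hθ]
    refine le_trans (le_of_eq ?_) hi1
    simp [syl, hb']
    ring
  have hCR : 6 * R ≤ C * R := mul_le_mul_of_nonneg_right (by linarith) (by linarith)
  refine ⟨syl L, fun x hx => ?_, l3, ?_, ?_, fun y hy e he => ?_⟩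
  · obtain ⟨z, hz1, hz2⟩ := List.mem_flatMap.1 hx
    rw [List.eq_of_mem_replicate hz2]
    exact lT z hz1
  · refine hlen.trans ((div_le_div_of_nonneg_right hνA hθ.le).trans ?_)
    rw [mul_div_right_comm]
    exact mul_le_mul_of_nonneg_right (by linarith) (by linarith)
  · obtain ⟨p1, -, -, p4, -⟩ := h2 N T len C0 0 hL zero_le_one
    refine p1 _ _ _ _ _ _ _ (by linarith) ?_ ?_ (p4 L lT)
    · rw [abs_mul, hσ, one_mul, abs_of_nonneg hν]; linarith
    · rw [l2]; simp; linarith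
  · have hK0 : 0 < K := by linarith
    have z1 := hz i y K hK hiK (hy.trans (by nlinarith)) e he
    rw [l5]
    generalize Isum F.P.a F.P.β e y (syl [(t, i * p), (t', 2 * i * q), (t, i * p)]) = I at z1 ⊢
    have z2 : (n : ℝ) * (K * i + if e ≤ 1 then 0 else (i : ℝ) ^ 3) ≤ (B + B ^ 3) * (K ^ 2 * R) := by
      have a1 : (n : ℝ) * (K * i) ≤ B * (K ^ 2 * R) := by
        have a2 := mul_le_mul_of_nonneg_left hni hK0.le
        have a3 := mul_le_mul_of_nonneg_left hR (by positivity : 0 ≤ B * K ^ 2)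
        linarith
      rw [mul_add, add_mul]
      refine add_le_add a1 ?_
      split_ifs with h
      · rw [mul_zero]; positivity
      · exact cub_VPZ hB0 hK hR hi0 hn1 hni (hp3.resolve_right (by omega))
    have z3 : (n : ℝ) * |I - 2 * i * (σ * (F.P.θ * (p + q))) * (y : ℝ) ^ e| ≤
        Cz * (B + B ^ 3) * R * K ^ e := by
      refine le_of_mul_le_mul_left (a := K ^ 2) ?_ (by positivity)
      have a1 := mul_le_mul_of_nonneg_left z1 (Nat.cast_nonneg (α := ℝ) n)
      have a2 := mul_le_mul_of_nonneg_left z2 (by positivity : 0 ≤ Cz * K ^ e)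
      linarith
    have z4 : |(y : ℝ)| ^ e ≤ (1 + A) ^ F.r * K ^ e := by
      refine (pow_le_pow_left₀ (abs_nonneg _) hy e).trans ?_
      rw [mul_pow]
      exact mul_le_mul_of_nonneg_right ((pow_le_pow_left₀ hA (by linarith) e).trans
        (pow_le_pow_right₀ (by linarith) he.le)) (by positivity)
    have z5 : |i * (b * n) - ν| ≤ 2 * b * R := by
      have := mul_le_mul_of_nonneg_left hn2 hb0.le
      rw [abs_le]; constructor <;> linarith
    calc _ = |n * (I - 2 * i * (σ * (F.P.θ * (p + q))) * (y : ℝ) ^ e) +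
          σ * ((i * (b * n) - ν) * (y : ℝ) ^ e)| := by rw [hb']; congr 1; ring
      _ ≤ n * |I - 2 * i * (σ * (F.P.θ * (p + q))) * (y : ℝ) ^ e| +
          |i * (b * n) - ν| * |(y : ℝ)| ^ e := by
          refine (abs_add_le _ _).trans (le_of_eq ?_)
          rw [abs_mul, abs_mul, abs_mul, hσ, one_mul, abs_pow, Nat.abs_cast]
      _ ≤ Cz * (B + B ^ 3) * R * K ^ e + 2 * b * R * ((1 + A) ^ F.r * K ^ e) :=
          add_le_add z3 (mul_le_mul z5 z4 (by positivity) (by positivity))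
      _ = c1 * (R * K ^ e) := by rw [hc1]; ring
      _ ≤ C * (R * K ^ e) := mul_le_mul_of_nonneg_right (by linarith) (by positivity)
      _ = _ := by ring

theorem VPZ_pf (h1 : ZIG_st.{u}) (h2 : PCS_st.{u}) : VPZ_st.{u} := by
  intro N _ T J _ F len C0 s s' hL ⟨hs, hs', ha, ha', e1, e2⟩ A
  rw [F.hT] at hs hs'
  by_cases hA : 0 ≤ A
  swap
  · exact ⟨0, le_rfl, fun K R hK hR hRA => absurd hRA (by nlinarith)⟩
  have n1 : ((F.P.a s).natAbs : ℝ) = F.P.a s := by
    rw [Nat.cast_natAbs, abs_of_pos ha]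
  have n2 : ((F.P.a s').natAbs : ℝ) = -F.P.a s' := by
    rw [Nat.cast_natAbs, abs_of_neg ha', Int.cast_neg]
  obtain ⟨C, hC, h⟩ := core_VPZ h1 h2 F hL hs hs' ha ha' abs_one (by
    rw [n1, n2]
    linear_combination -(F.P.a s' : ℝ) * e1 + (F.P.a s : ℝ) * e2) hA
  obtain ⟨C', hC', h'⟩ := core_VPZ h1 h2 F hL (F.sym _ hs') (F.sym _ hs) (σ := -1)
    (by rw [F.a_inv]; omega) (by rw [F.a_inv]; omega) (by simp) (by
    rw [F.a_inv, F.a_inv, F.β_inv, F.β_inv, Int.natAbs_neg, Int.natAbs_neg, n1, n2]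
    linear_combination (F.P.a s' : ℝ) * e1 - (F.P.a s : ℝ) * e2) hA
  refine ⟨C + C', by positivity, fun K R hK hR _ hp μ hμ => ?_⟩
  rw [abs_le] at hμ
  rcases le_total 0 μ with h0 | h0
  · simpa using h _ (by linarith) K R hK hR hp μ h0 hμ.2
  · simpa using h' _ (by linarith) K R hK hR hp (-μ) (by linarith) (by linarith)

end

section


theorem ht_INS {α : Type u} (a : α → ℤ) (l₁ v l₂ : List α) (hv : (v.map a).sum = 0) (i : ℕ) :
    ∃ j, ht a (l₁ ++ v ++ l₂) j = ht a (l₁ ++ l₂) i := by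
  rcases le_total i l₁.length with h | h
  · refine ⟨i, ?_⟩
    rw [ht, ht, List.append_assoc, List.take_append_of_le_length h, List.take_append_of_le_length h]
  · obtain ⟨j, rfl⟩ := Nat.exists_eq_add_of_le h
    refine ⟨(l₁ ++ v).length + j, ?_⟩
    rw [ht, ht, List.take_length_add_append, List.take_length_add_append]
    simp [hv]

theorem INS_pf (h : PCS_st.{u}) : INS_st.{u} := by
  intro N _ T J _ F len C0 ω A Cv ρ hL hω hA hCv hρ
  obtain ⟨p1, -, p3, -⟩ := h N T len C0 ω hL hω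
  refine ⟨Cv + F.r * ρ * (1 + A) ^ F.r, by positivity, ?_⟩
  intro K R X Y Λ l τ σ hK hR hX hY hΛ
  induction Λ generalizing l τ σ with
  | nil =>
    intro hl hP hc
    exact ⟨l, hl, by simp, by simpa using hP, rfl, hc, fun e _ => by simp⟩
  | cons p Λ ih =>
    intro hl hP hc
    obtain ⟨hp, hμ, v, v1, v2, v3, v4, v5⟩ := hΛ p List.mem_cons_self
    obtain ⟨i, hi⟩ := hc p.1 hp
    have hpK : |(p.1 : ℝ)| + ρ ≤ A * K := by
      have h1 : (X : ℝ) ≤ p.1 := by exact_mod_cast (mem_Icc.1 hp).1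
      have h2 : (p.1 : ℝ) ≤ Y := by exact_mod_cast (mem_Icc.1 hp).2
      rcases abs_cases (p.1 : ℝ) with h | h <;> linarith [le_abs_self (Y : ℝ), neg_abs_le (X : ℝ)]
    push_cast at hi
    have hy : |(ht F.P.a l i : ℝ)| ≤ A * K := by
      have := abs_add_le ((ht F.P.a l i : ℝ) - p.1) p.1
      rw [sub_add_cancel] at this
      linarith
    have e0 : l.take i ++ l.drop i = l := List.take_append_drop i l
    obtain ⟨l', q1, q2, q3, q4, q5, q6⟩ := ih (l.take i ++ v ++ l.drop i) _ _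
      (fun q hq => hΛ q (List.mem_cons_of_mem _ hq))
      (fun x hx => by
        rcases List.mem_append.1 hx with hx | hx
        · rcases List.mem_append.1 hx with hx | hx
          · exact hl x (List.mem_of_mem_take hx)
          · exact v1 x hx
        · exact hl x (List.mem_of_mem_drop hx))
      (p3 Cv _ _ v _ _ _ _ (e0.symm ▸ hP) v4)
      (fun c hc' => by
        obtain ⟨i', hi'⟩ := hc c hc'
        obtain ⟨j, hj⟩ := ht_INS F.P.a (l.take i) v (l.drop i) v2 i'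
        exact ⟨j, by rw [hj, e0]; exact hi'⟩)
    refine ⟨l', q1, ?_, p1 _ _ _ _ _ _ _ le_rfl (le_of_eq ?_) (le_of_eq ?_) q3, ?_, q5, fun e he => ?_⟩
    · have : ((l.take i ++ v ++ l.drop i).length : ℝ) = l.length + v.length := by
        conv_rhs => rw [← e0]
        simp only [List.length_append]; push_cast; ring
      simp only [List.length_cons]; push_cast; linarith
    · simp only [List.map_cons, List.sum_cons, List.length_cons]; push_cast; ring
    · simp only [List.length_cons]; push_cast; ring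
    · rw [q4]
      conv_rhs => rw [← e0]
      simp only [List.map_append, List.sum_append, v2, add_zero]
    · have h1 : Isum F.P.a F.P.β e 0 (l.take i ++ v ++ l.drop i) =
          Isum F.P.a F.P.β e 0 l + Isum F.P.a F.P.β e (ht F.P.a l i) v := by
        conv_rhs => rw [← e0]
        rw [isum_app, isum_app, isum_app, e0]
        simp only [List.map_append, List.sum_append, v2, add_zero, zero_add, ht]
        ring
      have h2 := v5 _ hy e he
      have h3 := q6 e he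
      have h4 := pow_dif hy (le_trans (le_add_of_nonneg_right hρ) hpK) e
      have h5 : |p.2 * (ht F.P.a l i : ℝ) ^ e - p.2 * (p.1 : ℝ) ^ e| ≤
          F.r * ρ * (1 + A) ^ F.r * R * K ^ e := by
        rw [← mul_sub, abs_mul]
        have h6 : A ^ e ≤ (1 + A) ^ F.r :=
          (pow_le_pow_left₀ hA (by linarith) e).trans (pow_le_pow_right₀ (by linarith) he.le)
        have h7 : (e : ℝ) ≤ F.r := by exact_mod_cast he.le
        calc _ ≤ A * K * |(ht F.P.a l i : ℝ) ^ e - (p.1 : ℝ) ^ e| := by gcongr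
          _ ≤ e * |(ht F.P.a l i : ℝ) - p.1| * (A * K) ^ e := h4
          _ = e * |(ht F.P.a l i : ℝ) - p.1| * A ^ e * 1 * K ^ e := by ring
          _ ≤ _ := by gcongr
      rw [h1] at h3
      simp only [List.map_cons, List.sum_cons, List.length_cons]
      push_cast
      rw [abs_le] at h2 h3 h5 ⊢
      constructor <;> linarith [h2.1, h2.2, h3.1, h3.2, h5.1, h5.2]

end

section


theorem time0_RLZ {α : Type u} {P : Alph α} {Q : Cfg α} (h : Q.Ok P) : 0 ≤ Q.time0 P := by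
  refine sum_nonneg fun c hc => sum_nonneg fun s hs => ?_
  obtain ⟨h1, -, h2, -⟩ := h.2.2.2.2 c hc
  exact div_nonneg (add_nonneg (h1 s hs).1 (h2 s hs).1) (abs_nonneg _)

theorem mem_syl_RLZ {α : Type u} {L : List (α × ℕ)} {T : Finset α} (h : ∀ x ∈ L, x.1 ∈ T) :
    ∀ x ∈ syl L, x ∈ T := by
  intro x hx
  obtain ⟨p, hp, hx⟩ := List.mem_flatMap.1 hx
  rw [List.eq_of_mem_replicate hx]
  exact h p hp

theorem atom_RLZ {Λ : List (ℤ × ℝ)} {p : ℤ × ℝ} (hp : p ∈ Λ) :
    |p.2| ≤ (Λ.map fun p => |p.2|).sum := by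
  refine List.single_le_sum (fun x hx => ?_) _ (List.mem_map.2 ⟨p, hp, rfl⟩)
  obtain ⟨q, -, rfl⟩ := List.mem_map.1 hx
  exact abs_nonneg _

theorem pair_RLZ {α : Type u} (a : α → ℤ) (β : α → ℝ) (s t : α) {B : ℝ} (hB : 1 ≤ B)
    (h1 : |(a s : ℝ)| ≤ B) (h2 : |β s| ≤ B) (h3 : |β t| ≤ B) {e r : ℕ} (he : e < r) :
    |Isum a β e 0 [s, t]| ≤ B + B * B ^ r := by
  have h0 : |((0 : ℤ) : ℝ) ^ e| ≤ 1 := by
    rw [abs_pow]
    exact pow_le_one₀ (abs_nonneg _) (by simp)
  have h4 : |(((0 : ℤ) + a s : ℤ) : ℝ) ^ e| ≤ B ^ r := by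
    rw [abs_pow, zero_add]
    exact (pow_le_pow_left₀ (abs_nonneg _) h1 e).trans (pow_le_pow_right₀ hB he.le)
  have h5 : Isum a β e 0 [s, t] =
      β s * ((0 : ℤ) : ℝ) ^ e + β t * (((0 : ℤ) + a s : ℤ) : ℝ) ^ e := by
    simp only [Isum, add_zero]
  rw [h5]
  refine (abs_add_le _ _).trans (add_le_add ?_ ?_)
  · rw [abs_mul]
    exact (mul_le_mul h2 h0 (abs_nonneg _) (by linarith)).trans (by linarith)
  · rw [abs_mul]
    exact mul_le_mul h3 h4 (abs_nonneg _) (by linarith)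

theorem reach_RLZ {X Y : ℤ} (hX : X ≤ 0) (hY : 0 ≤ Y) :
    ∃ c ∈ Icc X Y, ((max (-X) Y : ℤ) : ℝ) = |(c : ℝ)| := by
  rcases le_total (-X) Y with h | h
  · refine ⟨Y, mem_Icc.2 ⟨by omega, le_rfl⟩, ?_⟩
    rw [max_eq_right h, abs_of_nonneg (by exact_mod_cast hY)]
  · refine ⟨X, mem_Icc.2 ⟨le_rfl, by omega⟩, ?_⟩
    rw [max_eq_left h, abs_of_nonpos (by exact_mod_cast hX), Int.cast_neg]

theorem RLZ_pf (h1 : SKL_st.{u}) (h2 : CAR_st) (h3 : INS_st.{u}) (h4 : PCS_st.{u})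
    (h5 : NEA_st.{u}) : RLZ_st.{u} := by
  intro N _ T J _ F len C0 ω p hL hω hVP A
  obtain ⟨m, C1, hC1, hSKL⟩ := h1 N F.P F.r A
  have hθ := F.P.θ_pos
  obtain ⟨A0, hA0, hA1⟩ : ∃ A0 : ℝ, A ≤ A0 ∧ 1 ≤ A0 := ⟨max A 1, le_max_left _ _, le_max_right _ _⟩
  obtain ⟨A', hA'⟩ : ∃ A' : ℝ, A' = 2 * C1 + F.P.θ * A0 + A0 := ⟨_, rfl⟩
  have hθA : 0 ≤ F.P.θ * A0 := mul_nonneg hθ.le (by linarith)
  obtain ⟨Cv0, hCv0, hV⟩ := hVP A'
  obtain ⟨Cv, hCv1, hCv2⟩ : ∃ Cv : ℝ, Cv0 ≤ Cv ∧ C0 ≤ Cv :=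
    ⟨max Cv0 C0, le_max_left _ _, le_max_right _ _⟩
  have hCv : 0 ≤ Cv := hCv0.trans hCv1
  obtain ⟨P1, P2, -, P4, -, -⟩ := h4 N T len C0 ω hL hω
  obtain ⟨C3, hC3, hINS⟩ := h3 N T J F len C0 ω A' Cv C1 hL hω (by linarith) hCv (by linarith)
  obtain ⟨s, hs, hs0⟩ := F.Z.ex
  obtain ⟨B, hB1, hB⟩ := F.P.bd
  rw [F.hT] at hB
  have hB1' : (1 : ℝ) ≤ B := by exact_mod_cast hB1
  obtain ⟨ρ, hρ⟩ : ∃ ρ : ℝ, ρ = 2 * F.r := ⟨_, rfl⟩
  have hρ0 : 0 ≤ ρ := by rw [hρ]; positivity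
  have hρCv : 0 ≤ ρ * Cv := mul_nonneg hρ0 hCv
  have hρC3 : 0 ≤ ρ * C3 := mul_nonneg hρ0 hC3
  obtain ⟨N1, -, -, C5, hC5, hNEA⟩ := h5 N T J F (2 + A0 + C1 + ρ * Cv)
  obtain ⟨k, hk1, hk⟩ := F.kbd
  obtain ⟨D, hD⟩ : ∃ D : ℝ, D = B + B * (B : ℝ) ^ F.r := ⟨_, rfl⟩
  have hD0 : 0 ≤ D := by rw [hD]; positivity
  obtain ⟨E, hE⟩ : ∃ E : ℝ, E = C1 + ρ * C3 + D := ⟨_, rfl⟩
  have hE0 : 0 ≤ E := by linarith
  have hkE : 0 ≤ k * E := mul_nonneg (by linarith) hE0
  have hm0 : (0 : ℝ) ≤ m := Nat.cast_nonneg m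
  obtain ⟨C, hC⟩ : ∃ C : ℝ, C = 2 + 2 * A0 + 2 * C1 + ρ * Cv + Cv + m + ρ + C5 + k * E := ⟨_, rfl⟩
  have hC2 : 2 ≤ C := by linarith
  have c1 : 2 + A0 + C1 + ρ * Cv ≤ C := by linarith
  have c2 : 2 + C1 + ρ * Cv ≤ C := by linarith
  have c3 : 2 + m + ρ + ρ * Cv ≤ C := by linarith
  have c4 : Cv ≤ C := by linarith
  have c5 : C5 + k * E ≤ C := by linarith
  have c6 : 2 * (A0 + C1) + 2 ≤ C := by linarith
  clear hC
  refine ⟨C, by linarith only [hC2], ?_⟩
  intro K L R Q hL1 hLK hR1 hRA hp hQ hQt hLX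
  have hK : 1 ≤ K := hL1.trans hLK
  have hK0 : 0 ≤ K := by linarith
  have hR0 : 0 ≤ R := by linarith
  have hAK : A * K ≤ A0 * K := mul_le_mul_of_nonneg_right hA0 hK0
  have ht0 := time0_RLZ hQ
  have hsum : Q.time F.P = Q.time0 F.P + (∑ c ∈ Icc Q.X Q.Y, |Q.μ c|) / F.P.θ := by
    rw [Cfg.time, sum_div]
  have hs0' : 0 ≤ (∑ c ∈ Icc Q.X Q.Y, |Q.μ c|) / F.P.θ :=
    div_nonneg (sum_nonneg fun _ _ => abs_nonneg _) hθ.le
  obtain ⟨hX, hY, Ls, hLm, hLT, hLn, hLl, hLe, hLc⟩ := hSKL Q K hK hQ (by linarith)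
  rw [F.hT] at hLT
  obtain ⟨Λ, hΛl, hΛF, hΛs, hΛe⟩ := h2 F.r (Icc Q.X Q.Y) Q.μ F.sh.r_pos
  have hΛl' : (Λ.length : ℝ) ≤ ρ := by rw [hρ]; exact_mod_cast hΛl
  have hA'K : A' * K = 2 * (C1 * K) + F.P.θ * (A0 * K) + A0 * K := by rw [hA']; ring
  have hC1K : C1 ≤ C1 * K := le_mul_of_one_le_right (by linarith) hK
  have hA0K : 0 ≤ A0 * K := mul_nonneg (by linarith) hK0
  have hθAK : 0 ≤ F.P.θ * (A0 * K) := mul_nonneg hθ.le hA0K
  have hμ : ∑ c ∈ Icc Q.X Q.Y, |Q.μ c| ≤ F.P.θ * (A0 * K) := by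
    have : (∑ c ∈ Icc Q.X Q.Y, |Q.μ c|) / F.P.θ ≤ A0 * K := by linarith
    rwa [div_le_iff₀' hθ] at this
  have hat : ∀ q ∈ Λ, q.1 ∈ Icc Q.X Q.Y ∧ |q.2| ≤ A' * K ∧ ∃ v, F.Vp len ω A' Cv K R q.2 v := by
    intro q hq
    have hq2 : |q.2| ≤ A' * K := by
      linarith only [atom_RLZ hq, hΛs, hμ, hA'K, hC1K, hA0K, hC1]
    obtain ⟨v, v1, v2, v3, v4, v5⟩ := hV K R hK hR1
      (by linarith only [hRA, hAK, hA'K, hC1K, hθAK, hC1]) hp q.2 hq2
    have hCR : Cv0 * R ≤ Cv * R := mul_le_mul_of_nonneg_right hCv1 hR0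
    refine ⟨hΛF q hq, hq2, v, v1, v2, v3.trans (mul_le_mul_of_nonneg_right hCv1 hK0),
      P1 _ _ _ _ _ _ _ hCv1 (by linarith only [hCR]) hCR v4, fun y hy e he => (v5 y hy e he).trans ?_⟩
    exact mul_le_mul_of_nonneg_right hCR (pow_nonneg hK0 _)
  obtain ⟨l', i1, i2, i3, i4, i5, i6⟩ := hINS K R Q.X Q.Y Λ (syl Ls) (syl Ls).length Ls.length hK hR1
    (by linarith only [hX, hA'K, hC1K, hθAK, hA0K]) (by linarith only [hY, hA'K, hC1K, hθAK, hA0K])
    hat (mem_syl_RLZ hLT)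
    (P1 _ _ _ _ _ _ _ hCv2 le_rfl le_rfl (P4 Ls hLT)) hLc
  have hsi := F.sym s hs
  have hsum2 : (List.map F.P.a [s, s⁻¹]).sum = 0 := by simp [F.a_inv]
  have hT : ∀ x ∈ [s, s⁻¹] ++ l', x ∈ T := by
    intro x hx
    rcases List.mem_append.1 hx with hx | hx
    · simp only [List.mem_cons, List.not_mem_nil, or_false] at hx
      rcases hx with rfl | rfl
      · exact hs
      · exact hsi
    · exact i1 x hx
  have hΛCv : Λ.length * Cv ≤ ρ * Cv := mul_le_mul_of_nonneg_right hΛl' hCv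
  have hlen : ((([s, s⁻¹] ++ l').length : ℕ) : ℝ) ≤ (2 + A0 + C1 + ρ * Cv) * K := by
    have e1 : ((([s, s⁻¹] ++ l').length : ℕ) : ℝ) = 2 + l'.length := by
      rw [List.length_append]; push_cast; rfl
    have e2 : Λ.length * Cv * K ≤ ρ * Cv * K := mul_le_mul_of_nonneg_right hΛCv hK0
    have e3 : (2 + A0 + C1 + ρ * Cv) * K = 2 * K + A0 * K + C1 * K + ρ * Cv * K := by ring
    rw [e1, e3]
    linarith only [i2, e2, hLl, hsum, hs0', hQt, hAK, hC1K, hK]
  refine ⟨[s, s⁻¹] ++ l', hT, hlen.trans (mul_le_mul_of_nonneg_right c1 hK0), ?_, ?_, ?_⟩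
  · have q1 := P4 [(s, 1), (s⁻¹, 1)] (by
      intro q hq
      simp only [List.mem_cons, List.not_mem_nil, or_false] at hq
      rcases hq with rfl | rfl
      · exact hs
      · exact hsi)
    have e1 : syl [(s, 1), (s⁻¹, 1)] = [s, s⁻¹] := by simp [syl]
    rw [e1] at q1
    have q2 := P2 _ _ _ _ _ _ _ (P1 _ _ _ _ _ _ _ hCv2 le_rfl le_rfl q1) i3
    have e2 : ((([s, s⁻¹] : List N).length : ℕ) : ℝ) = 2 := by simp
    have e3 : ((([(s, 1), (s⁻¹, 1)] : List (N × ℕ)).length : ℕ) : ℝ) = 2 := by simp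
    rw [e2, e3] at q2
    have e4 : Λ.length * Cv * R ≤ ρ * Cv * R := mul_le_mul_of_nonneg_right hΛCv hR0
    have e5 : (Λ.map fun p => |p.2|).sum / F.P.θ ≤ (∑ c ∈ Icc Q.X Q.Y, |Q.μ c|) / F.P.θ :=
      div_le_div_of_nonneg_right hΛs hθ.le
    have e6 : (Ls.length : ℝ) ≤ m := by exact_mod_cast hLm
    have e7 : (2 + C1 + ρ * Cv) * R ≤ C * R := mul_le_mul_of_nonneg_right c2 hR0
    have e8 : (2 + m + ρ + ρ * Cv) * R ≤ C * R := mul_le_mul_of_nonneg_right c3 hR0
    have e9 : 2 + C1 ≤ (2 + C1) * R := le_mul_of_one_le_right (by linarith) hR1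
    have e10 : 2 + m + ρ ≤ (2 + m + ρ) * R := le_mul_of_one_le_right (by linarith) hR1
    exact P1 _ _ _ _ _ _ _ c4 (by linarith only [e4, e5, e7, e9, hsum, hLl])
      (by linarith only [e4, e6, e8, e10, hΛl']) q2
  · have q1 := hNEA K _ hK hT hlen
    have hER : E ≤ E * R := le_mul_of_one_le_right hE0 hR1
    have q2 := Fd.Cl.move (z' := fun j => F.Z.co ([s, s⁻¹] ++ l').prod j) (n' := Q.n)
      (m' := Q.mom F.P) (R1 := 0) (R2 := E * R) q1 hk hk1 hK0 (fun j => by simp) (by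
        rw [List.map_append, List.sum_append, hsum2, zero_add, i4]
        rw [Int.cast_sub] at hLn
        linarith only [hLn, hER, hE, hρC3, hD0]) (by
        intro e he
        have hKe : 1 ≤ K ^ e := one_le_pow₀ hK
        have r1 := pair_RLZ F.P.a F.P.β s s⁻¹ hB1' (hB s hs).2.1 (hB s hs).2.2
          (hB s⁻¹ hsi).2.2 he
        rw [← hD] at r1
        have r2 := i6 e he
        have r3 := hLe e he
        rw [hΛe e he] at r2
        have r4 : Λ.length * C3 * R * K ^ e ≤ ρ * C3 * R * K ^ e :=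
          mul_le_mul_of_nonneg_right (mul_le_mul_of_nonneg_right
            (mul_le_mul_of_nonneg_right hΛl' hC3) hR0) (by linarith)
        have r5 : C1 * K ^ e ≤ C1 * R * K ^ e :=
          mul_le_mul_of_nonneg_right (le_mul_of_one_le_right (by linarith) hR1) (by linarith)
        have r6 : D ≤ D * R * K ^ e :=
          (le_mul_of_one_le_right hD0 hR1).trans (le_mul_of_one_le_right (by positivity) hKe)
        have r7 : E * R * K ^ e = C1 * R * K ^ e + ρ * C3 * R * K ^ e + D * R * K ^ e := by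
          rw [hE]; ring
        show |Isum F.P.a F.P.β e 0 ([s, s⁻¹] ++ l') - Q.mom F.P e| ≤ _
        rw [isum_app, hsum2, add_zero, Cfg.mom, abs_le]
        rw [abs_le] at r1 r2 r3
        constructor <;> linarith only [r1.1, r1.2, r2.1, r2.2, r3.1, r3.2, r4, r5, r6, r7])
    refine q2.mono ?_ hK0
    have e1 : (C5 + k * E) * R ≤ C * R := mul_le_mul_of_nonneg_right c5 hR0
    have e2 : C5 ≤ C5 * R := le_mul_of_one_le_right (by linarith) hR1
    linarith only [e1, e2]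
  · by_cases hbig : 2 * (A0 + C1) + 2 ≤ L
    · obtain ⟨c, hc, hce⟩ := reach_RLZ hQ.1 hQ.2.2.1
      obtain ⟨i, hi⟩ := i5 c hc
      have e0 : 2 * (L / 2) ≤ C * (L / 2) :=
        mul_le_mul_of_nonneg_right hC2 (by linarith only [hL1])
      refine ⟨L / 2, i + 2, by linarith only [hbig, hA1, hC1], by linarith only [hL1],
        by linarith only [e0], ?_⟩
      have e1 : F.Z.co (List.take (i + 2) ([s, s⁻¹] ++ l')).prod F.Z.j0 = ht F.P.a l' i := by
        rw [← F.ha, (N1 _).1]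
        simp [ht, F.a_inv]
      rw [e1]
      rw [hce] at hLX
      push_cast at hi
      have := abs_sub_abs_le_abs_sub (c : ℝ) (ht F.P.a l' i : ℝ)
      rw [abs_sub_comm] at this
      linarith only [this, hi, hLX, hbig, hA0]
    · refine ⟨1, 1, le_rfl, hL1, by linarith only [not_le.1 hbig, c6], ?_⟩
      have e1 : (List.take 1 ([s, s⁻¹] ++ l')).prod = s := by simp
      rw [e1]
      have : (1 : ℤ) ≤ |F.Z.co s F.Z.j0| := Int.one_le_abs hs0
      exact_mod_cast this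

end

section


theorem UP2_pf : UP2_st.{u} := by
  intro G _ S J _ Z A
  classical
  obtain ⟨Cs, hCs, hs⟩ := Z.sum_est
  choose Cj hCj hr using fun j => refine_est (S ∪ S.image (·⁻¹)) (fun s => Z.co s Z.j0)
    (fun s => Z.c s j) (Z.W j - 1)
  have hle : ∀ j, Cj j ≤ ∑ i, Cj i := fun j =>
    Finset.single_le_sum (fun i _ => hCj i) (Finset.mem_univ j)
  have hCr : 0 ≤ ∑ i, Cj i := Finset.sum_nonneg fun i _ => hCj i
  set R0 : ℝ := 2 * Cs + ∑ i, Cj i + 2 with hR0
  have hR1 : 1 ≤ R0 := by linarith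
  obtain ⟨C, hC, hH⟩ := Z.H2 (R0 * A)
  refine ⟨C * R0, by positivity, fun K L R hL hLK hR hp u hw hu ⟨n, hn⟩ z hz => ⟨1, le_rfl, ?_⟩⟩
  intro m hm _
  have hK : 1 ≤ K := hL.trans hLK
  have hm1 : (1 : ℝ) ≤ m := by exact_mod_cast hm
  have hm0 : (0 : ℝ) < m := by linarith
  set l := u.flatMap (List.replicate m) with hl
  have hlen : (l.length : ℝ) = m * u.length := by rw [hl, CUL_len]; push_cast; rfl
  have hlK : (l.length : ℝ) ≤ m * K := by rw [hlen]; gcongr
  have hlw : Word S l := by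
    intro s hs
    obtain ⟨t, ht, hst⟩ := List.mem_flatMap.1 hs
    rw [List.eq_of_mem_replicate hst]
    exact hw t ht
  have hdiv : m * K / (m * L) = K / L := mul_div_mul_left _ _ hm0.ne'
  have hRR : 1 ≤ R0 * R := one_le_mul_of_one_le_of_one_le hR1 hR
  obtain ⟨l', h1, h2, -, h3⟩ := hH (m * K) (m * L) (R0 * R * m) (by nlinarith) (by gcongr)
    (one_le_mul_of_one_le_of_one_le hRR hm1) (by
      rw [hdiv]
      have := mul_le_mul_of_nonneg_left hp (by positivity : (0 : ℝ) ≤ R0 * m)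
      linarith) l hlw hlK
    ⟨((u.take n).flatMap (List.replicate m)).length, by
      have e : l = (u.take n).flatMap (List.replicate m) ++ (u.drop n).flatMap (List.replicate m) := by
        rw [← List.flatMap_append, List.take_append_drop]
      rw [e, List.take_left, CUL_rep]
      push_cast
      rw [abs_mul, abs_of_pos hm0]
      gcongr⟩
    (Z.pt (dil Z.W m z)) (fun j => by
      have a1 := CUL_comb hm1 hK hCs (hs (m * K) (by nlinarith) l hlw hlK j)
        (hr j m K u hm hK (fun s hs => by convert CUL_mem.2 (hw s hs)) hu) (hs K hK u hw hu j)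
      have a2 := CUL_floor ((m : ℝ) ^ Z.W j * z j)
      have e : R0 * R * m * (m * K) ^ (Z.W j - 1) =
          R0 * (R * ((m : ℝ) ^ Z.W j * K ^ (Z.W j - 1))) := by
        conv_rhs => rw [← Nat.sub_add_cancel (Z.W_pos j), pow_succ, Nat.add_sub_cancel]
        ring
      rw [Nat.sub_add_cancel (Z.W_pos j), abs_sub_comm] at a1
      rw [e, Z.co_pt]
      simp only [dil]
      have hM : (1 : ℝ) ≤ (m : ℝ) ^ Z.W j := one_le_pow₀ hm1
      have hKe : (1 : ℝ) ≤ K ^ (Z.W j - 1) := one_le_pow₀ hK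
      have a3 : |(m : ℝ) ^ Z.W j * z j - (m : ℝ) ^ Z.W j * Z.co u.prod j| ≤
          R * ((m : ℝ) ^ Z.W j * K ^ (Z.W j - 1)) := by
        rw [← mul_sub, abs_mul, abs_of_nonneg (by linarith : (0 : ℝ) ≤ (m : ℝ) ^ Z.W j),
          abs_sub_comm, mul_left_comm]
        exact mul_le_mul_of_nonneg_left (hz j) (by linarith)
      have a4 := abs_sub_le ((⌊(m : ℝ) ^ Z.W j * z j⌋ : ℤ) : ℝ) ((m : ℝ) ^ Z.W j * z j)
        (Z.co l.prod j : ℝ)
      have a5 := abs_sub_le ((m : ℝ) ^ Z.W j * z j) ((m : ℝ) ^ Z.W j * Z.co u.prod j)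
        (Z.co l.prod j : ℝ)
      have a6 : (1 : ℝ) ≤ (m : ℝ) ^ Z.W j * K ^ (Z.W j - 1) :=
        one_le_mul_of_one_le_of_one_le hM hKe
      obtain ⟨Y, hY⟩ : ∃ Y, Y = (m : ℝ) ^ Z.W j * K ^ (Z.W j - 1) := ⟨_, rfl⟩
      rw [← hY] at a1 a3 a6 ⊢
      have a7 : Y ≤ R * Y := le_mul_of_one_le_left (by linarith) hR
      have a8 : (2 * Cs + Cj j) * Y ≤ (2 * Cs + ∑ i, Cj i) * (R * Y) :=
        mul_le_mul (by linarith [hle j]) a7 (by linarith) (by linarith)
      rw [hR0]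
      nlinarith)
  refine ⟨l', h3.trans_eq ?_, h1, h2⟩
  rw [hdiv, hlen]
  ring

end

section


theorem len_RCB {N : Type u} [Group N] (T : Finset N) : Len T (fun _ => (0 : ℝ)) 0 :=
  ⟨le_rfl, rfl, fun _ _ => by simp, fun _ => rfl, fun _ _ j => by simp⟩

theorem word_RCB {N : Type u} [Group N] {T : Finset N} {J : Type} [Fintype J] (F : Fd T J) :
    ∃ w : List N, (∀ x ∈ w, x ∈ T) ∧ F.P.a w.prod = 0 ∧ 0 < w.length ∧
      F.P.β w.prod = F.P.θ * w.length := by
  rcases F.att with ⟨s, hs, h1, h2⟩ | ⟨s, s', hs, hs', h1, h2, h3, h4⟩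
  · exact ⟨[s], by simpa using hs, by simpa using h1, by simp, by simpa using h2⟩
  · rw [F.hT] at hs hs'
    have e1 : (((F.P.a s').natAbs : ℕ) : ℤ) = -F.P.a s' := by omega
    have e2 : (((F.P.a s).natAbs : ℕ) : ℤ) = F.P.a s := by omega
    have e3 : (((F.P.a s').natAbs : ℕ) : ℝ) = -(F.P.a s' : ℝ) := by
      rw [← Int.cast_natCast, e1, Int.cast_neg]
    have e4 : (((F.P.a s).natAbs : ℕ) : ℝ) = (F.P.a s : ℝ) := by
      rw [← Int.cast_natCast, e2]
    refine ⟨List.replicate (F.P.a s').natAbs s ++ List.replicate (F.P.a s).natAbs s', ?_, ?_, ?_,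
      ?_⟩
    · intro x hx
      rcases List.mem_append.mp hx with h | h
      · rw [List.eq_of_mem_replicate h]
        exact hs
      · rw [List.eq_of_mem_replicate h]
        exact hs'
    · rw [List.prod_append, List.prod_replicate, List.prod_replicate, F.a_mul, F.a_pow, F.a_pow,
        e1, e2]
      ring
    · rw [List.length_append, List.length_replicate, List.length_replicate]
      omega
    · rw [List.prod_append, List.prod_replicate, List.prod_replicate, F.β_mul, F.β_pow, F.β_pow,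
        List.length_append, List.length_replicate, List.length_replicate, Nat.cast_add, e3, e4]
      linear_combination (-(F.P.a s' : ℝ)) * h3 + (F.P.a s : ℝ) * h4

theorem vp_RCB (h2 : VPW_st.{u}) {N : Type u} [Group N] {T : Finset N} {J : Type} [Fintype J]
    (F : Fd T J) : F.VP (fun _ => (0 : ℝ)) 1 fun _ _ => True := by
  obtain ⟨w, hw, ha, hl, hb⟩ := word_RCB F
  have hθ := F.P.θ_pos
  have hl' : (0 : ℝ) < w.length := by exact_mod_cast hl
  have hp : 0 < F.P.β w.prod := by rw [hb]; positivity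
  refine h2 N T J F _ 0 1 0 w (len_RCB T) hw ha hp (fun j => ?_) ?_
  · positivity
  · rw [hb, one_mul, mul_div_cancel_left₀ _ hθ.ne']

theorem RCB_pf (h1 : RLZ_st.{u}) (h2 : VPW_st.{u}) (h3 : UP2_st.{u}) (h4 : PCS_st.{u}) :
    RCB_st.{u} := by
  intro N _ T J _ F A
  obtain ⟨C1, hC1, hR⟩ := h1 N T J F _ 0 1 _ (len_RCB T) le_rfl (vp_RCB h2 F) A
  obtain ⟨Cu, hCu, hU⟩ := h3 N T J F.Z ((C1 + 1) * (C1 ^ 2) ^ F.Z.p * A)
  have hC0 : 0 < C1 := by linarith
  refine ⟨C1 + Cu * (C1 + 1) * (C1 ^ 2) ^ F.Z.p, by positivity, ?_⟩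
  intro K L R Q hL hLK hR1 hRA hQ hQt hLQ z hz
  have hL0 : 0 < L := by linarith
  have hK : 1 ≤ K := hL.trans hLK
  have hlam : 1 ≤ (K / L) ^ F.Z.p := one_le_pow₀ ((one_le_div hL0).mpr hLK)
  have hRK : R ≤ A * K := by nlinarith
  have hA : 0 ≤ A := by nlinarith
  obtain ⟨l, hlT, hll, hP, hcl, L', i, hL1, hL2, hL3, hL4⟩ :=
    hR K L R Q hL hLK hR1 hRK trivial hQ hQt hLQ
  have h5 := (h4 N T _ 0 1 (len_RCB T) le_rfl).2.2.2.2.1 _ _ _ _ hP
  rw [one_mul] at h5
  have hKK : K ≤ C1 * K := by nlinarith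
  have hL'0 : 0 < L' := by linarith
  have hq : C1 * K / L' ≤ C1 ^ 2 * (K / L) := by
    rw [← mul_div_assoc, div_le_div_iff₀ hL'0 hL0]
    have := mul_le_mul_of_nonneg_left hL3 (show 0 ≤ C1 * K by positivity)
    nlinarith
  have hq2 : (C1 * K / L') ^ F.Z.p ≤ (C1 ^ 2) ^ F.Z.p * (K / L) ^ F.Z.p := by
    rw [← mul_pow]
    exact pow_le_pow_left₀ (by positivity) hq _
  have hq3 : (C1 + 1) * R * (C1 * K / L') ^ F.Z.p ≤
      (C1 + 1) * (C1 ^ 2) ^ F.Z.p * (R * (K / L) ^ F.Z.p) := by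
    have := mul_le_mul_of_nonneg_left hq2 (show 0 ≤ (C1 + 1) * R by positivity)
    linarith
  have h6 := hU (C1 * K) L' ((C1 + 1) * R) hL1 (by linarith) (by nlinarith) (by
      refine hq3.trans ?_
      rw [mul_assoc _ A]
      refine mul_le_mul_of_nonneg_left (hRA.trans ?_) (by positivity)
      exact mul_le_mul_of_nonneg_left hKK hA)
    l ((F.word l).mpr hlT) hll ⟨i, hL4⟩ z (fun j => by
      have e1 : K ^ (F.Z.W j - 1) ≤ (C1 * K) ^ (F.Z.W j - 1) :=
        pow_le_pow_left₀ (by linarith) hKK _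
      refine le_trans ?_ (mul_le_mul_of_nonneg_left e1 (by positivity))
      by_cases hj : j = F.Z.j0
      · subst hj
        rw [F.Z.W_j0, Nat.sub_self, pow_zero, mul_one]
        have a1 := hcl.1
        have a2 := hz.1
        have a3 := abs_sub_le (F.Z.co l.prod F.Z.j0 : ℝ) Q.n (z F.Z.j0)
        rw [abs_sub_comm (Q.n : ℝ)] at a3
        linarith
      · have a1 := hcl.2 j hj
        have a2 := hz.2 j hj
        have a3 := abs_sub_le (F.Z.co l.prod j : ℝ) (F.κ j * Q.mom F.P (F.Z.W j - 1)) (z j)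
        rw [abs_sub_comm (F.κ j * _)] at a3
        linarith)
  refine F.Z.mono_B ?_ h6
  have b1 := mul_le_mul_of_nonneg_left hq3 hCu
  have b2 : C1 * R ≤ C1 * R * (K / L) ^ F.Z.p := le_mul_of_one_le_right (by positivity) hlam
  nlinarith

end

section


theorem RCG_pf (h1 : RLZ_st.{u}) (h2 : PCS_st.{u}) : RCG_st.{u} := by
  intro N _ T J _ F len C0 p hl hV A
  obtain ⟨C1, c1, k1⟩ := h1 N T J F len C0 0 p hl zero_le_one hV A
  obtain ⟨C2, c2, k2⟩ := F.Z.H2 ((C1 + |A|) * (C1 ^ 2) ^ F.Z.p * |A|)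
  have c0 := hl.nn
  have c3 : 0 ≤ C1 := by linarith
  have hA := abs_nonneg A
  refine ⟨C1 + C1 * C1 + (C1 + C0 + 1) * (C2 * ((C1 + |A|) * (C1 ^ 2) ^ F.Z.p)), by positivity,
    fun K L R Q hL hLK hR hA1 hp hQ hT hX g hg => ?_⟩
  have hK : 1 ≤ K := hL.trans hLK
  have hq : 1 ≤ (K / L) ^ F.Z.p := one_le_pow₀ ((one_le_div (by linarith)).2 hLK)
  have hR1 : R ≤ R * (K / L) ^ F.Z.p := le_mul_of_one_le_right (by linarith) hq
  obtain ⟨l, l1, l2, l3, l4, L', i, m1, m2, m3, m4⟩ :=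
    k1 K L R Q hL hLK hR (hR1.trans hA1) hp hQ hT hX
  have hK1 : K ≤ C1 * K := le_mul_of_one_le_left (by linarith) c1
  have e1 : (C1 * K / L') ^ F.Z.p ≤ (C1 ^ 2) ^ F.Z.p * (K / L) ^ F.Z.p := by
    rw [← mul_pow]
    refine pow_le_pow_left₀ (by positivity) ?_ _
    rw [← mul_div_assoc, div_le_div_iff₀ (by linarith) (by linarith)]
    nlinarith [mul_le_mul_of_nonneg_left m3 (show 0 ≤ C1 * K by positivity)]
  have e2 : (C1 + |A|) * R * (C1 * K / L') ^ F.Z.p ≤
      (C1 + |A|) * (C1 ^ 2) ^ F.Z.p * (R * (K / L) ^ F.Z.p) :=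
    (mul_le_mul_of_nonneg_left e1 (by positivity)).trans_eq (by ring)
  have e3 : A * R ≤ |A| * R := mul_le_mul_of_nonneg_right (le_abs_self A) (by linarith)
  obtain ⟨l', w1, w2, w3, w4⟩ := k2 (C1 * K) L' ((C1 + |A|) * R) m1
    (m2.trans (hLK.trans hK1)) (by nlinarith) (e2.trans (by
      rw [mul_assoc _ |A|]
      refine mul_le_mul_of_nonneg_left (hA1.trans ?_) (by positivity)
      exact mul_le_mul (le_abs_self A) hK1 (by linarith) hA)) l ((F.word l).2 l1) l2 ⟨i, m4⟩ g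
    fun j => by
      by_cases hj : j = F.Z.j0
      · subst hj
        rw [F.Z.W_j0, Nat.sub_self, pow_zero, mul_one]
        have := abs_sub_le (F.Z.co g F.Z.j0 : ℝ) Q.n (F.Z.co l.prod F.Z.j0)
        rw [abs_sub_comm (Q.n : ℝ)] at this
        linarith [hg.1, l4.1]
      · have := abs_sub_le (F.Z.co g j : ℝ) (F.κ j * Q.mom F.P (F.Z.W j - 1)) (F.Z.co l.prod j)
        rw [abs_sub_comm (F.κ j * _)] at this
        refine le_trans ?_ (mul_le_mul_of_nonneg_left
          (pow_le_pow_left₀ (by linarith) hK1 _) (by positivity))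
        linarith [hg.2 j hj, l4.2 j hj,
          mul_le_mul_of_nonneg_right e3 (pow_nonneg (by linarith : 0 ≤ K) (F.Z.W j - 1))]
  have f := (h2 N T len C0 0 hl zero_le_one).2.2.2.2.2 C1 l l' _ _ c3 l3 w3 ((F.word l').1 w1)
  rw [w2] at f
  have f1 : (l'.length : ℝ) - l.length ≤
      C2 * ((C1 + |A|) * (C1 ^ 2) ^ F.Z.p * (R * (K / L) ^ F.Z.p)) := by
    linarith [mul_le_mul_of_nonneg_left e2 c2]
  linarith [mul_le_mul_of_nonneg_left f1 (show 0 ≤ C1 + C0 + 1 by positivity),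
    mul_le_mul_of_nonneg_left hR1 (show 0 ≤ C1 + C1 * C1 by positivity)]

end

section


theorem zero_AB1 {α : Type u} (a : α → ℤ) (c : α → ℝ) (l : List α) (y : ℤ) :
    Isum a c 0 y l = (l.map c).sum := by
  induction l generalizing y with
  | nil => rfl
  | cons s l ih => simp [Isum, ih]

theorem rep_AB1 {N : Type u} [Group N] (T : Finset N) (a : N → ℤ) (c : N → ℝ) (w : List N)
    (hw : ∀ x ∈ w, x ∈ T) (h0 : (w.map a).sum = 0) (j : ℕ) :
    ∃ v : List N, (∀ x ∈ v, x ∈ T) ∧ v.prod = w.prod ^ j ∧ v.length = w.length * j ∧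
      (v.map a).sum = 0 ∧ ∀ e, Isum a c e 0 v = j * Isum a c e 0 w := by
  induction j with
  | zero => exact ⟨[], by simp, by simp, by simp, by simp, fun e => by simp [Isum]⟩
  | succ j ih =>
    obtain ⟨v, h1, h2, h3, h4, h5⟩ := ih
    refine ⟨v ++ w, fun x hx => (List.mem_append.1 hx).elim (h1 x) (hw x), ?_, ?_, ?_, fun e => ?_⟩
    · rw [List.prod_append, h2, pow_succ]
    · rw [List.length_append, h3, Nat.mul_succ]
    · rw [List.map_append, List.sum_append, h4, h0, add_zero]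
    · rw [isum_app, h4, h5, add_zero]
      push_cast
      ring

theorem near_AB1 (h3 : NEA_st.{u}) {N : Type u} [Group N] {T : Finset N} {J : Type} [Fintype J]
    (F : Fd T J) (g : N) (hg : F.P.a g = 0) : ∃ C : ℝ, ∀ j : ℕ, 1 ≤ j →
      F.Cl (fun i => F.Z.co (g ^ j) i) 0 (fun e => j * F.P.β g * 0 ^ e) C j := by
  obtain ⟨w, hw, rfl⟩ := exists_word F.gen g
  obtain ⟨a1, -, -, C, -, hC⟩ := h3 N T J F w.length
  obtain ⟨k, hk1, hk⟩ := F.kbd
  have h0 : 0 ≤ ∑ e ∈ range F.r, |Isum F.P.a F.P.β e 0 w| := sum_nonneg fun _ _ => abs_nonneg _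
  refine ⟨C + 0 + k * ∑ e ∈ range F.r, |Isum F.P.a F.P.β e 0 w|, fun j hj => ?_⟩
  obtain ⟨v, b1, b2, b3, b4, b5⟩ := rep_AB1 T F.P.a F.P.β w ((F.word w).1 hw)
    ((a1 w).1.symm.trans hg) j
  have hj' : (1 : ℝ) ≤ j := by exact_mod_cast hj
  have := hC j v hj' b1 (by rw [b3, Nat.cast_mul])
  rw [b2, b4] at this
  refine this.move hk hk1 (by linarith) (fun i => by simp) (by simpa using h0) fun e he => ?_
  rw [b5]
  rcases e with _ | e
  · rw [zero_AB1, (a1 w).2]
    simpa using h0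
  · rw [pow_succ (0 : ℝ), mul_zero, mul_zero, sub_zero, abs_mul, Nat.abs_cast, mul_comm]
    exact mul_le_mul (single_le_sum (f := fun e => |Isum F.P.a F.P.β e 0 w|)
      (fun _ _ => abs_nonneg _) (mem_range.2 he)) (le_self_pow₀ hj' e.succ_ne_zero) (by linarith) h0

theorem cfg_AB1 {α : Type u} (P : Alph α) {s s' : α} (hs : s ∈ P.T) (hs' : s' ∈ P.T)
    (h : 0 < P.a s) (h' : P.a s' < 0) : ∃ C : ℝ, 0 ≤ C ∧ ∀ (y : ℕ) (x : ℝ), 0 ≤ x →
      ∃ Q : Cfg α, Q.Ok P ∧ Q.Y = y ∧ Q.n = 0 ∧ Q.time P ≤ x / P.θ + C * y ∧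
        Q.mom P = fun e => x * 0 ^ e := by
  classical
  have hθ := P.θ_pos
  obtain ⟨b, hb⟩ : ∃ b, b = P.β s / |(P.a s : ℝ)| + P.β s' / |(P.a s' : ℝ)| := ⟨_, rfl⟩
  refine ⟨2 + |b| / P.θ, by positivity, fun y x hx => ⟨⟨0, y, 0, fun _ t => if t = s then 1 else 0,
    fun _ t => if t = s' then 1 else 0,
    fun c => (if c = 0 then x else 0) - if c ∈ Ico (0 : ℤ) y then b else 0⟩, ?_, rfl, rfl, ?_, ?_⟩⟩
  · refine ⟨le_rfl, le_rfl, y.cast_nonneg, y.cast_nonneg, fun c _ =>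
      ⟨fun t _ => ?_, ?_, fun t _ => ?_, ?_⟩⟩
    · by_cases e : t = s <;> simp [e, h]
    · simp only [sum_ite_eq', if_pos hs, mU]
      exact (if_neg (by omega)).symm
    · by_cases e : t = s' <;> simp [e, h']
    · simp only [sum_ite_eq', if_pos hs', mD]
      exact (if_neg (by omega)).symm
  · have k : ∀ t, P.a t ≠ 0 → 1 / |(P.a t : ℝ)| ≤ 1 := fun t ht =>
      (div_le_one (abs_pos.2 (by exact_mod_cast ht))).2 (by exact_mod_cast Int.one_le_abs ht)
    have k1 := k s h.ne'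
    have k2 := k s' h'.ne
    have k3 : ∑ c ∈ Icc (0 : ℤ) y, |(if c = 0 then x else 0) - if c ∈ Ico (0 : ℤ) y then b else 0| ≤
        x + y * |b| := by
      refine (sum_le_sum (g := fun c => (if c = 0 then x else 0) +
        if c ∈ Ico (0 : ℤ) y then |b| else 0) fun c _ => (abs_sub _ _).trans (le_of_eq ?_)).trans ?_
      · split_ifs <;> simp [abs_of_nonneg hx]
      · rw [sum_add_distrib, sum_ite_mem, inter_eq_right.2 Ico_subset_Icc_self]
        simp
    simp only [Cfg.time, Cfg.time0, add_div, sum_add_distrib, ite_div, zero_div, sum_ite_eq',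
      if_pos hs, if_pos hs', sum_const, Int.card_Ico, sub_zero, Int.toNat_natCast, nsmul_eq_mul,
      ← sum_div]
    have k4 := div_le_div_of_nonneg_right k3 hθ.le
    rw [add_div, mul_div_assoc] at k4
    linarith [mul_le_mul_of_nonneg_left k1 y.cast_nonneg, mul_le_mul_of_nonneg_left k2 y.cast_nonneg]
  · funext e
    simp only [Cfg.mom, Cfg.mom0, add_div, add_mul, sum_add_distrib, ite_div, ite_mul, zero_mul,
      one_mul, zero_div, sum_ite_eq', if_pos hs, if_pos hs', sub_mul, sum_sub_distrib, sum_ite_mem,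
      inter_eq_right.2 Ico_subset_Icc_self, hb]
    simp

theorem AB1_pf (h1 : RCG_st.{u}) (h2 : VPZ_st.{u}) (h3 : NEA_st.{u}) : AB1_st.{u} := by
  rintro N _ T J _ F len C0 s s' hL hP g hg hβ ⟨τ, C', hτ⟩
  have hθ := F.P.θ_pos
  suffices h : τ ≤ F.P.β g / F.P.θ by
    refine ⟨g, hg, hβ, C', fun j => ?_⟩
    have := mul_le_mul_of_nonneg_left h j.cast_nonneg
    rw [mul_div_assoc]
    linarith [(abs_le.1 (hτ j)).2]
  by_contra hn
  obtain ⟨C3, hC3⟩ := near_AB1 h3 F g hg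
  obtain ⟨C2, h20, hC2⟩ := cfg_AB1 F.P hP.1 hP.2.1 hP.2.2.1 hP.2.2.2.1
  obtain ⟨ρ, hρ⟩ : ∃ ρ, ρ = F.P.β g / F.P.θ := ⟨_, rfl⟩
  have hρ0 : 0 ≤ ρ := by
    rw [hρ]
    positivity
  rw [← hρ, not_le, ← sub_pos] at hn
  obtain ⟨C, hC0, hC⟩ := h1 N T J F len C0 _ hL (h2 N T J F len C0 s s' hL hP) (|C3| + 1 + ρ + C2)
  obtain ⟨m, hm⟩ := exists_nat_ge ((C2 + 1) / (τ - ρ) + 1)
  have hm1 : (1 : ℝ) ≤ m := le_trans (le_add_of_nonneg_left (by positivity)) hm
  have hm2 : C2 + 1 ≤ m * (τ - ρ) := (div_le_iff₀ hn).1 (by linarith)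
  obtain ⟨M, hM⟩ : ∃ M : ℝ, M = m * m ^ F.Z.p := ⟨_, rfl⟩
  have hM0 : 0 ≤ M := by
    rw [hM]
    positivity
  obtain ⟨t, ht⟩ := exists_nat_ge (M + |C'| + C * M + 1)
  have hCM := mul_nonneg hC0 hM0
  have ht1 : (1 : ℝ) ≤ t := by linarith [abs_nonneg C']
  have t3 : (1 : ℝ) ≤ t ^ 3 := one_le_pow₀ ht1
  have t2 : (t : ℝ) * t ≤ t ^ 3 := sq (t : ℝ) ▸ pow_le_pow_right₀ ht1 (by norm_num)
  have hK : (t : ℝ) ^ 3 ≤ m * t ^ 3 := le_mul_of_one_le_left (by linarith) hm1
  have hR : (1 : ℝ) ≤ m * t := one_le_mul_of_one_le_of_one_le hm1 ht1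
  have hA : (1 : ℝ) ≤ |C3| + 1 + ρ + C2 := by linarith [abs_nonneg C3]
  obtain ⟨Q, q1, q2, q3, q4, q5⟩ := hC2 (t ^ 3) ((m * t ^ 3 : ℕ) * F.P.β g) (by positivity)
  have c1 := hC3 (m * t ^ 3) (by exact_mod_cast t3.trans hK)
  have c2 := (abs_le.1 (hτ (m * t ^ 3))).1
  rw [mul_div_assoc, ← hρ] at q4
  rw [← q5, ← q3] at c1
  push_cast at q4 c1 c2
  have e : (m : ℝ) * t * (m * t ^ 3 / t ^ 3) ^ F.Z.p = M * t := by
    rw [mul_div_cancel_right₀ _ (by linarith), hM]
    ring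
  have key := hC (m * t ^ 3) (t ^ 3) (m * t) Q t3 hK hR
    (by
      rw [e]
      refine le_trans ?_ (le_mul_of_one_le_left (by linarith) hA)
      have : M * t ≤ t * t := mul_le_mul_of_nonneg_right (by linarith [abs_nonneg C']) (by linarith)
      linarith)
    (Or.inl (by
      rw [mul_pow]
      exact mul_le_mul_of_nonneg_right (le_self_pow₀ hm1 (by norm_num)) (by linarith))) q1
    (by
      have := mul_nonneg (abs_nonneg C3) (by linarith : (0 : ℝ) ≤ m * t ^ 3)
      linarith [mul_le_mul_of_nonneg_left hK h20])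
    (by
      have : ((t : ℝ) ^ 3) ≤ (max (-Q.X) Q.Y : ℤ) := by
        exact_mod_cast q2.ge.trans (le_max_right (-Q.X) Q.Y)
      linarith) _
    (c1.mono (le_trans (by linarith [le_abs_self C3]) (le_mul_of_one_le_right (by linarith) hR))
      (by linarith))
  rw [mul_assoc C, e] at key
  have k1 := mul_le_mul_of_nonneg_right hm2 (by linarith : (0 : ℝ) ≤ t ^ 3)
  have k2 := mul_le_mul_of_nonneg_right ht (by linarith : (0 : ℝ) ≤ t)
  have k3 := mul_le_mul_of_nonneg_left ht1 (abs_nonneg C')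
  linarith [le_abs_self C', mul_nonneg hM0 (by linarith : (0 : ℝ) ≤ t)]

end

section


theorem isum_zero_AB2 {α : Type u} (a : α → ℤ) (c : α → ℝ) (l : List α) (y : ℤ) :
    Isum a c 0 y l = (l.map c).sum := by
  induction l generalizing y with
  | nil => simp [Isum]
  | cons s l ih => simp [Isum, ih]

theorem rep_sum_AB2 {α : Type u} (a : α → ℤ) (w : List α) (hw : (w.map a).sum = 0) (j : ℕ) :
    (((List.replicate j w).flatten).map a).sum = 0 := by
  induction j with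
  | zero => simp
  | succ j ih => rw [List.replicate_succ, List.flatten_cons, List.map_append, List.sum_append, hw, ih]; simp

theorem rep_isum_AB2 {α : Type u} (a : α → ℤ) (c : α → ℝ) (e : ℕ) (w : List α)
    (hw : (w.map a).sum = 0) (j : ℕ) :
    Isum a c e 0 (List.replicate j w).flatten = j * Isum a c e 0 w := by
  induction j with
  | zero => simp [Isum]
  | succ j ih =>
    rw [List.replicate_succ, List.flatten_cons, isum_app, hw, add_zero, ih]; push_cast; ring

theorem rep_prod_AB2 {N : Type u} [Group N] (w : List N) (j : ℕ) :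
    ((List.replicate j w).flatten).prod = w.prod ^ j := by
  induction j with
  | zero => simp
  | succ j ih => rw [List.replicate_succ, List.flatten_cons, List.prod_append, ih, pow_succ']

theorem rep_len_AB2 {α : Type u} (w : List α) (j : ℕ) :
    ((List.replicate j w).flatten).length = j * w.length := by
  induction j with
  | zero => simp
  | succ j ih => rw [List.replicate_succ, List.flatten_cons, List.length_append, ih]; ring

theorem sum_ico_AB2 (h : ℕ) : ∑ c ∈ Ico (-(h : ℤ)) h, (c : ℝ) = -h := by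
  induction h with
  | zero => simp
  | succ h ih =>
    have e1 : Ico (-((h + 1 : ℕ) : ℤ)) ((h + 1 : ℕ) : ℤ) =
        insert (-((h : ℤ) + 1)) (insert (h : ℤ) (Ico (-(h : ℤ)) h)) := by
      ext c
      simp only [mem_Ico, mem_insert]
      push_cast
      omega
    rw [e1, sum_insert (by simp only [mem_Ico, mem_insert]; omega),
      sum_insert (by simp only [mem_Ico]; omega), ih]
    push_cast
    ring

theorem card_ico_AB2 (h : ℕ) : ((Ico (-(h : ℤ)) h).card : ℝ) = 2 * h := by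
  have : (Ico (-(h : ℤ)) h).card = 2 * h := by
    rw [Int.card_Ico]; omega
  rw [this]; push_cast; ring

theorem AB2_pf (h1 : RCG_st.{u}) (h2 : VPZ_st.{u}) (h3 : NEA_st.{u}) : AB2_st.{u} := by
  classical
  intro N _ T J _ F len C0 s s' hL hP hr
  obtain ⟨hs, hs', ha, ha', hb, hb'⟩ := id hP
  obtain ⟨α, hα⟩ : ∃ α : ℕ, F.P.a s = α := ⟨(F.P.a s).toNat, by omega⟩
  obtain ⟨α', hα'⟩ : ∃ α' : ℕ, F.P.a s' = -α' := ⟨(-F.P.a s').toNat, by omega⟩
  have hα1 : 1 ≤ α := by omega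
  have hα1' : 1 ≤ α' := by omega
  have hαR : (1 : ℝ) ≤ α := by exact_mod_cast hα1
  have hαR' : (1 : ℝ) ≤ α' := by exact_mod_cast hα1'
  have hθ := F.P.θ_pos
  have hss : s ≠ s' := by rintro rfl; omega
  set w : List N := List.replicate α' s ++ List.replicate α s' with hw
  obtain ⟨n1, -, -, C, hC1, hC⟩ := h3 N T J F (α + α' : ℝ)
  have hwa : (w.map F.P.a).sum = 0 := by
    simp only [hw, List.map_append, List.map_replicate, List.sum_append, List.sum_replicate, hα,
      hα', nsmul_eq_mul]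
    ring
  have hwb : (w.map F.P.β).sum = F.P.θ * (α + α') := by
    simp only [hw, List.map_append, List.map_replicate, List.sum_append, List.sum_replicate,
      nsmul_eq_mul]
    rw [hα] at hb
    rw [hα'] at hb'
    push_cast at hb hb'
    linear_combination (α' : ℝ) * hb + (α : ℝ) * hb'
  have hwl : w.length = α' + α := by simp [hw]
  have hwT : ∀ x ∈ w, x ∈ T := by
    intro x hx
    rw [hw, List.mem_append] at hx
    rw [← F.hT]
    rcases hx with hx | hx
    · rw [List.eq_of_mem_replicate hx]; exact hs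
    · rw [List.eq_of_mem_replicate hx]; exact hs'
  have hga : F.P.a w.prod = 0 := by rw [(n1 w).1, hwa]
  have hgb : F.P.β w.prod = F.P.θ * (α + α') := by rw [(n1 w).2, hwb]
  obtain ⟨k, hk1, hk⟩ := F.kbd
  set b : ℝ := F.P.θ * (α + α') / (α * α') with hbdef
  have hb0 : 0 ≤ b := by positivity
  have hbm : b * (α * α') = F.P.θ * (α + α') := by rw [hbdef]; field_simp
  set R2 : ℝ := b + |Isum F.P.a F.P.β 1 0 w| + b * (α * α') with hR2
  have hR2b : 0 ≤ b * (α * α') := by positivity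
  have hR20 : 0 ≤ R2 := by positivity
  set A : ℝ := (C + 0 + k * R2) + 2 ^ F.Z.p + (α + α') with hA
  have hkR : 0 ≤ k * R2 := by positivity
  have h2p : (0 : ℝ) < 2 ^ F.Z.p := by positivity
  obtain ⟨C', hC'0, hC'⟩ := h1 N T J F len C0 _ hL (h2 N T J F len C0 s s' hL hP) A
  refine ⟨w.prod, hga, by rw [hgb]; positivity, C' * 2 ^ F.Z.p, fun j => ?_⟩
  rcases Nat.eq_zero_or_pos j with rfl | hj
  · rw [pow_zero, hL.one]; simp only [Nat.cast_zero, zero_mul, zero_div, zero_add]; positivity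
  have hjR : (1 : ℝ) ≤ j := by exact_mod_cast hj
  set h : ℕ := j * (α * α') / 2 with hh
  have hh1 : 2 * h ≤ j * (α * α') := by omega
  have hh2 : j * (α * α') ≤ 2 * h + 1 := by omega
  have hh3 : j ≤ j * (α * α') := Nat.le_mul_of_pos_right _ (Nat.mul_pos hα1 hα1')
  have hh1R : (2 : ℝ) * h ≤ j * (α * α') := by exact_mod_cast hh1
  have hh2R : (j : ℝ) * (α * α') ≤ 2 * h + 1 := by exact_mod_cast hh2
  have hh3R : (j : ℝ) ≤ 2 * h + 1 := by exact_mod_cast hh3.trans hh2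
  have hh0 : (0 : ℝ) ≤ h := by positivity
  let Q : Cfg N := ⟨-(h : ℤ), h, 0, fun _ x => if x = s then 1 else 0,
    fun _ x => if x = s' then 1 else 0, fun _ => 0⟩
  have hQ : Q.Ok F.P := by
    refine ⟨by simp [Q], by simp [Q], by simp [Q], by simp [Q], fun c _ => ⟨fun x _ => ?_, ?_,
      fun x _ => ?_, ?_⟩⟩
    · by_cases hx : x = s
      · subst hx; simp [Q, ha]
      · simp [Q, hx]
    · simp only [Q, sum_ite_eq', hs, if_true, mU]
      rw [if_neg (by omega)]
    · by_cases hx : x = s'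
      · subst hx; simp [Q, ha']
      · simp [Q, hx]
    · simp only [Q, sum_ite_eq', hs', if_true, mD]
      rw [if_neg (by omega)]
  have hsum : ∀ f : N → ℝ, ∑ x ∈ F.P.T, ((if x = s then (1 : ℝ) else 0) +
      (if x = s' then (1 : ℝ) else 0)) * f x = f s + f s' := by
    intro f
    simp only [add_mul, sum_add_distrib, ite_mul, one_mul, zero_mul, sum_ite_eq', hs, hs', if_true]
  have habs : |(F.P.a s : ℝ)| = α := by rw [hα]; simp
  have habs' : |(F.P.a s' : ℝ)| = α' := by rw [hα']; simp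
  have htime : Q.time F.P = 2 * h * (1 / α + 1 / α') := by
    simp only [Cfg.time, Cfg.time0, Q, abs_zero, zero_div, sum_const_zero, add_zero]
    have : ∑ x ∈ F.P.T, ((if x = s then (1 : ℝ) else 0) + (if x = s' then (1 : ℝ) else 0)) /
        |(F.P.a x : ℝ)| = 1 / α + 1 / α' := by
      rw [← habs, ← habs', ← hsum fun x => 1 / |(F.P.a x : ℝ)|]
      exact sum_congr rfl fun x _ => by ring
    rw [this, sum_const, nsmul_eq_mul, card_ico_AB2]
  have hmom : ∀ e, Q.mom F.P e = b * ∑ c ∈ Ico (-(h : ℤ)) h, (c : ℝ) ^ e := by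
    intro e
    simp only [Cfg.mom, Cfg.mom0, Q, zero_mul, sum_const_zero, add_zero]
    have : ∑ x ∈ F.P.T, ((if x = s then (1 : ℝ) else 0) + (if x = s' then (1 : ℝ) else 0)) *
        F.P.β x / |(F.P.a x : ℝ)| = b := by
      have e1 := hsum fun x => F.P.β x / |(F.P.a x : ℝ)|
      rw [habs, habs'] at e1
      have e2 : F.P.β s / α + F.P.β s' / α' = b := by
        rw [hbdef]
        rw [hα] at hb
        rw [hα'] at hb'
        push_cast at hb hb'
        field_simp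
        linear_combination (α' : ℝ) * hb + (α : ℝ) * hb'
      rw [← e2, ← e1]
      exact sum_congr rfl fun x _ => by ring
    rw [this, mul_sum]
  have htle : Q.time F.P ≤ j * (α + α') := by
    rw [htime]
    have : (j : ℝ) * (α + α') = j * (α * α') * (1 / α + 1 / α') := by field_simp; ring
    rw [this]
    exact mul_le_mul_of_nonneg_right hh1R (by positivity)
  have hCl := hC j (List.replicate j w).flatten hjR (fun x hx => by
      rw [List.mem_flatten] at hx
      obtain ⟨l, hl, hx⟩ := hx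
      rw [List.eq_of_mem_replicate hl] at hx
      exact hwT x hx) (by rw [rep_len_AB2, hwl]; push_cast; linarith [mul_comm (j : ℝ) (α' + α)])
  rw [rep_prod_AB2, rep_sum_AB2 _ _ hwa] at hCl
  have hCl2 : F.Cl (fun i => F.Z.co (w.prod ^ j) i) Q.n (Q.mom F.P) (C + 0 + k * R2) j := by
    refine hCl.move hk hk1 (by linarith) (fun i => by simp) (by simpa [Q] using hR20) fun e he => ?_
    rw [rep_isum_AB2 _ _ _ _ hwa, hmom]
    have he2 : e = 0 ∨ e = 1 := by omega
    rcases he2 with rfl | rfl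
    · simp only [pow_zero, sum_const, nsmul_eq_mul, mul_one, card_ico_AB2]
      rw [isum_zero_AB2, hwb, ← hbm]
      have : (j : ℝ) * (b * (α * α')) - b * (2 * h) = b * (j * (α * α') - 2 * h) := by ring
      rw [this, abs_of_nonneg (mul_nonneg hb0 (by linarith))]
      have := mul_le_mul_of_nonneg_left (show (j : ℝ) * (α * α') - 2 * h ≤ 1 by linarith) hb0
      linarith [abs_nonneg (Isum F.P.a F.P.β 1 0 w)]
    · simp only [pow_one, sum_ico_AB2]
      have e1 := abs_sub ((j : ℝ) * Isum F.P.a F.P.β 1 0 w) (b * -(h : ℝ))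
      rw [abs_mul, abs_mul, abs_neg, abs_of_nonneg hb0, abs_of_nonneg hh0,
        abs_of_nonneg (by linarith : (0 : ℝ) ≤ j)] at e1
      have e2 := mul_le_mul_of_nonneg_left (show (h : ℝ) ≤ j * (α * α') by linarith) hb0
      have e3 : 0 ≤ b * j := by positivity
      rw [hR2]
      nlinarith
  have hKL : (j : ℝ) / ((j + 1) / 2) ≤ 2 := by
    rw [div_le_iff₀ (by positivity)]; linarith
  have hKL0 : (0 : ℝ) ≤ (j : ℝ) / ((j + 1) / 2) := by positivity
  have hpow : ((j : ℝ) / ((j + 1) / 2)) ^ F.Z.p ≤ 2 ^ F.Z.p := pow_le_pow_left₀ hKL0 hKL _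
  have hA0 : 0 ≤ A := by rw [hA]; positivity
  have hAj : A ≤ A * j := le_mul_of_one_le_right hA0 hjR
  have key := hC' j ((j + 1) / 2) 1 Q (by linarith) (by linarith) le_rfl
    (by rw [one_mul]; linarith) (Or.inr hr) hQ
    (by
      have : (α + α' : ℝ) * j ≤ A * j := mul_le_mul_of_nonneg_right (by linarith) (by linarith)
      linarith)
    (by
      have : (max (-Q.X) Q.Y : ℤ) = h := by simp [Q]
      rw [this]; push_cast; linarith)
    (w.prod ^ j) (hCl2.mono (by linarith) (by linarith))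
  have e4 : (j : ℝ) * F.P.β w.prod / F.P.θ = j * (α + α') := by rw [hgb]; field_simp
  rw [e4]
  have := mul_le_mul_of_nonneg_left hpow hC'0
  linarith

end

section


theorem LOC_pf : LOC_st.{u} := by
  intro G _ S J _ Z R hR
  obtain ⟨A, hA, h⟩ := Z.locate R hR
  obtain ⟨N, hN⟩ := exists_nat_ge R
  have hN1 : (1 : ℝ) ≤ N := hR.trans hN
  have hN1' : 1 ≤ N := by exact_mod_cast hN1
  obtain ⟨T, hT1, hT⟩ : ∃ T : ℝ, 2 * N ≤ T ∧ ∀ j, (2 * N : ℝ) ^ Z.W j ≤ T := by
    refine ⟨2 * N + ∑ j, (2 * N : ℝ) ^ Z.W j, le_add_of_nonneg_right (by positivity), fun j => ?_⟩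
    have := single_le_sum (f := fun j => (2 * N : ℝ) ^ Z.W j) (fun _ _ => by positivity)
      (mem_univ j)
    linarith
  have hT' : ∀ j e, e ≤ Z.W j → (N : ℝ) ^ e ≤ T := fun j e he =>
    ((pow_le_pow_left₀ (by linarith) (by linarith) e).trans
      (pow_le_pow_right₀ (by linarith) he)).trans (hT j)
  refine ⟨A * T, mul_nonneg hA (by linarith), fun k hk u hu hl z hz => ?_⟩
  have hk1 : (1 : ℝ) ≤ k := by exact_mod_cast hk
  have hkN : (k : ℝ) ≤ N * k := le_mul_of_one_le_left (by linarith) hN1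
  have hsc : ∀ j e, e ≤ Z.W j → A * ((N * k : ℕ) : ℝ) ^ e ≤ A * T * (k : ℝ) ^ e := by
    intro j e he
    push_cast
    rw [mul_pow, mul_assoc]
    exact mul_le_mul_of_nonneg_left
      (mul_le_mul_of_nonneg_right (hT' j e he) (by positivity)) hA
  rcases h (N * k) (Nat.one_le_iff_ne_zero.2 (by positivity)) u hu
    (by
      have : (u.length : ℝ) ≤ N * k := hl.trans (mul_le_mul_of_nonneg_right hN (by linarith))
      exact_mod_cast this) z
    (fun j => (hz j).trans (mul_le_mul_of_nonneg_left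
      (pow_le_pow_left₀ (by linarith) (by push_cast; exact hkN) _) (by linarith))) with
    ⟨h1, j, h2⟩ | ⟨i, hi, ⟨h1, h2⟩, n, hn⟩
  · exact Or.inl ⟨fun j => (h1 j).trans (hsc j _ le_rfl), j, h2.trans (hsc j _ (Nat.sub_le _ _))⟩
  · right
    obtain ⟨i', a1, a2, a3⟩ : ∃ i' : ℕ, (2 : ℝ) ^ i' ≤ k ∧ (2 : ℝ) ^ i' ≤ 2 ^ i ∧
        (2 : ℝ) ^ i ≤ 2 * N * 2 ^ i' := by
      by_cases hik : (2 : ℝ) ^ i ≤ k
      · exact ⟨i, hik, le_rfl, le_mul_of_one_le_left (by positivity) (by linarith)⟩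
      · have b1 : (2 : ℝ) ^ Nat.log 2 k ≤ k := by
          exact_mod_cast Nat.pow_log_le_self 2 (by omega : k ≠ 0)
        have b2 : (k : ℝ) ≤ 2 ^ Nat.log 2 k * 2 := by
          rw [← pow_succ]
          exact_mod_cast (Nat.lt_pow_succ_log_self (by norm_num : 1 < 2) k).le
        refine ⟨Nat.log 2 k, b1, by linarith [not_le.1 hik], ?_⟩
        push_cast at hi
        nlinarith
    have hp : (0 : ℝ) < 2 ^ i' := by positivity
    refine ⟨i', a1, ⟨h1.trans ?_, fun j => (h2 j).trans ?_⟩, n, a2.trans hn⟩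
    · rw [mul_assoc]
      exact mul_le_mul_of_nonneg_left (a3.trans (mul_le_mul_of_nonneg_right hT1 hp.le)) hA
    · have b1 : ((2 : ℝ) ^ i) ^ (Z.W j - 1) ≤ (2 * N) ^ (Z.W j - 1) * (2 ^ i') ^ (Z.W j - 1) := by
        rw [← mul_pow]
        exact pow_le_pow_left₀ (by positivity) a3 _
      have b2 : (N : ℝ) * (2 * N) ^ (Z.W j - 1) ≤ T := by
        refine le_trans ?_ (hT j)
        conv_rhs => rw [← Nat.sub_add_cancel (Z.W_pos j), pow_succ']
        exact mul_le_mul_of_nonneg_right (by linarith) (by positivity)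
      push_cast
      calc A * (N * k) * ((2 : ℝ) ^ i) ^ (Z.W j - 1)
          ≤ A * (N * k) * ((2 * N) ^ (Z.W j - 1) * (2 ^ i') ^ (Z.W j - 1)) :=
            mul_le_mul_of_nonneg_left b1 (by positivity)
        _ = A * (N * (2 * N) ^ (Z.W j - 1)) * (k * (2 ^ i') ^ (Z.W j - 1)) := by ring
        _ ≤ A * T * (k * (2 ^ i') ^ (Z.W j - 1)) :=
            mul_le_mul_of_nonneg_right (mul_le_mul_of_nonneg_left b2 hA) (by positivity)
        _ = _ := by ring

end

section


theorem UPV_pf (h1 : DSC_st.{u}) (h2 : W2C_st.{u}) (h3 : RCB_st.{u}) (h4 : LOC_st.{u}) :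
    UPV_st.{u} := by
  intro N _ T J _ F len C0 w0 R0 hw hE C1 hC1
  obtain ⟨-, -, Cd, hCd, hD⟩ := h1 N T J F len C0 w0 R0 hw hE
  obtain ⟨C2, hC2, hW⟩ := h2 N F.P F.r 1
  obtain ⟨kb, hkb1, hkb⟩ := F.kbd
  have hk2 : 0 ≤ kb * C2 := mul_nonneg (by linarith) hC2
  obtain ⟨C3, hC3, hR⟩ := h3 N T J F (Cd + 1 + kb * C2)
  obtain ⟨Rl, hRl, hlow⟩ := F.Z.low
  have hr2 : 0 ≤ Rl * 2 ^ F.r := mul_nonneg (by linarith) (by positivity)
  obtain ⟨A, hA, hloc⟩ := h4 N T J F.Z (Cd + 2 + Rl * 2 ^ F.r) (by linarith)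
  have hc3 : 0 ≤ C3 * (Cd + 1 + kb * C2) := mul_nonneg hC3 (by linarith)
  obtain ⟨C', hC'⟩ := F.Z.fam.dyad_up F.Z.W_pos F.Z.j0 F.Z.W_j0 F.Z.p F.Z.hp A
    (C3 * (Cd + 1 + kb * C2) + C1) hA (by linarith)
  refine ⟨C', fun k hk hCk X hX hXB hdis => ?_⟩
  have hk1 : (1 : ℝ) ≤ k := by exact_mod_cast hk
  have hpw : ∀ j, (1 : ℝ) ≤ (k : ℝ) ^ (F.Z.W j - 1) := fun j => one_le_pow₀ hk1
  have hU := hC' k hk (F.D len k ∪ X) (by
    rintro z (hz | hz)
    · have hz : len (F.Z.pt z) ≤ k := hz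
      obtain ⟨I, lab, ok, -, ht, hcl, -, ⟨u, hu, hul, hup, hpre⟩, -⟩ := hD k _ hk1 hz
      have hf : ∀ j, |(F.Z.co u.prod j : ℝ) - z j| ≤ 1 := fun j => by
        rw [hup]; exact CCore_floor F.Z z j
      rcases hloc k hk u hu (hul.trans (by nlinarith)) z
        (fun j => (hf j).trans (by nlinarith [hpw j])) with h | ⟨i, hi, hb, n, hn⟩
      · exact Or.inl h
      refine Or.inr ⟨i, hi, hb, fun hlam => ?_⟩
      obtain ⟨Q, q1, q2, q3, -, -, q4, q5, -⟩ := hW I k hk1 ok (by linarith)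
      obtain ⟨i', hi', hp⟩ := hpre n
      have e1 : |(I.h i' : ℝ)| ≤ (max (-Q.X) Q.Y : ℤ) := by
        have := q3 i' hi'
        have e : |I.h i'| ≤ max (-Q.X) Q.Y := by
          rw [abs_le]
          constructor <;> omega
        exact_mod_cast e
      have e2 : (2 : ℝ) ^ i ≤ (max (-Q.X) Q.Y : ℤ) + (Cd + 1 + kb * C2) := by
        rw [Int.cast_sub] at hp
        have := abs_sub_abs_le_abs_sub (F.Z.co (u.take n).prod F.Z.j0 : ℝ) (I.h i')
        linarith
      have hcl' : F.Cl z Q.n (Q.mom F.P) (Cd + 1 + kb * C2) k :=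
        hcl.move hkb hkb1 (by linarith)
          (fun j => by
            rw [abs_sub_comm]
            exact (CCore_floor F.Z z j).trans (by linarith [hpw j]))
          (by rw [q2, sub_self, abs_zero]; exact hC2)
          fun e he => by rw [abs_sub_comm]; exact q5 e he
      have h5 := hR k (2 ^ i) (Cd + 1 + kb * C2) Q (one_le_pow₀ (by norm_num)) hi (by linarith)
        (mul_le_mul_of_nonneg_left hlam (by linarith)) q1 (by nlinarith) e2 z hcl'
      refine F.Z.mono_B ?_ h5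
      have h6 : 0 ≤ C1 * ((k : ℝ) / 2 ^ i) ^ F.Z.p := by positivity
      rw [add_mul (C3 * _)]
      linarith
    · obtain ⟨u, hu, hl, hj⟩ := hlow (2 * k) (k + C1) (by linarith) (by linarith) z (hXB hz)
      rcases hloc k hk u hu (hl.trans (by nlinarith)) z (fun j => (hj j).trans (by
        have a1 : (2 : ℝ) ^ (F.Z.W j - 1) ≤ 2 ^ F.r :=
          pow_le_pow_right₀ (by norm_num) (F.W_lt j).le
        have a2 := mul_le_mul_of_nonneg_left a1 (by linarith : 0 ≤ Rl)
        rw [mul_pow, ← mul_assoc]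
        exact mul_le_mul_of_nonneg_right (by linarith) (by linarith [hpw j]))) with
        h | ⟨i, hi, hb, -⟩
      · exact Or.inl h
      refine Or.inr ⟨i, hi, hb, fun _ => F.Z.mono_B ?_ (hXB hz)⟩
      have := CDyad_lam k i F.Z.p hi
      nlinarith)
  rw [← measureReal_union hdis.symm hX
    (ne_top_of_le_ne_top hU.1 (measure_mono Set.subset_union_left))
    (ne_top_of_le_ne_top hU.1 (measure_mono Set.subset_union_right))]
  exact hU.2

end

section


theorem cfg_LOV (h2 : W2C_st.{u}) (h3 : NEA_st.{u}) {N : Type u} [Group N] {T : Finset N}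
    {J : Type} [Fintype J] (F : Fd T J) (R1 : ℝ) (hR1 : 0 ≤ R1) :
    ∃ A : ℝ, 1 ≤ A ∧ ∀ (K : ℝ) (u : List N) (z : J → ℝ), 1 ≤ K → Word T u → (u.length : ℝ) ≤ K →
      (∀ j, |z j - (F.Z.co u.prod j : ℝ)| ≤ R1 * K ^ (F.Z.W j - 1)) →
      ∃ Q : Cfg N, Q.Ok F.P ∧ Q.time F.P ≤ u.length ∧ F.Cl z Q.n (Q.mom F.P) A K ∧
        ∀ n, |(F.Z.co (u.take n).prod F.Z.j0 : ℝ)| ≤ (max (-Q.X) Q.Y : ℤ) := by
  obtain ⟨Cw, hCw, hw⟩ := h2 N F.P F.r 1
  obtain ⟨n1, n2, n3, Cn, hCn, n4⟩ := h3 N T J F 1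
  obtain ⟨kb, hkb, hk⟩ := F.kbd
  refine ⟨Cn + R1 + kb * Cw, by linarith [mul_nonneg (zero_le_one.trans hkb) hCw],
    fun K u z hK hu hl hz => ?_⟩
  have hT := (F.word u).1 hu
  have m2 := n2 u
  have m3 := n3 u
  have hok : (⟨u.length, fun i => u.getD i 1, fun _ => 1, fun i => F.P.a (u.getD i 1)⟩ :
      Itm N).Ok F.P 1 := by
    intro i hi
    refine ⟨?_, zero_le_one, le_rfl, (one_mul _).symm⟩
    rw [F.hT]
    show u.getD i 1 ∈ T
    rw [List.getD_eq_getElem _ _ hi]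
    exact hT _ (List.getElem_mem _)
  have hti : (⟨u.length, fun i => u.getD i 1, fun _ => 1, fun i => F.P.a (u.getD i 1)⟩ :
      Itm N).time = u.length := by simp [Itm.time]
  have hn : (⟨u.length, fun i => u.getD i 1, fun _ => 1, fun i => F.P.a (u.getD i 1)⟩ :
      Itm N).n = u.length := rfl
  generalize (⟨u.length, fun i => u.getD i 1, fun _ => 1, fun i => F.P.a (u.getD i 1)⟩ :
      Itm N) = I at m2 m3 hok hti hn
  obtain ⟨Q, q1, q2, q3, -, -, q4, q5, -⟩ := hw I K hK hok (by rw [hti, one_mul]; exact hl)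
  refine ⟨Q, q1, hti ▸ q4, ?_, fun n => ?_⟩
  · refine (n4 K u hK hT (by rw [one_mul]; exact hl)).move hk hkb (zero_le_one.trans hK) hz ?_ ?_
    · have e1 := m3 u.length le_rfl
      rw [List.take_length, (n1 u).1] at e1
      rw [q2, hn, e1, sub_self, abs_zero]
      exact hCw
    · intro e he
      rw [abs_sub_comm]
      show |Q.mom F.P e - Isum F.P.a F.P.β e 0 u| ≤ _
      rw [m2 e]
      exact q5 e he
  · have e1 := m3 (min n u.length) (min_le_right _ _)
    rw [← List.take_eq_take_min, F.ha] at e1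
    obtain ⟨b1, b2⟩ := q3 (min n u.length) (hn ▸ min_le_right _ _)
    rw [e1, ← Int.cast_abs, Int.cast_le, abs_le]
    constructor
    · have := le_max_left (-Q.X) Q.Y
      omega
    · exact b2.trans (le_max_right _ _)

theorem LOV_pf (h1 : RCG_st.{u}) (h2 : W2C_st.{u}) (h3 : NEA_st.{u}) (h4 : DYL_st) :
    LOV_st.{u} := by
  classical
  intro N _ T J _ F len C0 p hlen hvp hfin
  obtain ⟨R0, hR0, hlow⟩ := F.Z.low
  obtain ⟨A0, hA0, hloc⟩ := F.Z.locate R0 hR0
  obtain ⟨C', hC'⟩ := h4 J F.Z.W F.Z.B F.Z.fam F.Z.W_pos F.Z.j0 F.Z.W_j0 F.Z.p F.Z.hp A0 hA0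
  obtain ⟨A, hA, hcfg⟩ := cfg_LOV h2 h3 F (R0 + 1) (by linarith)
  obtain ⟨Cg, hCg, hg⟩ := h1 N T J F len C0 p hlen hvp A
  refine ⟨C' * (Cg + 1), fun k R hk hR hp => ?_⟩
  have hk1 : (1 : ℝ) ≤ k := by exact_mod_cast hk
  have hpw : ∀ j, (1 : ℝ) ≤ (k : ℝ) ^ (F.Z.W j - 1) := fun j => one_le_pow₀ hk1
  have hM : 1 ≤ (Cg + 1) * R := by linarith [mul_nonneg hCg (zero_le_one.trans hR)]
  have hL := hC' k hk ((Cg + 1) * R) hM (F.D len k) (F.Z.vol_pt (hfin k)).1 (by
    intro z hz hzD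
    have hex : ∃ n : ℕ, z ∈ F.Z.B n := ⟨k, hz⟩
    have hn0 : Nat.find hex ≤ k := Nat.find_min' hex hz
    have hn0' : ((Nat.find hex : ℕ) : ℝ) ≤ k := by exact_mod_cast hn0
    obtain ⟨u, hu, hl, hj⟩ := hlow k (Nat.find hex : ℕ) hk1 hn0' z (Nat.find_spec hex)
    have hlk : (u.length : ℝ) ≤ k := hl.trans hn0'
    have hl' : u.length ≤ k := by exact_mod_cast hlk
    rcases hloc k hk u hu hl' z hj with h | ⟨i, hi, hb, n, hn⟩
    · exact Or.inl h
    · refine Or.inr ⟨i, hi, hb, fun hlam hzB => hzD ?_⟩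
      have b2 : (1 : ℝ) ≤ 2 ^ i := one_le_pow₀ (by norm_num)
      have b2' : (0 : ℝ) < 2 ^ i := by positivity
      have b4 : (1 : ℝ) ≤ ((k : ℝ) / 2 ^ i) ^ F.Z.p := one_le_pow₀ ((one_le_div b2').2 hi)
      obtain ⟨Q, q1, q2, q3, q4⟩ := hcfg k u (fun j => F.Z.co (F.Z.pt z) j) hk1 hu hlk (fun j => by
        have e1 := CCore_floor F.Z z j
        have e2 := hj j
        have e3 := abs_sub_le (F.Z.co (F.Z.pt z) j : ℝ) (z j) (F.Z.co u.prod j : ℝ)
        rw [abs_sub_comm (z j)] at e3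
        have e4 := hpw j
        rw [add_mul, one_mul]
        linarith)
      have hAk : (k : ℝ) ≤ A * k := le_mul_of_one_le_left (by linarith) hA
      have b9 := hg k (2 ^ i) R Q b2 hi hR
      generalize ((k : ℝ) / 2 ^ i) ^ F.Z.p = lam at hlam hzB b4 b9
      have b5 := F.Z.nonneg_B hzB
      have b6 : z ∈ F.Z.B (⌈(k : ℝ) - (Cg + 1) * R * lam⌉₊ : ℕ) := F.Z.mono_B (Nat.le_ceil _) hzB
      have b7 : ((Nat.find hex : ℕ) : ℝ) ≤ (⌈(k : ℝ) - (Cg + 1) * R * lam⌉₊ : ℕ) := by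
        exact_mod_cast Nat.find_min' hex b6
      have b8 := (Nat.ceil_lt_add_one b5).le
      have c1 : 1 ≤ R * lam := one_le_mul_of_one_le_of_one_le hR b4
      have c2 : 0 ≤ Cg * (R * lam) := mul_nonneg hCg (by linarith)
      have c3 := b9 (by linarith) hp q1 (by linarith) (by linarith [q4 n]) (F.Z.pt z)
        (q3.mono (le_mul_of_one_le_right (by linarith) hR) (by linarith))
      show len (F.Z.pt z) ≤ k
      linarith)
  linarith

end

end Pool.Agent.MP_b3b911_al.Dich
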