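import Pool.Agent.MP_b3b911_al.Dich.St2

open Finset MeasureTheory

noncomputable section

namespace Pool.Agent.MP_b3b911_al.Dich

open Fil

universe u

section


theorem mom0_PRE2 {α : Type u} (P : Alph α) (Q : Cfg α) (B M : ℝ) (hB0 : 0 ≤ B)
    (hB : ∀ s ∈ P.T, |P.β s| ≤ B) (hQ : Q.Ok P) (hM : ∀ c ∈ Icc Q.X Q.Y, |(c : ℝ)| ≤ M) (e : ℕ) :
    |Q.mom0 P e| ≤ ((Q.Y : ℝ) - Q.X) * (2 * B * M ^ e) := by
  obtain ⟨h1, -, h3, -, h5⟩ := hQ
  have hc : ((Ico Q.X Q.Y).card : ℝ) = (Q.Y : ℝ) - Q.X := by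
    have := Int.card_Ico_of_le Q.X Q.Y (h1.trans h3)
    exact_mod_cast this
  rw [← hc, ← nsmul_eq_mul, Cfg.mom0]
  refine (abs_sum_le_sum_abs _ _).trans (sum_le_card_nsmul _ _ _ fun c hc => ?_)
  obtain ⟨a1, a2, a3, a4⟩ := h5 c hc
  have b1 : mU Q.n c ≤ 1 := by
    unfold mU
    split_ifs <;> norm_num
  have b2 : mD Q.n c ≤ 1 := by
    unfold mD
    split_ifs <;> norm_num
  have b3 : ∀ s ∈ P.T,
      |(Q.U c s + Q.D c s) * P.β s / abs (P.a s : ℝ)| ≤ (Q.U c s + Q.D c s) * B := by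
    intro s hs
    have h0 : 0 ≤ Q.U c s + Q.D c s := add_nonneg (a1 s hs).1 (a3 s hs).1
    rw [mul_div_assoc, abs_mul, abs_of_nonneg h0, abs_div, abs_abs]
    refine mul_le_mul_of_nonneg_left ?_ h0
    by_cases ha : P.a s = 0
    · simpa [ha] using hB0
    · have h6 : (1 : ℝ) ≤ |(P.a s : ℝ)| := by exact_mod_cast Int.one_le_abs ha
      rw [div_le_iff₀ (by linarith)]
      nlinarith [hB s hs]
  rw [abs_mul, abs_pow]
  refine mul_le_mul ((abs_sum_le_sum_abs _ _).trans ((sum_le_sum b3).trans ?_))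
    (pow_le_pow_left₀ (abs_nonneg _) (hM c (Ico_subset_Icc_self hc)) e) (by positivity)
    (by positivity)
  rw [← sum_mul, sum_add_distrib, a2, a4]
  exact mul_le_mul_of_nonneg_right (by linarith) hB0

theorem time0_PRE2 {α : Type u} (P : Alph α) (Q : Cfg α) (hQ : Q.Ok P) : 0 ≤ Q.time0 P :=
  sum_nonneg fun c hc => sum_nonneg fun s hs => div_nonneg
    (add_nonneg ((hQ.2.2.2.2 c hc).1 s hs).1 ((hQ.2.2.2.2 c hc).2.2.1 s hs).1) (abs_nonneg _)

theorem div_PRE2 {z y m κ R : ℝ} (hκ : κ ≠ 0) (h1 : |y - z| ≤ 1) (h2 : |y - κ * m| ≤ R) :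
    |z / κ - m| ≤ (R + 1) / |κ| := by
  have h3 : z / κ - m = (z - κ * m) / κ := by field_simp
  rw [h3, abs_div]
  refine div_le_div_of_nonneg_right ?_ (abs_nonneg _)
  have := abs_sub_le z y (κ * m)
  rw [abs_sub_comm z y] at this
  linarith

theorem cheb_PRE2 (F : Finset ℤ) (μ : ℤ → ℝ) (V d M ρ W : ℝ) (h1 : ∑ c ∈ F, |μ c| ≤ V)
    (h2 : V - d ≤ ∑ c ∈ F, μ c) (hM : ∀ c ∈ F, |(c : ℝ)| ≤ M)
    (h3 : ∑ c ∈ F, μ c * (c : ℝ) ^ 2 ≤ W) (hρ : 0 ≤ ρ) :
    ρ ^ 2 * (V - d - ∑ c ∈ F.filter (fun c : ℤ => |(c : ℝ)| ≤ ρ), max (μ c) 0) ≤ W + d * M ^ 2 := by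
  have key : ∀ c ∈ F, ρ ^ 2 * (μ c - if |(c : ℝ)| ≤ ρ then max (μ c) 0 else 0) ≤
      μ c * (c : ℝ) ^ 2 + (|μ c| - μ c) * M ^ 2 := by
    intro c hc
    have a1 : (c : ℝ) ^ 2 ≤ M ^ 2 := by
      rw [← sq_abs]
      exact pow_le_pow_left₀ (abs_nonneg _) (hM c hc) 2
    rcases le_total 0 (μ c) with h | h
    · rw [abs_of_nonneg h, max_eq_left h]
      split_ifs with h'
      · nlinarith [mul_nonneg h (sq_nonneg (c : ℝ))]
      · have a2 : ρ ^ 2 ≤ (c : ℝ) ^ 2 := by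
          rw [← sq_abs (c : ℝ)]
          exact pow_le_pow_left₀ hρ (not_le.1 h').le 2
        nlinarith [mul_le_mul_of_nonneg_left a2 h]
    · rw [abs_of_nonpos h, max_eq_right h, ite_self]
      nlinarith [mul_nonneg (neg_nonneg.2 h) (sq_nonneg ρ), mul_nonneg (neg_nonneg.2 h) (sq_nonneg M),
        mul_le_mul_of_nonneg_left a1 (neg_nonneg.2 h)]
  have h4 := sum_le_sum key
  rw [← mul_sum, sum_sub_distrib, ← sum_filter, sum_add_distrib, ← sum_mul, sum_sub_distrib] at h4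
  have h5 := mul_le_mul_of_nonneg_left h2 (sq_nonneg ρ)
  have h6 : (∑ c ∈ F, |μ c| - ∑ c ∈ F, μ c) * M ^ 2 ≤ d * M ^ 2 :=
    mul_le_mul_of_nonneg_right (by linarith) (sq_nonneg M)
  linarith

theorem PRE2_pf (h : RNG2_st.{u}) : PRE2_st.{u} := by
  intro N _ T J _ F len w0 C1 C2 a γ R0 j1 j2 hj1 hj2 hW1 hW2 hγ
  obtain ⟨B, hB1, hB⟩ := F.P.bd
  have hB1' : (1 : ℝ) ≤ B := by exact_mod_cast hB1
  have hθ := F.P.θ_pos
  obtain ⟨b, hb, hR⟩ := h N F.P (|a| + 3)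
  have hl0 := abs_nonneg F.P.lam
  have ha0 := abs_nonneg a
  obtain ⟨a6, ha6⟩ : ∃ x : ℝ, x = |a| + 2 * |F.P.lam| + 4 * B * b + 1 := ⟨_, rfl⟩
  have p6 : 0 < a6 := by rw [ha6]; positivity
  obtain ⟨a7, ha7⟩ : ∃ x : ℝ, x = b + 1 + 4 * B * b ^ 3 + a6 * b ^ 2 := ⟨_, rfl⟩
  have p7 : 0 < a7 := by rw [ha7]; positivity
  refine ⟨min (min 1 (1 / b)) (min (F.P.θ / (2 * a6)) (F.P.θ * γ ^ 2 / (4 * a7))), by positivity,
    (min_le_left _ _).trans (min_le_left _ _), fun ε hε hε0 => ?_⟩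
  have e1 : ε ≤ 1 := hε0.trans ((min_le_left _ _).trans (min_le_left _ _))
  have e2 : ε * b ≤ 1 :=
    (le_div_iff₀ (by positivity)).mp (hε0.trans ((min_le_left _ _).trans (min_le_right _ _)))
  have e3 : ε * (2 * a6) ≤ F.P.θ :=
    (le_div_iff₀ (by positivity)).mp (hε0.trans ((min_le_right _ _).trans (min_le_left _ _)))
  have e4 : ε * (4 * a7) ≤ F.P.θ * γ ^ 2 :=
    (le_div_iff₀ (by positivity)).mp (hε0.trans ((min_le_right _ _).trans (min_le_right _ _)))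
  refine ⟨max 1 ((1 + 2 * ((C1 + 1) / |F.κ j1| + (C1 + 1) / |F.κ j2| + |F.P.lam| * (C1 + 1) +
    (C1 + 1) + C2)) / ε ^ 3), ?_⟩
  intro k z I lab Q hk hlen hReg hD hQ hn hX hY hT hm
  have hk1 : 1 ≤ k := (le_max_left _ _).trans hk
  have hk3 := (div_le_iff₀ (pow_pos hε 3)).mp ((le_max_right _ _).trans hk)
  have hk0 : 0 < k := by linarith
  obtain ⟨r1, r2, r3, r4, -⟩ := hReg
  obtain ⟨hOk, -, ht, ⟨c0, cj⟩, -⟩ := hD
  have hr : 3 ≤ F.r := hW2 ▸ F.sh.W_le j2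
  have m0 := hm 0 (by omega)
  have m2 := hm 2 (by omega)
  rw [pow_zero, mul_one] at m0
  have hC1 : 0 ≤ C1 := (abs_nonneg _).trans c0
  have hC2 : 0 ≤ C2 := (abs_nonneg _).trans m0
  have f0 : |z F.Z.j0 - I.h I.n| ≤ C1 + 1 := by
    have a1 := CCore_floor F.Z z F.Z.j0
    have a2 := abs_sub_le (z F.Z.j0) (F.Z.co (F.Z.pt z) F.Z.j0) (I.h I.n)
    rw [abs_sub_comm] at a1
    linarith
  have f1 := div_PRE2 (F.sh.κ_ne j1 hj1) (CCore_floor F.Z z j1) (cj j1 hj1)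
  have f2 := div_PRE2 (F.sh.κ_ne j2 hj2) (CCore_floor F.Z z j2) (cj j2 hj2)
  rw [hW1, Nat.sub_self, pow_zero, mul_one] at f1
  rw [hW2, show 3 - 1 = 2 from rfl] at f2
  have f3 : (C1 * k ^ 2 + 1) / |F.κ j2| ≤ (C1 + 1) / |F.κ j2| * k ^ 2 := by
    rw [div_mul_eq_mul_div]
    refine div_le_div_of_nonneg_right ?_ (abs_nonneg _)
    nlinarith [one_le_pow₀ hk1 (n := 2)]
  have p1 : 0 ≤ (C1 + 1) / |F.κ j1| := by positivity
  have p2 : 0 ≤ (C1 + 1) / |F.κ j2| := by positivity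
  have p3 : 0 ≤ |F.P.lam| * (C1 + 1) := by positivity
  have f4 : F.P.lam * (z F.Z.j0 - I.h I.n) ≤ |F.P.lam| * (C1 + 1) :=
    (le_abs_self _).trans ((abs_mul _ _).trans_le (mul_le_mul_of_nonneg_left f0 hl0))
  have hh : 0 < ε * k := mul_pos hε hk0
  have f5 : F.P.lam * z F.Z.j0 ≤ |F.P.lam| * (2 * (ε * k)) :=
    mul_le_mul (le_abs_self _) r2 (hh.le.trans r1) hl0
  generalize (C1 + 1) / |F.κ j1| = a1 at *
  generalize (C1 + 1) / |F.κ j2| = a2 at *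
  generalize |F.P.lam| * (C1 + 1) = a3 at *
  have g0 : k * ε ^ 3 ≤ ε * k := by
    rw [mul_comm]
    exact mul_le_mul_of_nonneg_right (pow_le_of_le_one hε.le e1 (by norm_num)) hk0.le
  have g1 : ∀ x : ℝ, x ≤ k * ε ^ 3 → x * k ^ 2 ≤ (ε * k) ^ 3 := fun x hx =>
    (mul_le_mul_of_nonneg_right hx (sq_nonneg k)).trans_eq (by ring)
  have g2 := g1 1 (by linarith)
  have g3 := g1 a2 (by linarith)
  have g4 := g1 C2 (by linarith)
  have g5 := mul_le_mul_of_nonneg_right e2 hk0.le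
  have g6 := mul_le_mul_of_nonneg_right e3 hk0.le
  have g7 := mul_le_mul_of_nonneg_right e4 hk0.le
  have g8 := mul_le_mul_of_nonneg_left (ht.trans hlen) hθ.le
  have g9 : ε / 2 * k = ε * k / 2 := by ring
  have g10 : b * (ε * k) ≤ k := by linarith
  have g11 : 2 * a6 * (ε * k) ≤ F.P.θ * k := by linarith
  have g12 : 4 * a7 * (ε * k) ≤ F.P.θ * γ ^ 2 * k := by linarith
  rw [g9]
  clear g5 g6 g7 g9 hk
  generalize ε * k = H at *
  have H3 := pow_pos hh 3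
  have q1 := mul_le_mul_of_nonneg_right (le_abs_self a) hh.le
  have q2 := mul_le_mul_of_nonneg_right (le_abs_self a) H3.le
  have q3 := mul_nonneg ha0 hh.le
  rw [abs_le] at f0 f1 f2 m0 m2
  obtain ⟨hrng, hm2⟩ := hR I k H hk1 hh (by linarith) hOk (ht.trans hlen) (by linarith)
    (abs_le.mpr ⟨by linarith, by linarith⟩) (by linarith)
  refine ⟨fun i hi => (hrng i hi).trans g10, ?_, ?_⟩
  · have b1 : (Q.n : ℝ) ≤ Q.Y := by exact_mod_cast hQ.2.2.2.1
    rw [hn] at b1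
    linarith
  obtain ⟨i, hi, hiX⟩ := hX
  obtain ⟨i', hi', hiY⟩ := hY
  have b2 := abs_le.mp (hrng i hi)
  have b3 := abs_le.mp (hrng i' hi')
  rw [hiX] at b2
  rw [hiY] at b3
  have hM : ∀ c ∈ Icc Q.X Q.Y, |(c : ℝ)| ≤ b * H := fun c hc => by
    have c1 : (Q.X : ℝ) ≤ c := by exact_mod_cast (mem_Icc.1 hc).1
    have c2 : (c : ℝ) ≤ Q.Y := by exact_mod_cast (mem_Icc.1 hc).2
    exact abs_le.2 ⟨by linarith, by linarith⟩
  have b4 : ∀ e, |Q.mom0 F.P e| ≤ 2 * (b * H) * (2 * B * (b * H) ^ e) := fun e =>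
    (mom0_PRE2 F.P Q B _ (by linarith) (fun s hs => (hB s hs).2.2) hQ hM e).trans
      (mul_le_mul_of_nonneg_right (by linarith) (by positivity))
  have b5 := abs_le.1 (b4 0)
  have b6 := abs_le.1 (b4 2)
  rw [pow_zero, mul_one] at b5
  have b7 : Q.mom F.P 0 = Q.mom0 F.P 0 + ∑ c ∈ Icc Q.X Q.Y, Q.μ c := by
    simp only [Cfg.mom, pow_zero, mul_one]
  have b8 : ∑ c ∈ Icc Q.X Q.Y, |Q.μ c| ≤ F.P.θ * k := by
    have := time0_PRE2 F.P Q hQ
    rw [Cfg.time, ← sum_div] at hT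
    rw [mul_comm, ← div_le_iff₀ hθ]
    linarith
  have b9 : Q.mom F.P 2 = Q.mom0 F.P 2 + ∑ c ∈ Icc Q.X Q.Y, Q.μ c * (c : ℝ) ^ 2 := rfl
  have key := cheb_PRE2 _ Q.μ _ (a6 * H) _ (γ * H) ((b + 1 + 4 * B * b ^ 3) * H ^ 3) b8
    (by rw [ha6]; linarith) hM (by linarith [(abs_le.1 hm2).2]) (by positivity)
  have k1 : (b + 1 + 4 * B * b ^ 3) * H ^ 3 + a6 * H * (b * H) ^ 2 ≤
      (γ * H) ^ 2 * (F.P.θ * k / 4) := by
    have := mul_le_mul_of_nonneg_right g12 (sq_nonneg H)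
    rw [ha7] at this
    linarith
  have k2 := le_of_mul_le_mul_left (key.trans k1) (by positivity)
  linarith

end

section


theorem flt_SH2b (X Y : ℤ) (σ : ℝ) :
    (Icc X Y).filter (fun c : ℤ => |(c : ℝ)| ≤ σ) = Icc (max X (-⌊σ⌋)) (min Y ⌊σ⌋) := by
  ext c
  have a1 : (c : ℝ) ≤ σ ↔ c ≤ ⌊σ⌋ := Int.le_floor.symm
  have a2 : -σ ≤ (c : ℝ) ↔ -⌊σ⌋ ≤ c := by
    rw [neg_le, neg_le (a := ⌊σ⌋), Int.le_floor]
    push_cast
    rfl
  rw [mem_filter, mem_Icc, mem_Icc, abs_le, a1, a2, max_le_iff, le_min_iff]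
  tauto

theorem spl_SH2b (S S' : Finset ℤ) (hS : S' ⊆ S) (f f' w : ℤ → ℝ) :
    ∑ c ∈ S, (if c ∈ S' then f' c else f c) * w c =
      ∑ c ∈ S, f c * w c + (∑ c ∈ S', f' c * w c - ∑ c ∈ S', f c * w c) := by
  have e : ∀ c, (if c ∈ S' then f' c else f c) * w c =
      f c * w c + if c ∈ S' then f' c * w c - f c * w c else 0 := fun c => by
    split_ifs <;> ring
  simp only [e]
  rw [sum_add_distrib, sum_ite_mem, inter_eq_right.2 hS, sum_sub_distrib]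

theorem mv_SH2b (S S' : Finset ℤ) (hS : S' ⊆ S) (μ μ' : ℤ → ℝ) (h0 : ∀ c ∈ S', 0 ≤ μ' c)
    (he : ∑ c ∈ S', μ' c = ∑ c ∈ S', max (μ c) 0) : ∃ μ1 : ℤ → ℝ,
    ∑ c ∈ S, |μ1 c| ≤ ∑ c ∈ S, |μ c| ∧ ∀ e : ℕ, ∑ c ∈ S, μ1 c * (c : ℝ) ^ e =
      ∑ c ∈ S, μ c * (c : ℝ) ^ e +
        (∑ c ∈ S', μ' c * (c : ℝ) ^ e - ∑ c ∈ S', max (μ c) 0 * (c : ℝ) ^ e) := by
  have hdec : ∀ c, μ c = max (μ c) 0 - max (-μ c) 0 := fun c => by
    rcases le_total (μ c) 0 with h | h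
    · rw [max_eq_right h, max_eq_left (by linarith)]; ring
    · rw [max_eq_left h, max_eq_right (by linarith)]; ring
  have habs : ∀ c, |μ c| = max (μ c) 0 + max (-μ c) 0 := fun c => by
    rcases le_total (μ c) 0 with h | h
    · rw [max_eq_right h, max_eq_left (by linarith), abs_of_nonpos h]; ring
    · rw [max_eq_left h, max_eq_right (by linarith), abs_of_nonneg h]; ring
  refine ⟨fun c => (if c ∈ S' then μ' c else max (μ c) 0) - max (-μ c) 0, ?_, fun e => ?_⟩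
  · have a0 := spl_SH2b S S' hS (fun c => max (μ c) 0) μ' (fun _ => 1)
    simp only [mul_one] at a0
    rw [he, sub_self, add_zero] at a0
    calc ∑ c ∈ S, |(if c ∈ S' then μ' c else max (μ c) 0) - max (-μ c) 0|
        ≤ ∑ c ∈ S, ((if c ∈ S' then μ' c else max (μ c) 0) + max (-μ c) 0) := by
          refine sum_le_sum fun c _ => ?_
          have a1 : 0 ≤ (if c ∈ S' then μ' c else max (μ c) 0) := by
            split_ifs with h
            · exact h0 c h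
            · exact le_max_right _ _
          have a2 : 0 ≤ max (-μ c) 0 := le_max_right _ _
          rw [abs_le]
          constructor <;> linarith
      _ = ∑ c ∈ S, |μ c| := by
          rw [sum_add_distrib, a0, ← sum_add_distrib]
          exact sum_congr rfl fun c _ => (habs c).symm
  · have a0 := spl_SH2b S S' hS (fun c => max (μ c) 0) μ' (fun c => (c : ℝ) ^ e)
    have a1 : ∑ c ∈ S, μ c * (c : ℝ) ^ e =
        ∑ c ∈ S, max (μ c) 0 * (c : ℝ) ^ e - ∑ c ∈ S, max (-μ c) 0 * (c : ℝ) ^ e := by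
      rw [← sum_sub_distrib]
      refine sum_congr rfl fun c _ => ?_
      have := hdec c
      linear_combination ((c : ℝ) ^ e) * this
    simp only [sub_mul]
    rw [sum_sub_distrib, a0, a1]
    ring

theorem pw_SH2b (r g e : ℕ) (t γ h : ℝ) (ht : 0 ≤ t) (hγ : 0 < γ) (hγ1 : γ ≤ 1) (hh : 0 < h)
    (hg : h ≤ 4 * r * g) (he : 1 ≤ e) (her : e + 2 < r) :
    t * (7 * (γ * h)) ^ e ≤ t * 7 ^ r * γ * (4 * r) ^ r / h ^ 2 * (g : ℝ) ^ (e + 2) := by
  have hr : (1 : ℝ) ≤ r := by exact_mod_cast (by omega : 1 ≤ r)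
  have a1 : (7 : ℝ) ^ e ≤ 7 ^ r := pow_le_pow_right₀ (by norm_num) (by omega)
  have a2 : γ ^ e ≤ γ := pow_le_of_le_one hγ.le hγ1 (by omega)
  have a3 : h ^ (e + 2) ≤ (4 * r * g : ℝ) ^ (e + 2) := pow_le_pow_left₀ hh.le hg _
  have a4 : (4 * r : ℝ) ^ (e + 2) ≤ (4 * r) ^ r := pow_le_pow_right₀ (by linarith) (by omega)
  have a5 : h ^ (e + 2) ≤ (4 * r : ℝ) ^ r * (g : ℝ) ^ (e + 2) := by
    refine le_trans a3 ?_
    rw [mul_pow]
    exact mul_le_mul_of_nonneg_right a4 (by positivity)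
  rw [div_mul_eq_mul_div, le_div_iff₀ (by positivity)]
  calc t * (7 * (γ * h)) ^ e * h ^ 2 = t * 7 ^ e * γ ^ e * h ^ (e + 2) := by
        rw [mul_pow, mul_pow]; ring
    _ ≤ t * 7 ^ r * γ * ((4 * r : ℝ) ^ r * (g : ℝ) ^ (e + 2)) := by gcongr
    _ = _ := by ring

theorem SH2b_pf (h1 : SPR2_st) (h2 : LAG_st) (h3 : RCB_st.{u}) : SH2b_st.{u} := by
  intro N _ T J _ _ F j2 hj2 hW
  have hr : 3 ≤ F.r := hW ▸ F.sh.W_le j2
  have hθ := F.P.θ_pos
  obtain ⟨cs, Cs, hcs, hCs, hS⟩ := h1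
  obtain ⟨CL, hCL, hL⟩ := h2 F.r
  obtain ⟨a4, ha4⟩ : ∃ a4 : ℝ, a4 = CL * 7 ^ F.r * (4 * F.r) ^ F.r / F.P.θ := ⟨_, rfl⟩
  have ha0 : 0 ≤ a4 := by rw [ha4]; positivity
  refine ⟨a4, ha0, fun ε γ C1 hε hε1 hγ hγ1 hC1 => ?_⟩
  obtain ⟨Cb, hCb, hR⟩ := h3 N T J F (2 + C1 * (2 / ε) ^ F.Z.p)
  have he2 : 1 ≤ 2 / ε := by rw [le_div_iff₀ hε]; linarith
  have hp1 : 1 ≤ (2 / ε) ^ F.Z.p := one_le_pow₀ he2
  have hA : 1 ≤ C1 * (2 / ε) ^ F.Z.p := one_le_mul_of_one_le_of_one_le hC1 hp1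
  refine ⟨min (cs * (F.P.θ / 4) ^ 3) (ε ^ 2 / (a4 + 1)), Cb * C1 * (2 / ε) ^ F.Z.p,
    max 1 (max (4 * Cs / F.P.θ) (2 * F.r / ε)), lt_min (by positivity) (by positivity),
    by positivity, ?_⟩
  intro k D t z Q hD hDk hOk htime hCl hY hm hμ ht0 ht
  have hr1 : (3 : ℝ) ≤ F.r := by exact_mod_cast hr
  have hD1 : 1 ≤ D := le_trans (le_max_left _ _) hD
  have hD2 : 4 * Cs / F.P.θ ≤ D := le_trans (le_trans (le_max_left _ _) (le_max_right _ _)) hD
  have hD3 : 2 * F.r / ε ≤ D := le_trans (le_trans (le_max_right _ _) (le_max_right _ _)) hD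
  have hD0 : 0 < D := by linarith
  have hDD : D ^ 2 ≤ k := le_trans (pow_le_pow_right₀ hD1 (by omega)) hDk
  have hDk1 : D ≤ k := le_trans (le_self_pow₀ hD1 (by omega)) hDD
  have hk1 : 1 ≤ k := by linarith
  have hk0 : 0 < k := by linarith
  have hCD : Cs * D ≤ F.P.θ / 4 * k := by
    rw [div_le_iff₀ hθ] at hD2
    have a1 := mul_le_mul_of_nonneg_right hD2 hD0.le
    have a2 := mul_le_mul_of_nonneg_left hDD hθ.le
    linarith
  have hh : 2 * (F.r : ℝ) ≤ ε * k := by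
    rw [div_le_iff₀ hε] at hD3
    have a1 := mul_le_mul_of_nonneg_right hDk1 hε.le
    linarith
  have hh0 : 0 < ε * k := by positivity
  have hL1 : 1 ≤ ε / 2 * k := by linarith
  have hLk : ε / 2 * k ≤ k := mul_le_of_le_one_left hk0.le (by linarith)
  have hKL : k / (ε / 2 * k) = 2 / ε := by field_simp
  have ht1 : t ≤ cs * (F.P.θ / 4) ^ 3 * D * k ^ 2 :=
    le_trans ht (by gcongr; exact min_le_left _ _)
  have ht2 : t ≤ ε ^ 2 / (a4 + 1) * D * k ^ 2 :=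
    le_trans ht (by gcongr; exact min_le_right _ _)
  have ht' : t ≤ cs * (F.P.θ / 4 * k) * (F.P.θ / 4 * k / D) ^ 2 := by
    refine le_trans ht1 ?_
    have e1 : cs * (F.P.θ / 4 * k) * (F.P.θ / 4 * k / D) ^ 2
        = cs * (F.P.θ / 4) ^ 3 * (k / D ^ 2) * k ^ 2 := by
      field_simp
    rw [e1]
    have e2 : D ≤ k / D ^ 2 := by
      rw [le_div_iff₀ (by positivity)]
      calc D * D ^ 2 = D ^ 3 := by ring
        _ ≤ k := hDk
    gcongr
  have hF := flt_SH2b Q.X Q.Y (γ * (ε * k))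
  obtain ⟨X', hX'⟩ : ∃ X', X' = max Q.X (-⌊γ * (ε * k)⌋) := ⟨_, rfl⟩
  obtain ⟨Y', hY'⟩ : ∃ Y', Y' = min Q.Y ⌊γ * (ε * k)⌋ := ⟨_, rfl⟩
  rw [← hX', ← hY'] at hF
  have hsub : Icc X' Y' ⊆ Icc Q.X Q.Y := by rw [← hF]; exact filter_subset _ _
  have hM : ∀ c ∈ Icc X' Y', |(c : ℝ)| ≤ γ * (ε * k) := fun c hc => by
    rw [← hF] at hc
    exact (mem_filter.1 hc).2
  rw [hF] at hm
  obtain ⟨μ', hμ0, hμe, hμq, hμh⟩ := hS X' Y' (fun c => max (Q.μ c) 0) D (F.P.θ / 4 * k) t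
    (γ * (ε * k)) hD0 (fun c hc => ⟨le_max_right _ _, max_le (hμ c (hsub hc)) hD0.le⟩) hm hCD ht0
    ht' hM
  obtain ⟨μ1, hμ1, hμ2⟩ := mv_SH2b (Icc Q.X Q.Y) (Icc X' Y') hsub Q.μ μ' hμ0 (by
    have := hμe 0 (by norm_num)
    simpa only [pow_zero, mul_one] using this)
  obtain ⟨dm, hdm⟩ : ∃ dm : ℕ → ℝ, ∀ e, dm e =
      ∑ c ∈ Icc X' Y', μ' c * (c : ℝ) ^ e - ∑ c ∈ Icc X' Y', max (Q.μ c) 0 * (c : ℝ) ^ e :=
    ⟨_, fun _ => rfl⟩
  obtain ⟨g, hg⟩ : ∃ g : ℕ, g = ⌊ε * k / (2 * F.r)⌋₊ := ⟨_, rfl⟩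
  have hq1 : 1 ≤ ε * k / (2 * F.r) := by rw [le_div_iff₀ (by positivity)]; linarith
  have hg1 : 1 ≤ g := by rw [hg]; exact Nat.le_floor (by exact_mod_cast hq1)
  have hg1' : (1 : ℝ) ≤ g := by exact_mod_cast hg1
  have hg2 : (g : ℝ) ≤ ε * k / (2 * F.r) := by rw [hg]; exact Nat.floor_le (by linarith)
  have hg3 : ε * k / (2 * F.r) < g + 1 := by rw [hg]; exact Nat.lt_floor_add_one _
  rw [le_div_iff₀ (by positivity)] at hg2
  rw [div_lt_iff₀ (by positivity)] at hg3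
  have hg4 : ε * k ≤ 4 * F.r * g := by
    have := mul_le_mul_of_nonneg_left hg1' (by positivity : (0 : ℝ) ≤ F.r)
    linarith
  have hg5 : ((F.r : ℤ) * g : ℤ) ≤ Q.Y := by
    have : ((F.r : ℝ) * g) ≤ Q.Y := by linarith
    exact_mod_cast this
  obtain ⟨b, hb⟩ : ∃ b : ℝ, b = t * 7 ^ F.r * γ * (4 * F.r) ^ F.r / (ε * k) ^ 2 := ⟨_, rfl⟩
  have hb0 : 0 ≤ b := by rw [hb]; positivity
  obtain ⟨ν, hν1, hν2⟩ := hL Q.X Q.Y g (fun e => if e ≤ 2 then 0 else -dm e) b hg1 hOk.1 hg5 hb0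
    (fun e he => by
      by_cases h : e ≤ 2
      · simp only [if_pos h, abs_zero]
        positivity
      · obtain ⟨e', rfl⟩ : ∃ e', e = e' + 2 := ⟨e - 2, by omega⟩
        simp only [if_neg h, abs_neg]
        rw [hdm, hb]
        exact le_trans (hμh e')
          (pw_SH2b F.r g e' t γ (ε * k) ht0 hγ hγ1 hh0 hg4 (by omega) he))
  have hab : CL * b / F.P.θ = a4 * γ * t / (ε * k) ^ 2 := by
    rw [ha4, hb]
    field_simp
  have hak : a4 * γ * t / (ε * k) ^ 2 ≤ k := by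
    rw [div_le_iff₀ (by positivity)]
    calc a4 * γ * t ≤ (a4 + 1) * 1 * (ε ^ 2 / (a4 + 1) * k * k ^ 2) := by
          have : t ≤ ε ^ 2 / (a4 + 1) * k * k ^ 2 := le_trans ht2 (by gcongr)
          gcongr
          linarith
      _ = k * (ε * k) ^ 2 := by field_simp
  let Q' : Cfg N := ⟨Q.X, Q.Y, Q.n, Q.U, Q.D, fun c => μ1 c + ν c⟩
  have hOk' : Q'.Ok F.P := hOk
  have htime' : Q'.time F.P ≤ Q.time F.P + a4 * γ * t / (ε * k) ^ 2 := by
    have e1 : ∑ c ∈ Icc Q.X Q.Y, |μ1 c + ν c| ≤ ∑ c ∈ Icc Q.X Q.Y, |Q.μ c| + CL * b := by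
      refine le_trans (sum_le_sum fun c _ => abs_add_le _ _) ?_
      rw [sum_add_distrib]
      linarith
    show Q.time0 F.P + ∑ c ∈ Icc Q.X Q.Y, |μ1 c + ν c| / F.P.θ ≤
      Q.time0 F.P + ∑ c ∈ Icc Q.X Q.Y, |Q.μ c| / F.P.θ + a4 * γ * t / (ε * k) ^ 2
    rw [← sum_div, ← sum_div, ← hab, add_assoc, ← add_div]
    gcongr
  have hmom : ∀ e < F.r, Q'.mom F.P e = Q.mom F.P e - if e = 2 then t else 0 := by
    intro e he
    show Q.mom0 F.P e + ∑ c ∈ Icc Q.X Q.Y, (μ1 c + ν c) * (c : ℝ) ^ e =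
      (Q.mom0 F.P e + ∑ c ∈ Icc Q.X Q.Y, Q.μ c * (c : ℝ) ^ e) - if e = 2 then t else 0
    simp only [add_mul]
    rw [sum_add_distrib, hμ2 e, hν2 e he, ← hdm]
    rcases lt_trichotomy e 2 with h | h | h
    · have a1 : dm e = 0 := by rw [hdm, hμe e h, sub_self]
      rw [if_pos h.le, if_neg h.ne, a1]
      ring
    · have a1 : dm e = -t := by rw [hdm, h, hμq]; ring
      rw [if_pos h.le, if_pos h, a1]
      ring
    · rw [if_neg (by omega), if_neg h.ne']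
      ring
  have hCl' : F.Cl (z - Pi.single j2 (F.κ j2 * t)) Q'.n (Q'.mom F.P) C1 k := by
    refine ⟨?_, fun j hj => ?_⟩
    · rw [Pi.sub_apply, Pi.single_eq_of_ne hj2.symm, sub_zero]
      exact hCl.1
    · have a1 := hCl.2 j hj
      rw [hmom _ (F.W_lt j)]
      by_cases e : j = j2
      · subst e
        rw [Pi.sub_apply, Pi.single_eq_same, if_pos (by omega)]
        have a4 : z j - F.κ j * t - F.κ j * (Q.mom F.P (F.Z.W j - 1) - t) =
            z j - F.κ j * Q.mom F.P (F.Z.W j - 1) := by ring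
        rw [a4]
        exact a1
      · have a2 : F.Z.W j ≠ F.Z.W j2 := fun h => e (F.sh.inj j j2 hj hj2 h)
        rw [Pi.sub_apply, Pi.single_eq_of_ne e, sub_zero, if_neg (by omega), sub_zero]
        exact a1
  have hres := hR k (ε / 2 * k) C1 Q' hL1 hLk hC1
    (by rw [hKL]; exact le_trans (by linarith) (le_mul_of_one_le_right (by linarith) hk1)) hOk'
    (by
      have := mul_le_mul_of_nonneg_right hA hk0.le
      linarith) (by
      have a1 : ((Q.Y : ℤ) : ℝ) ≤ ((max (-Q.X) Q.Y : ℤ) : ℝ) := by exact_mod_cast le_max_right _ _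
      show ε / 2 * k ≤ ((max (-Q.X) Q.Y : ℤ) : ℝ) + (2 + C1 * (2 / ε) ^ F.Z.p)
      linarith) _ hCl'
  rw [hKL] at hres
  exact F.Z.mono_B (by linarith) hres

end

section


theorem upd_SH1 (S : Finset ℤ) (μ : ℤ → ℝ) (c0 : ℤ) (hc : c0 ∈ S) (v : ℝ) (f : ℤ → ℝ → ℝ) :
    ∑ c ∈ S, f c (Function.update μ c0 v c) = ∑ c ∈ S, f c (μ c) + (f c0 v - f c0 (μ c0)) := by
  rw [← add_sum_erase _ _ hc, ← add_sum_erase _ _ hc, Function.update_self,
    sum_congr rfl fun c hc => by rw [Function.update_of_ne (ne_of_mem_erase hc)]]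
  ring

theorem gap_SH1 {α : Type u} (P : Alph α) : ∃ ρ : ℝ, 0 < ρ ∧ ∀ x ∈ P.T,
    P.β x + P.lam * P.a x ≠ P.θ → ρ ≤ P.θ - P.β x - P.lam * P.a x := by
  classical
  rcases (P.T.filter fun x => P.β x + P.lam * P.a x ≠ P.θ).eq_empty_or_nonempty with h | h
  · exact ⟨1, one_pos, fun x hx hx' => absurd (mem_filter.2 ⟨hx, hx'⟩) (by rw [h]; simp)⟩
  · obtain ⟨y, hy, hmin⟩ := exists_min_image _ (fun x => P.θ - P.β x - P.lam * P.a x) h
    obtain ⟨h1, h2⟩ := mem_filter.1 hy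
    exact ⟨_, by linarith [lt_of_le_of_ne (P.up y h1) h2], fun x hx hx' =>
      hmin x (mem_filter.2 ⟨hx, hx'⟩)⟩

theorem near_SH1 {D C2 Cs Cp tot a b n δ c2 : ℝ} (hCs : 0 ≤ Cs) (hCp : 0 < Cp) (hδ : 0 < δ)
    (h1 : D - C2 ≤ tot) (h2 : tot ≤ Cs * a) (h3 : a ≤ b) (h4 : b ≤ Cp * (n + 1 + δ⁻¹))
    (hn : 0 ≤ n) (h5 : 2 * |C2| ≤ D) (h6 : c2 ≤ (4 * ((Cs + 1) * Cp))⁻¹)
    (h7 : 4 * ((Cs + 1) * Cp) * (2 + δ⁻¹) ≤ D) : c2 * D + 1 ≤ n := by
  have hi : 0 < δ⁻¹ := inv_pos.2 hδ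
  have hH : 0 < (Cs + 1) * Cp := by positivity
  have hD : 0 ≤ D := le_trans (by positivity) h5
  have e1 : D / 2 ≤ (Cs + 1) * Cp * (n + 1 + δ⁻¹) := by
    have e2 := mul_le_mul_of_nonneg_left (h3.trans h4) hCs
    have e3 : 0 ≤ Cp * (n + 1 + δ⁻¹) := by positivity
    nlinarith [le_abs_self C2]
  have e4 : 4 * ((Cs + 1) * Cp) * (c2 * D) ≤ D := by
    have := mul_le_mul_of_nonneg_left h6 (by positivity : 0 ≤ 4 * ((Cs + 1) * Cp))
    rw [mul_inv_cancel₀ (by positivity)] at this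
    nlinarith
  refine le_of_mul_le_mul_left ?_ hH
  nlinarith

theorem fin_SH1 {θ ρ Cb lam kb Ce c c2 δ D N : ℝ} (hθ : 0 < θ) (hρ : 0 < ρ) (hCb : 0 ≤ Cb)
    (hl : 0 < lam) (hk : 0 < kb) (hCe : 0 < Ce) (hD : 0 ≤ D) (hc0 : 0 ≤ c) (hδ0 : 0 ≤ δ)
    (hN0 : 0 ≤ N) (hδ : δ ≤ ρ / (2 * θ * ((Cb + 1) * lam * kb) * Ce))
    (hc : c ≤ ρ * c2 / (2 * θ * ((Cb + 1) * lam * kb))) (hN : c2 * D ≤ N) :
    Cb * (kb * (c * D) + kb * (Ce * N * δ)) * lam ≤ ρ / θ * N := by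
  rw [le_div_iff₀ (by positivity)] at hδ hc
  rw [div_mul_eq_mul_div, le_div_iff₀ hθ]
  have e1 := mul_le_mul_of_nonneg_right hδ hN0
  have e2 := mul_le_mul_of_nonneg_right hc hD
  have e3 := mul_le_mul_of_nonneg_left hN hρ.le
  have e4 : 0 ≤ (kb * (c * D) + kb * (Ce * N * δ)) * lam * θ := by positivity
  nlinarith

theorem SH1b_pf (h1 : PIG_st) (h2 : EXC_st.{u}) (h3 : W2C_st.{u}) (h4 : SHM_st.{u})
    (h5 : RCB_st.{u}) : SH1b_st.{u} := by
  intro N _ T J _ _ F len w0 C1 C2 R0 s s' jt ε' hw0 hpair hreal hε hε1 hC1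
  classical
  have hθ := F.P.θ_pos
  obtain ⟨ρ0, hρ0, hgap⟩ := gap_SH1 F.P
  obtain ⟨B, -, hB⟩ := F.P.bd
  obtain ⟨kb, hkb1, hkb⟩ := F.kbd
  obtain ⟨Cs, hCs, hSHM⟩ := h4 N F.P F.r 1
  obtain ⟨Cp, hCp, hPIG⟩ := h1 (max Cs B) R0
  obtain ⟨Ce, hCe, hEXC⟩ := h2 N F.P F.r 1 s s' hpair.1 hpair.2.1 hpair.2.2.1 hpair.2.2.2.1
    hpair.2.2.2.2.1 hpair.2.2.2.2.2
  obtain ⟨Cw, hCw, hW2C⟩ := h3 N F.P F.r (Ce + Ce / F.P.θ + 1)
  obtain ⟨lam, hlam⟩ : ∃ lam : ℝ, lam = (2 / ε') ^ F.Z.p := ⟨_, rfl⟩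
  have hlam0 : 0 < lam := by rw [hlam]; positivity
  obtain ⟨Cb, hCb, hRCB⟩ := h5 N T J F ((C1 + 1 + kb * Cw + kb + kb * Ce) * lam + 1)
  have hρ : 0 < w0 * ρ0 := mul_pos hw0 hρ0
  have hkb0 : 0 < kb := by linarith
  have hCe0 : 0 < Ce := by linarith
  obtain ⟨δ, hδ0, hδ1, hδ⟩ : ∃ δ : ℝ, 0 < δ ∧ δ ≤ 1 ∧
      δ ≤ w0 * ρ0 / (2 * F.P.θ * ((Cb + 1) * lam * kb) * Ce) :=
    ⟨min 1 _, lt_min one_pos (by positivity), min_le_left _ _, min_le_right _ _⟩
  obtain ⟨c2, hc20, hc21, hc22⟩ : ∃ c2 : ℝ, 0 < c2 ∧ c2 ≤ (4 * ((Cs + 1) * Cp))⁻¹ ∧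
      c2 ≤ (8 * Ce)⁻¹ :=
    ⟨min _ _, lt_min (by positivity) (by positivity), min_le_left _ _, min_le_right _ _⟩
  obtain ⟨c, hc0, hc1, hc⟩ : ∃ c : ℝ, 0 < c ∧ c ≤ 1 ∧
      c ≤ w0 * ρ0 * c2 / (2 * F.P.θ * ((Cb + 1) * lam * kb)) :=
    ⟨min 1 _, lt_min one_pos (by positivity), min_le_left _ _, min_le_right _ _⟩
  refine ⟨c, Cb * (C1 + 1 + kb * Cw) * lam,
    1 + Cp / δ + 2 / ε' + c2⁻¹ + 4 * ((Cs + 1) * Cp) * (2 + δ⁻¹) + 2 * (|C2| + Cw), hc0,
    by positivity, ?_⟩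
  intro k D t z I lab c0 hD hk hlen hdesc hh hY hc0l hc0u htot ht0 ht
  obtain ⟨hOk, hw, htime, hCl, hlab, -, hpig⟩ := hdesc
  have p1 : 0 < Cp / δ := by positivity
  have p2 : 0 < 2 / ε' := by positivity
  have p3 : 0 < c2⁻¹ := by positivity
  have p4 : 0 < 4 * ((Cs + 1) * Cp) * (2 + δ⁻¹) := by positivity
  have p5 : 0 ≤ |C2| := abs_nonneg _
  have hD1 : 1 ≤ D := by linarith
  have hk1 : 1 ≤ k := hD1.trans hk
  have hk0 : 0 < k := by linarith
  have htk : I.time ≤ k := htime.trans hlen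
  obtain ⟨-, hs2, -⟩ := hSHM I k (-⌈k⌉) ⌈k⌉ hk1 hOk (by rwa [one_mul]) fun i hi => by
    obtain ⟨a1, a2⟩ := abs_le.1 (hh i hi)
    have := Int.le_ceil k
    constructor
    · exact_mod_cast (by linarith : -(⌈k⌉ : ℝ) ≤ I.h i)
    · exact_mod_cast (by linarith : (I.h i : ℝ) ≤ ⌈k⌉)
  have hp := hPIG I.n I.h I.w lab
    ((range I.n).filter fun j => F.P.β (I.x j) + F.P.lam * F.P.a (I.x j) ≠ F.P.θ) c0 k (δ * k)
    (fun i hi => by
      obtain ⟨a1, a2, -, a4⟩ := hOk i hi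
      refine ⟨a2, ?_⟩
      rw [I.h_succ, add_sub_cancel_left, a4, abs_mul, abs_of_nonneg a2, mul_comm]
      exact mul_le_mul_of_nonneg_right ((hB _ a1).2.1.trans (le_max_right _ _)) a2)
    htk hlab (fun i i' a1 a2 a3 a4 => by
      obtain ⟨j, b1, b2, b3⟩ := hpig hreal i i' a1 a2 a3 a4
      exact ⟨j, mem_filter.2 ⟨mem_range.2 (by omega), b3⟩, b1, b2⟩)
    (by rw [← div_le_iff₀' hδ0]; linarith)
  rw [show k / (δ * k) = δ⁻¹ by field_simp] at hp
  have hnear := near_SH1 hCs hCp hδ0 htot ((le_abs_self _).trans (hs2 c0))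
    (Nat.cast_le.2 (card_le_card (monotone_filter_right _ fun i _ hi =>
      hi.trans (le_max_left Cs B)))) hp (Nat.cast_nonneg _) (by linarith) hc21 (by linarith)
  have hcD : 1 ≤ c2 * D := by
    have := mul_le_mul_of_nonneg_left (show c2⁻¹ ≤ D by linarith) hc20.le
    rwa [mul_inv_cancel₀ hc20.ne'] at this
  have hN2 := Nat.ceil_lt_add_one (show 0 ≤ c2 * D by linarith)
  obtain ⟨E, hE, hEc⟩ := exists_subset_card_eq (n := ⌈c2 * D⌉₊)
    (Nat.cast_le.1 (hN2.le.trans hnear))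
  have hN1 : c2 * D ≤ (E.card : ℝ) := by rw [hEc]; exact Nat.le_ceil _
  have hN0 : (0 : ℝ) ≤ E.card := Nat.cast_nonneg _
  have hN3 : Ce * E.card ≤ D / 4 := by
    have a1 := mul_le_mul_of_nonneg_left hc22 (by positivity : 0 ≤ 8 * Ce)
    rw [mul_inv_cancel₀ (by positivity)] at a1
    have a2 : (E.card : ℝ) ≤ 2 * (c2 * D) := by rw [hEc]; linarith
    have a3 := mul_le_mul_of_nonneg_left a2 hCe0.le
    have a4 := mul_le_mul_of_nonneg_right a1 (zero_le_one.trans hD1)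
    linarith only [a3, a4]
  have hN4 : (E.card : ℝ) ≤ k := by
    have := mul_le_mul_of_nonneg_right hCe hN0
    linarith only [this, hN3, hk, hD1]
  obtain ⟨I', Δ, e1, e2, e3, e4, e5, e6, e7⟩ := hEXC I E c0 k δ (w0 * ρ0) hk1 hδ0.le hOk
    (fun i hi => hw0.trans_le (hw i hi))
    (by
      obtain ⟨i, a1, a2⟩ := hc0l
      obtain ⟨i', b1, b2⟩ := hc0u
      have a3 : (I.h i : ℝ) ≤ c0 := by exact_mod_cast a2
      have b3 : (c0 : ℝ) ≤ I.h i' := by exact_mod_cast b2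
      rw [one_mul, abs_le]
      exact ⟨(abs_le.1 (hh i a1)).1.trans a3, b3.trans (abs_le.1 (hh i' b1)).2⟩)
    (fun i hi => by
      obtain ⟨a1, a2, a3⟩ := mem_filter.1 (hE hi)
      refine ⟨a2, by rw [one_mul]; exact hh i a2.le, a3, ?_⟩
      exact mul_le_mul (hw i a2) (hgap _ (hOk i a2).1 (mem_filter.1 a1).2) hρ0.le
        (hOk i a2).2.1)
  have hhI : I'.h = I.h := funext fun i => by simp only [Itm.h, e2]
  have p6 : 0 ≤ Ce / F.P.θ := by positivity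
  have p7 : 0 ≤ w0 * ρ0 / F.P.θ * E.card := by positivity
  obtain ⟨Q, q1, q2, q3, -, -, q4, q5, q6⟩ := hW2C I' k hk1
    (fun i hi => ⟨(e3 i hi).1, (e3 i hi).2.1, (e3 i hi).2.2.1.trans (by linarith),
      (e3 i hi).2.2.2⟩)
    (by
      have a1 : Δ / F.P.θ ≤ Ce / F.P.θ * k := by
        rw [div_mul_eq_mul_div]
        exact div_le_div_of_nonneg_right ((le_abs_self _).trans
          (e4.trans (mul_le_mul_of_nonneg_left hN4 hCe0.le))) hθ.le
      linarith only [a1, e5, p7, htk, mul_pos hCe0 hk0])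
  rw [hhI, e1] at q2 q3
  have hc0m : c0 ∈ Icc Q.X Q.Y := by
    obtain ⟨i, a1, a2⟩ := hc0l
    obtain ⟨i', b1, b2⟩ := hc0u
    exact mem_Icc.2 ⟨(q3 i a1).1.trans a2, b2.trans (q3 i' b1).2⟩
  have hμ : |Δ| ≤ Q.μ c0 := by
    have a1 := (abs_le.1 (q6 c0 hc0m)).1
    have a2 := (abs_le.1 (e6 c0)).1
    linarith [le_abs_self C2]
  let Q' : Cfg N := { Q with μ := Function.update Q.μ c0 (Q.μ c0 - Δ) }
  have ht' : Q'.time F.P = Q.time F.P - Δ / F.P.θ := by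
    have := upd_SH1 _ Q.μ c0 hc0m (Q.μ c0 - Δ) fun _ x => |x| / F.P.θ
    rw [abs_of_nonneg (by linarith [le_abs_self Δ] : 0 ≤ Q.μ c0 - Δ),
      abs_of_nonneg ((abs_nonneg _).trans hμ)] at this
    change Q.time0 F.P + ∑ c ∈ Icc Q.X Q.Y, |Function.update Q.μ c0 (Q.μ c0 - Δ) c| / F.P.θ = _
    rw [this, Cfg.time]
    ring
  have hm' : ∀ e, Q'.mom F.P e = Q.mom F.P e - Δ * (c0 : ℝ) ^ e := by
    intro e
    have := upd_SH1 _ Q.μ c0 hc0m (Q.μ c0 - Δ) fun c x => x * (c : ℝ) ^ e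
    change Q.mom0 F.P e + ∑ c ∈ Icc Q.X Q.Y,
      Function.update Q.μ c0 (Q.μ c0 - Δ) c * (c : ℝ) ^ e = _
    rw [this, Cfg.mom]
    ring
  have p8 : 0 ≤ Ce * E.card * δ := by positivity
  have p9 : 0 ≤ kb * (c * D) := by positivity
  have hCl' : F.Cl (z - Pi.single jt (F.κ jt * t)) Q'.n (Q'.mom F.P)
      (C1 + (1 + kb * (c * D)) + kb * (Cw + Ce * E.card * δ)) k := by
    refine hCl.move hkb hkb1 hk0.le (fun j => ?_) ?_ fun e he => ?_
    · have a1 : 1 ≤ k ^ (F.Z.W j - 1) := one_le_pow₀ hk1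
      have a2 : |z j - ⌊z j⌋| ≤ 1 := by
        rw [abs_of_nonneg (sub_nonneg.2 (Int.floor_le _))]
        linarith [Int.lt_floor_add_one (z j)]
      rw [F.Z.co_pt, Pi.sub_apply, sub_right_comm]
      refine (abs_sub _ _).trans ?_
      by_cases hj : j = jt
      · subst hj
        rw [Pi.single_eq_same, abs_mul, abs_of_nonneg ht0]
        have a3 := mul_le_mul (hkb j) ht ht0 hkb0.le
        linarith only [a1, a2, a3]
      · rw [Pi.single_eq_of_ne hj, abs_zero]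
        linarith only [a1, a2, mul_nonneg p9 (zero_le_one.trans a1)]
    · change |(I.h I.n : ℝ) - Q.n| ≤ _
      rw [q2, sub_self, abs_zero]
      linarith
    · have a1 := abs_le.1 (q5 e he)
      have a2 := abs_le.1 (e7 e he)
      rw [hm', abs_le]
      constructor <;> linarith only [a1.1, a1.2, a2.1, a2.2]
  have hL : k / (ε' / 2 * k) = 2 / ε' := by field_simp
  have hA : 0 ≤ (C1 + 1 + kb * Cw + kb + kb * Ce) * lam := by positivity
  have htQ : Q'.time F.P ≤ k - w0 * ρ0 / F.P.θ * E.card := by rw [ht']; linarith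
  have hz := hRCB k (ε' / 2 * k) _ Q'
    (by
      have := mul_le_mul_of_nonneg_left (show 2 / ε' ≤ k by linarith) hε.le
      rw [mul_div_cancel₀ _ hε.ne'] at this
      linarith)
    (by linarith only [mul_le_mul_of_nonneg_right hε1 hk0.le, hk0])
    (by linarith only [mul_nonneg hkb0.le hCw, mul_nonneg hkb0.le p8, p9, hC1])
    (by
      rw [hL, ← hlam]
      have a1 : c * D ≤ k := (mul_le_of_le_one_left (zero_le_one.trans hD1) hc1).trans hk
      have a2 : Ce * E.card * δ ≤ Ce * k := by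
        rw [mul_assoc]
        exact mul_le_mul_of_nonneg_left ((mul_le_of_le_one_right hN0 hδ1).trans hN4) hCe0.le
      have a3 := mul_le_mul_of_nonneg_left a1 hkb0.le
      have a4 := mul_le_mul_of_nonneg_left a2 hkb0.le
      have a5 := le_mul_of_one_le_right (show 0 ≤ C1 + 1 + kb * Cw by positivity) hk1
      have a6 : C1 + (1 + kb * (c * D)) + kb * (Cw + Ce * E.card * δ) ≤
          (C1 + 1 + kb * Cw + kb + kb * Ce) * k := by linarith only [a3, a4, a5]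
      linarith only [mul_le_mul_of_nonneg_right a6 hlam0.le, hk0])
    q1 (by linarith only [htQ, p7, mul_nonneg hA hk0.le])
    (by
      obtain ⟨i, a1, a2⟩ := hY
      have a3 : (I.h i : ℝ) ≤ (max (-Q.X) Q.Y : ℤ) := by
        exact_mod_cast (q3 i a1).2.trans (le_max_right _ _)
      change _ ≤ ((max (-Q.X) Q.Y : ℤ) : ℝ) + _
      linarith) _ hCl'
  refine F.Z.mono_B ?_ hz
  rw [hL, ← hlam]
  have := fin_SH1 hθ hρ hCb hlam0 hkb0 hCe0 (by linarith) hc0.le hδ0.le hN0 hδ hc hN1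
  linarith

end

section


theorem SHF2_pf (h1 : DSC_st.{u}) (h2 : W2C_st.{u}) (h3 : PRE2_st.{u}) (h4 : SH1b_st.{u})
    (h5 : SH2b_st.{u}) : SHF2_st.{u} := by
  intro N _ T J _ _ F len C0 w0 R0 s s' j1 j2 a γ hw hE hP hR n1 n2 W1 W2 g0
  obtain ⟨-, -, C1, c1, hD⟩ := h1 N T J F len C0 w0 R0 hw hE
  obtain ⟨C2, c2, hQ⟩ := h2 N F.P F.r 1
  obtain ⟨kb, k1, hk⟩ := F.kbd
  obtain ⟨a4, a40, h5'⟩ := h5 N T J F j2 n2 W2
  have g1 : 0 < min 1 (γ / (a4 + 1)) := lt_min one_pos (by positivity)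
  have g2 : a4 * min 1 (γ / (a4 + 1)) ≤ γ := by
    refine (mul_le_mul_of_nonneg_left (min_le_right _ _) a40).trans ?_
    rw [← mul_div_assoc, div_le_iff₀ (by positivity)]
    nlinarith
  obtain ⟨ε0, e0, e1, hε⟩ := h3 N T J F len w0 C1 C2 a _ R0 j1 j2 n1 n2 W1 W2 g1
  refine ⟨ε0, e0, e1, fun ε e0' e1' => ?_⟩
  obtain ⟨K0, hK0⟩ := hε ε e0' e1'
  obtain ⟨ca, Ca, Da, a1, a2, ha⟩ := h4 N T J F len w0 C1 C2 R0 s s' j2 ε hw hP hR e0'
    (e1'.trans e1) c1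
  obtain ⟨cb, Cb, Db, b1, b2, hb⟩ := h5' ε _ (C1 + 1 + kb * C2) e0' (e1'.trans e1) g1
    (min_le_left _ _) (by nlinarith)
  refine ⟨min ca cb, Ca + Cb, max (max 1 K0) (max Da Db), lt_min a1 b1, by positivity,
    fun k D t z hD0 hDk hl hreg t0 ht => ?_⟩
  simp only [max_le_iff] at hD0
  obtain ⟨⟨d1, d2⟩, d3, d4⟩ := hD0
  have Dk : D ≤ k := (le_self_pow₀ d1 (by omega)).trans hDk
  have K1 : 1 ≤ k := d1.trans Dk
  have K0' : 0 ≤ k := by linarith
  obtain ⟨I, lab, hI⟩ := hD k _ K1 hl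
  have tm : I.time ≤ k := hI.2.2.1.trans hl
  obtain ⟨Q, q1, q2, -, q4, q5, q6, q7, q8⟩ := hQ I k K1 hI.1 (by rwa [one_mul])
  obtain ⟨p1, p2, p4⟩ := hK0 k z I lab Q (d2.trans Dk) hl hreg hI q1 q2 q4 q5 (q6.trans tm) q7
  have w : 0 ≤ D * k ^ 2 := by positivity
  have v1 : 0 ≤ γ * t / (ε * k) ^ 2 := by positivity
  have v2 : a4 * min 1 (γ / (a4 + 1)) * t / (ε * k) ^ 2 ≤ γ * t / (ε * k) ^ 2 :=
    div_le_div_of_nonneg_right (mul_le_mul_of_nonneg_right g2 t0) (by positivity)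
  by_cases c : ∀ c ∈ Icc Q.X Q.Y, Q.μ c ≤ D
  · refine F.Z.mono_B (by linarith) (hb k D t z Q d4 hDk q1 (q6.trans tm) ?_ p2 p4 c t0 ?_)
    · refine hI.2.2.2.1.move hk k1 K0' (fun j => ?_) (by rw [q2]; simpa using c2)
        fun e he => by rw [abs_sub_comm]; exact q7 e he
      rw [abs_sub_comm, one_mul]
      exact (CCore_floor F.Z z j).trans (one_le_pow₀ K1)
    · rw [mul_assoc] at ht ⊢
      exact ht.trans (mul_le_mul_of_nonneg_right (min_le_right _ _) w)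
  · push Not at c
    obtain ⟨c0, m, hc⟩ := c
    obtain ⟨i, i1, i2⟩ := q4
    obtain ⟨i', i1', i2'⟩ := q5
    refine F.Z.mono_B (by linarith) (ha k D t z I lab c0 d3 Dk hl hI p1 ⟨i', i1', i2' ▸ p2⟩
      ⟨i, i1, i2 ▸ (mem_Icc.1 m).1⟩ ⟨i', i1', i2' ▸ (mem_Icc.1 m).2⟩ ?_ t0 ?_)
    · linarith [(abs_le.1 (q8 c0 m)).2]
    · rw [W2, mul_assoc]
      rw [mul_assoc] at ht
      exact ht.trans (mul_le_mul_of_nonneg_right (min_le_left _ _) w)

end

section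


theorem cfg_BOX2 {α : Type u} (P : Alph α) {s0 : α} (hs : s0 ∈ P.T) (ha : 0 < P.a s0) {B : ℝ}
    (hB : |P.β s0| ≤ B) (t : ℕ) :
    ∃ m0 : ℕ → ℝ, (∀ e, |m0 e| ≤ B * (t : ℝ) ^ (e + 1)) ∧ ∀ μ : ℤ → ℝ,
      ∃ Q : Cfg α, Q.Ok P ∧ Q.X = 0 ∧ Q.Y = t ∧ Q.n = t ∧
        Q.time P ≤ t + (∑ c ∈ Icc (0 : ℤ) t, |μ c|) / P.θ ∧
        ∀ e, Q.mom P e = m0 e + ∑ c ∈ Icc (0 : ℤ) t, μ c * (c : ℝ) ^ e := by
  classical
  have ha1 : (1 : ℝ) ≤ |(P.a s0 : ℝ)| := by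
    have : (1 : ℝ) ≤ (P.a s0 : ℝ) := by exact_mod_cast ha
    exact this.trans (le_abs_self _)
  have hB0 : 0 ≤ B := (abs_nonneg _).trans hB
  let Q : (ℤ → ℝ) → Cfg α := fun μ =>
    ⟨0, t, t, fun _ s => if s = s0 then 1 else 0, fun _ _ => 0, μ⟩
  refine ⟨(Q 0).mom0 P, fun e => ?_, fun μ => ⟨Q μ,
    ⟨le_rfl, by simp [Q], by simp [Q], le_rfl, fun c hc => ?_⟩, rfl, rfl, rfl, ?_, fun _ => rfl⟩⟩
  · have h1 : ∀ c ∈ Ico (0 : ℤ) t,
        |(∑ s ∈ P.T, ((if s = s0 then (1 : ℝ) else 0) + 0) * P.β s / |(P.a s : ℝ)|) * (c : ℝ) ^ e| ≤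
          B * (t : ℝ) ^ e := by
      intro c hc
      rw [mem_Ico] at hc
      have c0 : (0 : ℝ) ≤ c := by exact_mod_cast hc.1
      have c1 : (c : ℝ) ≤ t := by exact_mod_cast hc.2.le
      rw [sum_eq_single_of_mem s0 hs (fun s _ h => by simp [h]), if_pos rfl, abs_mul,
        abs_of_nonneg (pow_nonneg c0 e)]
      refine mul_le_mul ?_ (pow_le_pow_left₀ c0 c1 e) (pow_nonneg c0 e) hB0
      rw [add_zero, one_mul, abs_div, abs_abs]
      exact (div_le_self (abs_nonneg _) ha1).trans hB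
    refine (abs_sum_le_sum_abs _ _).trans ((sum_le_sum h1).trans ?_)
    simp only [sum_const, Int.card_Ico, sub_zero, Int.toNat_natCast, nsmul_eq_mul]
    exact le_of_eq (by ring)
  · have hc' : 0 ≤ c ∧ c < (t : ℤ) := mem_Ico.mp hc
    refine ⟨fun s _ => ⟨?_, fun h => ?_⟩, ?_, fun s _ => ⟨le_rfl, fun h => absurd rfl h⟩, ?_⟩
    · simp only [Q]
      split_ifs <;> norm_num
    · by_cases h1 : s = s0
      · rw [h1]
        exact ha
      · exact absurd (if_neg h1) h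
    · simp only [Q, mU]
      rw [sum_ite_eq', if_pos hs, if_neg (by omega)]
    · simp only [Q, mD]
      rw [if_pos hc', sum_const_zero]
  · have h1 : (Q μ).time0 P ≤ t := by
      have h2 : ∀ c ∈ Ico (0 : ℤ) t,
          ∑ s ∈ P.T, ((if s = s0 then (1 : ℝ) else 0) + 0) / |(P.a s : ℝ)| ≤ 1 := by
        intro c _
        rw [sum_eq_single_of_mem s0 hs (fun s _ h => by simp [h]), if_pos rfl, add_zero]
        exact div_le_self zero_le_one ha1
      refine (sum_le_sum h2).trans ?_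
      simp
    rw [Cfg.time, sum_div]
    exact add_le_add h1 le_rfl

theorem quot_BOX2 {z κ μ η k : ℝ} (hκ : κ ≠ 0) (hk : 1 / |κ| ≤ k) (h1 : κ * μ ≤ z)
    (h2 : z ≤ κ * μ + η) : |z / κ - μ| ≤ k * η := by
  have e : z / κ - μ = 1 / κ * (z - κ * μ) := by field_simp
  rw [e, abs_mul, abs_div, abs_one, abs_of_nonneg (a := z - κ * μ) (by linarith)]
  exact mul_le_mul hk (by linarith) (by linarith) (le_trans (by positivity) hk)

theorem BOX2_pf (h1 : LAG_st) (h2 : RCB_st.{u}) : BOX2_st.{u} := by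
  intro N _ T J _ F j1 j2 hj1 hj2 hW1 hW2
  classical
  obtain ⟨s0, hs0, ha0⟩ : ∃ s ∈ F.P.T, 0 < F.P.a s := by
    obtain ⟨s, hs, h0⟩ := F.Z.ex
    rw [← F.ha] at h0
    rw [F.hT]
    rcases lt_or_gt_of_ne h0 with h1 | h1
    · exact ⟨s⁻¹, F.sym s hs, by rw [F.a_inv]; omega⟩
    · exact ⟨s, hs, h1⟩
  obtain ⟨B, -, hB⟩ := F.P.bd
  obtain ⟨CL, hCL, hL⟩ := h1 F.r
  obtain ⟨Cb, hCb, hR⟩ := h2 N T J F 1
  have hθ := F.P.θ_pos
  have B0 : (0 : ℝ) ≤ B := Nat.cast_nonneg _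
  have l0 : 0 ≤ |F.P.lam| := abs_nonneg _
  have r1 : (1 : ℝ) ≤ F.r := by exact_mod_cast F.sh.r_pos
  obtain ⟨k', k0, hk'⟩ : ∃ k' : ℝ, 0 ≤ k' ∧ ∀ j, 1 / |F.κ j| ≤ k' :=
    ⟨∑ j, 1 / |F.κ j|, sum_nonneg fun _ _ => by positivity, fun j =>
      single_le_sum (f := fun j => 1 / |F.κ j|) (fun _ _ => by positivity) (mem_univ j)⟩
  have hocc : ∀ e, ∃ j, e < F.r → j ≠ F.Z.j0 ∧ F.Z.W j = e + 1 := fun e => by
    by_cases he : e < F.r
    · obtain ⟨j, hj⟩ := F.sh.occ (e + 1) (by omega) he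
      exact ⟨j, fun _ => hj⟩
    · exact ⟨j1, fun h => absurd h he⟩
  choose jj hjj using hocc
  have hjW : ∀ j, j ≠ F.Z.j0 → jj (F.Z.W j - 1) = j := fun j hj => by
    have h3 := hjj _ (F.W_lt j)
    have h4 := F.Z.W_pos j
    exact F.sh.inj _ _ h3.1 hj (by omega)
  have hj10 : jj 0 = j1 := by simpa [hW1] using hjW j1 hj1
  obtain ⟨b0, hb0⟩ : ∃ b0 : ℝ, b0 = (k' + B * 2 ^ F.r) * (4 * F.r) ^ F.r := ⟨_, rfl⟩
  have b00 : 0 ≤ b0 := by rw [hb0]; positivity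
  obtain ⟨a0, ha0'⟩ : ∃ a0 : ℝ, a0 = 3 * F.P.θ + k' + 2 * B + CL * b0 := ⟨_, rfl⟩
  have a00 : 0 < a0 := by rw [ha0']; positivity
  refine ⟨a0 + k' + 2 * |F.P.lam| + 1, min 1 (F.P.θ / (a0 + k' + 2 * B)),
    lt_min one_pos (by positivity), fun ε hε hε1 => ?_⟩
  obtain ⟨e1, e2⟩ := le_min_iff.1 hε1
  rw [le_div_iff₀ (by positivity)] at e2
  obtain ⟨w, hw⟩ : ∃ w : ℝ, w = (2 / ε) ^ F.Z.p := ⟨_, rfl⟩
  have w0 : 0 ≤ w := by rw [hw]; positivity
  have cw : 0 ≤ Cb * w := mul_nonneg hCb w0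
  refine ⟨(2 * F.r + Cb * w) / ε + w, fun k hk => ?_⟩
  have kw : w ≤ k := le_trans (le_add_of_nonneg_left (by positivity)) hk
  have hh : 2 * F.r + Cb * w ≤ ε * k := by
    rw [← div_le_iff₀' hε]; linarith
  have hk0 : 0 < k := (mul_pos_iff_of_pos_left hε).1 (by linarith)
  have hkL : k / (ε * k / 2) = 2 / ε := by field_simp
  have hhk : ε * k ≤ k := mul_le_of_le_one_left hk0.le e1
  have hθk : ε * k * (a0 + k' + 2 * B) ≤ F.P.θ * k := by
    have := mul_le_mul_of_nonneg_right e2 hk0.le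
    linarith
  generalize ε * k = h at hh hkL hhk hθk ⊢
  have h0 : 2 ≤ h := by linarith
  refine ⟨fun j => if j = F.Z.j0 then h else if j = j1 then F.κ j1 * (F.P.θ * k - a0 * h) else 0,
    fun z hz => ?_⟩
  have z0 := hz F.Z.j0
  have z1 := hz j1
  simp only [if_true, F.Z.W_j0, pow_one] at z0
  simp only [if_neg hj1, if_true, hW1, pow_one] at z1
  have z2 : ∀ j, j ≠ F.Z.j0 → j ≠ j1 → 0 ≤ z j ∧ z j ≤ h ^ F.Z.W j := fun j a b => by
    simpa only [if_neg a, if_neg b, zero_add] using hz j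
  have z3 : ∀ j, j ≠ F.Z.j0 → j ≠ j1 → |z j / F.κ j| ≤ k' * h ^ F.Z.W j := fun j a b => by
    simpa using quot_BOX2 (μ := 0) (F.sh.κ_ne j a) (hk' j) (by simpa using (z2 j a b).1)
      (by simpa using (z2 j a b).2)
  have q1 := abs_le.1 (quot_BOX2 (F.sh.κ_ne j1 hj1) (hk' j1) z1.1 z1.2)
  constructor
  · obtain ⟨n, hn⟩ : ∃ n, n = ⌊z F.Z.j0⌋₊ := ⟨_, rfl⟩
    have n1 : (n : ℝ) ≤ z F.Z.j0 := hn ▸ Nat.floor_le (by linarith)
    have n2 : z F.Z.j0 < n + 1 := hn ▸ Nat.lt_floor_add_one _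
    obtain ⟨g, hg⟩ : ∃ g, g = ⌊h / (2 * F.r)⌋₊ := ⟨_, rfl⟩
    have r0 : (0 : ℝ) < 2 * F.r := by linarith
    have g1 : 1 ≤ g := hg ▸ Nat.le_floor (by rw [le_div_iff₀ r0]; push_cast; linarith)
    have g1' : (1 : ℝ) ≤ g := by exact_mod_cast g1
    have g2 : (g : ℝ) * (2 * F.r) ≤ h := (le_div_iff₀ r0).1 (hg ▸ Nat.floor_le (by positivity))
    have g3 : h < (g + 1) * (2 * F.r) := (div_lt_iff₀ r0).1 (hg ▸ Nat.lt_floor_add_one _)
    have g4 : h ≤ 4 * F.r * g := by nlinarith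
    obtain ⟨m0, hm0, hQ⟩ := cfg_BOX2 F.P hs0 ha0 (hB s0 hs0).2.2 n
    obtain ⟨ν, hν1, hν2⟩ := hL 0 n g
      (fun e => if e = 0 then 0 else z (jj e) / F.κ (jj e) - m0 e) (b0 * h) g1 le_rfl
      (by exact_mod_cast (by linarith : (F.r : ℝ) * g ≤ n)) (by positivity) (fun e he => by
        split_ifs with e0
        · rw [abs_zero]; positivity
        obtain ⟨a, b⟩ := hjj e he
        have c1 := z3 _ a fun c => by rw [c] at b; omega
        rw [b] at c1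
        have c2 : (n : ℝ) ^ (e + 1) ≤ 2 ^ F.r * h ^ (e + 1) :=
          (pow_le_pow_left₀ (by positivity) (by linarith : (n : ℝ) ≤ 2 * h) _).trans (by
            rw [mul_pow]
            exact mul_le_mul_of_nonneg_right (pow_le_pow_right₀ one_le_two he) (by positivity))
        have c3 : h ^ e ≤ (4 * F.r) ^ F.r * (g : ℝ) ^ e :=
          (pow_le_pow_left₀ (by positivity) g4 _).trans (by
            rw [mul_pow]
            exact mul_le_mul_of_nonneg_right (pow_le_pow_right₀ (by linarith) he.le)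
              (by positivity))
        have c4 := (hm0 e).trans (mul_le_mul_of_nonneg_left c2 B0)
        have c5 := mul_le_mul_of_nonneg_left c3 (by positivity : 0 ≤ (k' + B * 2 ^ F.r) * h)
        refine (abs_sub _ _).trans ?_
        rw [hb0]
        rw [pow_succ] at c1 c4
        linarith)
    have m1 := abs_le.1 ((hm0 0).trans (mul_le_mul_of_nonneg_left
      (by rw [zero_add, pow_one]; linarith : _ ≤ 2 * h) B0))
    obtain ⟨M, hM⟩ : ∃ M, M = z j1 / F.κ j1 - m0 0 := ⟨_, rfl⟩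
    have M0 : 0 ≤ M := by linarith
    have i0 : (0 : ℤ) ∈ Icc (0 : ℤ) n := by simp
    obtain ⟨Q, qO, qX, qY, qn, qt, qm⟩ := hQ fun c => ν c + if c = 0 then M else 0
    have t1 : ∑ c ∈ Icc (0 : ℤ) n, |ν c + if c = 0 then M else 0| ≤ CL * (b0 * h) + M := by
      refine (sum_le_sum fun c _ => abs_add_le _ _).trans ?_
      rw [sum_add_distrib]
      refine add_le_add hν1 (le_of_eq ?_)
      rw [sum_eq_single_of_mem (0 : ℤ) i0 (fun c _ h => by simp [h]), if_pos rfl, abs_of_nonneg M0]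
    have t2 : Q.time F.P ≤ k - h := by
      have : (∑ c ∈ Icc (0 : ℤ) n, |ν c + if c = 0 then M else 0|) / F.P.θ ≤ k - 3 * h := by
        rw [div_le_iff₀ hθ]
        rw [ha0'] at q1
        linarith
      linarith
    have t3 : ∀ e < F.r, Q.mom F.P e = z (jj e) / F.κ (jj e) := fun e he => by
      rw [qm]
      simp only [add_mul, sum_add_distrib, hν2 e he, ite_mul, zero_mul, sum_ite_eq', if_pos i0]
      split_ifs with e0
      · rw [e0, hj10, hM]; simp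
      · simp [e0]
    have hb := hR k (h / 2) 1 Q (by linarith) (by linarith) le_rfl
      (by rw [hkL, ← hw]; linarith) qO (by linarith) (by
        rw [qX, qY]
        have : max (-(0 : ℤ)) (n : ℤ) = n := by simp
        rw [this, Int.cast_natCast]
        linarith) z ⟨by
        rw [qn, Int.cast_natCast, abs_le]
        constructor <;> linarith, fun j hj => by
        rw [t3 _ (F.W_lt j), hjW j hj, mul_div_cancel₀ _ (F.sh.κ_ne j hj), sub_self, abs_zero]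
        positivity⟩
    rw [hkL, ← hw] at hb
    exact F.Z.mono_B (by linarith) hb
  · have r5 : -(|F.P.lam| * (h + h)) ≤ F.P.lam * z F.Z.j0 := by
      have a1 : |F.P.lam * z F.Z.j0| ≤ |F.P.lam| * (h + h) := by
        rw [abs_mul, abs_of_nonneg (a := z F.Z.j0) (by linarith)]
        exact mul_le_mul_of_nonneg_left z0.2 l0
      exact (abs_le.mp a1).1
    refine ⟨z0.1, by linarith, by linarith, ?_, fun j a b _ => ?_⟩
    · have c1 := (le_abs_self _).trans (z3 j2 hj2 fun c => by rw [c] at hW2; omega)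
      rw [hW2] at c1
      exact c1.trans (mul_le_mul_of_nonneg_right (by linarith) (by positivity))
    · rw [abs_of_nonneg (z2 j a b).1]
      exact (z2 j a b).2.trans (le_mul_of_one_le_left (by positivity) (by linarith))

end

section


theorem itm_BND (h3 : NEA_st.{u}) {N : Type u} [Group N] {T : Finset N}
    {J : Type} [Fintype J] (F : Fd T J) :
    ∃ c : ℝ, 0 ≤ c ∧ ∀ (K q : ℝ) (z : J → ℝ), 1 ≤ K → q ≤ K → z ∈ F.Z.B q →
      ∃ I : Itm N, I.Ok F.P 1 ∧ I.time ≤ q ∧ F.Cl z (I.h I.n) (I.mom F.P.β) c K := by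
  obtain ⟨R, hR, hlow⟩ := F.Z.low
  obtain ⟨n1, n2, n3, Cn, hCn, n4⟩ := h3 N T J F 1
  obtain ⟨kb, hkb, hk⟩ := F.kbd
  refine ⟨Cn + R + kb * 0, by linarith, fun K q z hK hq hz => ?_⟩
  obtain ⟨u, hu, hl, hz⟩ := hlow K q hK hq z hz
  have hT := (F.word u).1 hu
  have m2 := n2 u
  have m3 := n3 u u.length le_rfl
  refine ⟨⟨u.length, fun i => u.getD i 1, fun _ => 1, fun i => F.P.a (u.getD i 1)⟩, ?_,
    by simpa [Itm.time] using hl, ?_⟩
  · intro i hi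
    refine ⟨?_, zero_le_one, le_rfl, (one_mul _).symm⟩
    rw [F.hT]
    show u.getD i 1 ∈ T
    rw [List.getD_eq_getElem _ _ hi]
    exact hT _ (List.getElem_mem _)
  · refine (n4 K u hK hT (by rw [one_mul]; exact hl.trans hq)).move hk hkb (zero_le_one.trans hK)
      (fun j => by rw [abs_sub_comm]; exact hz j) ?_ fun e _ => ?_
    · rw [List.take_length, (n1 u).1] at m3
      rw [m3, sub_self, abs_zero]
    · show |Isum F.P.a F.P.β e 0 u - _| ≤ _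
      rw [m2 e, sub_self, abs_zero, zero_mul]

theorem mom_BND {α : Type u} (P : Alph α) (B : ℝ) (hB : ∀ s ∈ P.T, |P.β s| ≤ B) (I : Itm α)
    (h : I.Ok P 1) : |I.mom P.β 0| ≤ B * I.time := by
  rw [Itm.mom, Itm.time, mul_sum]
  refine (abs_sum_le_sum_abs _ _).trans (sum_le_sum fun i hi => ?_)
  obtain ⟨h1, h2, -, -⟩ := h i (mem_range.1 hi)
  rw [pow_zero, mul_one, abs_mul, abs_of_nonneg h2, mul_comm]
  exact mul_le_mul_of_nonneg_right (hB _ h1) h2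

theorem div_BND {z κ m c : ℝ} (hκ : κ ≠ 0) (h : |z - κ * m| ≤ c) : |z / κ - m| ≤ c / |κ| := by
  rw [le_div_iff₀ (abs_pos.2 hκ), ← abs_mul, sub_mul, div_mul_cancel₀ _ hκ, mul_comm m]
  exact h

theorem tri_BND {z κ m c d : ℝ} (h : |z - κ * m| ≤ c) (hm : |m| ≤ d) : |z| ≤ |κ| * d + c := by
  have h1 := abs_add_le (z - κ * m) (κ * m)
  rw [sub_add_cancel, abs_mul] at h1
  linarith [mul_le_mul_of_nonneg_left hm (abs_nonneg κ)]

theorem BND_pf (h1 : RNG2_st.{u}) (h2 : NEA_st.{u}) : BND_st.{u} := by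
  intro N _ T J _ F j1 j2 a hj1 hj2 hW1 hW2
  obtain ⟨c, hc, hI⟩ := itm_BND h2 F
  obtain ⟨B, -, hB⟩ := F.P.bd
  have hθ := F.P.θ_pos
  have hc2 : 0 ≤ c / |F.κ j2| := by positivity
  obtain ⟨b1, hb1, hR⟩ := h1 N F.P (F.P.θ + |a| + 3 + c / |F.κ j2|)
  have p1 : 0 ≤ |F.κ j1| * (B * 2) := by positivity
  have p2 : 0 ≤ |F.κ j2| * b1 := by positivity
  have p3 := abs_nonneg a
  refine ⟨|F.κ j1| * (B * 2) + |F.κ j2| * b1 + c + |a| + 2, by positivity, fun ε hε hε1 =>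
    ⟨1 + 4 / ε ^ 3 + (c + c / |F.κ j1| + |F.P.lam| * c) / ε, fun k z hk hz hreg => ?_⟩⟩
  have q1 : 0 ≤ 4 / ε ^ 3 := by positivity
  have q2 : 0 ≤ (c + c / |F.κ j1| + |F.P.lam| * c) / ε := by positivity
  have hk1 : 1 ≤ k := by linarith
  have hh : 0 < ε * k := by positivity
  have hhk : ε * k ≤ k := mul_le_of_le_one_left (by linarith) hε1
  have q3 : c + c / |F.κ j1| + |F.P.lam| * c ≤ ε * k := by
    rw [mul_comm ε]
    exact (div_le_iff₀ hε).1 (by linarith)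
  have q4 : (2 * k) ^ 2 ≤ (ε * k) ^ 3 := by
    have : 4 ≤ k * ε ^ 3 := (div_le_iff₀ (by positivity)).1 (by linarith)
    have := mul_le_mul_of_nonneg_right this (sq_nonneg k)
    linarith
  obtain ⟨r1, r2, r3, r4, r5⟩ := hreg
  obtain ⟨I, i1, i2, i3, i4⟩ := hI (2 * k) _ z (by linarith) (by linarith) hz
  have i5 := i4 j1 hj1
  have i6 := i4 j2 hj2
  rw [hW1, Nat.sub_self, pow_zero, mul_one] at i5
  rw [hW2, show 3 - 1 = 2 from rfl] at i6
  replace i6 := i6.trans (mul_le_mul_of_nonneg_left q4 hc)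
  generalize ε * k = h at *
  have d1 := (abs_le.1 (div_BND (F.sh.κ_ne j1 hj1) i5)).2
  have d2 := (abs_le.1 (div_BND (F.sh.κ_ne j2 hj2) i6)).1
  have d3 : F.P.lam * (z F.Z.j0 - I.h I.n) ≤ |F.P.lam| * c :=
    (le_abs_self _).trans (by rw [abs_mul]; exact mul_le_mul_of_nonneg_left i3 (abs_nonneg _))
  have d4 : 0 ≤ c / |F.κ j1| := by positivity
  have d5 : 0 ≤ |F.P.lam| * c := by positivity
  have d6 : 0 < h ^ 3 := by positivity
  have d7 : a * h ≤ |a| * h := mul_le_mul_of_nonneg_right (le_abs_self a) hh.le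
  have d8 : a * h ^ 3 ≤ |a| * h ^ 3 := mul_le_mul_of_nonneg_right (le_abs_self a) d6.le
  have d9 := mul_le_mul_of_nonneg_left i2 hθ.le
  have e1 := mul_nonneg hc2 hh.le
  have e2 := mul_nonneg hθ.le hh.le
  have e3 := mul_nonneg p3 hh.le
  have e4 := mul_nonneg hθ.le d6.le
  obtain ⟨-, m2⟩ := hR I (2 * k) h (by linarith) hh q4 i1 (by linarith) (by linarith)
    (abs_le.2 ⟨by linarith [(abs_le.1 i3).2], by linarith [(abs_le.1 i3).1]⟩)
    (by rw [mul_div_right_comm] at d2; linarith)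
  have m0 : |I.mom F.P.β 0| ≤ B * 2 * k := (mom_BND F.P B (fun s hs => (hB s hs).2.2) I i1).trans
    (by rw [mul_assoc]; exact mul_le_mul_of_nonneg_left (by linarith) B.cast_nonneg)
  refine ⟨(tri_BND i5 m0).trans ?_, fun j hj => ?_⟩
  · have e5 := le_mul_of_one_le_right hc hk1
    have e6 := mul_nonneg p2 (zero_le_one.trans hk1)
    have e7 := mul_nonneg p3 (zero_le_one.trans hk1)
    linarith
  by_cases g0 : j = F.Z.j0
  · rw [g0, F.Z.W_j0, pow_one, abs_of_nonneg (by linarith)]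
    exact r2.trans (mul_le_mul_of_nonneg_right (by linarith) hh.le)
  by_cases g2 : j = j2
  · rw [g2, hW2]
    refine (tri_BND i6 m2).trans ?_
    rw [← mul_assoc, ← add_mul]
    exact mul_le_mul_of_nonneg_right (by linarith) d6.le
  · exact (r5 j g0 hj g2).trans
      (mul_le_mul_of_nonneg_right (by linarith [le_abs_self a]) (by positivity))

end

section


section
variable {N : Type u} [Group N] {T : Finset N} {J : Type} [Fintype J]

theorem shift_DEF2 [DecidableEq J] {F : Fd T J} {j1 j2 : J} {a h k t : ℝ} {z : J → ℝ}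
    (hz : F.Reg2 j1 j2 a h k z) (h0 : j2 ≠ F.Z.j0) (h1 : j1 ≠ j2) (ht : 0 ≤ t) :
    F.Reg2 j1 j2 a h k (z - Pi.single j2 (F.κ j2 * t)) := by
  obtain ⟨p1, p2, p3, p4, p5⟩ := hz
  unfold Fd.Reg2
  rw [Pi.sub_apply, Pi.sub_apply, Pi.sub_apply, Pi.single_eq_of_ne h0.symm,
    Pi.single_eq_of_ne h1, sub_zero, sub_zero, Pi.single_eq_same, sub_div,
    mul_div_cancel_left₀ _ (F.sh.κ_ne _ h0)]
  refine ⟨p1, p2, p3, by linarith, fun j q0 q1 q2 => ?_⟩
  rw [Pi.sub_apply, Pi.single_eq_of_ne q2, sub_zero]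
  exact p5 j q0 q1 q2

theorem meas_DEF2 (F : Fd T J) (j1 j2 : J) (a h k : ℝ) :
    MeasurableSet {z | F.Reg2 j1 j2 a h k z} := by
  have c5 : IsClosed {z : J → ℝ |
      ∀ j, j ≠ F.Z.j0 → j ≠ j1 → j ≠ j2 → |z j| ≤ a * h ^ F.Z.W j} := by
    simp only [Set.ofPred_forall]
    exact isClosed_iInter fun j => isClosed_iInter fun _ => isClosed_iInter fun _ =>
      isClosed_iInter fun _ => isClosed_le (by fun_prop) continuous_const
  exact ((isClosed_le (f := fun _ => h) (g := fun z : J → ℝ => z F.Z.j0) (by fun_prop)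
    (by fun_prop)).inter
  ((isClosed_le (f := fun z : J → ℝ => z F.Z.j0) (g := fun _ => 2 * h) (by fun_prop)
    (by fun_prop)).inter
  ((isClosed_le (f := fun _ => F.P.θ * k - a * h)
    (g := fun z : J → ℝ => z j1 / F.κ j1 + F.P.lam * z F.Z.j0) (by fun_prop) (by fun_prop)).inter
  ((isClosed_le (f := fun z : J → ℝ => z j2 / F.κ j2) (g := fun _ => a * h ^ 3) (by fun_prop)
    (by fun_prop)).inter c5)))).measurableSet

omit [Fintype J] in
theorem measX_DEF2 {E : Set (J → ℝ)} (h : MeasurableSet E) (v : J → ℝ) :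
    MeasurableSet {z | z ∈ E ∧ z - v ∉ E} :=
  h.inter (h.preimage (f := fun z : J → ℝ => z - v) (measurable_id.sub_const v)).compl

theorem prod_DEF2 [DecidableEq J] (W : J → ℕ) (j1 : J) (x : ℝ) {h : ℝ} (hh : h ≠ 0) {e : ℕ}
    (he : ∑ j, W j = e + W j1) : ∏ j, (if j = j1 then x else h ^ W j) = x * h ^ e := by
  have h1 : ∏ j ∈ univ.erase j1, (if j = j1 then x else h ^ W j) =
      ∏ j ∈ univ.erase j1, h ^ W j :=
    prod_congr rfl fun j hj => if_neg (ne_of_mem_erase hj)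
  have h2 : h ^ W j1 * ∏ j ∈ univ.erase j1, h ^ W j = h ^ W j1 * h ^ e := by
    rw [mul_prod_erase univ (fun j => h ^ W j) (mem_univ j1), prod_pow_eq_pow_sum, he, pow_add,
      mul_comm]
  rw [← mul_prod_erase univ _ (mem_univ j1), if_pos rfl, h1,
    mul_left_cancel₀ (pow_ne_zero _ hh) h2]

theorem shell_DEF2 (Z : Sys T J) (ρ : J → ℝ) (hρ : ∀ j, 0 ≤ ρ j) (k : ℕ) (hk : 1 ≤ k) {y : ℝ}
    (y0 : 0 ≤ y) (y1 : y ≤ k) :
    volume.real ({z : J → ℝ | ∀ j, |z j| ≤ ρ j} ∩ (Z.B (k + y) \ Z.B k)) ≤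
      (∑ j, Z.W j : ℕ) * 3 ^ (∑ j, Z.W j) * ((y + 1) / k) * ∏ j, 2 * ρ j := by
  have k1 : (1 : ℝ) ≤ k := by exact_mod_cast hk
  have k0 : (0 : ℝ) < k := by linarith
  have n1 : (k : ℝ) + y ≤ ⌈(k : ℝ) + y⌉₊ := Nat.le_ceil _
  have n2 : (⌈(k : ℝ) + y⌉₊ : ℝ) ≤ k + y + 1 := (Nat.ceil_lt_add_one (by linarith)).le
  have n3 : k ≤ ⌈(k : ℝ) + y⌉₊ := by
    have : (k : ℝ) ≤ ⌈(k : ℝ) + y⌉₊ := by linarith
    exact_mod_cast this
  have mP : MeasurableSet {z : J → ℝ | ∀ j, |z j| ≤ ρ j} := by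
    rw [CBox_eq]
    exact measurableSet_Icc
  have s1 := Z.fam.shell mP (CBox_fin ρ) (fun t t0 t1 z hz j => by
    rw [dil, abs_mul, abs_of_pos (pow_pos t0 _)]
    exact (mul_le_of_le_one_left (abs_nonneg _) (pow_le_one₀ t0.le t1)).trans (hz j)) k _ hk n3
  have s2 : volume.real ({z : J → ℝ | ∀ j, |z j| ≤ ρ j} ∩ (Z.B (k + y) \ Z.B k)) ≤
      volume.real ({z : J → ℝ | ∀ j, |z j| ≤ ρ j} ∩ (Z.B (⌈(k : ℝ) + y⌉₊ : ℕ) \ Z.B k)) :=
    measureReal_mono (fun z hz => ⟨hz.1, Z.mono_B n1 hz.2.1, hz.2.2⟩)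
      (ne_top_of_le_ne_top (CBox_fin ρ) (measure_mono Set.inter_subset_left))
  rw [CBox_vol ρ hρ] at s1
  refine s2.trans (s1.trans (mul_le_mul_of_nonneg_right ?_
    (prod_nonneg fun j _ => mul_nonneg zero_le_two (hρ j))))
  have x0 : 0 ≤ (y + 1) / k := by positivity
  have x1 : (y + 1) / k ≤ 2 := by
    rw [div_le_iff₀ k0]
    linarith
  have x2 : (⌈(k : ℝ) + y⌉₊ : ℝ) / k ≤ 1 + (y + 1) / k := by
    rw [div_le_iff₀ k0, add_mul, div_mul_cancel₀ _ k0.ne']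
    linarith
  have x3 := CDyad_pow _ 2 x0 x1 (∑ j, Z.W j)
  have x4 := pow_le_pow_left₀ (by positivity) x2 (∑ j, Z.W j)
  have x5 : (1 + 2 : ℝ) = 3 := by norm_num
  rw [x5] at x3
  linarith

end

theorem DEF2_pf (h1 : SHF2_st.{u}) (h2 : BOX2_st.{u}) (h3 : BND_st.{u}) (h4 : SLB_st)
    (h5 : UPV_st.{u}) : DEF2_st.{u} := by
  intro N _ T J _ F len C0 w0 R0 s s' hw hE hP hR hr
  have := Classical.decEq J
  obtain ⟨j1, a1, b1⟩ := F.sh.occ 1 le_rfl F.sh.r_pos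
  obtain ⟨j2, a2, b2⟩ := F.sh.occ 3 (by norm_num) hr
  have hne : j1 ≠ j2 := fun e => by rw [e] at b1; omega
  obtain ⟨e, he⟩ : ∃ e, ∑ j, F.Z.W j = e + 3 :=
    ⟨∑ j, F.Z.W j - 3, (Nat.sub_add_cancel (b2 ▸
      single_le_sum (f := F.Z.W) (fun _ _ => Nat.zero_le _) (mem_univ j2))).symm⟩
  obtain ⟨a, ε1, e1, hB⟩ := h2 N T J F j1 j2 a1 a2 b1 b2
  obtain ⟨b, b0, hN⟩ := h3 N T J F j1 j2 a a1 a2 b1 b2
  have κ0 : 0 < |F.κ j2| := abs_pos.2 (F.sh.κ_ne _ a2)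
  obtain ⟨C3, hC3⟩ : ∃ C3 : ℝ, C3 = ((e + 3 : ℕ) : ℝ) * 3 ^ (e + 3) * (2 * b) ^ Fintype.card J :=
    ⟨_, rfl⟩
  have C30 : 0 < C3 := by
    rw [hC3]
    positivity
  obtain ⟨γ, γ0, hγ⟩ : ∃ γ : ℝ, 0 < γ ∧ C3 * γ = |F.κ j2| / 4 :=
    ⟨|F.κ j2| / (4 * C3), by positivity, by field_simp⟩
  obtain ⟨ε0, e0, e01, hS⟩ := h1 N T J F len C0 w0 R0 s s' j1 j2 a γ hw hE hP hR a1 a2 b1 b2 γ0
  obtain ⟨ε, ε0', εa, εb⟩ : ∃ ε : ℝ, 0 < ε ∧ ε ≤ ε0 ∧ ε ≤ ε1 :=
    ⟨min ε0 ε1, lt_min e0 e1, min_le_left _ _, min_le_right _ _⟩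
  have εc : ε ≤ 1 := εa.trans e01
  obtain ⟨c1, C, D1, c0, C0', hS⟩ := hS ε ε0' εa
  obtain ⟨K1, hB⟩ := hB ε ε0' εb
  obtain ⟨K2, hN⟩ := hN ε ε0' εc
  obtain ⟨Cu, hU⟩ := h5 N T J F len C0 w0 R0 hw hE 0 le_rfl
  obtain ⟨c, cp, cl, cκ, cγ⟩ : ∃ c : ℝ, 0 < c ∧ c ≤ c1 ∧ |F.κ j2| * c ≤ ε ^ 3 ∧
      2 * γ * c ≤ ε ^ 3 :=
    ⟨min c1 (min (ε ^ 3 / |F.κ j2|) (ε ^ 3 / (2 * γ))),
      lt_min c0 (lt_min (by positivity) (by positivity)), min_le_left _ _,
      (le_div_iff₀' κ0).1 ((min_le_right _ _).trans (min_le_left _ _)),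
      (le_div_iff₀' (by positivity)).1 ((min_le_right _ _).trans (min_le_right _ _))⟩
  refine ⟨|F.κ j2| * c * ε ^ e / 4, Cu + C3 * (C + 1),
    max D1 (max 1 (max K1 (max K2 (2 * C / ε)))), by positivity, fun k D hD hk => ?_⟩
  obtain ⟨d1, d2⟩ := max_le_iff.1 hD
  obtain ⟨d2, d3⟩ := max_le_iff.1 d2
  obtain ⟨d3, d4⟩ := max_le_iff.1 d3
  obtain ⟨d4, d5⟩ := max_le_iff.1 d4
  have dk : D ≤ k := (le_self_pow₀ d2 (by omega)).trans hk
  have k1 : (1 : ℝ) ≤ k := d2.trans dk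
  have k0 : (0 : ℝ) < k := by linarith
  have kn : 1 ≤ k := by exact_mod_cast k1
  have D0 : 0 < D := by linarith
  obtain ⟨t, ht⟩ : ∃ t : ℝ, t = c * D * (k : ℝ) ^ 2 := ⟨_, rfl⟩
  have t0 : 0 < t := by
    rw [ht]
    positivity
  have h0 : 0 < ε * k := by positivity
  have hk1 : ε * k ≤ k := mul_le_of_le_one_left k0.le εc
  have σ0 : 0 ≤ γ * t / (ε * k) ^ 2 := by positivity
  have σ1 : γ * t / (ε * k) ^ 2 ≤ ε * k / 2 := by
    rw [div_le_iff₀ (by positivity), ht]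
    have p1 : 2 * γ * c * D ≤ ε ^ 3 * k := mul_le_mul cγ dk D0.le (by positivity)
    have p2 := mul_le_mul_of_nonneg_right p1 (sq_nonneg (k : ℝ))
    linarith
  have σ2 : C ≤ ε * k / 2 := by
    have p1 := (div_le_iff₀' ε0').1 (d5.trans dk)
    linarith
  have τ0 : |F.κ j2 * t| = |F.κ j2| * t := by rw [abs_mul, abs_of_pos t0]
  have τ1 : 0 < |F.κ j2| * t := by positivity
  have τ2 : |F.κ j2| * t / 2 ≤ (ε * k) ^ 3 := by
    have p1 : |F.κ j2| * c * D ≤ ε ^ 3 * k := mul_le_mul cκ dk D0.le (by positivity)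
    have p2 := mul_le_mul_of_nonneg_right p1 (sq_nonneg (k : ℝ))
    have p3 : |F.κ j2| * t = |F.κ j2| * c * D * (k : ℝ) ^ 2 := by
      rw [ht]
      ring
    linarith
  obtain ⟨lo, hB⟩ := hB k (d3.trans dk)
  set σ : ℝ := γ * t / (ε * k) ^ 2 with hσ
  set E : Set (J → ℝ) := F.Z.B (k + C + σ) ∩ {z | F.Reg2 j1 j2 a (ε * k) k z} with hEd
  have mE : MeasurableSet E := (F.Z.meas_B _).inter (meas_DEF2 F j1 j2 a _ _)
  have bE : ∀ z ∈ E, |z j1| ≤ b * k ∧ ∀ j, j ≠ j1 → |z j| ≤ b * (ε * k) ^ F.Z.W j :=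
    fun z hz => hN k z (d4.trans dk) (F.Z.mono_B (by linarith) hz.1) hz.2
  have key := h4 J E (Set.Icc lo fun j =>
      lo j + if j = j2 then |F.κ j2| * t / 2 else (ε * k) ^ F.Z.W j) j2
    (F.κ j2 * t) (b * (ε * k) ^ F.Z.W j2) (mul_ne_zero (F.sh.κ_ne _ a2) t0.ne') mE
    measurableSet_Icc (fun z hz => ?_) (fun z hz => (bE z hz).2 j2 hne.symm)
    (fun z hz z' hz' => ?_)
  · set X : Set (J → ℝ) := {z | z ∈ E ∧ z - Pi.single j2 (F.κ j2 * t) ∉ E} with hXd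
    have mX : MeasurableSet X := measX_DEF2 mE _
    have fX : volume X ≠ ⊤ :=
      ne_top_of_le_ne_top (F.Z.fam.fin (k + C + σ)) (measure_mono fun z hz => hz.1.1)
    have u1 := hU k kn k0.le (X ∩ F.Z.B k) (mX.inter (F.Z.meas_B _))
      (fun z hz => by rw [add_zero]; exact hz.2) (Set.disjoint_left.2 fun z hz hz' =>
        hz.1.2 ⟨hS k D t z d1 hk hz' hz.1.1.2 t0.le (by rw [ht]; gcongr),
          shift_DEF2 hz.1.1.2 a2 hne t0.le⟩)
    have u2 := ENNReal.toReal_mono fX key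
    rw [← measureReal_def, ← measureReal_def, measureReal_def,
      Real.volume_Icc_pi_toReal fun j =>
        le_add_of_nonneg_right (by split_ifs <;> positivity)] at u2
    simp only [add_sub_cancel_left] at u2
    rw [prod_DEF2 F.Z.W j2 _ h0.ne' (e := e) (by rw [he, b2])] at u2
    have u3 := measureReal_inter_add_sdiff (μ := volume) (s := X) (F.Z.meas_B (k : ℝ)) fX
    have u4 := shell_DEF2 F.Z (fun j => b * if j = j1 then (k : ℝ) else (ε * k) ^ F.Z.W j)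
      (fun j => by split_ifs <;> positivity) k kn (y := C + σ) (by linarith) (by linarith)
    have u5 : volume.real (X \ F.Z.B k) ≤ volume.real
        ({z : J → ℝ | ∀ j, |z j| ≤ b * if j = j1 then (k : ℝ) else (ε * k) ^ F.Z.W j} ∩
          (F.Z.B (k + (C + σ)) \ F.Z.B k)) := by
      refine measureReal_mono (fun z hz => ⟨fun j => ?_, ?_, hz.2⟩)
        (ne_top_of_le_ne_top (CBox_fin _) (measure_mono Set.inter_subset_left))
      · split_ifs with hj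
        · rw [hj]
          exact (bE z hz.1.1).1
        · exact (bE z hz.1.1).2 j hj
      · rw [← add_assoc]
        exact hz.1.1.1
    have u6 : ∏ j, 2 * (b * if j = j1 then (k : ℝ) else (ε * k) ^ F.Z.W j) =
        (2 * b) ^ Fintype.card J * (k * (ε * k) ^ (e + 2)) := by
      simp only [← mul_assoc]
      rw [prod_mul_distrib, prod_const, card_univ,
        prod_DEF2 F.Z.W j1 _ h0.ne' (e := e + 2) (by rw [he, b1]), mul_assoc]
    have u7 : ((e + 3 : ℕ) : ℝ) * 3 ^ (e + 3) * ((C + σ + 1) / k) *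
        ((2 * b) ^ Fintype.card J * (k * (ε * k) ^ (e + 2))) =
        C3 * (C + 1) * (ε * k) ^ (e + 2) + C3 * γ * t * (ε * k) ^ e := by
      rw [hC3, hσ]
      field_simp
      ring
    rw [u6, he, u7, hγ] at u4
    have u8 : C3 * (C + 1) * (ε * k) ^ (e + 2) ≤ C3 * (C + 1) * (k : ℝ) ^ (e + 2) :=
      mul_le_mul_of_nonneg_left (pow_le_pow_left₀ h0.le hk1 _) (by positivity)
    have u9 : |F.κ j2| * c * ε ^ e / 4 * D * (k : ℝ) ^ (e + 2) =
        |F.κ j2| / 4 * t * (ε * k) ^ e := by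
      rw [ht]
      ring
    have u0 : e + 3 - 1 = e + 2 := rfl
    rw [he, u0] at u1 ⊢
    linarith
  · obtain ⟨p1, p2⟩ := hB z fun j => ⟨hz.1 j, (hz.2 j).trans (by
      refine add_le_add_right ?_ _
      split_ifs with hj
      · rw [hj, b2]
        exact τ2
      · exact le_rfl)⟩
    exact ⟨F.Z.mono_B (by linarith) p1, p2⟩
  · have p1 := hz.1 j2
    have p2 := hz.2 j2
    have p3 := hz'.1 j2
    have p4 := hz'.2 j2
    simp only [if_true] at p2 p4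
    rw [τ0, abs_lt]
    constructor <;> linarith

end

section


/-- leading coefficient of a sequence -/
def Lim_FD2 (a : ℕ → ℝ) (e : ℕ) (c : ℝ) : Prop :=
  Filter.Tendsto (fun y : ℕ => a y / (y : ℝ) ^ e) Filter.atTop (nhds c)

theorem lim_FD2 {a : ℕ → ℝ} {e : ℕ} {c C : ℝ}
    (h : ∀ y : ℕ, 1 ≤ y → y * |a y - c * (y : ℝ) ^ e| ≤ C * (y : ℝ) ^ e) : Lim_FD2 a e c := by
  refine tendsto_iff_dist_tendsto_zero.2 (squeeze_zero' (.of_forall fun _ => dist_nonneg) ?_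
    (tendsto_const_div_atTop_nhds_zero_nat C))
  filter_upwards [Filter.eventually_ge_atTop 1] with y hy
  have h0 : (0 : ℝ) < y := by exact_mod_cast hy
  have h1 : (0 : ℝ) < (y : ℝ) ^ e := by positivity
  rw [Real.dist_eq, show a y / (y : ℝ) ^ e - c = (a y - c * (y : ℝ) ^ e) / (y : ℝ) ^ e by
    field_simp, abs_div, abs_of_pos h1, div_le_div_iff₀ h1 h0, mul_comm]
  exact h y hy

theorem zero_FD2 (e : ℕ) (a : ℤ → ℤ) (h : (fwdDiff (1 : ℤ))^[e] a = 0) :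
    Lim_FD2 (fun y => (a y : ℝ)) e 0 := by
  cases e with
  | zero =>
    have : a = 0 := h
    exact lim_FD2 (C := 0) fun y _ => by simp [this]
  | succ d =>
    obtain ⟨C, -, hC⟩ := poly_bound d a h
    refine lim_FD2 (C := C) fun y hy => ?_
    have h0 : (1 : ℝ) ≤ y := by exact_mod_cast hy
    have := hC y y h0 (by simp)
    rw [zero_mul, sub_zero, pow_succ, ← mul_assoc, mul_comm]
    exact mul_le_mul_of_nonneg_right this (by linarith)

theorem top_FD2 {e : ℕ} {a : ℤ → ℤ} {q : ℤ} {c : ℝ}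
    (h : (fwdDiff (1 : ℤ))^[e] a = fun _ => q) (hc : Lim_FD2 (fun y => (a y : ℝ)) e c) :
    e.factorial * c = q := by
  have h1 := zero_FD2 e ((e.factorial : ℤ) • a + (-q) • fun x : ℤ => x ^ e) (by
    rw [fwdDiff_iter_add, fwdDiff_iter_const_smul, fwdDiff_iter_const_smul, h,
      fwdDiff_iter_eq_factorial]
    funext x
    simp [mul_comm])
  have h2 := (Filter.Tendsto.const_mul (e.factorial : ℝ) hc).sub_const (q : ℝ)
  have h3 := tendsto_nhds_unique (h2.congr' ?_) h1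
  · linarith
  · filter_upwards [Filter.eventually_ge_atTop 1] with y hy
    have h0 : (0 : ℝ) < y := by exact_mod_cast hy
    simp only [Pi.add_apply, Pi.smul_apply, smul_eq_mul]
    push_cast
    field_simp
    ring

theorem zp_FD2 {N : Type u} [Group N] (f : N → ℝ) (n : N)
    (hf : ∀ i j : ℤ, f (n ^ i * n ^ j) = f (n ^ i) + f (n ^ j)) (k : ℤ) : f (n ^ k) = k * f n := by
  have := map_zsmul (AddMonoidHom.mk' (fun k : ℤ => f (n ^ k))
    fun i j => by rw [zpow_add, hf]) k 1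
  simpa using this

section
variable {N : Type u} [Group N] {T : Finset N} {J : Type} [Fintype J] [DecidableEq J]

theorem lam_FD2 (Z : Pre T J) : ∃ lam : N → J → ℝ,
    (∀ n, Z.X n = 0 → ∀ j,
      Lim_FD2 (fun y => (Z.v (Z.t ^ (y : ℤ) * n * Z.t ^ (-(y : ℤ))) j : ℝ)) (Z.w j - 1) (lam n j)) ∧
    (∀ n n', Z.X n = 0 → Z.X n' = 0 → ∀ j, lam (n * n') j = lam n j + lam n' j) ∧
    ∀ n, Z.P 2 n → ∀ j, lam n j = 0 := by
  have ex : ∀ n j, ∃ c : ℝ, Z.X n = 0 →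
      Lim_FD2 (fun y => (Z.v (Z.t ^ (y : ℤ) * n * Z.t ^ (-(y : ℤ))) j : ℝ)) (Z.w j - 1) c := by
    intro n j
    by_cases hn : Z.X n = 0
    · obtain ⟨c, C, -, h⟩ := poly_asym (Z.w j - 1) _
        (Z.P_deg 1 n j le_rfl (Z.P_one n hn) (Z.w_pos j))
      refine ⟨c, fun _ => lim_FD2 (C := C) fun y hy => ?_⟩
      simpa using h y y (by exact_mod_cast hy) (by simp)
    · exact ⟨0, fun h => absurd h hn⟩
  choose lam hl using ex
  refine ⟨lam, fun n hn j => hl n j hn, fun n n' hn hn' j => ?_, fun n hn j => ?_⟩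
  · obtain ⟨C1, hC1, h1⟩ := Z.sm_conj le_rfl (Z.P_one n hn) 1
    obtain ⟨C2, hC2, h2⟩ := Z.sm_conj le_rfl (Z.P_one n' hn') 1
    obtain ⟨C, -, h3⟩ := Z.KE (C1 + C2)
    have a1 := ((hl (n * n') j (by rw [Z.X_mul, hn, hn', add_zero])).sub (hl n j hn)).sub
      (hl n' j hn')
    have a2 : Lim_FD2 (fun y => (Z.v (Z.t ^ (y : ℤ) * (n * n') * Z.t ^ (-(y : ℤ))) j : ℝ) -
        Z.v (Z.t ^ (y : ℤ) * n * Z.t ^ (-(y : ℤ))) j -
        Z.v (Z.t ^ (y : ℤ) * n' * Z.t ^ (-(y : ℤ))) j) (Z.w j - 1) 0 := by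
      refine lim_FD2 (C := C * C2) fun y hy => ?_
      have hK : (1 : ℝ) ≤ y := by exact_mod_cast hy
      have b1 := h1 y y hK (by simp)
      have b2 := h2 y y hK (by simp)
      rw [pow_one] at b1 b2
      have b3 : Z.Sm y (C1 + C2) 1 := by
        refine Z.Sm_mono _ _ _ _ ?_ (Z.Sm_v y hK 1 Z.X_one)
        rw [Z.v_one]
        simp only [Pi.zero_apply, Int.cast_zero, abs_zero, zero_div, sum_const_zero]
        linarith
      have b4 := h3 y _ hK (by linarith [div_le_self hC2 hK]) _ _ 1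
        (Z.P_X 1 _ (Z.P_conj 1 _ y (Z.P_one n hn))) (Z.P_X 1 _ (Z.P_conj 1 _ y (Z.P_one n' hn')))
        Z.X_one (Z.Sm_mono _ _ _ _ (by linarith [div_le_self hC1 hK]) b1) b2 b3 j
      have e1 : Z.t ^ (y : ℤ) * n * Z.t ^ (-(y : ℤ)) * (Z.t ^ (y : ℤ) * n' * Z.t ^ (-(y : ℤ))) * 1 =
          Z.t ^ (y : ℤ) * (n * n') * Z.t ^ (-(y : ℤ)) := by group
      have e2 : C * (C2 / y) * (y : ℝ) ^ Z.w j = C * C2 * (y : ℝ) ^ (Z.w j - 1) := by
        conv_lhs => rw [← Nat.sub_add_cancel (Z.w_pos j), pow_succ]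
        field_simp
      rw [e1, mul_one, e2] at b4
      rwa [zero_mul, sub_zero]
    have a3 := tendsto_nhds_unique (a1.congr fun y => by rw [← sub_div, ← sub_div]) a2
    linarith
  · refine tendsto_nhds_unique (hl n j (Z.P_X 2 n hn)) ?_
    rcases Nat.lt_or_ge (Z.w j) 2 with h | h
    · refine lim_FD2 (C := 0) fun y _ => ?_
      rw [Z.P_low 2 _ j (Z.P_conj 2 n y hn) h]
      simp
    · have := Z.P_deg 2 n j one_le_two hn h
      rw [show Z.w j - 2 + 1 = Z.w j - 1 by omega] at this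
      exact zero_FD2 _ _ this

omit [DecidableEq J] in
theorem inc_FD2 (Y : Sys T J) (gen : Subgroup.closure (T : Set N) = ⊤) (t : N)
    (ht : ∀ y : ℕ, Y.co (t ^ (y : ℤ)) Y.j0 = y) {s : N} (hs : s ∈ T) (j : J) :
    Lim_FD2 (fun y => (Y.co (t ^ (y : ℤ) * s) j : ℝ) - Y.co (t ^ (y : ℤ)) j) (Y.W j - 1)
      (Y.c s j) := by
  obtain ⟨C, -, h⟩ := Y.H1
  obtain ⟨l, l1, l2⟩ := exists_word gen t
  have hb : ∀ y : ℕ, ∃ l' : List N, l'.length = l.length * y ∧ Word T l' ∧ l'.prod = t ^ y := by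
    intro y
    induction y with
    | zero => exact ⟨[], rfl, fun _ h => by simp at h, by simp⟩
    | succ y ih =>
      obtain ⟨l', a1, a2, a3⟩ := ih
      exact ⟨l' ++ l, by rw [List.length_append, a1, mul_add, mul_one], a2.append l1,
        by rw [List.prod_append, a3, l2, pow_succ]⟩
  refine lim_FD2 (C := C * ((l.length : ℝ) + 1) ^ (Y.W j - 1)) fun y hy => ?_
  have hK : (1 : ℝ) ≤ y := by exact_mod_cast hy
  have h0 : (0 : ℝ) ≤ l.length * y := by positivity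
  obtain ⟨l', a1, a2, a3⟩ := hb y
  have := h (((l.length : ℝ) + 1) * y) (by linarith) (t ^ (y : ℤ))
    ⟨l', by rw [a1]; push_cast; linarith, a2, by rw [a3, zpow_natCast]⟩ s (Or.inl hs) j
  rw [ht, Int.cast_natCast, mul_pow, ← mul_assoc] at this
  exact (mul_le_mul_of_nonneg_right (by linarith) (abs_nonneg _)).trans this

end

theorem FD2_pf : FD2_st.{u} := by
  intro N _ T J _ _ Z ψ hψ ⟨b, hb, hb'⟩ h2
  obtain ⟨Y, y0, -, yW, yc⟩ := Z.sys
  obtain ⟨lam, l1, l2, l3⟩ := lam_FD2 Z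
  have ψp : ∀ (n : N) (k : ℤ), ψ (n ^ k) = k * ψ n := fun n k => by
    exact_mod_cast zp_FD2 (fun g => (ψ g : ℝ)) n (fun i j => by rw [hψ]; push_cast; rfl) k
  have lp : ∀ n, Z.X n = 0 → ∀ j (k : ℤ), lam (n ^ k) j = k * lam n j := fun n hn j k =>
    zp_FD2 (fun g => lam g j) n (fun i i' => l2 _ _ (by rw [Z.X_zpow, hn, mul_zero])
      (by rw [Z.X_zpow, hn, mul_zero]) j) k
  have hb0 : (ψ b : ℝ) ≠ 0 := by exact_mod_cast hb'
  have key : ∀ n, Z.X n = 0 → ∀ j, lam n j = lam b j / ψ b * ψ n := by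
    intro n hn j
    have x1 : Z.X (n ^ ψ b) = 0 := by rw [Z.X_zpow, hn, mul_zero]
    have x2 : Z.X (b ^ (-ψ n)) = 0 := by rw [Z.X_zpow, hb, mul_zero]
    have a1 := l3 _ (h2 (n ^ ψ b * b ^ (-ψ n)) (by rw [Z.X_mul, x1, x2, add_zero])
      (by rw [hψ, ψp, ψp]; ring)) j
    rw [l2 _ _ x1 x2, lp n hn, lp b hb] at a1
    push_cast at a1
    field_simp
    linarith
  have top : ∀ i, ∃ g, ψ g ≠ 0 ∧ lam b i / ψ b ≠ 0 ∧
      ∀ j, Z.w j = Z.w i → j ≠ i → lam b j / ψ b * ψ g = 0 := by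
    intro i
    obtain ⟨q, g, hq, hg, h⟩ := Z.P_top 1 i le_rfl (Z.w_pos i)
    have hX := Z.P_X 1 g hg
    have a1 := top_FD2 (h i rfl) (l1 g hX i)
    rw [if_pos rfl, key g hX] at a1
    have hq' : (q : ℝ) ≠ 0 := by exact_mod_cast hq.ne'
    refine ⟨g, fun h0 => hq' (by rw [← a1, h0]; simp), fun h0 => hq' (by rw [← a1, h0]; simp),
      fun j hj hne => ?_⟩
    have a2 := top_FD2 (h j hj) (hj ▸ l1 g hX j)
    rw [if_neg hne, key g hX, Int.cast_zero] at a2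
    exact (mul_eq_zero.1 a2).resolve_left (by positivity)
  have hr : 1 ≤ Z.r := by
    by_contra h
    have a1 : Z.v b = Z.v 1 := funext fun j => by
      have := Z.w_pos j
      have := Z.w_le j
      omega
    have a2 := ψp b 0
    rw [zpow_zero, zero_mul, ← Z.inj b 1 hb Z.X_one a1] at a2
    exact hb' a2
  have ht : ∀ y : ℕ, Y.co (Z.t ^ (y : ℤ)) Y.j0 = y := fun y => by
    rw [yc, y0]; exact Z.X_tpow y
  refine ⟨Y, fun o => o.elim 1 fun j => lam b j / ψ b, fun g => by rw [yc, y0]; rfl,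
    fun g h => by rw [hψ, Z.X_mul]; ring, hr, fun s hs => ?_, fun s hs o ho => ?_,
    fun o ho => ?_, fun o => ?_, fun q q1 q2 => ?_, fun o o' ho ho' h => ?_⟩
  · refine tendsto_nhds_unique (inc_FD2 Y Z.gen Z.t ht hs Y.j0) (lim_FD2 (C := 0) fun y _ => ?_)
    rw [Y.add, Y.W_j0]
    simp
  · rw [y0] at ho
    obtain ⟨j, rfl⟩ := Option.ne_none_iff_exists'.1 ho
    have hn : Z.X (s * Z.t ^ (-Z.X s)) = 0 := by rw [Z.X_mul, Z.X_tpow]; ring
    have a1 := inc_FD2 Y Z.gen Z.t ht hs (some j)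
    have a2 : Y.c s (some j) = lam (s * Z.t ^ (-Z.X s)) j := by
      refine tendsto_nhds_unique a1 ?_
      rw [yW, yc]
      refine (l1 _ hn j).congr fun y => ?_
      have e1 : Z.V (Z.t ^ (y : ℤ) * s) =
          Z.v (Z.t ^ (y : ℤ) * (s * Z.t ^ (-Z.X s)) * Z.t ^ (-(y : ℤ))) := by
        unfold Pre.V
        rw [Z.X_mul, Z.X_tpow]
        congr 1
        group
      have e2 : Z.V (Z.t ^ (y : ℤ)) = 0 := by
        unfold Pre.V
        rw [Z.X_tpow, zpow_neg, mul_inv_cancel, Z.v_one]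
      simp only [Option.elim_some, e1, e2, Pi.zero_apply, Int.cast_zero, sub_zero]
    rw [a2, key _ hn, hψ, ψp]
    simp only [Option.elim_some]
    push_cast
    ring
  · rw [y0] at ho
    obtain ⟨j, rfl⟩ := Option.ne_none_iff_exists'.1 ho
    obtain ⟨g, -, h, -⟩ := top j
    exact h
  · rw [yW]
    cases o with
    | none => exact hr
    | some j => exact Z.w_le j
  · obtain ⟨j, hj⟩ := Z.occ q q1 q2
    exact ⟨some j, by rw [y0]; simp, by rw [yW]; exact hj⟩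
  · rw [y0] at ho ho'
    obtain ⟨j, rfl⟩ := Option.ne_none_iff_exists'.1 ho
    obtain ⟨i, rfl⟩ := Option.ne_none_iff_exists'.1 ho'
    rw [yW] at h
    by_contra hne
    obtain ⟨g, g1, -, g2⟩ := top i
    obtain ⟨-, -, g3, -⟩ := top j
    rcases mul_eq_zero.1 (g2 j h fun e => hne (congrArg some e)) with a | a
    · exact g3 a
    · exact g1 (by exact_mod_cast a)

end

section


lemma cut_EMI {G : Type u} [Group G] (H : Subgroup G) [H.FiniteIndex] (r : List G)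
    (hr : r.length = H.index) :
    ∃ p γ s : List G, r = p ++ γ ++ s ∧ 1 ≤ γ.length ∧ p.prod * γ.prod * p.prod⁻¹ ∈ H := by
  have : Fintype (G ⧸ H) := Fintype.ofFinite _
  have key : ∀ i j : ℕ, i < j → j ≤ r.length →
      (r.take j).prod * (r.take i).prod⁻¹ ∈ H → ∃ p γ s : List G, r = p ++ γ ++ s ∧
        1 ≤ γ.length ∧ p.prod * γ.prod * p.prod⁻¹ ∈ H := fun i j hij hj h => by
    obtain ⟨d, rfl⟩ := Nat.exists_eq_add_of_lt hij
    rw [add_assoc] at h hj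
    refine ⟨r.take i, (r.drop i).take (d + 1), r.drop (i + (d + 1)), ?_, ?_, ?_⟩
    · rw [← List.take_add, List.take_append_drop]
    · rw [List.length_take, List.length_drop]
      omega
    · rwa [← List.prod_append, ← List.take_add]
  obtain ⟨i, j, hne, h⟩ := Fintype.exists_ne_map_eq_of_card_lt
    (fun i : Fin (H.index + 1) => (QuotientGroup.mk ((r.take i).prod⁻¹) : G ⧸ H)) (by
      rw [Fintype.card_fin, ← Nat.card_eq_fintype_card]
      exact Nat.lt_succ_self _)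
  have h1 := QuotientGroup.eq.1 h
  have h2 := QuotientGroup.eq.1 h.symm
  rw [inv_inv] at h1 h2
  rcases lt_or_gt_of_ne (Fin.val_ne_of_ne hne) with h3 | h3
  · exact key i j h3 (by have := j.2; omega) h2
  · exact key j i h3 (by have := i.2; omega) h1

/-- the product of the first terms of a sequence -/
def P_EMI {N : Type u} [Group N] (y : ℕ → N) (i : ℕ) : N := ((List.range i).map y).prod

lemma P_succ_EMI {N : Type u} [Group N] (y : ℕ → N) (i : ℕ) :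
    P_EMI y (i + 1) = P_EMI y i * y i := by
  simp [P_EMI, List.range_succ]

lemma P_congr_EMI {N : Type u} [Group N] {y y' : ℕ → N} {i : ℕ} (h : ∀ j < i, y j = y' j) :
    P_EMI y i = P_EMI y' i := by
  unfold P_EMI
  rw [List.map_congr_left fun j hj => h j (List.mem_range.1 hj)]

lemma P_add_EMI {N : Type u} [Group N] (y : ℕ → N) (i d : ℕ) :
    P_EMI y (i + d) = P_EMI y i * ((List.range' i d).map y).prod := by
  induction d with
  | zero => simp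
  | succ d ih =>
    rw [← add_assoc, P_succ_EMI, ih, List.range'_concat, List.map_append, List.prod_append,
      mul_assoc]
    simp

lemma main_EMI {G : Type u} [Group G] (S : Finset G) (H : Subgroup G) [H.FiniteIndex]
    (l : List G) (hl : Word S l) :
    ∃ (n : ℕ) (y : ℕ → H) (k : ℕ → ℕ) (v : ℕ → List G),
      (∀ i < n, 1 ≤ k i ∧ k i ≤ H.index ∧ ∃ p x : List G, Word S p ∧ Word S x ∧
        p.length ≤ H.index ∧ x.length = k i ∧ (y i : G) = p.prod * x.prod * p.prod⁻¹) ∧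
      (∀ i ≤ n, Word S (v i) ∧ (v i).length < H.index ∧
        ∑ j ∈ range i, k j + (v i).length ≤ l.length ∧
        (P_EMI y i : H) * (v i).prod = (l.take (∑ j ∈ range i, k j + (v i).length)).prod) ∧
      ∑ j ∈ range n, k j + (v n).length = l.length := by
  have hq : 0 < H.index := Nat.pos_of_ne_zero Subgroup.FiniteIndex.index_ne_zero
  induction l using List.reverseRecOn with
  | nil =>
    refine ⟨0, fun _ => 1, fun _ => 0, fun _ => [], fun i hi => absurd hi (Nat.not_lt_zero _),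
      fun i hi => ?_, by simp⟩
    obtain rfl : i = 0 := by omega
    exact ⟨fun x hx => absurd hx List.not_mem_nil, hq, by simp, by simp [P_EMI]⟩
  | append_singleton l s ih =>
    obtain ⟨n, y, k, v, h1, h2, h3⟩ := ih fun x hx => hl x (List.mem_append_left _ hx)
    have hw : Word S (v n ++ [s]) := fun x hx => (List.mem_append.1 hx).elim
      ((h2 n le_rfl).1 x) fun h => hl x (List.mem_append_right _ h)
    have hold : ∀ i ≤ n, Word S (v i) ∧ (v i).length < H.index ∧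
        ∑ j ∈ range i, k j + (v i).length ≤ (l ++ [s]).length ∧ (P_EMI y i : H) * (v i).prod =
          ((l ++ [s]).take (∑ j ∈ range i, k j + (v i).length)).prod := fun i hi => by
      obtain ⟨a1, a2, a3, a4⟩ := h2 i hi
      refine ⟨a1, a2, by rw [List.length_append]; omega, ?_⟩
      rw [List.take_append_of_le_length a3, a4]
    have hend : (P_EMI y n : H) * (v n ++ [s]).prod = (l ++ [s]).prod := by
      rw [List.prod_append, ← mul_assoc, (h2 n le_rfl).2.2.2, h3, List.take_length,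
        List.prod_append]
    have hlen : ∑ j ∈ range n, k j + (v n ++ [s]).length = (l ++ [s]).length := by
      simp only [List.length_append, List.length_singleton]
      omega
    by_cases hc : (v n ++ [s]).length < H.index
    · refine ⟨n, y, k, fun i => if i = n then v n ++ [s] else v i, h1, fun i hi => ?_, by
        simpa using hlen⟩
      by_cases hin : i = n
      · subst hin
        simp only [if_true]
        exact ⟨hw, hc, hlen.le, by rw [hlen, List.take_length, hend]⟩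
      · simp only [if_neg hin]
        exact hold i hi
    · have hc' : (v n ++ [s]).length = H.index := by
        have := (h2 n le_rfl).2.1
        simp only [List.length_append, List.length_singleton] at hc ⊢
        omega
      obtain ⟨p, γ, t, e, hγ, hm⟩ := cut_EMI H _ hc'
      rw [e] at hw hc' hend hlen
      simp only [List.length_append] at hc' hlen
      have wp : Word S p := fun x hx => hw x (by simp [hx])
      have wγ : Word S γ := fun x hx => hw x (by simp [hx])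
      have wt : Word S (p ++ t) := fun x hx => hw x (by
        rcases List.mem_append.1 hx with h | h <;> simp [h])
      have hP : ∀ i ≤ n, P_EMI (fun i => if i = n then ⟨_, hm⟩ else y i) i = P_EMI y i :=
        fun i hi => P_congr_EMI fun j hj => if_neg (by omega)
      have hk : ∀ i ≤ n, ∑ j ∈ range i, (if j = n then γ.length else k j) = ∑ j ∈ range i, k j :=
        fun i hi => sum_congr rfl fun j hj => if_neg (by have := mem_range.1 hj; omega)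
      have hlen' : ∑ j ∈ range (n + 1), (if j = n then γ.length else k j) + (p ++ t).length =
          (l ++ [s]).length := by
        rw [sum_range_succ, hk n le_rfl, if_pos rfl]
        simp only [List.length_append]
        omega
      refine ⟨n + 1, fun i => if i = n then ⟨_, hm⟩ else y i,
        fun i => if i = n then γ.length else k i, fun i => if i = n + 1 then p ++ t else v i,
        fun i hi => ?_, fun i hi => ?_, by simpa using hlen'⟩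
      · by_cases hin : i = n
        · subst hin
          simp only [if_true]
          exact ⟨hγ, by omega, p, γ, wp, wγ, by omega, rfl, rfl⟩
        · simp only [if_neg hin]
          exact h1 i (by omega)
      · by_cases hin : i = n + 1
        · subst hin
          simp only [if_true]
          refine ⟨wt, by rw [List.length_append]; omega, hlen'.le, ?_⟩
          rw [hlen', List.take_length, ← hend, P_succ_EMI, hP n le_rfl]
          simp only [if_true, Subgroup.coe_mul, List.prod_append]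
          group
        · simp only [if_neg hin]
          rw [hP i (by omega), hk i (by omega)]
          exact hold i (by omega)

theorem EMI_pf (h : WLB_st.{u}) : EMI_st.{u} := by
  classical
  intro G _ S H _ hS
  obtain ⟨w1, w2, w3, w4, w5, w6, -⟩ := h G S hS
  have hq : 0 < H.index := Nat.pos_of_ne_zero Subgroup.FiniteIndex.index_ne_zero
  set M := H.index.factorial with hM
  have hM0 : 0 < M := Nat.factorial_pos _
  have hMR : (0 : ℝ) < M := by exact_mod_cast hM0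
  have hqM : H.index ≤ M := Nat.self_le_factorial _
  have hpow : ∀ (x : G) (j : ℕ), wl S (x ^ j) ≤ j * wl S x := fun x j => by
    induction j with
    | zero => simp [w3]
    | succ j ih =>
      rw [pow_succ, add_mul, one_mul]
      exact (w4 _ _).trans (Nat.add_le_add_right ih _)
  have hconj : ∀ (p x : G) (j : ℕ), wl S ((p * x * p⁻¹) ^ j) ≤ j * wl S x + 2 * wl S p :=
    fun p x j => by
      have a1 := w4 (p * x ^ j) p⁻¹
      have a2 := w4 p (x ^ j)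
      have a3 := hpow x j
      rw [w5] at a1
      rw [conj_pow]
      omega
  have hfin : {h : H | ∃ p x : G, wl S p ≤ M ∧ wl S x ≤ M ∧ (h : G) = p * x * p⁻¹}.Finite := by
    refine (Set.Finite.preimage (f := Subtype.val) Subtype.val_injective.injOn
      (((w6 M).prod (w6 M)).image fun a : G × G => a.1 * a.2 * a.1⁻¹)).subset ?_
    rintro h ⟨p, x, hp, hx, e⟩
    exact ⟨(p, x), ⟨hp, hx⟩, e.symm⟩
  have hT : ∀ h : H, h ∈ hfin.toFinset ↔
      ∃ p x : G, wl S p ≤ M ∧ wl S x ≤ M ∧ (h : G) = p * x * p⁻¹ := fun h => hfin.mem_toFinset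
  let B : Finset (G × ℕ) := (w6 H.index).toFinset ×ˢ range H.index
  have hE : Emit hfin.toFinset (fun x : H => (wl S (x : G) : ℝ) / M) 2 (1 / M) B.card := by
    intro g
    obtain ⟨l, hl, hlg, hll⟩ := w1 (g : G)
    obtain ⟨n, y, k, v, h1, h2, h3⟩ := main_EMI S H l hl
    have hB : ∀ i ≤ n, ((v i).prod, (v i).length) ∈ B := fun i hi =>
      mem_product.2 ⟨(w6 _).mem_toFinset.2 ((w2 _ (h2 i hi).1).trans (h2 i hi).2.1.le),
        mem_range.2 (h2 i hi).2.1⟩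
    have hρ : (((P_EMI y n)⁻¹ * g : H) : G) = (v n).prod := by
      rw [Subgroup.coe_mul, Subgroup.coe_inv, ← hlg, ← List.take_length (l := l), ← h3,
        ← (h2 n le_rfl).2.2.2, inv_mul_cancel_left]
    refine ⟨n, fun i => y i ^ (M / k i), y, fun i => (k i : ℝ) / M,
      fun i => if hi : ((v i).prod, (v i).length) ∈ B then (B.equivFin ⟨_, hi⟩ : ℕ) else 0,
      (P_EMI y n)⁻¹ * g, fun i hi => ?_, ?_, mul_inv_cancel_left _ _, ?_, fun i hi => ?_,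
      fun i i' hii hi' hlab j => ?_⟩
    · obtain ⟨a1, a2, p, x, wp, wx, a3, a4, a5⟩ := h1 i hi
      have b1 := w2 p wp
      have b2 := w2 x wx
      have b3 : M / k i * k i = M := Nat.div_mul_cancel (Nat.dvd_factorial a1 a2)
      have b4 : (1 : ℝ) ≤ k i := by exact_mod_cast a1
      have b5 : (k i : ℝ) ≤ M := by exact_mod_cast a2.trans hqM
      refine ⟨(hT _).2 ⟨p.prod, x.prod ^ (M / k i), by omega, ?_, ?_⟩,
        (hT _).2 ⟨p.prod, x.prod, by omega, by omega, a5⟩,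
        div_le_div_of_nonneg_right b4 hMR.le, (div_le_one hMR).2 b5, M / k i, rfl, ?_⟩
      · refine (hpow _ _).trans ?_
        rw [← b3]
        exact Nat.mul_le_mul (by rw [b3]) (by omega)
      · rw [Subgroup.coe_pow, a5, conj_pow]
      · rw [← mul_div_assoc, ← Nat.cast_mul, b3, div_self hMR.ne']
    · refine (hT _).2 ⟨1, (v n).prod, by omega, ?_, by rw [hρ]; simp⟩
      have a1 := w2 _ (h2 n le_rfl).1
      have a2 := (h2 n le_rfl).2.1
      omega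
    · rw [← sum_div]
      refine div_le_div_of_nonneg_right ?_ hMR.le
      have a1 : ∑ j ∈ range n, k j ≤ wl S (g : G) := by omega
      exact_mod_cast a1
    · simp only [dif_pos (hB i hi)]
      exact (B.equivFin _).2
    · have hi : i ≤ n := hii.trans hi'
      simp only [dif_pos (hB i hi), dif_pos (hB i' hi')] at hlab
      have a1 := congrArg Subtype.val (B.equivFin.injective (Fin.ext hlab))
      have a2 : (v i).prod = (v i').prod := congrArg Prod.fst a1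
      have a3 : (v i).length = (v i').length := congrArg Prod.snd a1
      have a4 : ∑ j ∈ range i', k j + (v i').length =
          ∑ j ∈ range i, k j + (v i).length + ∑ j ∈ Ico i i', k j := by
        rw [← sum_range_add_sum_Ico k hii]
        omega
      have a5 := (h2 i' hi').2.2.2
      obtain ⟨d, rfl⟩ := Nat.exists_eq_add_of_le hii
      rw [a4, List.take_add, List.prod_append, ← (h2 i hi).2.2.2, P_add_EMI, Subgroup.coe_mul,
        mul_assoc, mul_assoc, mul_left_cancel_iff, ← a2] at a5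
      set z := (l.drop (∑ j ∈ range i, k j + (v i).length)).take (∑ j ∈ Ico i (i + d), k j)
      have a6 : wl S z.prod ≤ ∑ j ∈ Ico i (i + d), k j :=
        (w2 z fun x hx => hl x (List.mem_of_mem_drop (List.mem_of_mem_take hx))).trans
          (List.length_take_le _ _)
      have a7 := hconj (v i).prod z.prod j
      have a8 := w2 _ (h2 i hi).1
      have a9 := (h2 i hi).2.1
      have b1 := Nat.mul_le_mul_left j a6
      rw [← a5, mul_inv_cancel_right] at a7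
      simp only [Nat.add_sub_cancel_left, Subgroup.coe_pow]
      rw [← sum_div, div_le_iff₀ hMR, add_mul, mul_assoc, div_mul_cancel₀ _ hMR.ne']
      have b3 : wl S (((((List.range' i d).map y).prod : H) : G) ^ j) ≤
          j * ∑ j ∈ Ico i (i + d), k j + 2 * M := by omega
      exact_mod_cast b3
  refine ⟨M, hfin.toFinset, 2, 1 / M, B.card, hM0, by positivity, fun s hs => ?_, ?_,
    ⟨zero_le_two, by simp [w3], fun x y => ?_, fun x => ?_, fun x hx j => ?_⟩, hE⟩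
  · obtain ⟨p, x, hp, hx, e⟩ := (hT s).1 hs
    refine (hT _).2 ⟨p, x⁻¹, hp, by rwa [w5], ?_⟩
    rw [Subgroup.coe_inv, e]
    group
  · refine (Subgroup.eq_top_iff' _).2 fun g => ?_
    obtain ⟨n, x, y, w, lab, ρ, a1, a2, a3, -⟩ := hE g
    rw [← a3]
    refine Subgroup.mul_mem _ (Subgroup.list_prod_mem _ fun z hz => ?_)
      (Subgroup.subset_closure a2)
    obtain ⟨i, hi, rfl⟩ := List.mem_map.1 hz
    exact Subgroup.subset_closure (a1 i (List.mem_range.1 hi)).2.1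
  · rw [← add_div]
    refine div_le_div_of_nonneg_right ?_ hMR.le
    exact_mod_cast w4 (x : G) y
  · simp only [Subgroup.coe_inv, w5]
  · obtain ⟨p, z, hp, hz, e⟩ := (hT x).1 hx
    have a1 := hconj p z j
    have a2 := Nat.mul_le_mul_left j hz
    have a3 : wl S ((x : G) ^ j) ≤ j * M + 2 * M := by
      rw [e]
      omega
    rw [Subgroup.coe_pow, div_le_iff₀ hMR, add_mul]
    exact_mod_cast a3

end

section


theorem WLB_pf : WLB_st.{u} := by
  intro G _ S hS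
  have h1 : ∀ g, ∃ l : List G, Word S l ∧ l.prod = g ∧ l.length = wl S g := by
    intro g
    obtain ⟨l, hl, hp⟩ := exists_word hS g
    obtain ⟨l', a1, a2, a3⟩ := Nat.sInf_mem (s := {n : ℕ | ∃ l : List G, l.length = n ∧
      (∀ x ∈ l, x ∈ S ∨ x⁻¹ ∈ S) ∧ l.prod = g}) ⟨l.length, l, rfl, hl, hp⟩
    exact ⟨l', a2, a3, a1⟩
  have h2 : ∀ l : List G, Word S l → wl S l.prod ≤ l.length := fun l hl =>
    Nat.sInf_le ⟨l, rfl, hl, rfl⟩
  have h3 : ∀ g, wl S g⁻¹ ≤ wl S g := by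
    intro g
    obtain ⟨l, a1, a2, a3⟩ := h1 g
    have := h2 (l.map (·⁻¹)).reverse (by
      intro y hy
      obtain ⟨z, hz, rfl⟩ := List.mem_map.1 (List.mem_reverse.1 hy)
      rcases a1 z hz with h | h
      · exact Or.inr (by rwa [inv_inv])
      · exact Or.inl h)
    rwa [← List.prod_inv_reverse, a2, List.length_reverse, List.length_map, a3] at this
  have h4 : ∀ k : ℕ, {g | wl S g ≤ k} = {g | Ball S k g} := by
    intro k
    ext g
    constructor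
    · intro hg
      obtain ⟨l, a1, a2, a3⟩ := h1 g
      exact ⟨l, by rw [a3]; exact_mod_cast hg, a1, a2⟩
    · rintro ⟨l, a1, a2, rfl⟩
      exact (h2 l a2).trans (by exact_mod_cast a1)
  refine ⟨h1, h2, ?_, fun g h => ?_, fun g => le_antisymm (h3 g) ?_, fun k => ?_, fun k => ?_⟩
  · exact Nat.le_zero.1 (h2 [] fun _ h => by simp at h)
  · obtain ⟨l, a1, a2, a3⟩ := h1 g
    obtain ⟨l', b1, b2, b3⟩ := h1 h
    have := h2 _ (a1.append b1)
    rwa [List.prod_append, a2, b2, List.length_append, a3, b3] at this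
  · have := h3 g⁻¹
    rwa [inv_inv] at this
  · rw [h4]
    exact ball_finite S k
  · rw [h4, growth_eq]

end

section


theorem CNT_pf (h : WLB_st.{u}) : CNT_st.{u} := by
  intro G _ S H _ hS
  obtain ⟨-, -, -, hm, hi, hf, hg⟩ := h G S hS
  have hQ : Finite (G ⧸ H) := H.finite_quotient_of_finiteIndex
  obtain ⟨C, hC⟩ := (Set.finite_range fun c : G ⧸ H => wl S c.out).bddAbove
  have hC' : ∀ c : G ⧸ H, wl S c.out ≤ C := fun c => hC ⟨c, rfl⟩
  have fH : ∀ k : ℕ, {x : H | wl S (x : G) ≤ k}.Finite := fun k =>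
    (hf k).preimage (f := Subtype.val) Subtype.val_injective.injOn
  let F : (G ⧸ H) × H → G := fun z => z.2 * z.1.out⁻¹
  have mk : ∀ z, (QuotientGroup.mk (F z)⁻¹ : G ⧸ H) = z.1 := fun z => by
    rw [← QuotientGroup.out_eq' z.1, QuotientGroup.eq]
    simp [F]
  have inj : Function.Injective F := fun z z' e => by
    have e1 : z.1 = z'.1 := by rw [← mk z, e, mk]
    refine Prod.ext e1 (Subtype.ext ?_)
    simp only [F, e1] at e
    exact mul_right_cancel e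
  have cd : ∀ k : ℕ, (F '' (Set.univ ×ˢ {x : H | wl S (x : G) ≤ k})).ncard =
      H.index * {x : H | wl S (x : G) ≤ k}.ncard := fun k => by
    rw [Set.ncard_image_of_injective _ inj, Set.ncard_prod, Set.ncard_univ, Subgroup.index]
  refine ⟨C, fun k => ⟨?_, ?_⟩⟩
  · rw [hg, ← cd]
    refine Set.ncard_le_ncard (fun g (hk : wl S g ≤ k) => ?_)
      ((Set.finite_univ.prod (fH _)).image _)
    have e : g * (QuotientGroup.mk g⁻¹ : G ⧸ H).out ∈ H := by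
      have := QuotientGroup.eq.1 (QuotientGroup.out_eq' (QuotientGroup.mk g⁻¹ : G ⧸ H)).symm
      rwa [inv_inv] at this
    refine ⟨(QuotientGroup.mk g⁻¹, ⟨_, e⟩), ⟨trivial, ?_⟩, mul_inv_cancel_right _ _⟩
    exact (hm _ _).trans (Nat.add_le_add hk (hC' _))
  · rw [hg, ← cd]
    refine Set.ncard_le_ncard ?_ (hf _)
    rintro _ ⟨z, ⟨-, hz⟩, rfl⟩
    exact (hm _ _).trans (Nat.add_le_add hz ((hi _).le.trans (hC' _)))

end

section


section
open Filter Topology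

theorem lim_ASM (b : ℕ → ℝ) (c C C' : ℝ) (e : ℕ)
    (h1 : ∀ᶠ k : ℕ in atTop, -C * (k : ℝ) ^ (1 / 3 : ℝ) ≤ (b k - c * (k : ℝ) ^ (e + 1)) / (k : ℝ) ^ e)
    (h2 : ∀ᶠ k : ℕ in atTop, (b k - c * (k : ℝ) ^ (e + 1)) / (k : ℝ) ^ e ≤ C') :
    Tendsto (fun k : ℕ => b k / (k : ℝ) ^ (e + 1)) atTop (𝓝 c) := by
  have a1 : Tendsto (fun k : ℕ => -C * (k : ℝ) ^ (1 / 3 : ℝ) / k) atTop (𝓝 0) := by
    have h := ((tendsto_rpow_neg_atTop (y := 2 / 3) (by norm_num)).comp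
      tendsto_natCast_atTop_atTop).const_mul (-C)
    rw [mul_zero] at h
    refine h.congr' ?_
    filter_upwards [eventually_gt_atTop 0] with k hk
    have hk' : (0 : ℝ) < k := by exact_mod_cast hk
    rw [mul_div_assoc, ← Real.rpow_sub_one hk'.ne']
    norm_num
  have a2 : Tendsto (fun k : ℕ => C' / (k : ℝ)) atTop (𝓝 0) := tendsto_const_div_atTop_nhds_zero_nat C'
  have hl := a1.add_const c
  have hu := a2.add_const c
  rw [zero_add] at hl hu
  have e1 : ∀ k : ℕ, 0 < k → b k / (k : ℝ) ^ (e + 1) =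
      (b k - c * (k : ℝ) ^ (e + 1)) / (k : ℝ) ^ e / k + c := by
    intro k hk
    have hk' : (0 : ℝ) < k := by exact_mod_cast hk
    field_simp
    ring
  refine tendsto_of_tendsto_of_tendsto_of_le_of_le' hl hu ?_ ?_
  · filter_upwards [h1, eventually_gt_atTop 0] with k h hk
    rw [e1 k hk]
    gcongr
  · filter_upwards [h2, eventually_gt_atTop 0] with k h hk
    rw [e1 k hk]
    gcongr

theorem fd_ASM (h1 : FD1_st.{u}) (h2 : FD2_st.{u}) (h3 : POL_st.{u}) {N : Type u} [Group N]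
    [Group.IsNilpotent N] (T : Finset N) (hs : ∀ s ∈ T, s⁻¹ ∈ T)
    (hT : Subgroup.closure (T : Set N) = ⊤) (φ ψ : N →* Multiplicative ℤ) (hF : Filiform φ ψ) :
    ∃ (J : Type) (_ : Fintype J) (F : Fd T J), F.r ≤ Group.nilpotencyClass N ∧
      (∀ g, F.P.a g = 0 ↔ φ g = 1) ∧ ∀ g, φ g = 1 → (F.P.β g = 0 ↔ ψ g = 1) := by
  obtain ⟨J, _, _, Z, a1, a2, a3⟩ := h1 N T φ hF.tf hT hF.onto hF.ideal
  have hX : ∀ g, Z.X g = 0 ↔ φ g = 1 := fun g => by rw [a1, toAdd_eq_zero]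
  obtain ⟨b, hb1, hb2⟩ := hF.ind
  obtain ⟨Y, κ, b1, b2⟩ := h2 N T J Z (fun g => Multiplicative.toAdd (ψ g)) (fun g h => by simp)
    ⟨b, (hX b).2 hb1, fun h => hb2 (toAdd_eq_zero.1 h)⟩
    (fun g c1 c2 => a3 g ((hX g).1 c1) (hF.rank g ((hX g).1 c1) (toAdd_eq_zero.1 c2)))
  obtain ⟨P, c1, c2, c3, c4⟩ := h3 N T (fun g => Y.co g Y.j0)
    (fun g => Multiplicative.toAdd (ψ g) - Multiplicative.toAdd (ψ Z.t) * Z.X g) hs hT Y.add
    b2.β_mul Y.ex
    ⟨b, by rw [b1]; exact (hX b).2 hb1, by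
      rw [(hX b).2 hb1, mul_zero, sub_zero]
      exact fun h => hb2 (toAdd_eq_zero.1 h)⟩
  refine ⟨Option J, inferInstance, ⟨Y, _, κ, Z.r, P, b2, hs, hT, c1, c2, c3, c4⟩, a2,
    fun g => ?_, fun g hg => ?_⟩
  · change P.a g = 0 ↔ _
    rw [c2, b1, hX]
  · change P.β g = 0 ↔ _
    rw [c3, (hX g).2 hg, mul_zero, sub_zero, Int.cast_eq_zero, toAdd_eq_zero]

theorem real_ASM (h1 : AB1_st.{u}) {N : Type u} [Group N] {T : Finset N} {J : Type} [Fintype J]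
    (F : Fd T J) {len : N → ℝ} {C0 : ℝ} (hL : Len T len C0) :
    ((∃ g, F.P.a g = 0 ∧ F.P.β g ≠ 0 ∧ ∃ τ C : ℝ, ∀ j : ℕ, |len (g ^ j) - τ * j| ≤ C) →
      F.Real len) ∧ (¬ F.Real len → ∃ s s', Pair F.P s s') := by
  have hv : (∃ s ∈ T, F.P.a s = 0 ∧ F.P.β s = F.P.θ) → F.Real len := by
    rintro ⟨s, hs, a1, a2⟩
    refine ⟨s, a1, a2 ▸ F.P.θ_pos, C0, fun j => ?_⟩
    rw [a2, mul_div_assoc, div_self F.P.θ_pos.ne', mul_one]
    exact hL.pow s hs j
  refine ⟨?_, fun hn => F.att.resolve_left fun h => hn (hv h)⟩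
  rintro ⟨g, a1, a2, τ, C, a3⟩
  rcases F.att with h | ⟨s, s', hp⟩
  · exact hv h
  · rcases lt_or_gt_of_ne a2 with h | h
    · refine h1 N T J F len C0 s s' hL hp g⁻¹ (by rw [F.a_inv, a1, neg_zero])
        (by rw [F.β_inv]; linarith) ⟨τ, C, fun j => ?_⟩
      rw [inv_pow, hL.inv]
      exact a3 j
    · exact h1 N T J F len C0 s s' hL hp g a1 h ⟨τ, C, a3⟩

theorem core_ASM (hAB2 : AB2_st.{u}) (hAB1 : AB1_st.{u}) (hDSC : DSC_st.{u}) (hVPW : VPW_st.{u})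
    (hVPZ : VPZ_st.{u}) (hUPV : UPV_st.{u}) (hLOV : LOV_st.{u}) (hDEF : DEF2_st.{u})
    (hANU : ANU_st) (hANL : ANL_st) {N : Type u} [Group N] {T : Finset N} {J : Type} [Fintype J]
    (F : Fd T J) {len : N → ℝ} {C0 w0 : ℝ} {R0 : ℕ} (hL : Len T len C0) (hw : 0 < w0)
    (hE : Emit T len C0 w0 R0) (b : ℕ → ℝ) (q : ℝ) (hq : 0 < q) (M C1 C2 : ℕ) (hM : 1 ≤ M)
    (hb1 : ∀ k : ℕ, b k ≤ q * ({x | len x ≤ (k / M + C1 : ℕ)}.ncard : ℝ))
    (hb2 : ∀ k : ℕ, C2 ≤ k → q * ({x | len x ≤ ((k - C2) / M : ℕ)}.ncard : ℝ) ≤ b k) :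
    ∃ (e : ℕ) (c : ℝ), 0 < c ∧ Tendsto (fun k : ℕ => b k / (k : ℝ) ^ (e + 1)) atTop (𝓝 c) ∧
      (F.Real len → ∃ C : ℝ, ∀ᶠ k : ℕ in atTop,
        |(b k - c * (k : ℝ) ^ (e + 1)) / (k : ℝ) ^ e| ≤ C) ∧
      (¬ F.Real len → ∃ c₁ c₂ : ℝ, 0 < c₁ ∧ ∀ᶠ k : ℕ in atTop,
        -c₂ * (k : ℝ) ^ (1 / 3 : ℝ) ≤ (b k - c * (k : ℝ) ^ (e + 1)) / (k : ℝ) ^ e ∧
        (b k - c * (k : ℝ) ^ (e + 1)) / (k : ℝ) ^ e ≤ -c₁ * (k : ℝ) ^ (1 / 3 : ℝ)) := by
  obtain ⟨hfin, -, -⟩ := hDSC N T J F len C0 w0 R0 hw hE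
  obtain ⟨e, he⟩ : ∃ e, ∑ j, F.Z.W j = e + 1 := by
    refine ⟨∑ j, F.Z.W j - 1, (Nat.sub_add_cancel ?_).symm⟩
    rw [← F.Z.W_j0]
    exact single_le_sum (f := F.Z.W) (fun _ _ => Nat.zero_le _) (mem_univ _)
  have hvol : ∀ k : ℕ, volume.real (F.D len k) = ({x | len x ≤ k}.ncard : ℝ) := fun k =>
    (F.Z.vol_pt (hfin k)).2
  have hV := CCore_pos F.Z
  set V := volume.real (F.Z.B 1) with hVd
  set f : ℕ → ℝ := fun k => ({x | len x ≤ k}.ncard : ℝ) with hf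
  have hM0 : (0 : ℝ) < M := by exact_mod_cast hM
  obtain ⟨Cu, hu⟩ := hUPV N T J F len C0 w0 R0 hw hE 0 le_rfl
  obtain ⟨Cu', hu'⟩ := (hANU b f q V 1 Cu 0 M C1 e 1 1 hq hV hM le_rfl le_rfl hb1).1
    fun k hk _ => by
      have := hu k hk (Nat.cast_nonneg k) ∅ MeasurableSet.empty (Set.empty_subset _)
        (Set.empty_disjoint _)
      rwa [he, Nat.add_sub_cancel, measureReal_empty, add_zero, hvol] at this
  have hR : F.Real len → ∃ C : ℝ, ∀ᶠ k : ℕ in atTop,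
      -C ≤ (b k - q * V / M ^ (e + 1) * (k : ℝ) ^ (e + 1)) / (k : ℝ) ^ e := by
    rintro ⟨g, a1, a2, C, a3⟩
    obtain ⟨w, hw1, rfl⟩ := exists_word F.gen g
    have hvp := hVPW N T J F len C0 0 C w hL ((F.word w).1 hw1) a1 a2 a3
      (by rw [zero_mul]; exact (div_pos a2 F.P.θ_pos).le)
    obtain ⟨Cl, hl⟩ := hLOV N T J F len C0 _ hL hvp hfin
    refine (hANL b f q V Cl M C2 e hq hV hM hb2).1 fun k hk => ?_
    have := hl k 1 hk le_rfl trivial
    rwa [he, Nat.add_sub_cancel, hvol, mul_one] at this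
  have hN : ¬ F.Real len → ∃ c₁ c₂ : ℝ, 0 < c₁ ∧ ∀ᶠ k : ℕ in atTop,
      -c₂ * (k : ℝ) ^ (1 / 3 : ℝ) ≤
        (b k - q * V / M ^ (e + 1) * (k : ℝ) ^ (e + 1)) / (k : ℝ) ^ e ∧
      (b k - q * V / M ^ (e + 1) * (k : ℝ) ^ (e + 1)) / (k : ℝ) ^ e ≤
        -c₁ * (k : ℝ) ^ (1 / 3 : ℝ) := by
    intro hn
    obtain ⟨t, t', hp⟩ := (real_ASM hAB1 F hL).2 hn
    have h3 : 3 ≤ F.r := by
      by_contra hc
      exact hn (hAB2 N T J F len C0 t t' hL hp (by omega))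
    obtain ⟨Cl, hl⟩ := hLOV N T J F len C0 _ hL (hVPZ N T J F len C0 t t' hL hp) hfin
    obtain ⟨c₂, h5⟩ := (hANL b f q V Cl M C2 e hq hV hM hb2).2 fun k R hk hR hkR => by
      have := hl k R hk hR (Or.inl hkR)
      rwa [he, Nat.add_sub_cancel, hvol] at this
    obtain ⟨c, C, D0, hc, hd⟩ := hDEF N T J F len C0 w0 R0 t t' hw hE hp hn h3
    obtain ⟨c₁, hc₁, h6⟩ := (hANU b f q V c C D0 M C1 e 3 3 hq hV hM (by norm_num) le_rfl hb1).2 hc
      fun k D h7 h8 => by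
        have := hd k D h7 h8
        rwa [he, Nat.add_sub_cancel, hvol] at this
    rw [Nat.cast_ofNat] at h6
    exact ⟨c₁, c₂, hc₁, h5.and h6⟩
  refine ⟨e, q * V / M ^ (e + 1), by positivity, ?_, fun h => ?_, hN⟩
  · by_cases h : F.Real len
    · obtain ⟨C, hC⟩ := hR h
      refine lim_ASM b _ |C| Cu' e ?_ hu'
      filter_upwards [hC, eventually_ge_atTop 1] with k h1 hk
      have h2 : (1 : ℝ) ≤ (k : ℝ) ^ (1 / 3 : ℝ) :=
        Real.one_le_rpow (by exact_mod_cast hk) (by norm_num)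
      nlinarith [le_abs_self C, abs_nonneg C]
    · obtain ⟨c₁, c₂, -, hC⟩ := hN h
      exact lim_ASM b _ c₂ Cu' e (hC.mono fun k h => h.1) hu'
  · obtain ⟨C, hC⟩ := hR h
    refine ⟨max C Cu', ?_⟩
    filter_upwards [hC, hu'] with k h1 h2
    exact abs_le.2 ⟨by linarith [le_max_left C Cu'], h2.trans (le_max_right _ _)⟩

theorem dich_ASM (hAB2 : AB2_st.{u}) (hAB1 : AB1_st.{u}) (hDSC : DSC_st.{u}) (hVPW : VPW_st.{u})
    (hVPZ : VPZ_st.{u}) (hUPV : UPV_st.{u}) (hLOV : LOV_st.{u}) (hDEF : DEF2_st.{u})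
    (hANU : ANU_st) (hANL : ANL_st) (hFD1 : FD1_st.{u}) (hFD2 : FD2_st.{u}) (hPOL : POL_st.{u})
    (hEMI : EMI_st.{u}) (hCNT : CNT_st.{u}) (hWLB : WLB_st.{u})
    {G : Type u} [Group G] (S : Finset G) (hS : Subgroup.closure (S : Set G) = ⊤)
    (H : Subgroup G) [H.FiniteIndex] [Group.IsNilpotent H] (φ ψ : H →* Multiplicative ℤ)
    (hF : Filiform φ ψ) :
    ∃ (d : ℕ) (c : ℝ),
      Tendsto (fun k : ℕ => Real.log (growth S k) / Real.log k) atTop (𝓝 d) ∧ 0 < c ∧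
      Tendsto (fun k : ℕ => (growth S k : ℝ) / (k : ℝ) ^ d) atTop (𝓝 c) ∧
      ((∃ g : H, φ g = 1 ∧ ψ g ≠ 1 ∧ Straight S (g : G)) → ∃ C : ℝ, ∀ᶠ k : ℕ in atTop,
        |((growth S k : ℝ) - c * (k : ℝ) ^ d) / (k : ℝ) ^ ((d : ℤ) - 1)| ≤ C) ∧
      ((¬ ∃ g : H, φ g = 1 ∧ ψ g ≠ 1 ∧ Straight S (g : G)) → ∃ c₁ c₂ : ℝ, 0 < c₁ ∧
        ∀ᶠ k : ℕ in atTop, -c₂ * (k : ℝ) ^ (1 / 3 : ℝ) ≤
            ((growth S k : ℝ) - c * (k : ℝ) ^ d) / (k : ℝ) ^ ((d : ℤ) - 1) ∧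
          ((growth S k : ℝ) - c * (k : ℝ) ^ d) / (k : ℝ) ^ ((d : ℤ) - 1) ≤
            -c₁ * (k : ℝ) ^ (1 / 3 : ℝ)) := by
  obtain ⟨M, T, C0, w0, R0, hM, hw, hs, hT, hL, hE⟩ := hEMI G S H hS
  obtain ⟨J, _, F, -, ha, hβ⟩ := fd_ASM hFD1 hFD2 hPOL T hs hT φ ψ hF
  obtain ⟨C, hC⟩ := hCNT G S H hS
  obtain ⟨-, -, -, -, -, hfin, -⟩ := hWLB G S hS
  have hM0 : (0 : ℝ) < M := by exact_mod_cast hM
  have hset : ∀ k : ℕ, {x : H | (wl S (x : G) : ℝ) / M ≤ k} = {x : H | wl S (x : G) ≤ k * M} := by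
    intro k
    ext x
    simp only [Set.mem_ofPred_eq]
    rw [div_le_iff₀ hM0]
    exact_mod_cast Iff.rfl
  have hmono : ∀ k k' : ℕ, k ≤ k' →
      {x : H | wl S (x : G) ≤ k}.ncard ≤ {x : H | wl S (x : G) ≤ k'}.ncard := fun k k' h =>
    Set.ncard_le_ncard (fun x hx => le_trans hx h)
      ((hfin k').preimage Subtype.val_injective.injOn)
  have hq : (0 : ℝ) < H.index := by
    exact_mod_cast Nat.pos_of_ne_zero Subgroup.FiniteIndex.index_ne_zero
  obtain ⟨e, c, hc, h1, h2, h3⟩ := core_ASM hAB2 hAB1 hDSC hVPW hVPZ hUPV hLOV hDEF hANU hANL F hL hw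
    hE (fun k => (growth S k : ℝ)) H.index hq M (C + 1) C hM
    (fun k => by
      rw [hset]
      have a1 : k + C ≤ (k / M + (C + 1)) * M := by
        have := Nat.lt_div_mul_add (a := k) (b := M) hM
        nlinarith
      exact_mod_cast (hC k).1.trans (Nat.mul_le_mul_left _ (hmono _ _ a1)))
    (fun k hk => by
      rw [hset]
      have a1 := (hC (k - C)).2
      rw [Nat.sub_add_cancel hk] at a1
      exact_mod_cast (Nat.mul_le_mul_left _ (hmono _ _ (Nat.div_mul_le_self _ _))).trans a1)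
  have hcr : (∃ g : H, φ g = 1 ∧ ψ g ≠ 1 ∧ Straight S (g : G)) ↔
      F.Real fun x => (wl S (x : G) : ℝ) / M := by
    constructor
    · rintro ⟨g, a1, a2, τ, D, a3⟩
      refine (real_ASM hAB1 F hL).1 ⟨g, (ha g).2 a1, fun h => a2 ((hβ g a1).1 h), τ / M, D / M,
        fun j => ?_⟩
      rw [Subgroup.coe_pow, div_mul_eq_mul_div, ← sub_div, abs_div, abs_of_pos hM0]
      exact div_le_div_of_nonneg_right (a3 j) hM0.le
    · rintro ⟨g, a1, a2, D, a3⟩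
      obtain ⟨-, ⟨D', a4⟩, -⟩ := hDSC H T J F _ C0 w0 R0 hw hE
      have hθ := F.P.θ_pos
      refine ⟨g, (ha g).1 a1, fun h => a2.ne' ((hβ g ((ha g).1 a1)).2 h), M * (F.P.β g / F.P.θ),
        M * max D (D' / F.P.θ), fun j => ?_⟩
      have b1 := a3 j
      have b2 := a4 (g ^ j)
      rw [F.a_pow, a1, F.β_pow, mul_zero, Int.cast_zero, mul_zero, add_zero] at b2
      beta_reduce at b1 b2
      rw [Subgroup.coe_pow] at b1 b2
      have b3 : j * F.P.β g / F.P.θ ≤ (wl S ((g : G) ^ j) : ℝ) / M + D' / F.P.θ := by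
        rw [div_le_iff₀ hθ, add_mul, div_mul_cancel₀ _ hθ.ne']
        linarith
      have b4 : (wl S ((g : G) ^ j) : ℝ) - M * (F.P.β g / F.P.θ) * j =
          M * ((wl S ((g : G) ^ j) : ℝ) / M - j * F.P.β g / F.P.θ) := by
        field_simp
      rw [b4, abs_mul, abs_of_pos hM0]
      exact mul_le_mul_of_nonneg_left (abs_le.2 ⟨by linarith [le_max_right D (D' / F.P.θ)],
        by linarith [le_max_left D (D' / F.P.θ)]⟩) hM0.le
  have he : (((e + 1 : ℕ) : ℤ) - 1) = (e : ℤ) := by push_cast; ring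
  refine ⟨e + 1, c, log_ratio (a := fun k => (growth S k : ℝ)) hc h1, hc, h1, ?_, ?_⟩
  · simpa only [hcr, he, zpow_natCast] using h2
  · simpa only [hcr, he, zpow_natCast] using h3

end

end

end Pool.Agent.MP_b3b911_al.Dich
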