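import Pool.Agent.MP_b3b911_al.Dich.PA
import Pool.Agent.MP_b3b911_al.Dich.PB
import Pool.Agent.MP_b3b911_al.Dich.PC
import Pool.Agent.Mg.Fb3b911.Gea6a08
import Pool.Agent.Mg.Fb3b911.Gba9cfd

open Finset MeasureTheory

noncomputable section

namespace Pool.Agent.MP_b3b911_al.Dich

open Fil

universe u

section


theorem pre_FD1 {G : Type u} [Group G] {φ : G →* Multiplicative ℤ} {t : G} {F : ℕ → Subgroup G}
    {J : Type} [Fintype J] [DecidableEq J] (h : FData φ t F) (C : Coord F φ.ker J) (S : Finset G)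
    (hS : Subgroup.closure (S : Set G) = ⊤) : ∃ Z : Pre S J,
      (∀ g, Z.X g = Multiplicative.toAdd (φ g)) ∧ Z.r = univ.sup C.w ∧
      ∀ g, g ∈ φ.ker → g ∈ F 2 → Z.P 2 g := by
  refine ⟨{
    X := fun g => Multiplicative.toAdd (φ g)
    X_mul := fun g h => by simp
    t := t
    X_t := by simp [h.ht]
    gen := hS
    v := C.v
    w := C.w
    r := Finset.univ.sup C.w
    w_pos := C.w_pos
    w_le := fun j => Finset.le_sup (Finset.mem_univ j)
    occ := ?_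
    v_one := C.v_one
    inj := fun g g' hg hg' e => C.inj g ((NMk_ker φ g).1 hg) g' ((NMk_ker φ g').1 hg') e
    surj := fun y => by
      obtain ⟨g, hg, e⟩ := C.surj y
      exact ⟨g, (NMk_ker φ g).2 hg, e⟩
    P := fun p g => g ∈ φ.ker ∧ g ∈ F p
    P_X := fun p g hg => (NMk_ker φ g).2 hg.1
    P_one := fun g hg => ⟨(NMk_ker φ g).1 hg, by rw [h.top]; exact Subgroup.mem_top _⟩
    P_conj := fun p g y hg => by
      rw [zpow_neg]
      exact ⟨(MonoidHom.normal_ker φ).conj_mem g hg.1 _, (h.filt.normal p).conj_mem g hg.2 _⟩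
    P_low := fun p g j hg hj => h.low C hg.1 hg.2 hj
    P_deg := fun p g j hp hg hj => h.pdeg C hp hg.1 hg.2 hj
    P_top := fun p i hp hi => h.ptop C hp hi
    P_bas := fun p i _ hi => ⟨C.b i, ⟨(C.b_mem i).1, h.filt.anti hi (C.b_mem i).2⟩, C.v_b i⟩
    Sm := fun K A => Cst (lt C.b) (fun a : J × Bool => C.w a.1) K A
    Sm_mul := fun K A B x y hx hy => hx.mul hy
    Sm_inv := fun K A x hx => NMk_inv C.b C.w hx
    Sm_mono := fun K A B x hAB hx => by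
      obtain ⟨l, h1, h2⟩ := hx
      exact ⟨l, h1, h2.trans hAB⟩
    Sm_v := fun K _ g hg => NMk_v C K ((NMk_ker φ g).1 hg)
    Sm_ball := fun A => NMk_ball h C S A
    KE := fun A => by
      obtain ⟨D, hD0, hD⟩ := NMk_KE h C A
      exact ⟨D, hD0, fun K ε hK hε x u y _ _ _ hx hu hy j => hD K ε hK hε x u y hx hu hy j⟩
    KV := ?_ }, fun _ => rfl, rfl, fun g h1 h2 => ⟨h1, h2⟩⟩
  · intro q hq hr
    have hne : (Finset.univ : Finset J).Nonempty := by
      by_contra hn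
      rw [Finset.not_nonempty_iff_eq_empty] at hn
      rw [hn, Finset.sup_empty] at hr
      simp at hr
      omega
    obtain ⟨i, -, hi⟩ := Finset.exists_mem_eq_sup Finset.univ hne C.w
    exact h.occ C hq (i := i) (hi ▸ hr)
  · intro p x u y j hx hu hy hj
    have hx' := (NMk_ker φ x).1 hx
    have hy' := (NMk_ker φ y).1 hy
    have hp : 1 ≤ p := (C.w_pos j).trans hj
    have hT : ∀ z : G, z ∈ F 1 := fun z => by rw [h.top]; exact Subgroup.mem_top _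
    have e1 := (h.deg_v C j).van2 le_rfl hp (by omega) (hT x) hx' hu.2 hu.1 hy'
    have e2 := (h.deg_v C j).van2 hp le_rfl (by omega) hu.2 hu.1 (hT y) hy' (one_mem _)
    simp only [mul_one, C.v_one, Pi.zero_apply] at e1 e2
    omega

theorem FD1_pf : FD1_st.{u} := by
  intro G _ _ S φ htf hS hφ h
  have : Group.FG G := IFinal_fg S hS
  obtain ⟨t, ht⟩ := hφ (Multiplicative.ofAdd 1)
  have hD := fdata htf φ t ht h
  obtain ⟨r, hr⟩ := hD.bot
  obtain ⟨J, _, _, ⟨C⟩⟩ := coord_exists hD.filt hD.top r hr hD.iso (fun H => sub_fg H) φ.ker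
  obtain ⟨Z, h1, h2, h3⟩ := pre_FD1 hD C S hS
  refine ⟨J, inferInstance, inferInstance, Z, h1, ?_, fun g hg hm => h3 g hg (mem_isol.2 hm)⟩
  rw [h2]
  refine Finset.sup_le fun j _ => ?_
  by_contra hc
  have h4 : C.b j ∈ isoF G (Group.nilpotencyClass G + 1) :=
    hD.filt.anti (not_le.1 hc) (C.b_mem j).2
  obtain ⟨n, hn, h5⟩ := mem_isol.1 h4
  rw [Nat.add_sub_cancel, Subgroup.lowerCentralSeries_nilpotencyClass, Subgroup.mem_bot] at h5
  have h6 := htf _ (isOfFinOrder_iff_pow_eq_one.2 ⟨n, hn, h5⟩)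
  have h7 := congrFun (C.v_b j) j
  rw [h6, C.v_one] at h7
  simp at h7

end

section


section
open Filter Topology commutatorElement

theorem sharp_EXM : ∃ c c₁ : ℝ, 0 < c₁ ∧
    Tendsto (fun k : ℕ => Real.log (growth SV k) / Real.log k) atTop (𝓝 7) ∧
    Tendsto (fun k : ℕ => (growth SV k : ℝ) / (k : ℝ) ^ 7) atTop (𝓝 c) ∧
    ∀ᶠ k : ℕ in atTop,
      ((growth SV k : ℝ) - c * (k : ℝ) ^ 7) / (k : ℝ) ^ 6 ≤ -c₁ * (k : ℝ) ^ (1 / 3 : ℝ) := by
  obtain ⟨c0, C, C', hc0, hC, hlow⟩ := elower2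
  obtain ⟨c1, hc1, hup⟩ := eupper
  have h4 : Tendsto (fun k : ℕ => (k : ℝ) ^ (1 / 3 : ℝ)) atTop atTop :=
    (tendsto_rpow_atTop (by norm_num)).comp tendsto_natCast_atTop_atTop
  have hev : ∀ᶠ k : ℕ in atTop,
      -(2 * C') * (k : ℝ) ^ (1 / 3 : ℝ) ≤
        ((growth SV k : ℝ) - 2 * c0 * (k : ℝ) ^ 7) / (k : ℝ) ^ 6 ∧
      ((growth SV k : ℝ) - 2 * c0 * (k : ℝ) ^ 7) / (k : ℝ) ^ 6 ≤
        -(c1 / 2) * (k : ℝ) ^ (1 / 3 : ℝ) := by
    filter_upwards [hup, h4.eventually_ge_atTop (4 * C / c1), eventually_ge_atTop 1]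
      with k h5 h6 hk
    have hk' : (0 : ℝ) < (k : ℝ) ^ 6 := by positivity
    have h7 := (abs_le.1 (hC k hk)).2
    have h8 := hlow k hk
    rw [div_le_iff₀ hc1] at h6
    rw [div_le_iff₀ hk', le_div_iff₀ hk']
    exact ⟨by nlinarith, by nlinarith [mul_le_mul_of_nonneg_right h6 hk'.le]⟩
  have hV : Tendsto (fun k : ℕ => (growth SV k : ℝ) / (k : ℝ) ^ 7) atTop (𝓝 (2 * c0)) := by
    have hl := (EFinal2_small (-(2 * C'))).add_const (2 * c0)
    have hu := (EFinal2_small (-(c1 / 2))).add_const (2 * c0)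
    rw [zero_add] at hl hu
    refine tendsto_of_tendsto_of_tendsto_of_le_of_le' hl hu ?_ ?_
    all_goals
      filter_upwards [hev, eventually_gt_atTop 0] with k h hk
      have hk' : (0 : ℝ) < k := by exact_mod_cast hk
      have e : (growth SV k : ℝ) / (k : ℝ) ^ 7 =
          ((growth SV k : ℝ) - 2 * c0 * (k : ℝ) ^ 7) / (k : ℝ) ^ 6 / k + 2 * c0 := by
        field_simp
        ring
      rw [e]
      gcongr
      first | exact h.1 | exact h.2
  exact ⟨2 * c0, c1 / 2, by positivity, by simpa using log_ratio (by positivity) hV, hV,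
    hev.mono fun k h => h.2⟩

/-- the height on the Engel lattice -/
def phi_EXM : En →* Multiplicative ℤ where
  toFun g := Multiplicative.ofAdd g.x
  map_one' := rfl
  map_mul' _ _ := rfl

/-- the second coordinate on the Engel lattice -/
def psi_EXM : En →* Multiplicative ℤ where
  toFun g := Multiplicative.ofAdd g.p
  map_one' := rfl
  map_mul' _ _ := rfl

theorem tf_EXM (g : En) (hg : IsOfFinOrder g) : g = 1 := by
  have h1 : phi_EXM g = 1 := (phi_EXM.isOfFinOrder hg).eq_one'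
  have hx : g.x = 0 := ofAdd_eq_one.1 h1
  obtain ⟨n, hn, h⟩ := isOfFinOrder_iff_pow_eq_one.1 hg
  have h2 : ∀ m : ℕ, g ^ m = ⟨0, m * g.p, m * g.q, m * g.r⟩ := by
    intro m
    induction m with
    | zero => ext <;> simp
    | succ m ih =>
      rw [pow_succ, ih]
      ext <;> simp [hx, EBig_tri_zero] <;> ring
  rw [h2] at h
  have a1 : (n : ℤ) * g.p = 0 := congrArg En.p h
  have a2 : (n : ℤ) * g.q = 0 := congrArg En.q h
  have a3 : (n : ℤ) * g.r = 0 := congrArg En.r h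
  have hn' : (n : ℤ) ≠ 0 := by omega
  ext
  · exact hx
  · exact (mul_eq_zero.1 a1).resolve_left hn'
  · exact (mul_eq_zero.1 a2).resolve_left hn'
  · exact (mul_eq_zero.1 a3).resolve_left hn'

theorem fil_EXM {H : Type} [Group H] (e : En ≃* H) :
    Filiform (phi_EXM.comp e.symm.toMonoidHom) (psi_EXM.comp e.symm.toMonoidHom) where
  tf g hg := by
    have := tf_EXM _ (e.symm.toMonoidHom.isOfFinOrder hg)
    simpa using this
  onto z := ⟨e ⟨z.toAdd, 0, 0, 0⟩, by simp [phi_EXM]⟩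
  ideal j x hx y hy _ := by
    obtain ⟨x, rfl⟩ := e.surjective x
    obtain ⟨y, rfl⟩ := e.surjective y
    have a1 : x.x = 0 := by simpa [phi_EXM] using hx
    have a2 : y.x = 0 := by simpa [phi_EXM] using hy
    have a3 : x * y = y * x := by
      ext <;> simp [a1, a2, EBig_tri_zero] <;> ring
    refine ⟨1, one_pos, ?_⟩
    rw [← map_mul, a3, map_mul, mul_inv_cancel_right, mul_inv_cancel, one_pow]
    exact one_mem _
  ind := ⟨e ⟨0, 1, 0, 0⟩, by simp [phi_EXM], by simp [psi_EXM]⟩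
  rank x h1 h2 := by
    obtain ⟨x, rfl⟩ := e.surjective x
    have a1 : x.x = 0 := by simpa [phi_EXM] using h1
    have a2 : x.p = 0 := by simpa [psi_EXM] using h2
    have b1 : (⟨0, 0, 1, 0⟩ : En) = ⁅En.a, (⟨0, 1, 0, 0⟩ : En)⁆ := by
      rw [commutatorElement_def]
      decide
    have b2 : (⟨0, 0, 0, 1⟩ : En) = ⁅En.a, (⟨0, 0, 1, 0⟩ : En)⁆ := by
      rw [commutatorElement_def]
      decide
    have b3 : x = (⟨0, 0, 1, 0⟩ : En) ^ x.q * (⟨0, 0, 0, 1⟩ : En) ^ x.r := by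
      rw [EBig_mu_zpow, EBig_ka_zpow]
      ext <;> simp [a1, a2, EBig_tri_zero]
    refine ⟨1, one_pos, ?_⟩
    rw [pow_one, b3, map_mul, map_zpow, map_zpow]
    refine mul_mem (zpow_mem ?_ _) (zpow_mem ?_ _)
    · rw [b1, map_commutatorElement]
      exact Subgroup.commutator_mem_commutator (Subgroup.mem_top _) (Subgroup.mem_top _)
    · rw [b2, map_commutatorElement]
      exact Subgroup.commutator_mem_commutator (Subgroup.mem_top _) (Subgroup.mem_top _)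

theorem EXM_pf (hd : ∀ (H : Subgroup VE) [H.FiniteIndex] [Group.IsNilpotent H]
      (φ ψ : H →* Multiplicative ℤ), Filiform φ ψ → ∃ (d : ℕ) (c : ℝ),
      Tendsto (fun k : ℕ => Real.log (growth SV k) / Real.log k) atTop (𝓝 d) ∧
      Tendsto (fun k : ℕ => (growth SV k : ℝ) / (k : ℝ) ^ d) atTop (𝓝 c) ∧
      ((∃ g : H, φ g = 1 ∧ ψ g ≠ 1 ∧ Straight SV (g : VE)) → ∃ C : ℝ, ∀ᶠ k : ℕ in atTop,
        |((growth SV k : ℝ) - c * (k : ℝ) ^ d) / (k : ℝ) ^ ((d : ℤ) - 1)| ≤ C)) :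
    ∃ (G : Type) (_ : Group G) (S : Finset G) (H : Subgroup G) (φ ψ : H →* Multiplicative ℤ),
      Subgroup.closure (S : Set G) = ⊤ ∧ S.card = 2 ∧ H.index = 2 ∧ Group.IsNilpotent H ∧
      Group.nilpotencyClass H = 3 ∧ Filiform φ ψ ∧
      Tendsto (fun k : ℕ => Real.log (growth S k) / Real.log k) atTop (𝓝 7) ∧
      ¬ ∃ g : H, φ g = 1 ∧ ψ g ≠ 1 ∧ Straight S (g : G) := by
  have := EGrp_nil
  let e : En ≃* (SemidirectProduct.inl : En →* VE).range :=
    MonoidHom.ofInjective SemidirectProduct.inl_injective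
  have hn : Group.IsNilpotent (SemidirectProduct.inl : En →* VE).range :=
    Group.nilpotent_of_mulEquiv e
  have hi : (SemidirectProduct.inl : En →* VE).range.index = 2 := by
    rw [SemidirectProduct.range_inl_eq_ker_rightHom, Subgroup.index_ker,
      MonoidHom.range_eq_top_of_surjective _ SemidirectProduct.rightHom_surjective,
      Subgroup.card_top, Nat.card_eq_fintype_card]
    rfl
  have hfi : (SemidirectProduct.inl : En →* VE).range.FiniteIndex := ⟨by rw [hi]; norm_num⟩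
  obtain ⟨c, c₁, hc₁, h1, h2, h3⟩ := sharp_EXM
  refine ⟨VE, inferInstance, SV, _, _, _, closure_SV, card_SV, hi, hn, le_antisymm ?_ ?_,
    fil_EXM e, h1, fun hc => ?_⟩
  · rw [← EGrp_class]
    exact Group.nilpotencyClass_le_of_surjective e.toMonoidHom e.surjective
  · rw [← EGrp_class]
    exact Group.nilpotencyClass_le_of_surjective e.symm.toMonoidHom e.symm.surjective
  · obtain ⟨d, c', a1, a2, a3⟩ := hd _ _ _ (fil_EXM e)
    obtain ⟨C, a4⟩ := a3 hc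
    have hd7 : d = 7 := by exact_mod_cast tendsto_nhds_unique a1 h1
    subst hd7
    obtain rfl := tendsto_nhds_unique a2 h2
    have h4 : Tendsto (fun k : ℕ => (k : ℝ) ^ (1 / 3 : ℝ)) atTop atTop :=
      (tendsto_rpow_atTop (by norm_num)).comp tendsto_natCast_atTop_atTop
    obtain ⟨k, b1, b2, b3⟩ := (a4.and (h3.and (h4.eventually_gt_atTop (C / c₁)))).exists
    rw [show ((7 : ℕ) : ℤ) - 1 = ((6 : ℕ) : ℤ) by norm_num, zpow_natCast] at b1
    rw [div_lt_iff₀ hc₁] at b3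
    linarith [(abs_le.1 b1).1]

end

end

section


section
open Filter Topology

theorem rlz : RLZ_st.{u} :=
  RLZ_pf (SKL_pf (PSS_pf (BBP_pf CHB_pf) PSU_pf)) (CAR_pf CHB_pf) (INS_pf PCS_pf) PCS_pf NEA_pf

theorem rcb : RCB_st.{u} := RCB_pf rlz (VPW_pf PCS_pf NEA_pf) UP2_pf PCS_pf

theorem rcg : RCG_st.{u} := RCG_pf rlz PCS_pf

theorem w2c : W2C_st.{u} := W2C_pf CRS_pf SHM_pf

theorem upv : UPV_st.{u} := UPV_pf (DSC_pf NEA_pf) w2c rcb LOC_pf

theorem dich {G : Type u} [Group G] (S : Finset G) (hS : Subgroup.closure (S : Set G) = ⊤)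
    (H : Subgroup G) [H.FiniteIndex] [Group.IsNilpotent H] (φ ψ : H →* Multiplicative ℤ)
    (hF : Filiform φ ψ) :
    ∃ (d : ℕ) (c : ℝ),
      Tendsto (fun k : ℕ => Real.log (growth S k) / Real.log k) atTop (𝓝 d) ∧ 0 < c ∧
      Tendsto (fun k : ℕ => (growth S k : ℝ) / (k : ℝ) ^ d) atTop (𝓝 c) ∧
      ((∃ g : H, φ g = 1 ∧ ψ g ≠ 1 ∧ Straight S (g : G)) → ∃ C : ℝ, ∀ᶠ k : ℕ in atTop,
        |((growth S k : ℝ) - c * (k : ℝ) ^ d) / (k : ℝ) ^ ((d : ℤ) - 1)| ≤ C) ∧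
      ((¬ ∃ g : H, φ g = 1 ∧ ψ g ≠ 1 ∧ Straight S (g : G)) → ∃ c₁ c₂ : ℝ, 0 < c₁ ∧
        ∀ᶠ k : ℕ in atTop, -c₂ * (k : ℝ) ^ (1 / 3 : ℝ) ≤
            ((growth S k : ℝ) - c * (k : ℝ) ^ d) / (k : ℝ) ^ ((d : ℤ) - 1) ∧
          ((growth S k : ℝ) - c * (k : ℝ) ^ d) / (k : ℝ) ^ ((d : ℤ) - 1) ≤
            -c₁ * (k : ℝ) ^ (1 / 3 : ℝ)) :=
  dich_ASM (AB2_pf rcg (VPZ_pf ZIG_pf PCS_pf) NEA_pf) (AB1_pf rcg (VPZ_pf ZIG_pf PCS_pf) NEA_pf)
    (DSC_pf NEA_pf) (VPW_pf PCS_pf NEA_pf) (VPZ_pf ZIG_pf PCS_pf) upv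
    (LOV_pf rcg w2c NEA_pf fun _ _ _ _ h hW j0 hj0 p hp A hA => h.dyad_low2 hW j0 hj0 p hp A hA)
    (DEF2_pf (SHF2_pf (DSC_pf NEA_pf) w2c (PRE2_pf RNG2_pf) (SH1b_pf PIG_pf EXC_pf w2c SHM_pf rcb)
      (SH2b_pf (SPR2_pf CHB_pf) LAG_pf rcb)) (BOX2_pf LAG_pf rcb) (BND_pf RNG2_pf NEA_pf) SLB_pf upv)
    ANU_pf ANL_pf FD1_pf FD2_pf POL_pf (EMI_pf WLB_pf) (CNT_pf WLB_pf) WLB_pf S hS H φ ψ hF

theorem occurs :
    ∃ (G : Type) (_ : Group G) (S : Finset G) (H : Subgroup G) (φ ψ : H →* Multiplicative ℤ),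
      Subgroup.closure (S : Set G) = ⊤ ∧ S.card = 2 ∧ H.index = 2 ∧ Group.IsNilpotent H ∧
      Group.nilpotencyClass H = 3 ∧ Filiform φ ψ ∧
      Tendsto (fun k : ℕ => Real.log (growth S k) / Real.log k) atTop (𝓝 7) ∧
      ¬ ∃ g : H, φ g = 1 ∧ ψ g ≠ 1 ∧ Straight S (g : G) :=
  EXM_pf fun H _ _ φ ψ hF => by
    obtain ⟨d, c, h1, -, h2, h3, -⟩ := dich SV closure_SV H φ ψ hF
    exact ⟨d, c, h1, h2, h3⟩

end

end

end Pool.Agent.MP_b3b911_al.Dich
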