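import Pool.Agent.MP_b3b911_al.Dich.St2

open Finset MeasureTheory

noncomputable section

namespace Pool.Agent.MP_b3b911_al.Dich

open Fil

universe u

section


theorem sgn_CHB {q : ℕ} (y : Fin (q + 1) → ℝ) (g : ℝ) (hg : 0 < g)
    (h : ∀ i j, i < j → g ≤ y j - y i) (i : Fin (q + 1)) :
    g ^ q ≤ (-1 : ℝ) ^ (q - (i : ℕ)) * ∏ j ∈ univ.erase i, (y i - y j) := by
  have e1 : univ.erase i = Iio i ∪ Ioi i := by
    ext j
    simp only [mem_erase, mem_univ, and_true, mem_union, mem_Iio, mem_Ioi]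
    exact ne_iff_lt_or_gt
  have hd : Disjoint (Iio i) (Ioi i) := by
    rw [disjoint_left]
    intro j h1 h2
    exact absurd (mem_Iio.1 h1) (not_lt.2 (mem_Ioi.1 h2).le)
  have c1 : (Iio i).card = i := Fin.card_Iio i
  have c2 : (Ioi i).card = q - i := by rw [Fin.card_Ioi]; omega
  have p1 : g ^ (i : ℕ) ≤ ∏ j ∈ Iio i, (y i - y j) := by
    rw [← c1, ← prod_const]
    exact prod_le_prod (fun _ _ => hg.le) fun j hj => h j i (mem_Iio.1 hj)
  have p2 : g ^ (q - i) ≤ (-1 : ℝ) ^ (q - (i : ℕ)) * ∏ j ∈ Ioi i, (y i - y j) := by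
    rw [← c2, ← prod_const, ← prod_const, ← prod_mul_distrib]
    exact prod_le_prod (fun _ _ => hg.le) fun j hj => by linarith [h i j (mem_Ioi.1 hj)]
  have hi : (i : ℕ) ≤ q := Nat.lt_succ_iff.1 i.2
  rw [e1, prod_union hd, mul_left_comm]
  calc g ^ q = g ^ (i : ℕ) * g ^ (q - i) := by rw [← pow_add, Nat.add_sub_cancel' hi]
    _ ≤ _ := mul_le_mul p1 p2 (by positivity) ((by positivity : (0 : ℝ) ≤ g ^ (i : ℕ)).trans p1)

theorem CHB_pf : CHB_st := by
  intro q y g hg h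
  have hinj : Set.InjOn y (univ : Finset (Fin (q + 1))) := by
    intro i _ j _ e
    by_contra hne
    rcases lt_or_gt_of_ne hne with h1 | h1
    · linarith [h i j h1]
    · linarith [h j i h1]
  have key : ∀ e ≤ q, ∑ i, (∏ j ∈ univ.erase i, (y i - y j))⁻¹ * y i ^ e =
      (Polynomial.X ^ e : Polynomial ℝ).coeff q := by
    intro e he
    have h1 := Lagrange.coeff_eq_sum (s := univ) (v := y) hinj (P := Polynomial.X ^ e) (by
      rw [Polynomial.degree_X_pow, card_univ, Fintype.card_fin]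
      exact_mod_cast Nat.lt_succ_of_le he)
    rw [card_univ, Fintype.card_fin, Nat.add_sub_cancel] at h1
    rw [h1]
    refine sum_congr rfl fun i _ => ?_
    rw [Polynomial.eval_pow, Polynomial.eval_X, div_eq_inv_mul]
  refine ⟨fun i => (∏ j ∈ univ.erase i, (y i - y j))⁻¹, fun e he => ?_, ?_, fun i => ?_, fun i => ?_⟩
  · rw [key e he.le, Polynomial.coeff_X_pow, if_neg he.ne']
  · rw [key q le_rfl, Polynomial.coeff_X_pow, if_pos rfl]
  · have h1 := (pow_pos hg q).trans_le (sgn_CHB y g hg h i)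
    rcases neg_one_pow_eq_or ℝ (q - (i : ℕ)) with e | e <;> rw [e] at h1 ⊢
    · simpa using h1
    · simpa using h1
  · have h1 := sgn_CHB y g hg h i
    have h2 : g ^ q ≤ |∏ j ∈ univ.erase i, (y i - y j)| := by
      refine h1.trans ((le_abs_self _).trans_eq ?_)
      rw [abs_mul, abs_pow, abs_neg, abs_one, one_pow, one_mul]
    rw [abs_inv, inv_mul_le_iff₀ ((pow_pos hg q).trans_le h2), mul_one]
    exact h2

end

section


/-- admissible weights with the same moments, letter by letter -/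
def Adm_BBP {α : Type u} (U : Finset α) (r : ℕ) (p q : ℤ) (l f : ℤ → α → ℝ) : Prop :=
  (∀ c ∈ Ico p q, (∀ s ∈ U, 0 ≤ f c s) ∧ ∑ s ∈ U, f c s = 1) ∧
    (∀ s ∈ U, ∀ e < r, ∑ c ∈ Ico p q, f c s * (c : ℝ) ^ e = ∑ c ∈ Ico p q, l c s * (c : ℝ) ^ e) ∧
    ∀ c s, ¬ (c ∈ Ico p q ∧ s ∈ U) → f c s = l c s

/-- the functional that is maximised -/
def Phi_BBP {α : Type u} (U : Finset α) (ω : α → ℝ) (r : ℕ) (p q : ℤ) (f : ℤ → α → ℝ) : ℝ :=
  ∑ s ∈ U, ω s * ∑ c ∈ Ico p q, f c s * (c : ℝ) ^ r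

lemma compact_BBP {α : Type u} (U : Finset α) (r : ℕ) (p q : ℤ) (l : ℤ → α → ℝ) :
    IsCompact {f | Adm_BBP U r p q l f} := by
  classical
  have h1 : IsCompact (Set.univ.pi fun c : ℤ => Set.univ.pi fun s : α =>
      if c ∈ Ico p q ∧ s ∈ U then Set.Icc (0 : ℝ) 1 else {l c s}) :=
    isCompact_univ_pi fun c => isCompact_univ_pi fun s => by
      split_ifs
      · exact isCompact_Icc
      · exact isCompact_singleton
  have hc : ∀ c s, Continuous fun f : ℤ → α → ℝ => f c s := fun c s =>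
    (continuous_apply s).comp (continuous_apply c)
  refine h1.of_isClosed_subset ?_ fun f hf c _ s _ => ?_
  · simp only [Adm_BBP, Set.ofPred_and, Set.ofPred_forall]
    refine (isClosed_iInter fun c => isClosed_iInter fun _ => IsClosed.inter
      (isClosed_iInter fun s => isClosed_iInter fun _ => isClosed_le continuous_const (hc c s))
      (isClosed_eq (continuous_finsetSum _ fun s _ => hc c s) continuous_const)).inter
      (IsClosed.inter (isClosed_iInter fun s => isClosed_iInter fun _ => isClosed_iInter fun e =>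
        isClosed_iInter fun _ => isClosed_eq
          (continuous_finsetSum _ fun c _ => (hc c s).mul continuous_const) continuous_const)
        (isClosed_iInter fun c => isClosed_iInter fun s => isClosed_iInter fun _ =>
          isClosed_eq (hc c s) continuous_const))
  · beta_reduce
    split_ifs with h
    · refine ⟨(hf.1 c h.1).1 s h.2, ?_⟩
      rw [← (hf.1 c h.1).2]
      exact single_le_sum (f := fun s => f c s) (hf.1 c h.1).1 h.2
    · exact hf.2.2 c s h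

lemma move_BBP (h : CHB_st) {α : Type u} [DecidableEq α] {U : Finset α} {ω : α → ℝ} {r : ℕ}
    {p q : ℤ} {l f : ℤ → α → ℝ} (hf : Adm_BBP U r p q l f)
    (hmax : ∀ f', Adm_BBP U r p q l f' → Phi_BBP U ω r p q f' ≤ Phi_BBP U ω r p q f)
    {t t' : α} (ht : t ∈ U) (ht' : t' ∈ U) (hω : ω t' < ω t) {z : Fin (r + 1) → ℤ}
    (hz : StrictMono z) (hzm : ∀ i, z i ∈ Ico p q)
    (hpos : ∀ i : Fin (r + 1), 0 < f (z i) (if Even (r - (i : ℕ)) then t' else t)) : False := by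
  have htt : t ≠ t' := fun e => by
    rw [e] at hω
    exact lt_irrefl _ hω
  obtain ⟨δ, h1, h2, h3, h4⟩ := h r (fun i => (z i : ℝ)) 1 one_pos fun i j hij => by
    have : z i + 1 ≤ z j := hz hij
    have : ((z i + 1 : ℤ) : ℝ) ≤ z j := by exact_mod_cast this
    push_cast at this
    linarith
  simp only [one_pow, mul_one] at h4
  obtain ⟨i₀, -, hi₀⟩ := exists_min_image univ
    (fun i : Fin (r + 1) => f (z i) (if Even (r - (i : ℕ)) then t' else t)) univ_nonempty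
  set ε := f (z i₀) (if Even (r - (i₀ : ℕ)) then t' else t) with hε
  have hε0 : 0 < ε := hpos i₀
  let D : ℤ → ℝ := fun c => ∑ i, if z i = c then δ i else 0
  let w : α → ℝ := fun s => (if s = t then 1 else 0) - (if s = t' then 1 else 0)
  have hD : ∀ i, D (z i) = δ i := fun i => by
    simp only [D, hz.injective.eq_iff, sum_ite_eq', mem_univ, if_true]
  have hD0 : ∀ c, (∀ i, z i ≠ c) → D c = 0 := fun c hc => sum_eq_zero fun i _ => if_neg (hc i)
  have hDs : ∀ e : ℕ, ∑ c ∈ Ico p q, D c * (c : ℝ) ^ e = ∑ i, δ i * (z i : ℝ) ^ e := fun e => by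
    simp only [D, sum_mul]
    rw [sum_comm]
    refine sum_congr rfl fun i _ => ?_
    simp only [ite_mul, zero_mul, sum_ite_eq, hzm i, if_true]
  have hw : ∑ s ∈ U, w s = 0 := by
    simp only [w, sum_sub_distrib, sum_ite_eq', ht, ht', if_true, sub_self]
  have hwω : ∑ s ∈ U, ω s * w s = ω t - ω t' := by
    simp only [w, mul_sub, mul_ite, mul_one, mul_zero, sum_sub_distrib, sum_ite_eq', ht, ht',
      if_true]
  have hmom : ∀ s (e : ℕ), ∑ c ∈ Ico p q, (f c s + ε * D c * w s) * (c : ℝ) ^ e =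
      ∑ c ∈ Ico p q, f c s * (c : ℝ) ^ e + ε * w s * ∑ i, δ i * (z i : ℝ) ^ e := fun s e => by
    rw [← hDs, mul_sum, ← sum_add_distrib]
    exact sum_congr rfl fun c _ => by ring
  have hA : Adm_BBP U r p q l fun c s => f c s + ε * D c * w s := by
    refine ⟨fun c hc => ⟨fun s hs => ?_, ?_⟩, fun s hs e he => ?_, fun c s hcs => ?_⟩ <;>
      beta_reduce
    · have h5 := (hf.1 c hc).1 s hs
      by_cases h6 : ∃ i, z i = c
      · obtain ⟨i, rfl⟩ := h6
        have h7 := hi₀ i (mem_univ i)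
        have h8 := h3 i
        have h9 := abs_le.1 (h4 i)
        rw [hD]
        by_cases e1 : s = t
        · subst e1
          have e2 : w s = 1 := by simp [w, htt]
          rw [e2, mul_one]
          by_cases hp : Even (r - (i : ℕ))
          · rw [hp.neg_one_pow, one_mul] at h8
            positivity
          · rw [if_neg hp] at h7
            nlinarith
        · by_cases e3 : s = t'
          · subst e3
            have e2 : w s = -1 := by simp [w, e1]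
            rw [e2]
            by_cases hp : Even (r - (i : ℕ))
            · rw [if_pos hp] at h7
              nlinarith
            · rw [(Nat.not_even_iff_odd.1 hp).neg_one_pow] at h8
              nlinarith
          · have e2 : w s = 0 := by simp [w, e1, e3]
            rwa [e2, mul_zero, add_zero]
      · rw [hD0 c fun i hi => h6 ⟨i, hi⟩, mul_zero, zero_mul, add_zero]
        exact h5
    · rw [sum_add_distrib, ← mul_sum, hw, mul_zero, add_zero, (hf.1 c hc).2]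
    · rw [hmom, h1 e he, mul_zero, add_zero, hf.2.1 s hs e he]
    · rw [← hf.2.2 c s hcs]
      by_cases hc : c ∈ Ico p q
      · have hs : s ∉ U := fun hs => hcs ⟨hc, hs⟩
        have e2 : w s = 0 := by
          have e3 : s ≠ t := fun e => hs (e ▸ ht)
          have e4 : s ≠ t' := fun e => hs (e ▸ ht')
          simp [w, e3, e4]
        simp only [e2, mul_zero, add_zero]
      · simp only [hD0 c fun i hi => hc (hi ▸ hzm i), mul_zero, zero_mul, add_zero]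
  have h5 := hmax _ hA
  have h6 : Phi_BBP U ω r p q (fun c s => f c s + ε * D c * w s) =
      Phi_BBP U ω r p q f + ε * (ω t - ω t') := by
    simp only [Phi_BBP, hmom, h2]
    rw [← hwω, mul_sum, ← sum_add_distrib]
    exact sum_congr rfl fun s _ => by ring
  have h7 := mul_pos hε0 (sub_pos.2 hω)
  linarith

lemma opt_BBP (h : CHB_st) {α : Type u} [DecidableEq α] (U : Finset α) (r : ℕ) {p q : ℤ}
    {l : ℤ → α → ℝ} (hl : ∀ c ∈ Ico p q, (∀ s ∈ U, 0 ≤ l c s) ∧ ∑ s ∈ U, l c s = 1) :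
    ∃ f, Adm_BBP U r p q l f ∧ ∀ s ∈ U, ∀ s' ∈ U, s ≠ s' → ∀ y : Fin (r + 2) → ℤ, StrictMono y →
      (∀ i, y i ∈ Ico p q) →
      ¬ ∀ i : Fin (r + 2), 0 < f (y i) (if Even (i : ℕ) then s else s') := by
  let ω : α → ℝ := fun s => if hs : s ∈ U then ((U.equivFin ⟨s, hs⟩ : ℕ) : ℝ) else 0
  have hω : ∀ s ∈ U, ∀ s' ∈ U, ω s = ω s' → s = s' := fun s hs s' hs' e => by
    simp only [ω, dif_pos hs, dif_pos hs', Nat.cast_inj] at e
    exact congrArg Subtype.val (U.equivFin.injective (Fin.ext e))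
  have hc : Continuous (Phi_BBP U ω r p q) :=
    continuous_finsetSum _ fun s _ => continuous_const.mul (continuous_finsetSum _ fun c _ =>
      Continuous.mul (f := fun a : ℤ → α → ℝ => a c s)
        ((continuous_apply s).comp (continuous_apply c)) continuous_const)
  obtain ⟨f, hf, hmax⟩ := (compact_BBP U r p q l).exists_isMaxOn
    ⟨l, hl, fun _ _ _ _ => rfl, fun _ _ _ => rfl⟩ hc.continuousOn
  refine ⟨f, hf, fun s hs s' hs' hne y hy hym hpos => ?_⟩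
  have hwin : ∀ o : ℕ, ∀ ho : o ≤ 1,
      StrictMono fun i : Fin (r + 1) => y ⟨i + o, by omega⟩ := fun o ho i j hij =>
    hy (Fin.mk_lt_mk.2 (Nat.add_lt_add_right hij o))
  rcases lt_trichotomy (ω s) (ω s') with h1 | h1 | h1
  · refine move_BBP h hf (fun f' hf' => hmax hf') hs' hs h1 (hwin (r % 2) (by omega))
      (fun i => hym _) fun i => ?_
    have h2 := hpos ⟨i + r % 2, by omega⟩
    have h3 : Even (r - (i : ℕ)) ↔ Even ((i : ℕ) + r % 2) := by
      have := i.2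
      simp only [Nat.even_iff]
      omega
    simpa only [h3] using h2
  · exact hne (hω s hs s' hs' h1)
  · refine move_BBP h hf (fun f' hf' => hmax hf') hs hs' h1 (hwin ((r + 1) % 2) (by omega))
      (fun i => hym _) fun i => ?_
    have h2 := hpos ⟨i + (r + 1) % 2, by omega⟩
    have h3 : Even (r - (i : ℕ)) ↔ ¬ Even ((i : ℕ) + (r + 1) % 2) := by
      have := i.2
      simp only [Nat.even_iff]
      omega
    simpa only [h3, ite_not] using h2

lemma count_BBP {α : Type u} [DecidableEq α] (U : Finset α) (n : ℕ) (F : Finset ℤ)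
    (a b : ℤ → α) (ha : ∀ c ∈ F, a c ∈ U) (hb : ∀ c ∈ F, b c ∈ U)
    (h : ∀ s s', ∀ y : Fin (n + 1) → ℤ, StrictMono y →
      ¬ ∀ i, y i ∈ F ∧ a (y i) = s ∧ b (y i) = s') : F.card ≤ n * (U ×ˢ U).card := by
  refine card_le_mul_card_image_of_maps_to (f := fun c => (a c, b c))
    (fun c hc => mem_product.2 ⟨ha c hc, hb c hc⟩) n fun x _ => ?_
  by_contra hc
  have h1 : n + 1 ≤ (F.filter fun c => (a c, b c) = x).card := by omega
  refine h x.1 x.2 _ (orderEmbOfCardLe _ h1).strictMono fun i => ?_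
  have h2 := mem_filter.1 (orderEmbOfCardLe_mem _ h1 i)
  exact ⟨h2.1, congrArg Prod.fst h2.2, congrArg Prod.snd h2.2⟩

lemma err_BBP {α : Type u} [DecidableEq α] {U : Finset α} {w : α → ℝ} (h0 : ∀ s ∈ U, 0 ≤ w s)
    (h1 : ∑ s ∈ U, w s = 1) {t : α} (ht : t ∈ U) (b : α → ℝ) :
    |b t - ∑ s ∈ U, w s * b s| ≤ if w t ≠ 1 then 2 * ∑ s ∈ U, |b s| else 0 := by
  split_ifs with h
  · have h2 : |b t| ≤ ∑ s ∈ U, |b s| :=
      single_le_sum (f := fun s => |b s|) (fun s _ => abs_nonneg _) ht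
    have h3 : |∑ s ∈ U, w s * b s| ≤ ∑ s ∈ U, |b s| := by
      refine (abs_sum_le_sum_abs _ _).trans (sum_le_sum fun s hs => ?_)
      have h4 : w s ≤ 1 := h1 ▸ single_le_sum h0 hs
      rw [abs_mul, abs_of_nonneg (h0 s hs)]
      exact mul_le_of_le_one_left (abs_nonneg _) h4
    have h5 := abs_sub (b t) (∑ s ∈ U, w s * b s)
    linarith
  · have h2 : w t = 1 := not_not.1 h
    have h3 : ∑ s ∈ U.erase t, w s = 0 := by
      have := add_sum_erase U w ht
      linarith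
    have h4 := (sum_eq_zero_iff_of_nonneg fun s hs => h0 s (mem_of_mem_erase hs)).1 h3
    rw [← add_sum_erase U _ ht, sum_eq_zero fun s hs => by rw [h4 s hs, zero_mul], h2]
    simp

theorem BBP_pf (h : CHB_st) : BBP_st.{u} := by
  intro α _ U τ b r hr
  have hτ : 0 ≤ ∑ s ∈ U, |τ s| := sum_nonneg fun s _ => abs_nonneg _
  have hb : 0 ≤ ∑ s ∈ U, |b s| := sum_nonneg fun s _ => abs_nonneg _
  refine ⟨(r + 1) * (U ×ˢ U).card,
    (((r + 1) * (U ×ˢ U).card : ℕ) : ℝ) * (2 * (∑ s ∈ U, |τ s| + ∑ s ∈ U, |b s|)), by positivity,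
    fun p q K l hK hp hq hpq hl => ?_⟩
  obtain ⟨f, hf, hkey⟩ := opt_BBP h U r hl
  have hex : ∀ c ∈ Ico p q, ∃ s ∈ U, 0 < f c s := fun c hc => by
    by_contra h1
    push Not at h1
    have h2 := sum_nonpos h1
    rw [(hf.1 c hc).2] at h2
    linarith
  obtain ⟨s₀, -, -⟩ := hex p (mem_Ico.2 ⟨le_rfl, hpq⟩)
  have hex1 : ∀ c, ∃ s, c ∈ Ico p q → s ∈ U ∧ 0 < f c s := fun c => by
    by_cases hc : c ∈ Ico p q
    · obtain ⟨s, hs⟩ := hex c hc
      exact ⟨s, fun _ => hs⟩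
    · exact ⟨s₀, fun h => absurd h hc⟩
  choose σ hσ using hex1
  have hex2 : ∀ c, ∃ s, c ∈ Ico p q → f c (σ c) ≠ 1 → s ∈ U ∧ s ≠ σ c ∧ 0 < f c s := fun c => by
    by_cases hc : c ∈ Ico p q ∧ f c (σ c) ≠ 1
    · by_contra h1
      push Not at h1
      refine hc.2 ?_
      rw [← (hf.1 c hc.1).2]
      refine (sum_eq_single_of_mem _ (hσ c hc.1).1 fun s hs hne => ?_).symm
      exact le_antisymm ((h1 s).2.2 hs hne) ((hf.1 c hc.1).1 s hs)
    · exact ⟨s₀, fun h1 h2 => absurd ⟨h1, h2⟩ hc⟩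
  choose ρ hρ using hex2
  have hF : ((Ico p q).filter fun c => f c (σ c) ≠ 1).card ≤ (r + 1) * (U ×ˢ U).card := by
    refine count_BBP U (r + 1) _ σ ρ (fun c hc => (hσ c (mem_filter.1 hc).1).1)
      (fun c hc => (hρ c (mem_filter.1 hc).1 (mem_filter.1 hc).2).1) fun s s' y hy hall => ?_
    have h1 := fun i => mem_filter.1 (hall i).1
    have h2 := fun i => hρ _ (h1 i).1 (h1 i).2
    refine hkey s ((hall 0).2.1 ▸ (hσ _ (h1 0).1).1) s' ((hall 0).2.2 ▸ (h2 0).1)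
      (fun e => (h2 0).2.1 (by rw [(hall 0).2.1, (hall 0).2.2, e])) y hy (fun i => (h1 i).1)
      fun i => ?_
    split_ifs
    · exact (hall i).2.1 ▸ (hσ _ (h1 i).1).2
    · exact (hall i).2.2 ▸ (h2 i).2.2
  have herr : ∀ (a : α → ℝ), ∀ e < r, |∑ c ∈ Ico p q, a (σ c) * (c : ℝ) ^ e -
      ∑ c ∈ Ico p q, (∑ s ∈ U, l c s * a s) * (c : ℝ) ^ e| ≤
      (((r + 1) * (U ×ˢ U).card : ℕ) : ℝ) * (2 * ∑ s ∈ U, |a s|) * K ^ e := fun a e he => by
    have h1 : ∀ g : ℤ → α → ℝ, ∑ c ∈ Ico p q, (∑ s ∈ U, g c s * a s) * (c : ℝ) ^ e =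
        ∑ s ∈ U, a s * ∑ c ∈ Ico p q, g c s * (c : ℝ) ^ e := fun g => by
      simp only [sum_mul, mul_sum]
      rw [sum_comm]
      exact sum_congr rfl fun s _ => sum_congr rfl fun c _ => by ring
    have h2 : ∑ c ∈ Ico p q, (∑ s ∈ U, l c s * a s) * (c : ℝ) ^ e =
        ∑ c ∈ Ico p q, (∑ s ∈ U, f c s * a s) * (c : ℝ) ^ e := by
      rw [h1, h1]
      exact sum_congr rfl fun s hs => by rw [hf.2.1 s hs e he]
    have hA : 0 ≤ 2 * ∑ s ∈ U, |a s| :=
      mul_nonneg zero_le_two (sum_nonneg fun s _ => abs_nonneg _)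
    have hKe : 0 ≤ K ^ e := by positivity
    rw [h2, ← sum_sub_distrib]
    refine (abs_sum_le_sum_abs _ _).trans ?_
    have h3 : ∀ c ∈ Ico p q, |a (σ c) * (c : ℝ) ^ e - (∑ s ∈ U, f c s * a s) * (c : ℝ) ^ e| ≤
        if f c (σ c) ≠ 1 then (2 * ∑ s ∈ U, |a s|) * K ^ e else 0 := fun c hc => by
      have h4 := err_BBP (hf.1 c hc).1 (hf.1 c hc).2 (hσ c hc).1 a
      have h5 : |(c : ℝ)| ≤ K := by
        obtain ⟨k1, k2⟩ := mem_Ico.1 hc
        have k3 : (p : ℝ) ≤ c := by exact_mod_cast k1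
        have k4 : (c : ℝ) ≤ q := by exact_mod_cast k2.le
        have k5 := abs_le.1 hp
        have k6 := abs_le.1 hq
        exact abs_le.2 ⟨by linarith, by linarith⟩
      have h6 : |(c : ℝ) ^ e| ≤ K ^ e := by
        rw [abs_pow]
        exact pow_le_pow_left₀ (abs_nonneg _) h5 e
      rw [← sub_mul, abs_mul]
      split_ifs at h4 ⊢
      · exact mul_le_mul h4 h6 (abs_nonneg _) hA
      · exact mul_nonpos_of_nonpos_of_nonneg h4 (abs_nonneg _)
    refine (sum_le_sum h3).trans ?_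
    rw [← sum_filter, sum_const, nsmul_eq_mul, mul_assoc (((r + 1) * (U ×ˢ U).card : ℕ) : ℝ)]
    exact mul_le_mul_of_nonneg_right (Nat.cast_le.2 hF) (mul_nonneg hA hKe)
  have hm : (0 : ℝ) ≤ (((r + 1) * (U ×ˢ U).card : ℕ) : ℝ) := Nat.cast_nonneg _
  refine ⟨σ, fun c hc => (hσ c hc).1, ?_, ?_, fun e he => (herr b e he).trans ?_⟩
  · have hm1 : ∀ c ∈ (Ico p (q - 1)).filter fun c => σ c ≠ σ (c + 1),
        c ∈ Ico p q ∧ c + 1 ∈ Ico p q := fun c hc => by
      have := mem_Ico.1 (mem_filter.1 hc).1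
      exact ⟨mem_Ico.2 ⟨by omega, by omega⟩, mem_Ico.2 ⟨by omega, by omega⟩⟩
    refine count_BBP U (r + 1) _ σ (fun c => σ (c + 1)) (fun c hc => (hσ c (hm1 c hc).1).1)
      (fun c hc => (hσ _ (hm1 c hc).2).1) fun s s' y hy hall => ?_
    have h1 := fun i => hm1 _ (hall i).1
    have hne : s ≠ s' := fun e =>
      (mem_filter.1 (hall 0).1).2 (by rw [(hall 0).2.1, (hall 0).2.2, e])
    refine hkey s ((hall 0).2.1 ▸ (hσ _ (h1 0).1).1) s' ((hall 0).2.2 ▸ (hσ _ (h1 0).2).1) hne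
      (fun i => if Even (i : ℕ) then y i else y i + 1) (fun i j hij => ?_) (fun i => ?_)
      fun i => ?_
    · have h2 := hy hij
      have h3 : y i + 1 ≠ y j := fun e => hne (by rw [← (hall j).2.1, ← e, (hall i).2.2])
      simp only
      split_ifs <;> omega
    · split_ifs
      · exact (h1 i).1
      · exact (h1 i).2
    · split_ifs
      · exact (hall i).2.1 ▸ (hσ _ (h1 i).1).2
      · exact (hall i).2.2 ▸ (hσ _ (h1 i).2).2
  · have h1 := (abs_le.1 (herr τ 0 hr)).2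
    simp only [pow_zero, mul_one] at h1
    nlinarith [mul_nonneg hm hb]
  · have hKe : 0 ≤ K ^ e := by positivity
    refine mul_le_mul_of_nonneg_right (mul_le_mul_of_nonneg_left ?_ hm) hKe
    linarith

end

section


theorem split_PSU (f : ℤ → ℝ) {p t q : ℤ} (h1 : p ≤ t) (h2 : t ≤ q) :
    ∑ c ∈ Ico p q, f c = ∑ c ∈ Ico p t, f c + ∑ c ∈ Ico t q, f c := by
  rw [← Finset.Ico_union_Ico_eq_Ico h1 h2, sum_union (Finset.Ico_disjoint_Ico_consecutive p t q)]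

theorem const_PSU {p q : ℤ} (h : p ≤ q) (x : ℝ) : ∑ _c ∈ Ico p q, x = ((q : ℝ) - p) * x := by
  rw [sum_const, Int.card_Ico, nsmul_eq_mul]
  have : (((q - p).toNat : ℤ) : ℝ) = (q : ℝ) - p := by
    rw [Int.toNat_of_nonneg (by omega)]
    push_cast
    rfl
  rw [← this]
  norm_cast

theorem mid_PSU {p q c : ℤ} {M : ℝ} (hp : |(p : ℝ)| ≤ M) (hq : |(q : ℝ)| ≤ M) (h1 : p ≤ c)
    (h2 : c ≤ q) : |(c : ℝ)| ≤ M := by
  have a1 : (p : ℝ) ≤ c := by exact_mod_cast h1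
  have a2 : (c : ℝ) ≤ q := by exact_mod_cast h2
  rw [abs_le] at hp hq ⊢
  constructor <;> linarith [hp.1, hq.2]

theorem short_PSU {p q : ℤ} {M A : ℝ} (e : ℕ) (hp : |(p : ℝ)| ≤ M) (hq : |(q : ℝ)| ≤ M)
    (h : p ≤ q) (hA : (q : ℝ) - p ≤ A) : |∑ c ∈ Ico p q, (c : ℝ) ^ e| ≤ A * M ^ e := by
  have hM : 0 ≤ M := (abs_nonneg _).trans hp
  calc |∑ c ∈ Ico p q, (c : ℝ) ^ e| ≤ ∑ c ∈ Ico p q, |(c : ℝ) ^ e| := abs_sum_le_sum_abs _ _
    _ ≤ ∑ _c ∈ Ico p q, M ^ e := by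
        refine sum_le_sum fun c hc => ?_
        rw [abs_pow]
        exact pow_le_pow_left₀ (abs_nonneg _)
          (mid_PSU hp hq (mem_Ico.1 hc).1 (mem_Ico.1 hc).2.le) e
    _ = ((q : ℝ) - p) * M ^ e := const_PSU h _
    _ ≤ A * M ^ e := mul_le_mul_of_nonneg_right hA (pow_nonneg hM e)

theorem step_PSU {y d : ℤ} {M : ℝ} (e : ℕ) (hd : 0 < d) (h1 : |(y : ℝ)| ≤ M)
    (h2 : |((y + d : ℤ) : ℝ)| ≤ M) :
    M * |(y : ℝ) ^ e - 1 / (d : ℝ) * ∑ c ∈ Ico y (y + d), (c : ℝ) ^ e| ≤ e * d * M ^ e := by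
  have hM : 0 ≤ M := (abs_nonneg _).trans h1
  have hd' : (0 : ℝ) < d := by exact_mod_cast hd
  have e1 : (y : ℝ) ^ e - 1 / (d : ℝ) * ∑ c ∈ Ico y (y + d), (c : ℝ) ^ e =
      1 / (d : ℝ) * ∑ c ∈ Ico y (y + d), ((y : ℝ) ^ e - (c : ℝ) ^ e) := by
    rw [sum_sub_distrib, const_PSU (by omega)]
    push_cast
    field_simp
    ring
  have e2 : M * |∑ c ∈ Ico y (y + d), ((y : ℝ) ^ e - (c : ℝ) ^ e)| ≤ d * (e * d * M ^ e) := by
    calc M * |∑ c ∈ Ico y (y + d), ((y : ℝ) ^ e - (c : ℝ) ^ e)|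
        ≤ M * ∑ c ∈ Ico y (y + d), |(y : ℝ) ^ e - (c : ℝ) ^ e| :=
          mul_le_mul_of_nonneg_left (abs_sum_le_sum_abs _ _) hM
      _ = ∑ c ∈ Ico y (y + d), M * |(y : ℝ) ^ e - (c : ℝ) ^ e| := mul_sum _ _ _
      _ ≤ ∑ _c ∈ Ico y (y + d), e * d * M ^ e := by
          refine sum_le_sum fun c hc => ?_
          obtain ⟨c1, c2⟩ := mem_Ico.1 hc
          refine (pow_dif h1 (mid_PSU h1 h2 c1 c2.le) e).trans ?_
          have a1 : (y : ℝ) ≤ c := by exact_mod_cast c1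
          have a2 : (c : ℝ) ≤ y + d := by exact_mod_cast c2.le
          have a3 : |(y : ℝ) - c| ≤ d := abs_le.2 ⟨by linarith, by linarith⟩
          gcongr
      _ = d * (e * d * M ^ e) := by
          rw [const_PSU (by omega)]
          push_cast
          ring
  rw [e1, abs_mul, abs_of_pos (one_div_pos.2 hd'), mul_left_comm, one_div, inv_mul_le_iff₀ hd']
  exact e2

theorem run_PSU {α : Type u} (a : α → ℤ) (β : α → ℝ) (s : α) (e : ℕ) (hd : 0 < a s) {M : ℝ}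
    (j : ℕ) : ∀ y : ℤ, |(y : ℝ)| ≤ M → |((y + j * a s : ℤ) : ℝ)| ≤ M →
      M * |Isum a β e y (List.replicate j s) -
        β s / (a s : ℝ) * ∑ c ∈ Ico y (y + j * a s), (c : ℝ) ^ e| ≤
        j * (|β s| * (e * a s * M ^ e)) := by
  induction j with
  | zero => intro y _ _; simp [Isum]
  | succ j ih =>
    intro y h1 h2
    have hM : 0 ≤ M := (abs_nonneg _).trans h1
    have hj : 0 ≤ (j : ℤ) * a s := by positivity
    have e0 : y + ((j + 1 : ℕ) : ℤ) * a s = y + a s + j * a s := by push_cast; ring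
    rw [e0] at h2 ⊢
    have h3 : |((y + a s : ℤ) : ℝ)| ≤ M := mid_PSU h1 h2 (by omega) (by omega)
    have i1 := ih (y + a s) h3 h2
    have i2 := step_PSU e hd h1 h3
    rw [split_PSU _ (t := y + a s) (by omega) (by omega), List.replicate_succ, Isum]
    generalize Isum a β e (y + a s) (List.replicate j s) = I at i1 ⊢
    generalize ∑ c ∈ Ico y (y + a s), (c : ℝ) ^ e = S1 at i2 ⊢
    generalize ∑ c ∈ Ico (y + a s) (y + a s + j * a s), (c : ℝ) ^ e = S2 at i1 ⊢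
    have e1 : β s * (y : ℝ) ^ e + I - β s / (a s : ℝ) * (S1 + S2) =
        β s * ((y : ℝ) ^ e - 1 / (a s : ℝ) * S1) + (I - β s / (a s : ℝ) * S2) := by ring
    have e2 := mul_le_mul_of_nonneg_left (abs_add_le (β s * ((y : ℝ) ^ e - 1 / (a s : ℝ) * S1))
      (I - β s / (a s : ℝ) * S2)) hM
    have e3 := mul_le_mul_of_nonneg_left i2 (abs_nonneg (β s))
    rw [abs_mul] at e2
    rw [e1]
    push_cast
    linarith

theorem blk_PSU {α : Type u} (a : α → ℤ) (β : α → ℝ) (s : α) (A : ℕ) (hd : 0 < a s)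
    (hA : a s ≤ A) {p q y : ℤ} {K : ℝ} (hp : |(p : ℝ)| ≤ K) (hq : |(q : ℝ)| ≤ K) (hK : 1 ≤ K)
    (hpq : p ≤ q) (hy : |y - p| ≤ A) :
    ∃ j : ℕ, |y + j * a s - q| ≤ A ∧ (j : ℝ) ≤ ((q : ℝ) - p) * (1 / (a s : ℝ)) + (A + 1) ∧
      ∀ e : ℕ, |Isum a β e y (List.replicate j s) -
        β s / (a s : ℝ) * ∑ c ∈ Ico p q, (c : ℝ) ^ e| ≤
        |β s| * (2 * e + 2 * A) * (K + A) ^ e := by
  have hd' : (1 : ℝ) ≤ a s := by exact_mod_cast hd
  have hA0 : (0 : ℝ) ≤ A := Nat.cast_nonneg A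
  obtain ⟨y1, y2⟩ := abs_le.1 hy
  have y1' : -(A : ℝ) ≤ y - p := by exact_mod_cast y1
  have y2' : (y : ℝ) - p ≤ A := by exact_mod_cast y2
  have hpq' : (p : ℝ) ≤ q := by exact_mod_cast hpq
  have hp' : |(p : ℝ)| ≤ K + A := by linarith
  have hq' : |(q : ℝ)| ≤ K + A := by linarith
  have hb : |β s / (a s : ℝ)| ≤ |β s| := by
    rw [abs_div, abs_of_pos (by linarith : (0 : ℝ) < a s)]
    exact div_le_self (abs_nonneg _) hd'
  have hM : (0 : ℝ) < K + A := by linarith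
  by_cases h : y ≤ q
  · obtain ⟨j, j1, j2⟩ : ∃ j : ℕ, q ≤ y + j * a s ∧ y + j * a s < q + a s := by
      refine ⟨((q - y + a s - 1) / a s).toNat, ?_⟩
      rw [Int.toNat_of_nonneg (Int.ediv_nonneg (by omega) hd.le)]
      have b1 := Int.ediv_mul_le (q - y + a s - 1) hd.ne'
      have b2 := Int.lt_ediv_add_one_mul_self (q - y + a s - 1) hd
      rw [add_mul, one_mul] at b2
      constructor <;> omega
    have j1' : (q : ℝ) ≤ y + j * a s := by exact_mod_cast j1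
    have j2' : (y : ℝ) + j * a s ≤ q + a s := by exact_mod_cast j2.le
    have hA' : (a s : ℝ) ≤ A := by exact_mod_cast hA
    have hy' : |(y : ℝ)| ≤ K + A := by
      rw [abs_le] at hp ⊢
      constructor <;> linarith [hp.1, hp.2]
    have hz : |((y + j * a s : ℤ) : ℝ)| ≤ K + A := by
      push_cast
      rw [abs_le] at hq ⊢
      constructor <;> linarith [hq.1, hq.2]
    refine ⟨j, abs_le.2 ⟨by omega, by omega⟩, ?_, fun e => ?_⟩
    · rw [mul_one_div, ← sub_le_iff_le_add, le_div_iff₀ (by linarith)]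
      linarith [mul_le_mul_of_nonneg_left hd' hA0]
    · have r1 := run_PSU a β s e hd j y hy' hz
      have r2 : (j : ℝ) * a s ≤ 2 * (K + A) := by
        rw [abs_le] at hy' hz
        push_cast at hz
        linarith [hy'.1, hz.2]
      have r3 : |Isum a β e y (List.replicate j s) -
          β s / (a s : ℝ) * ∑ c ∈ Ico y (y + j * a s), (c : ℝ) ^ e| ≤
          |β s| * (2 * e) * (K + A) ^ e := by
        refine le_of_mul_le_mul_left (r1.trans ?_) hM
        have := mul_le_mul_of_nonneg_right r2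
          (by positivity : 0 ≤ |β s| * (e * (K + A) ^ e))
        linarith
      have r4 := short_PSU (A := A) e hq' hz j1 (by push_cast; linarith)
      have r5 : |∑ c ∈ Ico y (y + j * a s), (c : ℝ) ^ e - ∑ c ∈ Ico p q, (c : ℝ) ^ e| ≤
          2 * A * (K + A) ^ e := by
        rw [split_PSU _ h j1]
        rcases le_total y p with h' | h'
        · have r6 := short_PSU (A := A) e hy' hp' h' (by linarith)
          rw [split_PSU _ h' hpq]
          rw [abs_le] at r4 r6 ⊢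
          constructor <;> linarith [r4.1, r4.2, r6.1, r6.2]
        · have r6 := short_PSU (A := A) e hp' hy' h' y2'
          rw [split_PSU _ h' h]
          rw [abs_le] at r4 r6 ⊢
          constructor <;> linarith [r4.1, r4.2, r6.1, r6.2]
      have r7 := mul_le_mul hb r5 (abs_nonneg _) (abs_nonneg _)
      rw [← abs_mul, mul_sub] at r7
      have r8 := abs_sub_le (Isum a β e y (List.replicate j s))
        (β s / (a s : ℝ) * ∑ c ∈ Ico y (y + j * a s), (c : ℝ) ^ e)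
        (β s / (a s : ℝ) * ∑ c ∈ Ico p q, (c : ℝ) ^ e)
      linarith
  · have h' : (q : ℝ) ≤ y := by exact_mod_cast (not_le.1 h).le
    refine ⟨0, ?_, ?_, fun e => ?_⟩
    · rw [Nat.cast_zero, zero_mul, add_zero]
      exact abs_le.2 ⟨by omega, by omega⟩
    · have : 0 ≤ ((q : ℝ) - p) * (1 / (a s : ℝ)) := mul_nonneg (by linarith) (by positivity)
      rw [Nat.cast_zero]
      linarith
    · have r4 := short_PSU (A := A) e hp' hq' hpq (by linarith)
      have r7 := mul_le_mul hb r4 (abs_nonneg _) (abs_nonneg _)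
      rw [List.replicate_zero, Isum, zero_sub, abs_neg, abs_mul]
      have r8 : 0 ≤ |β s| * (2 * e + A) * (K + A) ^ e := by positivity
      linarith

theorem flat_PSU {α : Type u} (σ : ℤ → α) {p t : ℤ} (h : ∀ c ∈ Ico p (t - 1), σ c = σ (c + 1)) :
    ∀ c, p ≤ c → c < t → σ c = σ p := by
  intro c hc
  induction c, hc using Int.leInduction with
  | base => intro _; rfl
  | succ c hc ih =>
    intro h1
    rw [← h c (mem_Ico.2 ⟨hc, by omega⟩), ih (by omega)]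

theorem PSU_pf : PSU_st.{u} := by
  intro α _ U a β A r hU
  have hA0 : (0 : ℝ) ≤ A := Nat.cast_nonneg A
  obtain ⟨D, hD0, hD⟩ : ∃ D : ℝ, 0 ≤ D ∧ ∀ s ∈ U, |β s| ≤ D :=
    ⟨∑ s ∈ U, |β s|, sum_nonneg fun _ _ => abs_nonneg _, fun s hs =>
      single_le_sum (f := fun s => |β s|) (fun _ _ => abs_nonneg _) hs⟩
  obtain ⟨C, hC0, hC1, hC2⟩ : ∃ C : ℝ, 0 ≤ C ∧ (A : ℝ) + 1 ≤ C ∧
      D * (2 * r + 2 * A) * (1 + A) ^ r ≤ C := by
    have : 0 ≤ D * (2 * r + 2 * A) * (1 + (A : ℝ)) ^ r := by positivity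
    exact ⟨A + 1 + D * (2 * r + 2 * A) * (1 + A) ^ r, by linarith, by linarith, by linarith⟩
  refine ⟨C, hC0, fun p q y K σ m hK hp hq => ?_⟩
  have one : ∀ p t y : ℤ, |(p : ℝ)| ≤ K → |(t : ℝ)| ≤ K → p ≤ t → |y - p| ≤ A →
      (∀ c ∈ Ico p t, σ c ∈ U) → (∀ c ∈ Ico p (t - 1), σ c = σ (c + 1)) →
      ∃ L : List (α × ℕ), L.length ≤ 1 ∧ (∀ x ∈ L, x.1 ∈ U) ∧
        |y + ((syl L).map a).sum - t| ≤ A ∧
        ((syl L).length : ℝ) ≤ ∑ c ∈ Ico p t, 1 / (a (σ c) : ℝ) + C ∧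
        ∀ e < r, |Isum a β e y (syl L) -
          ∑ c ∈ Ico p t, β (σ c) / (a (σ c) : ℝ) * (c : ℝ) ^ e| ≤ C * K ^ e := by
    intro p t y hp ht hpt hy hσ hsw
    rcases hpt.eq_or_lt with rfl | hlt
    · refine ⟨[], by simp, by simp, by simpa [syl] using hy, by simpa [syl] using hC0,
        fun e _ => ?_⟩
      have : 0 ≤ C * K ^ e := by positivity
      simpa [syl, Isum] using this
    · have hs := hσ p (mem_Ico.2 ⟨le_rfl, hlt⟩)
      have hc : ∀ c ∈ Ico p t, σ c = σ p := fun c hc =>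
        flat_PSU σ hsw c (mem_Ico.1 hc).1 (mem_Ico.1 hc).2
      obtain ⟨j, j1, j2, j3⟩ := blk_PSU a β (σ p) A (hU _ hs).1 (hU _ hs).2 hp ht hK hpt hy
      have e0 : syl [(σ p, j)] = List.replicate j (σ p) := by simp [syl]
      refine ⟨[(σ p, j)], le_rfl, by simpa using hs, ?_, ?_, fun e he => ?_⟩
      · rw [e0]
        simpa using j1
      · rw [e0, List.length_replicate, sum_congr rfl fun c h => by rw [hc c h], const_PSU hpt]
        linarith
      · rw [e0, sum_congr rfl fun c h => by rw [hc c h], ← mul_sum]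
        refine (j3 e).trans ?_
        have b1 : (K + A) ^ e ≤ (1 + A) ^ r * K ^ e := by
          calc (K + A) ^ e ≤ ((1 + A) * K) ^ e :=
                pow_le_pow_left₀ (by linarith)
                  (by linarith [mul_le_mul_of_nonneg_left hK hA0]) e
            _ = (1 + A) ^ e * K ^ e := mul_pow _ _ _
            _ ≤ (1 + A) ^ r * K ^ e := mul_le_mul_of_nonneg_right
                (pow_le_pow_right₀ (by linarith) he.le) (by positivity)
        have b2 : (e : ℝ) ≤ r := by exact_mod_cast he.le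
        have b3 := hD _ hs
        calc |β (σ p)| * (2 * e + 2 * A) * (K + A) ^ e
            ≤ D * (2 * r + 2 * A) * ((1 + A) ^ r * K ^ e) := by gcongr
          _ = D * (2 * r + 2 * A) * (1 + A) ^ r * K ^ e := by ring
          _ ≤ C * K ^ e := mul_le_mul_of_nonneg_right hC2 (by positivity)
  have emp : ∀ p : ℤ, ¬ ((Ico p (q - 1)).filter fun c => σ c ≠ σ (c + 1)).Nonempty →
      ∀ c ∈ Ico p (q - 1), σ c = σ (c + 1) := fun p h c hc => by
    by_contra h1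
    exact h ⟨c, mem_filter.2 ⟨hc, h1⟩⟩
  induction m generalizing p y with
  | zero =>
    intro hpq hy hσ hm
    have := one p q y hp hq hpq hy hσ (emp p fun h => by have := h.card_pos; omega)
    simpa using this
  | succ m ih =>
    intro hpq hy hσ hm
    by_cases h : ((Ico p (q - 1)).filter fun c => σ c ≠ σ (c + 1)).Nonempty
    · obtain ⟨t, t1, t2⟩ := exists_min_image _ (fun c : ℤ => c) h
      obtain ⟨t3, t4⟩ := mem_Ico.1 (mem_filter.1 t1).1
      have ht : |((t + 1 : ℤ) : ℝ)| ≤ K := mid_PSU hp hq (by omega) (by omega)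
      obtain ⟨L1, a1, a2, a3, a4, a5⟩ := one p (t + 1) y hp ht (by omega) hy
        (fun c hc => hσ c (by rw [mem_Ico] at hc ⊢; omega)) (fun c hc => by
          by_contra h1
          rw [mem_Ico] at hc
          have := t2 c (mem_filter.2 ⟨mem_Ico.2 ⟨hc.1, by omega⟩, h1⟩)
          omega)
      obtain ⟨L2, b1, b2, b3, b4, b5⟩ := ih (t + 1) (y + ((syl L1).map a).sum) ht (by omega) a3
        (fun c hc => hσ c (by rw [mem_Ico] at hc ⊢; omega)) (by
          have h1 : ((Ico (t + 1) (q - 1)).filter fun c => σ c ≠ σ (c + 1)) ⊆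
              ((Ico p (q - 1)).filter fun c => σ c ≠ σ (c + 1)).erase t := by
            intro c hc
            obtain ⟨c1, c2⟩ := mem_filter.1 hc
            rw [mem_Ico] at c1
            exact mem_erase.2 ⟨by omega, mem_filter.2 ⟨mem_Ico.2 ⟨by omega, c1.2⟩, c2⟩⟩
          have h2 := card_le_card h1
          rw [card_erase_of_mem t1] at h2
          omega)
      have e0 : syl (L1 ++ L2) = syl L1 ++ syl L2 := List.flatMap_append
      refine ⟨L1 ++ L2, by rw [List.length_append]; omega, fun x hx => ?_, ?_, ?_, fun e he => ?_⟩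
      · exact (List.mem_append.1 hx).elim (a2 x) (b2 x)
      · rw [e0, List.map_append, List.sum_append, ← add_assoc]
        exact b3
      · rw [e0, List.length_append, split_PSU _ (t := t + 1) (by omega) (by omega)]
        push_cast
        linarith
      · rw [e0, isum_app, split_PSU _ (t := t + 1) (by omega) (by omega)]
        have c1 := abs_le.1 (a5 e he)
        have c2 := abs_le.1 (b5 e he)
        push_cast
        rw [abs_le]
        constructor <;> linarith [c1.1, c1.2, c2.1, c2.2]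
    · obtain ⟨L, a1, a2, a3, a4, a5⟩ := one p q y hp hq hpq hy hσ (emp p h)
      have c1 : C ≤ C * (((m + 1 : ℕ) : ℝ) + 1) :=
        le_mul_of_one_le_right hC0 (by linarith [Nat.cast_nonneg (α := ℝ) (m + 1)])
      refine ⟨L, by omega, a2, a3, by linarith, fun e he => (a5 e he).trans ?_⟩
      exact mul_le_mul_of_nonneg_right c1 (by positivity)

end

section


theorem up_PSS (h1 : BBP_st.{u}) (h2 : PSU_st.{u}) (α : Type u) (T : Finset α) (a : α → ℤ)
    (β : α → ℝ) (A r : ℕ) (hA : ∀ s ∈ T, |a s| ≤ A) :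
    ∃ (m : ℕ) (C : ℝ), 0 ≤ C ∧ ∀ (p q y : ℤ) (K : ℝ) (l : ℤ → α → ℝ), 1 ≤ K →
    |(p : ℝ)| ≤ K → |(q : ℝ)| ≤ K → p ≤ q → |y - p| ≤ A →
    (∀ c ∈ Ico p q, (∀ s ∈ T, 0 ≤ l c s ∧ (l c s ≠ 0 → 0 < a s)) ∧ ∑ s ∈ T, l c s = 1) →
    ∃ L : List (α × ℕ), L.length ≤ m ∧ (∀ x ∈ L, x.1 ∈ T) ∧
      |y + ((syl L).map a).sum - q| ≤ A ∧
      ((syl L).length : ℝ) ≤ ∑ c ∈ Ico p q, ∑ s ∈ T, l c s / |(a s : ℝ)| + C ∧
      ∀ e < r, |Isum a β e y (syl L) -
        ∑ c ∈ Ico p q, (∑ s ∈ T, l c s * β s / |(a s : ℝ)|) * (c : ℝ) ^ e| ≤ C * K ^ e := by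
  classical
  obtain ⟨m, C, C0, hC⟩ := h1 α (T.filter fun s => 0 < a s) (fun s => 1 / |(a s : ℝ)|)
    (fun s => β s / |(a s : ℝ)|) (r + 1) (by omega)
  obtain ⟨D, D0, hD⟩ := h2 α (T.filter fun s => 0 < a s) a β A r fun s hs =>
    ⟨(mem_filter.1 hs).2, (le_abs_self _).trans (hA s (mem_filter.1 hs).1)⟩
  refine ⟨m + 1, C + D * (m + 1), by positivity, fun p q y K l hK hp hq hpq hy hl => ?_⟩
  rcases hpq.eq_or_lt with rfl | lt
  · refine ⟨[], by simp, by simp, by simpa [syl] using hy, ?_, fun e _ => ?_⟩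
    · simp only [syl, List.flatMap_nil, List.length_nil, Nat.cast_zero, Ico_self, sum_empty]
      positivity
    · simp only [syl, List.flatMap_nil, Isum, Ico_self, sum_empty, sub_zero, abs_zero]
      positivity
  have f : ∀ c ∈ Ico p q, ∀ g : α → ℝ,
      ∑ s ∈ T.filter fun s => 0 < a s, l c s * g s = ∑ s ∈ T, l c s * g s := fun c hc g =>
    sum_filter_of_ne fun s hs h => ((hl c hc).1 s hs).2 (left_ne_zero_of_mul h)
  obtain ⟨σ, s1, s2, s3, s4⟩ := hC p q K l hK hp hq lt fun c hc =>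
    ⟨fun s hs => ((hl c hc).1 s (mem_filter.1 hs).1).1, by
      simpa only [mul_one, (hl c hc).2] using f c hc fun _ => 1⟩
  obtain ⟨L, l1, l2, l3, l4, l5⟩ := hD p q y K σ m hK hp hq hpq hy s1 s2
  have ab : ∀ c ∈ Ico p q, |(a (σ c) : ℝ)| = a (σ c) := fun c hc =>
    abs_of_pos (by exact_mod_cast (mem_filter.1 (s1 c hc)).2)
  refine ⟨L, l1, fun x hx => (mem_filter.1 (l2 x hx)).1, l3, ?_, fun e he => ?_⟩
  · rw [sum_congr rfl fun c hc => f c hc _, sum_congr rfl fun c hc => by rw [ab c hc]] at s3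
    simp only [mul_one_div] at s3
    linarith
  · have t := s4 e (by omega)
    rw [sum_congr rfl fun c hc => by rw [ab c hc],
      sum_congr (s₁ := Ico p q) (f := fun c => (∑ s ∈ T.filter fun s => 0 < a s,
        l c s * (β s / |(a s : ℝ)|)) * (c : ℝ) ^ e) rfl fun c hc => by rw [f c hc]] at t
    simp only [← mul_div_assoc] at t
    refine (abs_sub_le _ _ _).trans ((add_le_add (l5 e he) t).trans_eq (by ring))

theorem neg_PSS {α : Type u} (a : α → ℤ) (β : α → ℝ) (e : ℕ) (l : List α) (y : ℤ) :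
    Isum a β e y l = (-1) ^ e * Isum (fun s => - a s) β e (-y) l := by
  induction l generalizing y with
  | nil => simp [Isum]
  | cons s l ih =>
    simp only [Isum]
    rw [ih, neg_add, mul_add, Int.cast_neg, mul_left_comm, ← mul_pow]
    simp

theorem ref_PSS (p q : ℤ) (F : ℤ → ℝ) :
    ∑ c ∈ Ico (-q) (-p), F c = ∑ c ∈ Ico p q, F (-1 - c) := by
  refine sum_nbij' (fun c => -1 - c) (fun c => -1 - c) ?_ ?_ ?_ ?_ ?_ <;>
    simp only [mem_Ico] <;> intro c hc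
  · omega
  · omega
  · omega
  · omega
  · congr 1
    omega

theorem shift_PSS (p q : ℤ) (K B : ℝ) (F : ℤ → ℝ) (e r : ℕ) (he : e < r) (hK : 1 ≤ K)
    (hp : |(p : ℝ)| ≤ K) (hq : |(q : ℝ)| ≤ K) (hpq : p ≤ q) (hB : 0 ≤ B)
    (hF : ∀ c ∈ Ico p q, |F c| ≤ B) :
    |∑ c ∈ Ico p q, F c * ((c : ℝ) + 1) ^ e - ∑ c ∈ Ico p q, F c * (c : ℝ) ^ e| ≤
      B * r * 2 ^ r * K ^ e := by
  have K0 : 0 < 2 * K := by linarith
  have n : ((Ico p q).card : ℝ) ≤ 2 * K := by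
    have : (((Ico p q).card : ℤ) : ℝ) = ((q - p : ℤ) : ℝ) := by
      rw [Int.card_Ico, Int.toNat_of_nonneg (by omega)]
    push_cast at this
    linarith [abs_le.1 hp, abs_le.1 hq]
  have t : ∀ c ∈ Ico p q, |F c * ((c : ℝ) + 1) ^ e - F c * (c : ℝ) ^ e| ≤
      B * (e * (2 * K) ^ e / (2 * K)) := fun c hc => by
    have c1 : (p : ℝ) ≤ c := by exact_mod_cast (mem_Ico.1 hc).1
    have c2 : (c : ℝ) + 1 ≤ q := by exact_mod_cast (mem_Ico.1 hc).2
    have := pow_dif (x := (c : ℝ) + 1) (y := c) (M := 2 * K)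
      (abs_le.2 ⟨by linarith [abs_le.1 hp], by linarith [abs_le.1 hq]⟩)
      (abs_le.2 ⟨by linarith [abs_le.1 hp], by linarith [abs_le.1 hq]⟩) e
    rw [add_sub_cancel_left, abs_one, mul_one, mul_comm, ← le_div_iff₀ K0] at this
    rw [← mul_sub, abs_mul]
    exact mul_le_mul (hF c hc) this (abs_nonneg _) hB
  rw [← sum_sub_distrib]
  refine (abs_sum_le_sum_abs _ _).trans ((sum_le_card_nsmul _ _ _ t).trans ?_)
  rw [nsmul_eq_mul]
  calc _ ≤ 2 * K * (B * (e * (2 * K) ^ e / (2 * K))) := by gcongr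
    _ = B * e * 2 ^ e * K ^ e := by rw [mul_pow]; field_simp
    _ ≤ _ := by gcongr; norm_num

theorem PSS_pf (h1 : BBP_st.{u}) (h2 : PSU_st.{u}) : PSS_st.{u} := by
  intro α P A r hA
  obtain ⟨m, C, C0, hC⟩ := up_PSS h1 h2 α P.T P.a P.β A r hA
  obtain ⟨m', C', C0', hC'⟩ := up_PSS h1 h2 α P.T (fun s => - P.a s) P.β A r
    fun s hs => by simpa using hA s hs
  obtain ⟨B, -, hB⟩ := P.bd
  have z : (0 : ℝ) ≤ B * r * 2 ^ r := by positivity
  refine ⟨m + m', C + C' + B * r * 2 ^ r, by positivity,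
    fun ε p q y K l hε hK hp hq hpq hy hl => ?_⟩
  have Kp : ∀ e : ℕ, 0 ≤ K ^ e := fun e => by positivity
  rcases hε with rfl | rfl
  · simp only [if_true, one_mul] at hy hl ⊢
    obtain ⟨L, l1, l2, l3, l4, l5⟩ := hC p q y K l hK hp hq hpq hy hl
    refine ⟨L, by omega, l2, l3, by linarith, fun e he => (l5 e he).trans ?_⟩
    exact mul_le_mul_of_nonneg_right (by linarith) (Kp e)
  · simp only [show ¬ ((-1 : ℤ) = 1) by norm_num, if_false, neg_mul, one_mul] at hy hl ⊢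
    obtain ⟨L, l1, l2, l3, l4, l5⟩ := hC' (-q) (-p) (-y) K (fun c => l (-1 - c)) hK
      (by simpa using hq) (by simpa using hp) (by omega)
      (by rw [← abs_neg] at hy; simpa [sub_eq_add_neg, add_comm] using hy)
      fun c hc => hl _ (by rw [mem_Ico] at hc ⊢; omega)
    simp only [ref_PSS, sub_sub_cancel, Int.cast_neg, abs_neg] at l4 l5
    refine ⟨L, by omega, l2, ?_, by linarith, fun e he => ?_⟩
    · have e : ((syl L).map fun s => - P.a s).sum = - ((syl L).map P.a).sum := by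
        induction syl L with
        | nil => simp
        | cons s t ih => simp only [List.map_cons, List.sum_cons, ih]; ring
      rw [e, ← abs_neg] at l3
      rwa [show y + ((syl L).map P.a).sum - p = -(-y + -((syl L).map P.a).sum - -p) by ring]
    · have t := shift_PSS p q K B (fun c => ∑ s ∈ P.T, l c s * P.β s / |(P.a s : ℝ)|) e r he hK
        hp hq hpq B.cast_nonneg fun c hc => by
          refine (abs_sum_le_sum_abs _ _).trans ?_
          rw [← one_mul (B : ℝ), ← (hl c hc).2, sum_mul]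
          refine sum_le_sum fun s hs => ?_
          have l0 := ((hl c hc).1 s hs).1
          rw [mul_div_assoc, abs_mul, abs_of_nonneg l0, abs_div, abs_abs]
          refine mul_le_mul_of_nonneg_left ?_ l0
          by_cases a0 : P.a s = 0
          · simp [a0]
          · have : (1 : ℝ) ≤ |(P.a s : ℝ)| := by exact_mod_cast Int.one_le_abs a0
            exact (div_le_self (abs_nonneg _) this).trans (hB s hs).2.2
      have v : |Isum P.a P.β e y (syl L) - ∑ c ∈ Ico p q,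
          (∑ s ∈ P.T, l c s * P.β s / |(P.a s : ℝ)|) * ((c : ℝ) + 1) ^ e| ≤ C' * K ^ e := by
        have w : ∀ x : ℝ, |(-1) ^ e * x| = |x| := fun x => by
          rw [abs_mul, abs_neg_one_pow, one_mul]
        refine le_trans (le_of_eq ?_) ((w _).le.trans (l5 e he))
        rw [mul_sub, ← neg_PSS, mul_sum]
        congr 2
        refine sum_congr rfl fun c _ => ?_
        rw [mul_left_comm, ← mul_pow]
        push_cast
        ring
      refine (abs_sub_le _ _ _).trans ((add_le_add v t).trans ?_)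
      nlinarith [mul_nonneg C0 (Kp e)]

end

section


theorem app_SKL {α : Type u} (L L' : List (α × ℕ)) : syl (L ++ L') = syl L ++ syl L' :=
  List.flatMap_append

theorem step_SKL {α : Type u} (a : α → ℤ) (l : List α) (B : ℕ) (h : ∀ x ∈ l, |a x| ≤ B) (i : ℕ) :
    |ht a l (i + 1) - ht a l i| ≤ B := by
  unfold ht
  rw [List.take_add_one, List.map_append, List.sum_append, add_sub_cancel_left]
  cases e : l[i]? with
  | none => simp
  | some x => simpa using h x (List.mem_of_getElem? e)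

theorem cov_SKL {α : Type u} (a : α → ℤ) (l : List α) (B : ℕ) (h : ∀ x ∈ l, |a x| ≤ B) {X Y c : ℤ}
    (hX : ∃ i, |ht a l i - X| ≤ B) (hY : ∃ i, |ht a l i - Y| ≤ B) (hc : c ∈ Icc X Y) :
    ∃ i, |((ht a l i - c : ℤ) : ℝ)| ≤ B := by
  obtain ⟨i, hi⟩ := hX
  obtain ⟨j, hj⟩ := hY
  rw [mem_Icc] at hc
  rw [abs_le] at hi hj
  have st : ∀ m, |(ht a l (m + 1) : ℝ) - ht a l m| ≤ B := fun m => by
    exact_mod_cast step_SKL a l B h m
  have h0 : ht a l 0 = 0 := by simp [ht]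
  by_cases h1 : c ≤ ht a l i
  · exact ⟨i, by exact_mod_cast abs_le.2 ⟨by omega, by omega⟩⟩
  by_cases h2 : ht a l j ≤ c
  · exact ⟨j, by exact_mod_cast abs_le.2 ⟨by omega, by omega⟩⟩
  push_cast
  rcases le_total 0 c with h3 | h3
  · exact NH1_ivt (fun m => ht a l m) B c B.cast_nonneg st (by simpa [h0] using h3) j
      (by exact_mod_cast (not_le.1 h2).le)
  · obtain ⟨m, hm⟩ := NH1_ivt (fun m => -ht a l m) B (-c) B.cast_nonneg
      (fun m => by rw [neg_sub_neg, abs_sub_comm]; exact st m) (by simpa [h0] using h3) i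
      (neg_le_neg (by exact_mod_cast (not_le.1 h1).le))
    exact ⟨m, by rwa [neg_sub_neg, abs_sub_comm] at hm⟩

theorem three_SKL {α : Type u} (P : Alph α) {B m r : ℕ} {C K : ℝ} {z1 z2 z3 : ℤ} {t1 t2 t3 : ℝ}
    {μ1 μ2 μ3 : ℕ → ℝ}
    (R : ℤ → ℤ → ℝ → (ℕ → ℝ) → Prop)
    (hR : ∀ y z t μ, R y z t μ ↔ ∃ L : List (α × ℕ), L.length ≤ m ∧ (∀ x ∈ L, x.1 ∈ P.T) ∧
      |y + ((syl L).map P.a).sum - z| ≤ B ∧ ((syl L).length : ℝ) ≤ t + C ∧
      ∀ e < r, |Isum P.a P.β e y (syl L) - μ e| ≤ C * K ^ e)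
    (h1 : R 0 z1 t1 μ1) (h2 : ∀ y, |y - z1| ≤ B → R y z2 t2 μ2)
    (h3 : ∀ y, |y - z2| ≤ B → R y z3 t3 μ3) :
    ∃ L : List (α × ℕ), L.length ≤ 3 * m ∧ (∀ x ∈ L, x.1 ∈ P.T) ∧
      |((syl L).map P.a).sum - z3| ≤ B ∧ ((syl L).length : ℝ) ≤ t1 + t2 + t3 + 3 * C ∧
      (∀ e < r, |Isum P.a P.β e 0 (syl L) - (μ1 e + μ2 e + μ3 e)| ≤ 3 * C * K ^ e) ∧
      (∃ i, |ht P.a (syl L) i - z1| ≤ B) ∧ ∃ i, |ht P.a (syl L) i - z2| ≤ B := by
  obtain ⟨L1, a1, a2, a3, a4, a5⟩ := (hR _ _ _ _).1 h1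
  obtain ⟨L2, b1, b2, b3, b4, b5⟩ := (hR _ _ _ _).1 (h2 _ a3)
  obtain ⟨L3, c1, c2, c3, c4, c5⟩ := (hR _ _ _ _).1 (h3 _ b3)
  refine ⟨L1 ++ (L2 ++ L3), ?_, fun x hx => ?_, ?_, ?_, fun e he => ?_,
    ⟨(syl L1).length, ?_⟩, ⟨(syl L1 ++ syl L2).length, ?_⟩⟩
  · simp only [List.length_append]
    omega
  · simp only [List.mem_append] at hx
    rcases hx with hx | hx | hx
    exacts [a2 x hx, b2 x hx, c2 x hx]
  · simpa [app_SKL, add_assoc] using c3
  · simp only [app_SKL, List.length_append]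
    push_cast
    linarith
  · rw [app_SKL, app_SKL, isum_app, isum_app, abs_le]
    have u := abs_le.1 (a5 e he)
    have v := abs_le.1 (b5 e he)
    have w := abs_le.1 (c5 e he)
    constructor <;> linarith [u.1, u.2, v.1, v.2, w.1, w.2]
  · rw [app_SKL, ht, List.take_left]
    simpa using a3
  · rw [app_SKL, app_SKL, ← List.append_assoc, ht, List.take_left]
    simpa using b3

theorem split_SKL {f g : ℤ → ℝ} {X Y u v : ℤ} (h1 : X ≤ u) (h2 : u ≤ v) (h3 : v ≤ Y)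
    (h : ∀ c ∈ Ico u v, g c = 0) :
    ∑ c ∈ Ico X Y, (f c + g c) = ∑ c ∈ Ico X u, g c + ∑ c ∈ Ico X Y, f c + ∑ c ∈ Ico v Y, g c := by
  rw [sum_add_distrib, ← Ico_union_Ico_eq_Ico h1 (h2.trans h3), sum_union (f := g)
    (Ico_disjoint_Ico_consecutive _ _ _), ← Ico_union_Ico_eq_Ico h2 h3, sum_union (f := g)
    (Ico_disjoint_Ico_consecutive _ _ _), sum_eq_zero h]
  ring

theorem len_SKL {α : Type u} (P : Alph α) {B : ℕ} (hB : ∀ s ∈ P.T, |(P.a s : ℝ)| ≤ B) (Q : Cfg α)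
    (hQ : Q.Ok P) : (Q.Y : ℝ) - Q.X ≤ B * Q.time0 P := by
  obtain ⟨h1, -, h2, -, h⟩ := hQ
  have : ∑ _c ∈ Ico Q.X Q.Y, (1 : ℝ) = Q.Y - Q.X := by
    rw [sum_const, nsmul_one]
    exact_mod_cast Int.card_Ico_of_le Q.X Q.Y (h1.trans h2)
  rw [← this, Cfg.time0, mul_sum]
  refine sum_le_sum fun c hc => ?_
  obtain ⟨a1, a2, a3, a4⟩ := h c hc
  have k : 1 ≤ mU Q.n c + mD Q.n c := by
    unfold mU mD
    split_ifs <;> first | omega | norm_num
  rw [← a2, ← a4, ← sum_add_distrib] at k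
  rw [mul_sum]
  refine k.trans (sum_le_sum fun s hs => ?_)
  by_cases h0 : P.a s = 0
  · have u : Q.U c s = 0 := by
      by_contra h
      exact ((a1 s hs).2 h).ne' h0
    have v : Q.D c s = 0 := by
      by_contra h
      exact ((a3 s hs).2 h).ne h0
    simp [u, v]
  · rw [← mul_div_assoc, le_div_iff₀ (abs_pos.2 (by exact_mod_cast h0)), mul_comm]
    exact mul_le_mul_of_nonneg_right (hB s hs) (add_nonneg (a1 s hs).1 (a3 s hs).1)

theorem SKL_pf (h : PSS_st.{u}) : SKL_st.{u} := by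
  intro α P r A
  obtain ⟨B, hB1, hB⟩ := P.bd
  obtain ⟨m, C, hC, H⟩ := h α P B r fun s hs => (hB s hs).1
  obtain ⟨M, hM1, hM⟩ : ∃ M : ℝ, 1 ≤ M ∧ B * A ≤ M := ⟨_, le_max_left 1 _, le_max_right _ _⟩
  have hB0 : (0 : ℝ) ≤ B := B.cast_nonneg
  have hC' : C ≤ C * M ^ r := le_mul_of_one_le_right hC (one_le_pow₀ hM1)
  refine ⟨3 * m, M + B + 3 * (C * M ^ r), by linarith, fun Q K hK hQ ht0 => ?_⟩
  have hl : (Q.Y : ℝ) - Q.X ≤ M * K := (len_SKL P (fun s hs => (hB s hs).2.1) Q hQ).trans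
    ((mul_le_mul_of_nonneg_left ht0 hB0).trans (by
      rw [← mul_assoc]
      exact mul_le_mul_of_nonneg_right hM (by linarith)))
  obtain ⟨h1, h2, h3, h4, h5⟩ := hQ
  have bd : ∀ c : ℤ, Q.X ≤ c → c ≤ Q.Y → |(c : ℝ)| ≤ M * K := fun c u v => by
    have u' : (Q.X : ℝ) ≤ c := by exact_mod_cast u
    have v' : (c : ℝ) ≤ Q.Y := by exact_mod_cast v
    have x : (Q.X : ℝ) ≤ 0 := by exact_mod_cast h1
    have y : (0 : ℝ) ≤ Q.Y := by exact_mod_cast h3
    exact abs_le.2 ⟨by linarith, by linarith⟩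
  have hMK : 1 ≤ M * K := one_le_mul_of_one_le_of_one_le hM1 hK
  have hXY := h1.trans h3
  have le : M * K ≤ (M + B + 3 * (C * M ^ r)) * K :=
    mul_le_mul_of_nonneg_right (by linarith) (by linarith)
  refine ⟨(bd _ le_rfl hXY).trans le, (bd _ hXY le_rfl).trans le, ?_⟩
  obtain ⟨tt, htt⟩ : ∃ tt : (ℤ → α → ℝ) → ℤ → ℝ, ∀ l c,
    tt l c = ∑ s ∈ P.T, l c s / |(P.a s : ℝ)| := ⟨_, fun _ _ => rfl⟩
  obtain ⟨mm, hmm⟩ : ∃ mm : (ℤ → α → ℝ) → ℕ → ℤ → ℝ, ∀ l e c,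
    mm l e c = (∑ s ∈ P.T, l c s * P.β s / |(P.a s : ℝ)|) * (c : ℝ) ^ e := ⟨_, fun _ _ _ => rfl⟩
  have e1 : Q.time0 P = ∑ c ∈ Ico Q.X Q.Y, (tt Q.U c + tt Q.D c) := by
    simp only [Cfg.time0, htt, add_div, sum_add_distrib]
  have e2 : ∀ e, Q.mom0 P e = ∑ c ∈ Ico Q.X Q.Y, (mm Q.U e c + mm Q.D e c) := fun e => by
    simp only [Cfg.mom0, hmm, add_div, add_mul, sum_add_distrib]
  have z : ∀ (l : ℤ → α → ℝ) c, (∀ s ∈ P.T, 0 ≤ l c s) → ∑ s ∈ P.T, l c s = 0 →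
      tt l c = 0 ∧ ∀ e, mm l e c = 0 := fun l c u v => by
    have w := (sum_eq_zero_iff_of_nonneg u).1 v
    refine ⟨(htt l c).trans (sum_eq_zero fun s hs => by simp [w s hs]), fun e => ?_⟩
    rw [hmm, sum_eq_zero fun s hs => by simp [w s hs], zero_mul]
  simp only [← htt, ← hmm] at H
  have up := fun (p q y : ℤ) (u : Q.X ≤ p) (v : p ≤ q) (w : q ≤ Q.Y) (hy : |y - p| ≤ B)
      (k : ∀ c, p ≤ c → c < q → ¬ (Q.n ≤ c ∧ c < 0)) =>
    H 1 p q y (M * K) Q.U (Or.inl rfl) hMK (bd p u (v.trans w)) (bd q (u.trans v) w) v hy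
      fun c hc => by
        rw [mem_Ico] at hc
        obtain ⟨a1, a2, -⟩ := h5 c (mem_Ico.2 ⟨by omega, by omega⟩)
        exact ⟨fun s hs => by simpa using a1 s hs, a2.trans (if_neg (k c hc.1 hc.2))⟩
  have dn := fun (p q y : ℤ) (u : Q.X ≤ p) (v : p ≤ q) (w : q ≤ Q.Y) (hy : |y - q| ≤ B)
      (k : ∀ c, p ≤ c → c < q → ¬ (0 ≤ c ∧ c < Q.n)) =>
    H (-1) p q y (M * K) Q.D (Or.inr rfl) hMK (bd p u (v.trans w)) (bd q (u.trans v) w) v hy
      fun c hc => by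
        rw [mem_Ico] at hc
        obtain ⟨-, -, a1, a2⟩ := h5 c (mem_Ico.2 ⟨by omega, by omega⟩)
        exact ⟨fun s hs => by simpa using a1 s hs, a2.trans (if_neg (k c hc.1 hc.2))⟩
  obtain ⟨L, a1, a2, a3, a4, a5, a6, a7⟩ : ∃ L : List (α × ℕ), L.length ≤ 3 * m ∧
      (∀ x ∈ L, x.1 ∈ P.T) ∧ |((syl L).map P.a).sum - Q.n| ≤ B ∧
      ((syl L).length : ℝ) ≤ Q.time0 P + 3 * C ∧
      (∀ e < r, |Isum P.a P.β e 0 (syl L) - Q.mom0 P e| ≤ 3 * C * (M * K) ^ e) ∧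
      (∃ i, |ht P.a (syl L) i - Q.X| ≤ B) ∧ ∃ i, |ht P.a (syl L) i - Q.Y| ≤ B := by
    rcases le_or_gt 0 Q.n with hn | hn
    · have z' := fun c (hc : c ∈ Ico 0 Q.n) => by
        have hc' := mem_Ico.1 hc
        obtain ⟨-, -, a1, a2⟩ := h5 c (mem_Ico.2 ⟨by omega, by omega⟩)
        exact z Q.D c (fun s hs => (a1 s hs).1) (a2.trans (if_pos hc'))
      rw [e1, split_SKL h1 hn h4 fun c hc => (z' c hc).1]
      simp only [fun e => (e2 e).trans (split_SKL h1 hn h4 fun c hc => (z' c hc).2 e)]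
      exact three_SKL P _ (fun _ _ _ _ => Iff.rfl)
        (dn Q.X 0 0 le_rfl h1 h3 (by simp) fun c _ _ => by omega)
        (fun y hy => up Q.X Q.Y y le_rfl hXY le_rfl hy fun c _ _ => by omega)
        fun y hy => dn Q.n Q.Y y h2 h4 le_rfl hy fun c _ _ => by omega
    · have z' := fun c (hc : c ∈ Ico Q.n 0) => by
        have hc' := mem_Ico.1 hc
        obtain ⟨a1, a2, -⟩ := h5 c (mem_Ico.2 ⟨by omega, by omega⟩)
        exact z Q.U c (fun s hs => (a1 s hs).1) (a2.trans (if_pos hc'))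
      obtain ⟨L, a1, a2, a3, a4, a5, a6, a7⟩ := three_SKL P _ (fun _ _ _ _ => Iff.rfl)
        (up 0 Q.Y 0 h1 h3 le_rfl (by simp) fun c _ _ => by omega)
        (fun y hy => dn Q.X Q.Y y le_rfl hXY le_rfl hy fun c _ _ => by omega)
        fun y hy => up Q.X Q.n y le_rfl h2 h4 hy fun c _ _ => by omega
      refine ⟨L, a1, a2, a3, ?_, fun e he => ?_, a7, a6⟩
      · rw [e1, sum_congr rfl fun c _ => add_comm _ _,
          split_SKL h2 hn.le h3 fun c hc => (z' c hc).1]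
        linarith
      · rw [e2, sum_congr rfl fun c _ => add_comm _ _,
          split_SKL h2 hn.le h3 fun c hc => (z' c hc).2 e, add_comm, add_comm (∑ c ∈ Ico Q.X Q.n, _),
          ← add_assoc]
        exact a5 e he
  refine ⟨L, a1, a2, le_trans (b := (B : ℝ)) (by exact_mod_cast a3) (by linarith), by linarith,
    fun e he => (a5 e he).trans ?_, fun c hc => (cov_SKL P.a _ B (fun x hx => ?_) a6 a7 hc).imp
      fun i hi => hi.trans (by linarith)⟩
  · rw [mul_pow, ← mul_assoc]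
    refine mul_le_mul_of_nonneg_right ?_ (by positivity)
    have := mul_le_mul_of_nonneg_left (pow_le_pow_right₀ hM1 he.le) hC
    linarith
  · obtain ⟨p, hp, hx⟩ := List.mem_flatMap.1 hx
    exact (List.eq_of_mem_replicate hx) ▸ (hB _ (a2 p hp)).1

end

section


theorem rel_CAR {r : ℕ} (hr : 1 ≤ r) {F : Finset ℤ} (hF : r < F.card) :
    ∃ δ : ℤ → ℝ, (∀ e < r, ∑ c ∈ F, δ c * (c : ℝ) ^ e = 0) ∧ ∃ c ∈ F, 0 < δ c := by
  have h1 : ¬ LinearIndepOn ℝ (fun (c : ℤ) (e : Fin r) => (c : ℝ) ^ (e : ℕ)) (F : Set ℤ) := by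
    intro h
    have h2 := LinearIndependent.fintype_card_le_finrank h
    simp at h2
    omega
  obtain ⟨δ, h2, h3⟩ := not_linearIndepOn_finset_iff.1 h1
  have h4 : ∀ e < r, ∑ c ∈ F, δ c * (c : ℝ) ^ e = 0 := fun e he => by
    simpa [Finset.sum_apply] using congrFun h2 ⟨e, he⟩
  refine ⟨δ, h4, Finset.exists_pos_of_sum_zero_of_exists_nonzero δ ?_ h3⟩
  simpa using h4 0 hr

theorem pos_CAR {r : ℕ} (hr : 1 ≤ r) : ∀ (n : ℕ) (F : Finset ℤ) (μ : ℤ → ℝ), F.card = n →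
    (∀ c ∈ F, 0 ≤ μ c) → ∃ (E : Finset ℤ) (ν : ℤ → ℝ), E ⊆ F ∧ E.card ≤ r ∧ (∀ c ∈ E, 0 ≤ ν c) ∧
      ∀ e < r, ∑ c ∈ E, ν c * (c : ℝ) ^ e = ∑ c ∈ F, μ c * (c : ℝ) ^ e := by
  intro n
  induction n with
  | zero => exact fun F μ hF hμ => ⟨F, μ, Subset.rfl, by omega, hμ, fun _ _ => rfl⟩
  | succ n ih =>
    intro F μ hF hμ
    rcases le_or_gt F.card r with h | h
    · exact ⟨F, μ, Subset.rfl, h, hμ, fun _ _ => rfl⟩
    obtain ⟨δ, h1, c₁, hc₁, hδ₁⟩ := rel_CAR hr h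
    obtain ⟨c₀, hc₀, hmin⟩ := Finset.exists_min_image (F.filter fun c => 0 < δ c)
      (fun c => μ c / δ c) ⟨c₁, mem_filter.2 ⟨hc₁, hδ₁⟩⟩
    obtain ⟨hc₀F, hδ₀⟩ := mem_filter.1 hc₀
    have ht : 0 ≤ μ c₀ / δ c₀ := div_nonneg (hμ c₀ hc₀F) hδ₀.le
    have h2 : ∀ c ∈ F, 0 ≤ μ c - μ c₀ / δ c₀ * δ c := by
      intro c hc
      rcases le_or_gt (δ c) 0 with h3 | h3
      · have := mul_nonpos_of_nonneg_of_nonpos ht h3
        have := hμ c hc
        linarith
      · exact sub_nonneg.2 ((le_div_iff₀ h3).1 (hmin c (mem_filter.2 ⟨hc, h3⟩)))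
    obtain ⟨E, ν, a1, a2, a3, a4⟩ := ih (F.erase c₀) (fun c => μ c - μ c₀ / δ c₀ * δ c)
      (by rw [card_erase_of_mem hc₀F]; omega) fun c hc => h2 c (mem_of_mem_erase hc)
    refine ⟨E, ν, a1.trans (erase_subset _ _), a2, a3, fun e he => ?_⟩
    rw [a4 e he, Finset.sum_erase F (by rw [div_mul_cancel₀ _ hδ₀.ne', sub_self, zero_mul])]
    simp only [sub_mul, mul_assoc, Finset.sum_sub_distrib, ← Finset.mul_sum, h1 e he, mul_zero,
      sub_zero]

theorem list_CAR (E : Finset ℤ) (ν : ℤ → ℝ) (φ : ℤ × ℝ → ℝ) :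
    ((E.toList.map fun c => (c, ν c)).map φ).sum = ∑ c ∈ E, φ (c, ν c) := by
  rw [List.map_map]
  exact Finset.sum_map_toList E _

theorem CAR_pf (_h : CHB_st) : CAR_st := by
  intro r F μ hr
  obtain ⟨E, ν, a1, a2, a3, a4⟩ :=
    pos_CAR hr _ F (fun c => max (μ c) 0) rfl fun c _ => le_max_right _ _
  obtain ⟨E', ν', b1, b2, b3, b4⟩ :=
    pos_CAR hr _ F (fun c => max (-μ c) 0) rfl fun c _ => le_max_right _ _
  refine ⟨(E.toList.map fun c => (c, ν c)) ++ E'.toList.map fun c => (c, -ν' c), ?_, ?_, ?_, ?_⟩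
  · simp only [List.length_append, List.length_map, Finset.length_toList]
    omega
  · intro p hp
    rcases List.mem_append.1 hp with hp | hp
    · obtain ⟨c, hc, rfl⟩ := List.mem_map.1 hp
      exact a1 (Finset.mem_toList.1 hc)
    · obtain ⟨c, hc, rfl⟩ := List.mem_map.1 hp
      exact b1 (Finset.mem_toList.1 hc)
  · rw [List.map_append, List.sum_append, list_CAR, list_CAR E' fun c => -ν' c]
    have e1 := a4 0 hr
    have e2 := b4 0 hr
    simp only [pow_zero, mul_one] at e1 e2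
    rw [Finset.sum_congr rfl fun c hc => abs_of_nonneg (a3 c hc),
      Finset.sum_congr rfl fun c hc => (abs_neg (ν' c)).trans (abs_of_nonneg (b3 c hc)), e1, e2,
      ← Finset.sum_add_distrib]
    exact le_of_eq (Finset.sum_congr rfl fun c _ => max_zero_add_max_neg_zero_eq_abs_self (μ c))
  · intro e he
    rw [List.map_append, List.sum_append, list_CAR, list_CAR E' fun c => -ν' c]
    simp only [neg_mul, Finset.sum_neg_distrib]
    rw [a4 e he, b4 e he, ← sub_eq_add_neg, ← Finset.sum_sub_distrib]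
    refine Finset.sum_congr rfl fun c _ => ?_
    rw [← sub_mul, max_zero_sub_max_neg_zero_eq_self]

end

section


theorem bal_CRS (h : ℕ → ℤ) (c : ℤ) (m : ℕ) :
    ((range m).filter fun i => h i ≤ c ∧ c < h (i + 1)).card + (if c < h 0 then 1 else 0) =
      ((range m).filter fun i => h (i + 1) ≤ c ∧ c < h i).card + if c < h m then 1 else 0 := by
  induction m with
  | zero => simp
  | succ m ih =>
    rw [card_filter, card_filter] at ih ⊢
    rw [sum_range_succ, sum_range_succ]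
    split_ifs at ih ⊢ <;> omega

theorem CRS_pf : CRS_st := by
  rintro n h X Y c h0 ⟨i, hi, rfl⟩ ⟨i', hi', rfl⟩ h1 h2
  have k1 := bal_CRS h c n
  have k2 := bal_CRS h c i
  have k3 := bal_CRS h c i'
  have m1 := card_le_card (filter_subset_filter (fun i => h i ≤ c ∧ c < h (i + 1))
    (range_subset_range.2 hi'))
  have m2 := card_le_card (filter_subset_filter (fun i => h (i + 1) ≤ c ∧ c < h i)
    (range_subset_range.2 hi))
  rw [h0] at k1 k2 k3
  rw [if_neg (not_lt.2 h1)] at k2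
  rw [if_pos h2] at k3
  generalize ((range n).filter fun i => h i ≤ c ∧ c < h (i + 1)).card = U at *
  generalize ((range n).filter fun i => h (i + 1) ≤ c ∧ c < h i).card = D at *
  have k4 : ∀ a b : ℕ, a ≤ U → b ≤ D → U + b = D + a →
      ((a : ℝ) ≤ U ∧ (b : ℝ) ≤ D ∧ (U : ℝ) - a = D - b) := fun a b e1 e2 e3 =>
    ⟨by exact_mod_cast e1, by exact_mod_cast e2, by
      have : (U : ℝ) + b = D + a := by exact_mod_cast e3
      linarith⟩
  unfold mU mD
  split_ifs at k1 k2 k3 ⊢ <;> first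
    | omega
    | simpa using k4 0 1 (by omega) (by omega) (by omega)
    | simpa using k4 1 0 (by omega) (by omega) (by omega)
    | simpa using k4 1 1 (by omega) (by omega) (by omega)

end

section


theorem item_SHM {h d X Y : ℤ} (m : ℝ) (f : ℤ → ℝ) {E : ℝ} (h1 : X ≤ h ∧ h ≤ Y)
    (h2 : X ≤ h + d ∧ h + d ≤ Y) (E0 : 0 ≤ E)
    (hf : ∀ c, min h (h + d) ≤ c → c < max h (h + d) → |f c - f h| ≤ E) :
    |∑ c ∈ Icc X Y, (if d = 0 then (if h = c then m else 0)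
      else if min h (h + d) ≤ c ∧ c < max h (h + d) then m / |(d : ℝ)| else 0) * f c - m * f h| ≤
      |m| * E := by
  by_cases hd : d = 0
  · simp only [if_pos hd, ite_mul, zero_mul, sum_ite_eq, mem_Icc, if_pos h1, sub_self, abs_zero]
    positivity
  · have d0 : (0 : ℝ) < |(d : ℝ)| := abs_pos.2 (by exact_mod_cast hd)
    have e : (Icc X Y).filter (fun c => min h (h + d) ≤ c ∧ c < max h (h + d)) =
        Ico (min h (h + d)) (max h (h + d)) := by
      ext c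
      simp only [mem_filter, mem_Icc, mem_Ico]
      omega
    have k : ((Ico (min h (h + d)) (max h (h + d))).card : ℝ) = |(d : ℝ)| := by
      have : ((Ico (min h (h + d)) (max h (h + d))).card : ℤ) = |d| := by
        rw [Int.card_Ico_of_le _ _ min_le_max, max_sub_min_eq_abs, add_sub_cancel_left]
      exact_mod_cast this
    simp only [if_neg hd, ite_mul, zero_mul]
    rw [← sum_filter, e]
    have e2 : m * f h = ∑ c ∈ Ico (min h (h + d)) (max h (h + d)), m / |(d : ℝ)| * f h := by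
      rw [sum_const, nsmul_eq_mul, k]
      field_simp
    rw [e2, ← sum_sub_distrib]
    refine (abs_sum_le_sum_abs _ _).trans ((sum_le_card_nsmul _ _ (|m| / |(d : ℝ)| * E)
      fun c hc => ?_).trans (le_of_eq ?_))
    · rw [← mul_sub, abs_mul, abs_div, abs_abs]
      exact mul_le_mul_of_nonneg_left (hf c (mem_Ico.1 hc).1 (mem_Ico.1 hc).2) (by positivity)
    · rw [nsmul_eq_mul, k]
      field_simp

theorem SHM_pf : SHM_st.{u} := by
  intro α P r A
  obtain ⟨B, -, hB⟩ := P.bd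
  obtain ⟨G, G1, hG⟩ : ∃ G : ℝ, 1 ≤ G ∧ B * |A| ≤ G :=
    ⟨B * |A| + 1, le_add_of_nonneg_left (by positivity), by linarith⟩
  have GC : G ≤ (r + 1) * G ^ (r + 1) :=
    (le_self_pow₀ G1 r.succ_ne_zero).trans (le_mul_of_one_le_left (by positivity) (by simp))
  refine ⟨(r + 1) * G ^ (r + 1), by positivity, fun I K X Y K1 hI ht hXY => ?_⟩
  have B0 : (0 : ℝ) ≤ B := B.cast_nonneg
  have hd : ∀ i < I.n, |(I.d i : ℝ)| ≤ I.w i * B := fun i hi => by
    obtain ⟨a, b, -, c⟩ := hI i hi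
    rw [c, abs_mul, abs_of_nonneg b]
    exact mul_le_mul_of_nonneg_left (hB _ a).2.1 b
  have hm : ∀ i < I.n, |I.w i * P.β (I.x i)| ≤ I.w i * B := fun i hi => by
    obtain ⟨a, b, -⟩ := hI i hi
    rw [abs_mul, abs_of_nonneg b]
    exact mul_le_mul_of_nonneg_left (hB _ a).2.2 b
  have hw : ∀ i < I.n, I.w i * B ≤ G := fun i hi =>
    (mul_le_mul_of_nonneg_right ((hI i hi).2.2.1.trans (le_abs_self A)) B0).trans
      ((mul_comm _ _).le.trans hG)
  have hT : ∑ i ∈ range I.n, I.w i * B ≤ G * K := by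
    rw [← sum_mul]
    have h1 := mul_le_mul_of_nonneg_right (ht.trans
      (mul_le_mul_of_nonneg_right (le_abs_self A) (zero_le_one.trans K1))) B0
    exact h1.trans (by nlinarith)
  have hh : ∀ i ≤ I.n, |(I.h i : ℝ)| ≤ G * K := fun i hi => by
    rw [Itm.h, Int.cast_sum]
    refine (abs_sum_le_sum_abs _ _).trans ((sum_le_sum fun j hj =>
      hd j ((mem_range.1 hj).trans_le hi)).trans (le_trans ?_ hT))
    exact sum_le_sum_of_subset_of_nonneg (range_subset_range.2 hi) fun j hj _ =>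
      mul_nonneg (hI j (mem_range.1 hj)).2.1 B0
  have hc : ∀ i < I.n, ∀ c, min (I.h i) (I.h i + I.d i) ≤ c → c < max (I.h i) (I.h i + I.d i) →
      |(c : ℝ) - I.h i| ≤ G := fun i hi c c1 c2 => by
    have : |c - I.h i| ≤ |I.d i| := by
      rw [abs_le]
      rcases abs_cases (I.d i) with h | h <;> omega
    exact le_trans (by exact_mod_cast this) ((hd i hi).trans (hw i hi))
  refine ⟨fun i hi => (hh i hi).trans (mul_le_mul_of_nonneg_right GC (by linarith)),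
    fun c => ?_, fun e he => ?_⟩
  · rw [Itm.tot, card_filter, Nat.cast_sum, mul_sum]
    refine (abs_sum_le_sum_abs _ _).trans (sum_le_sum fun i hi => ?_)
    have hi' := mem_range.1 hi
    have h1 := ((hm i hi').trans (hw i hi')).trans GC
    rw [Itm.share, Itm.h_succ]
    by_cases h0 : I.d i = 0
    · rw [if_pos h0]
      by_cases h2 : I.h i = c
      · rw [if_pos h2, if_pos (by simp [h2]; positivity)]
        simpa using h1
      · rw [if_neg h2, abs_zero]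
        positivity
    · rw [if_neg h0]
      by_cases h2 : min (I.h i) (I.h i + I.d i) ≤ c ∧ c < max (I.h i) (I.h i + I.d i)
      · rw [if_pos h2, if_pos (by
          rw [Int.cast_sub, abs_sub_comm]
          exact (hc i hi' c h2.1 h2.2).trans GC), abs_div, abs_abs, Nat.cast_one, mul_one]
        exact (div_le_self (abs_nonneg _) (by exact_mod_cast Int.one_le_abs h0)).trans h1
      · rw [if_neg h2, abs_zero]
        positivity
  · simp only [Itm.tot, sum_mul, Itm.mom]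
    rw [sum_comm, ← sum_sub_distrib]
    have K0 : 0 < K := by linarith
    refine (abs_sum_le_sum_abs _ _).trans ((sum_le_sum
      (g := fun i => I.w i * B * (r * G ^ r * K ^ e / K)) fun i hi => ?_).trans ?_)
    · have hi' := mem_range.1 hi
      simp only [Itm.share, Itm.h_succ]
      refine (item_SHM _ (fun c => (c : ℝ) ^ e) (hXY i hi'.le) (I.h_succ i ▸ hXY (i + 1) hi')
        (by positivity) fun c c1 c2 => ?_).trans
        (mul_le_mul_of_nonneg_right (hm i hi') (by positivity))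
      have h1 := abs_le.1 (hh i hi'.le)
      have h2 := abs_le.1 (hh (i + 1) hi')
      rw [I.h_succ] at h2
      have h3 : |(c : ℝ)| ≤ G * K := by
        have a : ((min (I.h i) (I.h i + I.d i) : ℤ) : ℝ) ≤ c := by exact_mod_cast c1
        have b : (c : ℝ) ≤ (max (I.h i) (I.h i + I.d i) : ℤ) := by exact_mod_cast c2.le
        rw [Int.cast_min] at a
        rw [Int.cast_max] at b
        exact abs_le.2 ⟨(le_min h1.1 h2.1).trans a, b.trans (max_le h1.2 h2.2)⟩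
      have h4 := (pow_dif h3 (hh i hi'.le) e).trans (mul_le_mul_of_nonneg_right
        (mul_le_mul (show (e : ℝ) ≤ r by exact_mod_cast he.le) (hc i hi' c c1 c2) (abs_nonneg _)
          r.cast_nonneg) (by positivity))
      rw [mul_pow] at h4
      rw [le_div_iff₀ K0]
      refine le_of_mul_le_mul_left ?_ (show 0 < G by linarith)
      have h5 := mul_le_mul_of_nonneg_left (pow_le_pow_right₀ G1 he.le)
        (show (0 : ℝ) ≤ r * G * K ^ e by positivity)
      linarith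
    · rw [← sum_mul]
      refine (mul_le_mul_of_nonneg_right hT (by positivity)).trans ?_
      rw [show G * K * (r * G ^ r * K ^ e / K) = r * G ^ (r + 1) * K ^ e by field_simp; ring]
      gcongr
      linarith

end

section


section
variable {α : Type u}

/-- the upward crossings of a cell -/
def up_W2C (I : Itm α) (c : ℤ) : Finset ℕ :=
  (range I.n).filter fun i => I.h i ≤ c ∧ c < I.h (i + 1)

/-- the downward crossings of a cell -/
def dn_W2C (I : Itm α) (c : ℤ) : Finset ℕ :=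
  (range I.n).filter fun i => I.h (i + 1) ≤ c ∧ c < I.h i

/-- the vertical items in a cell -/
def vt_W2C (I : Itm α) (c : ℤ) : Finset ℕ :=
  (range I.n).filter fun i => I.d i = 0 ∧ I.h i = c

/-- the letter frequencies in a set of items -/
def wt_W2C [DecidableEq α] (I : Itm α) (S : Finset ℕ) (m : ℝ) (s : α) : ℝ :=
  m * (S.filter fun i => I.x i = s).card / S.card

theorem wt_sum_W2C [DecidableEq α] (I : Itm α) {S : Finset ℕ} {T : Finset α}
    (hS : ∀ i ∈ S, I.x i ∈ T) (m : ℝ) (f : α → ℝ) :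
    ∑ s ∈ T, wt_W2C I S m s * f s = m * (∑ i ∈ S, f (I.x i)) / S.card := by
  rw [← sum_fiberwise_of_maps_to hS, mul_sum, sum_div]
  refine sum_congr rfl fun s _ => ?_
  rw [sum_congr rfl (g := fun _ => f s) fun i hi => by rw [(mem_filter.1 hi).2], sum_const,
    nsmul_eq_mul, wt_W2C]
  ring

theorem frac_W2C {m u : ℝ} (h0 : 0 ≤ m) (h : m ≤ u) : 0 ≤ 1 - m / u ∧ m / u * u = m := by
  refine ⟨sub_nonneg.2 (div_le_one_of_le₀ h (h0.trans h)), ?_⟩
  rcases eq_or_ne u 0 with rfl | hu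
  · rw [mul_zero, le_antisymm h h0]
  · exact div_mul_cancel₀ m hu

theorem wt_ok_W2C [DecidableEq α] (I : Itm α) {S : Finset ℕ} {T : Finset α}
    (hS : ∀ i ∈ S, I.x i ∈ T) {m : ℝ} (h0 : 0 ≤ m) (h : m ≤ S.card) {p : α → Prop}
    (hp : ∀ i ∈ S, p (I.x i)) :
    (∀ s ∈ T, 0 ≤ wt_W2C I S m s ∧ (wt_W2C I S m s ≠ 0 → p s)) ∧
      ∑ s ∈ T, wt_W2C I S m s = m := by
  refine ⟨fun s _ => ⟨by unfold wt_W2C; positivity, fun h1 => ?_⟩, ?_⟩
  · by_contra h2
    apply h1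
    rw [wt_W2C, filter_eq_empty_iff.2 fun i hi (e : I.x i = s) => h2 (e ▸ hp i hi)]
    simp
  · have := wt_sum_W2C I hS m fun _ => 1
    simp only [mul_one, sum_const, nsmul_eq_mul] at this
    rw [this, mul_div_right_comm, (frac_W2C h0 h).2]

theorem core_W2C {θ l u v m n S T V S1 T1 V1 : ℝ} (m0 : 0 ≤ m) (m1 : m ≤ u) (n0 : 0 ≤ n)
    (n1 : n ≤ v) (h : u - m = v - n) (hS : |S + l * u| ≤ θ * S1) (hT : |T + -l * v| ≤ θ * T1)
    (hV : |V| ≤ θ * V1) :
    |S + T + V - (m * S / u + n * T / v)| ≤ θ * (S1 + T1 + V1 - (m * S1 / u + n * T1 / v)) := by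
  obtain ⟨p0, p1⟩ := frac_W2C m0 m1
  obtain ⟨q0, q1⟩ := frac_W2C n0 n1
  rw [mul_div_right_comm m, mul_div_right_comm n, mul_div_right_comm m, mul_div_right_comm n]
  generalize m / u = p at *
  generalize n / v = q at *
  have e : S + T + V - (p * S + q * T) = (1 - p) * (S + l * u) + (1 - q) * (T + -l * v) + V := by
    linear_combination l * p1 - l * q1 - l * h
  have k1 := mul_le_mul_of_nonneg_left hS p0
  have k2 := mul_le_mul_of_nonneg_left hT q0
  have k3 := abs_add_three ((1 - p) * (S + l * u)) ((1 - q) * (T + -l * v)) V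
  rw [abs_mul, abs_mul, abs_of_nonneg p0, abs_of_nonneg q0] at k3
  rw [e]
  linarith

theorem avg_W2C {m S u B : ℝ} (m0 : 0 ≤ m) (m1 : m ≤ 1) (u0 : 0 ≤ u) (B0 : 0 ≤ B)
    (h : |S| ≤ B * u) : |m * S / u| ≤ B := by
  rw [mul_div_assoc, abs_mul, abs_of_nonneg m0, abs_div, abs_of_nonneg u0]
  exact (mul_le_of_le_one_left (by positivity) m1).trans (div_le_of_le_mul₀ u0 B0 h)

theorem quo_W2C {b l t θ : ℝ} (ht : 0 < t) (h : |b + l * t| ≤ θ) : |b / t + l| ≤ θ * (1 / t) := by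
  rw [div_add' _ _ _ ht.ne', abs_div, abs_of_pos ht, mul_one_div]
  exact div_le_div_of_nonneg_right h ht.le

theorem sum_W2C {S : Finset ℕ} {f g : ℕ → ℝ} {l θ : ℝ} (h : ∀ i ∈ S, |f i + l| ≤ θ * g i) :
    |∑ i ∈ S, f i + l * S.card| ≤ θ * ∑ i ∈ S, g i := by
  have e : ∑ i ∈ S, f i + l * S.card = ∑ i ∈ S, (f i + l) := by
    rw [sum_add_distrib, sum_const, nsmul_eq_mul, mul_comm]
  rw [e, mul_sum]
  exact (abs_sum_le_sum_abs _ _).trans (sum_le_sum h)

variable {I : Itm α} {P : Alph α} {A : ℝ}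

theorem up_pos_W2C (hI : I.Ok P A) {c : ℤ} {i : ℕ} (hi : i ∈ up_W2C I c) :
    I.x i ∈ P.T ∧ 0 < P.a (I.x i) := by
  obtain ⟨h1, h2, h3⟩ := mem_filter.1 hi
  obtain ⟨k1, k2, -, k4⟩ := hI i (mem_range.1 h1)
  refine ⟨k1, lt_of_not_ge fun h => ?_⟩
  rw [I.h_succ] at h3
  have h4 : (0 : ℝ) < I.d i := by exact_mod_cast (by omega : 0 < I.d i)
  have h5 : (P.a (I.x i) : ℝ) ≤ 0 := by exact_mod_cast h
  nlinarith [mul_nonneg k2 (neg_nonneg.2 h5)]

theorem dn_neg_W2C (hI : I.Ok P A) {c : ℤ} {i : ℕ} (hi : i ∈ dn_W2C I c) :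
    I.x i ∈ P.T ∧ P.a (I.x i) < 0 := by
  obtain ⟨h1, h2, h3⟩ := mem_filter.1 hi
  obtain ⟨k1, k2, -, k4⟩ := hI i (mem_range.1 h1)
  refine ⟨k1, lt_of_not_ge fun h => ?_⟩
  rw [I.h_succ] at h2
  have h4 : (I.d i : ℝ) < 0 := by exact_mod_cast (by omega : I.d i < 0)
  have h5 : (0 : ℝ) ≤ P.a (I.x i) := by exact_mod_cast h
  nlinarith [mul_nonneg k2 h5]

theorem split_W2C (hI : I.Ok P A) (f : α → ℝ) (c : ℤ) :
    I.tot f c = ∑ i ∈ up_W2C I c, f (I.x i) / |(P.a (I.x i) : ℝ)| +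
      ∑ i ∈ dn_W2C I c, f (I.x i) / |(P.a (I.x i) : ℝ)| +
      ∑ i ∈ vt_W2C I c, I.w i * f (I.x i) := by
  rw [up_W2C, dn_W2C, vt_W2C, sum_filter, sum_filter, sum_filter, ← sum_add_distrib,
    ← sum_add_distrib]
  refine sum_congr rfl fun i hi => ?_
  obtain ⟨-, k2, -, k4⟩ := hI i (mem_range.1 hi)
  rw [Itm.share, I.h_succ]
  by_cases hd : I.d i = 0
  · rw [if_pos hd, if_neg (by omega : ¬ (I.h i ≤ c ∧ c < I.h i + I.d i)),
      if_neg (by omega : ¬ (I.h i + I.d i ≤ c ∧ c < I.h i)), zero_add, zero_add]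
    by_cases h : I.h i = c
    · rw [if_pos h, if_pos ⟨hd, h⟩]
    · rw [if_neg h, if_neg fun k => h k.2]
  · have hw : I.w i ≠ 0 := fun h => hd (by rw [h, zero_mul] at k4; exact_mod_cast k4)
    rw [if_neg hd, if_neg fun k : I.d i = 0 ∧ I.h i = c => hd k.1, add_zero, k4, abs_mul,
      abs_of_nonneg k2, mul_div_mul_left _ _ hw]
    by_cases h1 : I.h i ≤ c ∧ c < I.h i + I.d i
    · rw [if_pos h1, if_pos (by omega), if_neg (by omega), add_zero]
    · by_cases h2 : I.h i + I.d i ≤ c ∧ c < I.h i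
      · rw [if_neg h1, if_pos h2, if_pos (by omega), zero_add]
      · rw [if_neg h1, if_neg h2, if_neg (by omega), add_zero]

theorem vtle_W2C (hI : I.Ok P A) (c : ℤ) :
    |∑ i ∈ vt_W2C I c, I.w i * P.β (I.x i)| ≤ P.θ * ∑ i ∈ vt_W2C I c, I.w i * 1 := by
  have := sum_W2C (S := vt_W2C I c) (f := fun i => I.w i * P.β (I.x i))
    (g := fun i => I.w i * 1) (l := 0) (θ := P.θ) fun i hi => by
      obtain ⟨h1, h2, -⟩ := mem_filter.1 hi
      obtain ⟨k1, k2, -, k4⟩ := hI i (mem_range.1 h1)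
      rw [h2, Int.cast_zero] at k4
      have e : I.w i * P.β (I.x i) + 0 = I.w i * (P.β (I.x i) + P.lam * P.a (I.x i)) := by
        linear_combination P.lam * k4
      rw [e, abs_mul, abs_of_nonneg k2, mul_one, mul_comm]
      exact mul_le_mul_of_nonneg_right (abs_le.2 ⟨P.lo _ k1, P.up _ k1⟩) k2
  rwa [zero_mul, add_zero] at this

theorem time_W2C {X Y : ℤ} (h : ∀ i ≤ I.n, X ≤ I.h i ∧ I.h i ≤ Y) :
    ∑ c ∈ Icc X Y, I.tot (fun _ => 1) c = I.time := by
  simp only [Itm.tot]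
  rw [sum_comm]
  refine sum_congr rfl fun i hi => ?_
  have h1 := h i (mem_range.1 hi).le
  have h2 := h (i + 1) (mem_range.1 hi)
  simp only [Itm.share]
  by_cases hd : I.d i = 0
  · simp only [if_pos hd]
    rw [sum_ite_eq, if_pos (mem_Icc.2 h1), mul_one]
  · simp only [if_neg hd]
    have e : (Icc X Y).filter (fun c => min (I.h i) (I.h (i + 1)) ≤ c ∧
        c < max (I.h i) (I.h (i + 1))) =
        Ico (min (I.h i) (I.h (i + 1))) (max (I.h i) (I.h (i + 1))) := by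
      ext c
      rw [mem_filter, mem_Icc, mem_Ico]
      omega
    have e1 : (((max (I.h i) (I.h (i + 1)) - min (I.h i) (I.h (i + 1))).toNat : ℕ) : ℝ) =
        |(I.d i : ℝ)| := by
      rw [max_sub_min_eq_abs, I.h_succ, add_sub_cancel_left, ← Int.cast_natCast,
        Int.toNat_of_nonneg (abs_nonneg _), Int.cast_abs]
    rw [← sum_filter, e, sum_const, nsmul_eq_mul, Int.card_Ico, e1, mul_one,
      mul_div_cancel₀ _ (abs_ne_zero.2 (by exact_mod_cast hd))]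

theorem m01_W2C (n c : ℤ) : (0 ≤ mU n c ∧ mU n c ≤ 1) ∧ 0 ≤ mD n c ∧ mD n c ≤ 1 := by
  unfold mU mD
  split_ifs <;> norm_num

/-- the mass of the forced crossings of a cell -/
def fo_W2C [DecidableEq α] (I : Itm α) (P : Alph α) (f : α → ℝ) (c : ℤ) : ℝ :=
  ∑ s ∈ P.T, (wt_W2C I (up_W2C I c) (mU (I.h I.n) c) s +
    wt_W2C I (dn_W2C I c) (mD (I.h I.n) c) s) * f s / |(P.a s : ℝ)|

theorem fo_eq_W2C [DecidableEq α] (hI : I.Ok P A) (f : α → ℝ) (c : ℤ) :
    fo_W2C I P f c =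
      mU (I.h I.n) c * (∑ i ∈ up_W2C I c, f (I.x i) / |(P.a (I.x i) : ℝ)|) / (up_W2C I c).card +
      mD (I.h I.n) c * (∑ i ∈ dn_W2C I c, f (I.x i) / |(P.a (I.x i) : ℝ)|) /
        (dn_W2C I c).card := by
  rw [← wt_sum_W2C I (fun i hi => (up_pos_W2C hI hi).1) _ fun s => f s / |(P.a s : ℝ)|,
    ← wt_sum_W2C I (fun i hi => (dn_neg_W2C hI hi).1) _ fun s => f s / |(P.a s : ℝ)|,
    ← sum_add_distrib]
  exact sum_congr rfl fun s _ => by ring

theorem fo_le_W2C [DecidableEq α] (hI : I.Ok P A) {B : ℝ} (B0 : 0 ≤ B)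
    (hB : ∀ s ∈ P.T, |P.β s| ≤ B) (c : ℤ) : |fo_W2C I P P.β c| ≤ 2 * B := by
  have key : ∀ S : Finset ℕ, (∀ i ∈ S, I.x i ∈ P.T ∧ P.a (I.x i) ≠ 0) →
      |∑ i ∈ S, P.β (I.x i) / abs (P.a (I.x i) : ℝ)| ≤ B * S.card := fun S hS => by
    refine (abs_sum_le_sum_abs _ _).trans ((sum_le_card_nsmul _ _ B fun i hi => ?_).trans_eq ?_)
    · rw [abs_div, abs_abs]
      refine (div_le_self (abs_nonneg _) ?_).trans (hB _ (hS i hi).1)
      exact_mod_cast Int.one_le_abs (hS i hi).2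
    · rw [nsmul_eq_mul, mul_comm]
  obtain ⟨⟨a0, a1⟩, b0, b1⟩ := m01_W2C (I.h I.n) c
  have k1 := avg_W2C a0 a1 (Nat.cast_nonneg _) B0
    (key (up_W2C I c) fun i hi => ⟨(up_pos_W2C hI hi).1, (up_pos_W2C hI hi).2.ne'⟩)
  have k2 := avg_W2C b0 b1 (Nat.cast_nonneg _) B0
    (key (dn_W2C I c) fun i hi => ⟨(dn_neg_W2C hI hi).1, (dn_neg_W2C hI hi).2.ne⟩)
  rw [fo_eq_W2C hI]
  exact (abs_add_le _ _).trans (by linarith)

theorem cell_W2C [DecidableEq α] (hI : I.Ok P A) {c : ℤ}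
    (h1 : mU (I.h I.n) c ≤ (up_W2C I c).card) (h2 : mD (I.h I.n) c ≤ (dn_W2C I c).card)
    (h3 : (up_W2C I c).card - mU (I.h I.n) c = (dn_W2C I c).card - mD (I.h I.n) c) :
    |I.tot P.β c - fo_W2C I P P.β c| ≤
      P.θ * (I.tot (fun _ => 1) c - fo_W2C I P (fun _ => 1) c) := by
  rw [fo_eq_W2C hI, fo_eq_W2C hI, split_W2C hI, split_W2C hI]
  refine core_W2C (l := P.lam) (m01_W2C _ _).1.1 h1 (m01_W2C _ _).2.1 h2 h3
    (sum_W2C fun i hi => ?_) (sum_W2C fun i hi => ?_) (vtle_W2C hI c)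
  · obtain ⟨k1, k2⟩ := up_pos_W2C hI hi
    have k3 : (0 : ℝ) < P.a (I.x i) := by exact_mod_cast k2
    rw [abs_of_pos k3]
    exact quo_W2C k3 (abs_le.2 ⟨P.lo _ k1, P.up _ k1⟩)
  · obtain ⟨k1, k2⟩ := dn_neg_W2C hI hi
    have k3 : (P.a (I.x i) : ℝ) < 0 := by exact_mod_cast k2
    rw [abs_of_neg k3]
    refine quo_W2C (neg_pos.2 k3) ?_
    rw [neg_mul_neg]
    exact abs_le.2 ⟨P.lo _ k1, P.up _ k1⟩

theorem top_W2C [DecidableEq α] (hI : I.Ok P A) {Y : ℤ} (h : ∀ i ≤ I.n, I.h i ≤ Y) :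
    (∀ f, fo_W2C I P f Y = 0) ∧ |I.tot P.β Y| ≤ P.θ * I.tot (fun _ => 1) Y := by
  have e1 : up_W2C I Y = ∅ :=
    filter_eq_empty_iff.2 fun i hi k => k.2.not_ge (h (i + 1) (mem_range.1 hi))
  have e2 : dn_W2C I Y = ∅ :=
    filter_eq_empty_iff.2 fun i hi k => k.2.not_ge (h i (mem_range.1 hi).le)
  refine ⟨fun f => by rw [fo_eq_W2C hI, e1, e2]; simp, ?_⟩
  rw [split_W2C hI, split_W2C hI, e1, e2]
  simpa only [sum_empty, zero_add] using vtle_W2C hI Y

end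

theorem W2C_pf (h1 : CRS_st) (h2 : SHM_st.{u}) : W2C_st.{u} := by
  intro α P r A
  classical
  obtain ⟨C, C0, hC⟩ := h2 α P r A
  obtain ⟨B, -, hB⟩ := P.bd
  have B0 : (0 : ℝ) ≤ B := Nat.cast_nonneg B
  refine ⟨C + 2 * B, by positivity, fun I K hK hI ht => ?_⟩
  obtain ⟨i0, a0, a1⟩ := exists_min_image (range (I.n + 1)) I.h nonempty_range_add_one
  obtain ⟨i1, b0, b1⟩ := exists_max_image (range (I.n + 1)) I.h nonempty_range_add_one
  have hX : ∃ i ≤ I.n, I.h i = I.h i0 := ⟨i0, Nat.le_of_lt_succ (mem_range.1 a0), rfl⟩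
  have hY : ∃ i ≤ I.n, I.h i = I.h i1 := ⟨i1, Nat.le_of_lt_succ (mem_range.1 b0), rfl⟩
  have hr : ∀ i ≤ I.n, I.h i0 ≤ I.h i ∧ I.h i ≤ I.h i1 := fun i hi =>
    ⟨a1 i (mem_range.2 (Nat.lt_succ_of_le hi)), b1 i (mem_range.2 (Nat.lt_succ_of_le hi))⟩
  generalize I.h i0 = X at *
  generalize I.h i1 = Y at *
  have h0 := hr 0 (Nat.zero_le _)
  rw [I.h_zero] at h0
  have hc : ∀ c ∈ Ico X Y, _ := fun c hc =>
    h1 I.n I.h X Y c I.h_zero hX hY (mem_Ico.1 hc).1 (mem_Ico.1 hc).2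
  obtain ⟨t1, t2⟩ := top_W2C hI fun i hi => (hr i hi).2
  have hs : ∀ g : ℤ → ℝ, ∑ c ∈ Icc X Y, g c = g Y + ∑ c ∈ Ico X Y, g c := fun g => by
    rw [← Ico_insert_right (h0.1.trans h0.2), sum_insert right_notMem_Ico]
  refine ⟨⟨X, Y, I.h I.n, fun c => wt_W2C I (up_W2C I c) (mU (I.h I.n) c),
    fun c => wt_W2C I (dn_W2C I c) (mD (I.h I.n) c), fun c => I.tot P.β c - fo_W2C I P P.β c⟩,
    ⟨h0.1, (hr _ le_rfl).1, h0.2, (hr _ le_rfl).2, fun c hc' => ?_⟩, rfl, hr, hX, hY, ?_,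
    fun e he => ?_, fun c _ => ?_⟩
  · obtain ⟨k1, k2⟩ := wt_ok_W2C I (fun i hi => (up_pos_W2C hI hi).1) (m01_W2C _ _).1.1
      (hc c hc').1 (p := fun s => 0 < P.a s) fun i hi => (up_pos_W2C hI hi).2
    obtain ⟨k3, k4⟩ := wt_ok_W2C I (fun i hi => (dn_neg_W2C hI hi).1) (m01_W2C _ _).2.1
      (hc c hc').2.1 (p := fun s => P.a s < 0) fun i hi => (dn_neg_W2C hI hi).2
    exact ⟨k1, k2, k3, k4⟩
  · have e : ∑ c ∈ Ico X Y, ∑ s ∈ P.T, (wt_W2C I (up_W2C I c) (mU (I.h I.n) c) s +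
        wt_W2C I (dn_W2C I c) (mD (I.h I.n) c) s) / |(P.a s : ℝ)| =
        ∑ c ∈ Ico X Y, fo_W2C I P (fun _ => 1) c := by
      simp only [fo_W2C, mul_one]
    have k1 : ∑ c ∈ Ico X Y, |I.tot P.β c - fo_W2C I P P.β c| / P.θ ≤
        ∑ c ∈ Ico X Y, (I.tot (fun _ => 1) c - fo_W2C I P (fun _ => 1) c) :=
      sum_le_sum fun c hc' => (div_le_iff₀' P.θ_pos).2
        (cell_W2C hI (hc c hc').1 (hc c hc').2.1 (hc c hc').2.2)
    have k2 := (div_le_iff₀' P.θ_pos).2 t2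
    rw [sum_sub_distrib] at k1
    rw [← time_W2C hr, hs]
    simp only [Cfg.time, Cfg.time0]
    rw [e, hs, t1, sub_zero]
    linarith
  · have e : ∑ c ∈ Ico X Y, fo_W2C I P P.β c * (c : ℝ) ^ e +
        ∑ c ∈ Icc X Y, (I.tot P.β c - fo_W2C I P P.β c) * (c : ℝ) ^ e =
        ∑ c ∈ Icc X Y, I.tot P.β c * (c : ℝ) ^ e := by
      simp only [sub_mul, sum_sub_distrib]
      rw [hs fun c => fo_W2C I P P.β c * (c : ℝ) ^ e, t1]
      ring
    refine le_trans (le_of_eq ?_) (((hC I K X Y hK hI ht hr).2.2 _ he).trans ?_)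
    · rw [← e]
      rfl
    · exact mul_le_mul_of_nonneg_right (by linarith) (by positivity)
  · have := fo_le_W2C hI B0 (fun s hs => (hB s hs).2.2) c
    dsimp only
    rw [sub_sub_cancel_left, abs_neg]
    linarith

end

section


theorem abs_RNG2 (w d H : ℕ → ℝ) (n : ℕ) (B : ℝ) (h0 : H 0 = 0) (hs : ∀ i, H (i + 1) = H i + d i)
    (hd : ∀ i < n, |d i| ≤ B * w i) : ∀ m ≤ n, |H m| ≤ B * ∑ i ∈ range m, w i := by
  intro m
  induction m with
  | zero => simp [h0]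
  | succ m ih =>
    intro hm
    rw [hs, sum_range_succ, mul_add]
    exact (abs_add_le _ _).trans (add_le_add (ih (by omega)) (hd m hm))

theorem cube_RNG2 (w d H : ℕ → ℝ) (n : ℕ) (B K : ℝ) (hB : 1 ≤ B) (hK : 1 ≤ K) (h0 : H 0 = 0)
    (hs : ∀ i, H (i + 1) = H i + d i) (hw : ∀ i < n, 0 ≤ w i ∧ w i ≤ 1)
    (hd : ∀ i < n, |d i| ≤ B * w i) (hH : ∀ i < n, |H i| ≤ B * K) :
    ∀ m ≤ n, |3 * ∑ i ∈ range m, d i * H i ^ 2 - H m ^ 3| ≤ 4 * B ^ 3 * K * ∑ i ∈ range m, w i := by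
  intro m
  induction m with
  | zero => simp [h0]
  | succ m ih =>
    intro hm
    have e : 3 * ∑ i ∈ range (m + 1), d i * H i ^ 2 - H (m + 1) ^ 3 =
        (3 * ∑ i ∈ range m, d i * H i ^ 2 - H m ^ 3) - d m * (d m * (3 * H m + d m)) := by
      rw [hs, sum_range_succ]
      ring
    rw [e, sum_range_succ w, mul_add (4 * B ^ 3 * K)]
    refine (abs_sub _ _).trans (add_le_add (ih (by omega)) ?_)
    obtain ⟨w0, w1⟩ := hw m hm
    have d1 := hd m hm
    have d2 : |d m| ≤ B := d1.trans (by nlinarith)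
    have d3 : |3 * H m + d m| ≤ 4 * (B * K) := by
      have := abs_add_le (3 * H m) (d m)
      rw [abs_mul, abs_of_pos (by norm_num : (0 : ℝ) < 3)] at this
      nlinarith [hH m hm]
    rw [abs_mul, abs_mul]
    calc _ ≤ B * w m * (B * (4 * (B * K))) := by gcongr
      _ = _ := by ring

theorem key_RNG2 {θ c Y h : ℝ} (hθ : 0 < θ) (hc : 0 ≤ c) (hh : 0 < h) {u v : ℝ} (hu : 0 ≤ u)
    (huv : u + v = θ * c) (h1 : θ * Y ^ 3 ≤ u * h ^ 3 + v * h * Y ^ 2) : Y ≤ (c + 1) * h := by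
  by_contra hn
  have h2 : (c + 1) * h < Y := not_le.1 hn
  have h3 : h ≤ Y := by nlinarith
  have hY : 0 < Y := hh.trans_le h3
  have h4 : h ^ 2 ≤ Y ^ 2 := pow_le_pow_left₀ hh.le h3 2
  have h5 : u * h ^ 3 ≤ u * h * Y ^ 2 := by
    have := mul_le_mul_of_nonneg_left h4 (mul_nonneg hu hh.le)
    linarith
  have h6 : θ * Y ^ 2 * ((c + 1) * h) < θ * Y ^ 2 * Y :=
    mul_lt_mul_of_pos_left h2 (by positivity)
  have h7 : u * h * Y ^ 2 + v * h * Y ^ 2 = θ * c * (h * Y ^ 2) := by rw [← huv]; ring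
  have h8 : 0 < θ * Y ^ 2 * h := by positivity
  linarith

theorem RNG2_pf : RNG2_st.{u} := by
  intro α P a
  obtain ⟨B₀, hB₀, hb⟩ := P.bd
  have hB : (1 : ℝ) ≤ B₀ := by exact_mod_cast hB₀
  generalize (B₀ : ℝ) = B at hB hb
  have hθ := P.θ_pos
  obtain ⟨L, hL⟩ : ∃ L, L = |P.lam| := ⟨_, rfl⟩
  have hL0 : 0 ≤ L := hL ▸ abs_nonneg _
  obtain ⟨A, hA0, hA1⟩ : ∃ A : ℝ, a ≤ A ∧ 1 ≤ A := ⟨max a 1, le_max_left _ _, le_max_right _ _⟩
  obtain ⟨c1, hc1⟩ : ∃ c1 : ℝ, c1 = A + L * (A ^ 3 + 4 * B ^ 3) := ⟨_, rfl⟩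
  have hc10 : 0 ≤ c1 := by rw [hc1]; positivity
  obtain ⟨c2, hc2⟩ : ∃ c2 : ℝ, c2 = (3 * B * c1 + 4 * P.θ * B ^ 3 + 3 * B * A) / P.θ := ⟨_, rfl⟩
  have hc20 : 0 ≤ c2 := by rw [hc2]; positivity
  have hc2' : 3 * B * c1 + 4 * P.θ * B ^ 3 + 3 * B * A = P.θ * c2 := by
    rw [hc2, mul_div_cancel₀ _ hθ.ne']
  obtain ⟨c3, hc3⟩ : ∃ c3 : ℝ, c3 = B * (c1 + A * (c2 + 1) ^ 2) / P.θ := ⟨_, rfl⟩
  have hc30 : 0 ≤ c3 := by rw [hc3]; positivity
  have hc3' : B * (c1 + A * (c2 + 1) ^ 2) = P.θ * c3 := by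
    rw [hc3, mul_div_cancel₀ _ hθ.ne']
  refine ⟨c2 + 1 + c3, by linarith, ?_⟩
  intro I K h hK1 hh hKh ok htime h1 h2 h3
  have hAh : a * h ≤ A * h := mul_le_mul_of_nonneg_right hA0 hh.le
  have hAh3 : a * h ^ 3 ≤ A * h ^ 3 := mul_le_mul_of_nonneg_right hA0 (by positivity)
  have hs : ∀ i, (I.h (i + 1) : ℝ) = I.h i + I.d i := fun i => by rw [I.h_succ]; push_cast; rfl
  have h0 : (I.h 0 : ℝ) = 0 := by rw [I.h_zero]; simp
  have hw : ∀ i < I.n, 0 ≤ I.w i ∧ I.w i ≤ 1 := fun i hi => ⟨(ok i hi).2.1, (ok i hi).2.2.1⟩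
  have hd : ∀ i < I.n, |(I.d i : ℝ)| ≤ B * I.w i := fun i hi => by
    rw [(ok i hi).2.2.2, abs_mul, abs_of_nonneg (hw i hi).1, mul_comm]
    exact mul_le_mul_of_nonneg_right (hb _ (ok i hi).1).2.1 (hw i hi).1
  have hT : ∀ m ≤ I.n, ∑ i ∈ range m, I.w i ≤ K := fun m hm =>
    (sum_le_sum_of_subset_of_nonneg (range_mono hm) fun i hi _ => (hw i (mem_range.1 hi)).1).trans
      htime
  have hH : ∀ i < I.n, |(I.h i : ℝ)| ≤ B * K := fun i hi =>
    (abs_RNG2 I.w (fun i => I.d i) (fun i => I.h i) I.n B h0 hs hd i hi.le).trans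
      (mul_le_mul_of_nonneg_left (hT i hi.le) (by linarith))
  have hKK : 4 * B ^ 3 * K * K ≤ 4 * B ^ 3 * h ^ 3 := by
    have := mul_le_mul_of_nonneg_left hKh (show 0 ≤ 4 * B ^ 3 by positivity)
    linarith
  have hC : ∀ m ≤ I.n, |3 * ∑ i ∈ range m, (I.d i : ℝ) * (I.h i : ℝ) ^ 2 - (I.h m : ℝ) ^ 3| ≤
      4 * B ^ 3 * h ^ 3 := fun m hm =>
    ((cube_RNG2 I.w (fun i => I.d i) (fun i => I.h i) I.n B K hB hK1 h0 hs hw hd hH m hm).trans
      (mul_le_mul_of_nonneg_left (hT m hm) (by positivity))).trans hKK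
  obtain ⟨m, hm, hmax⟩ := exists_max_image (range (I.n + 1)) (fun i => |(I.h i : ℝ)|)
    ⟨0, mem_range.2 (Nat.succ_pos _)⟩
  have hm' : m ≤ I.n := Nat.lt_succ_iff.1 (mem_range.1 hm)
  obtain ⟨Y, hY⟩ : ∃ Y : ℝ, Y = |(I.h m : ℝ)| := ⟨_, rfl⟩
  have hY0 : 0 ≤ Y := hY ▸ abs_nonneg _
  have hle : ∀ i ≤ I.n, |(I.h i : ℝ)| ≤ Y := fun i hi =>
    hY ▸ hmax i (mem_range.2 (Nat.lt_succ_iff.2 hi))
  have hn : (I.h I.n : ℝ) = ∑ i ∈ range I.n, (I.d i : ℝ) := by simp [Itm.h]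
  have r1 : ∑ i ∈ range I.n, (P.θ * I.w i - I.w i * P.β (I.x i) - P.lam * I.d i) ≤ A * h := by
    rw [sum_sub_distrib, sum_sub_distrib, ← mul_sum, ← mul_sum, ← hn]
    simpa [Itm.time, Itm.mom] using h1.trans hAh
  have r2 : ∑ i ∈ range I.n, (P.θ * I.w i - I.w i * P.β (I.x i) - P.lam * I.d i) * (I.h i : ℝ) ^ 2
      ≤ A * h * Y ^ 2 := by
    refine le_trans ?_ (mul_le_mul_of_nonneg_right r1 (by positivity))
    rw [sum_mul]
    refine sum_le_sum fun i hi => mul_le_mul_of_nonneg_left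
      (sq_le_sq' (abs_le.1 (hle i (mem_range.1 hi).le)).1 (abs_le.1 (hle i (mem_range.1 hi).le)).2)
      ?_
    obtain ⟨a1, a2, -, a4⟩ := ok i (mem_range.1 hi)
    rw [a4]
    linarith only [mul_nonneg a2 (sub_nonneg.2 (P.up _ a1))]
  have r3 : P.θ * ∑ i ∈ range I.n, I.w i * (I.h i : ℝ) ^ 2 = I.mom P.β 2 +
      P.lam * ∑ i ∈ range I.n, (I.d i : ℝ) * (I.h i : ℝ) ^ 2 + ∑ i ∈ range I.n,
        (P.θ * I.w i - I.w i * P.β (I.x i) - P.lam * I.d i) * (I.h i : ℝ) ^ 2 := by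
    rw [Itm.mom, mul_sum, mul_sum, ← sum_add_distrib, ← sum_add_distrib]
    exact sum_congr rfl fun i _ => by ring
  have r4 : |∑ i ∈ range I.n, (I.d i : ℝ) * (I.h i : ℝ) ^ 2| ≤
      A ^ 3 * h ^ 3 + 4 * B ^ 3 * h ^ 3 := by
    have a1 : |(I.h I.n : ℝ) ^ 3| ≤ A ^ 3 * h ^ 3 := by
      rw [abs_pow, ← mul_pow]
      exact pow_le_pow_left₀ (abs_nonneg _) (h2.trans hAh) 3
    have a2 := abs_le.1 (hC _ le_rfl)
    have a3 := abs_le.1 a1
    have a4 : 0 ≤ A ^ 3 * h ^ 3 + 4 * B ^ 3 * h ^ 3 := by positivity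
    rw [abs_le]
    constructor <;> linarith only [a2.1, a2.2, a3.1, a3.2, a4]
  have r5 : P.lam * ∑ i ∈ range I.n, (I.d i : ℝ) * (I.h i : ℝ) ^ 2 ≤
      L * (A ^ 3 * h ^ 3 + 4 * B ^ 3 * h ^ 3) := by
    refine (le_abs_self _).trans ?_
    rw [abs_mul, ← hL]
    exact mul_le_mul_of_nonneg_left r4 hL0
  have r6 : |∑ i ∈ range m, (I.d i : ℝ) * (I.h i : ℝ) ^ 2| ≤
      B * ∑ i ∈ range I.n, I.w i * (I.h i : ℝ) ^ 2 := by
    refine (abs_sum_le_sum_abs _ _).trans ?_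
    rw [mul_sum]
    refine le_trans (sum_le_sum fun i hi => ?_) (sum_le_sum_of_subset_of_nonneg (range_mono hm')
      fun i hi _ => mul_nonneg (by linarith) (mul_nonneg (hw i (mem_range.1 hi)).1 (sq_nonneg _)))
    rw [abs_mul, abs_sq, ← mul_assoc]
    exact mul_le_mul_of_nonneg_right (hd i ((mem_range.1 hi).trans_le hm')) (sq_nonneg _)
  have r9 : |I.mom P.β 2| ≤ B * ∑ i ∈ range I.n, I.w i * (I.h i : ℝ) ^ 2 := by
    rw [Itm.mom, mul_sum]
    refine (abs_sum_le_sum_abs _ _).trans (sum_le_sum fun i hi => ?_)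
    have a1 := (hw i (mem_range.1 hi)).1
    have a2 := (hb _ (ok i (mem_range.1 hi)).1).2.2
    rw [abs_mul, abs_mul, abs_sq, abs_of_nonneg a1]
    have := mul_le_mul_of_nonneg_left a2 (mul_nonneg a1 (sq_nonneg (I.h i : ℝ)))
    linarith only [this]
  generalize ∑ i ∈ range I.n, I.w i * (I.h i : ℝ) ^ 2 = Q at r3 r6 r9
  have r7 : Y ^ 3 ≤ 3 * (B * Q) + 4 * B ^ 3 * h ^ 3 := by
    have a2 := abs_le.1 (hC m hm')
    have a3 := abs_le.1 r6
    rw [hY, ← abs_pow, abs_le]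
    constructor <;> linarith only [a2.1, a2.2, a3.1, a3.2]
  have r8 : P.θ * Q ≤ c1 * h ^ 3 + A * h * Y ^ 2 := by
    rw [r3, hc1]
    linarith only [h3, hAh3, r5, r2]
  have r10 : Y ≤ (c2 + 1) * h := by
    refine key_RNG2 hθ hc20 hh (u := 3 * B * c1 + 4 * P.θ * B ^ 3) (v := 3 * B * A)
      (by positivity) hc2' ?_
    have a1 := mul_le_mul_of_nonneg_left r7 hθ.le
    have a2 := mul_le_mul_of_nonneg_left r8 (show 0 ≤ 3 * B by linarith)
    linarith only [a1, a2]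
  have hh3 : 0 < h ^ 3 := by positivity
  refine ⟨fun i hi => ((hle i hi).trans r10).trans
    (mul_le_mul_of_nonneg_right (by linarith only [hc30]) hh.le), r9.trans ?_⟩
  have a1 : Y ^ 2 ≤ ((c2 + 1) * h) ^ 2 := pow_le_pow_left₀ hY0 r10 2
  have a2 := mul_le_mul_of_nonneg_left a1 (show 0 ≤ A * h by positivity)
  have a3 : P.θ * Q ≤ (c1 + A * (c2 + 1) ^ 2) * h ^ 3 := by linarith only [r8, a2]
  have a4 := mul_le_mul_of_nonneg_left a3 (show 0 ≤ B by linarith)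
  have a5 : P.θ * (B * Q) ≤ P.θ * (c3 * h ^ 3) := by
    rw [← mul_assoc P.θ c3, ← hc3']
    linarith only [a4]
  have a6 := le_of_mul_le_mul_left a5 hθ
  exact a6.trans (mul_le_mul_of_nonneg_right (by linarith only [hc20]) hh3.le)

end

section


lemma succ_SPR (f : ℤ → ℝ) {X Y : ℤ} (h : X - 1 ≤ Y) :
    ∑ z ∈ Icc X (Y + 1), f z = ∑ z ∈ Icc X Y, f z + f (Y + 1) := by
  rw [← Finset.insert_Icc_right_eq_Icc_add_one (by omega), sum_insert (by simp), add_comm]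

lemma cut_SPR (μ : ℤ → ℝ) (X : ℤ) {D s : ℝ} (hD : 0 ≤ D) (hs : 0 ≤ s) (Y : ℤ) (hY : X - 1 ≤ Y) :
    (∀ z ∈ Icc X Y, 0 ≤ μ z ∧ μ z ≤ D) →
    (∑ z ∈ Icc X Y, if ∑ x ∈ Icc X z, μ x ≤ s then μ z else 0) ≤ s ∧
    (∑ z ∈ Icc X Y, μ z ≤ s →
      (∑ z ∈ Icc X Y, if ∑ x ∈ Icc X z, μ x ≤ s then μ z else 0) = ∑ z ∈ Icc X Y, μ z) ∧
    (s ≤ ∑ z ∈ Icc X Y, μ z →
      s - D ≤ ∑ z ∈ Icc X Y, if ∑ x ∈ Icc X z, μ x ≤ s then μ z else 0) := by
  induction Y, hY using Int.leInduction with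
  | base =>
    intro _
    rw [Icc_eq_empty (by omega), sum_empty, sum_empty]
    exact ⟨hs, fun _ => rfl, fun _ => by linarith⟩
  | succ Y hY ih =>
    intro hμ
    obtain ⟨h1, h2, h3⟩ := ih fun z hz => hμ z (Icc_subset_Icc_right (by omega) hz)
    obtain ⟨w0, w1⟩ := hμ (Y + 1) (mem_Icc.2 ⟨by omega, le_rfl⟩)
    rw [succ_SPR _ hY, succ_SPR μ hY]
    split_ifs with h
    · have h4 := h2 (by linarith)
      exact ⟨by linarith, fun _ => by linarith, fun _ => by linarith⟩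
    · refine ⟨by linarith, fun h' => absurd h' h, fun _ => ?_⟩
      rcases le_total s (∑ z ∈ Icc X Y, μ z) with h4 | h4
      · linarith [h3 h4]
      · linarith [h2 h4]

lemma gap_SPR (μ : ℤ → ℝ) {X y : ℤ} {D : ℝ} (hy : X ≤ y) (y' : ℤ) (h : y ≤ y') :
    (∀ z ∈ Icc X y', 0 ≤ μ z ∧ μ z ≤ D) → ∑ z ∈ Icc X y, μ z ≤ ∑ z ∈ Icc X y', μ z ∧
      ∑ z ∈ Icc X y', μ z - ∑ z ∈ Icc X y, μ z ≤ D * ((y' : ℝ) - y) := by
  induction y', h using Int.leInduction with
  | base => intro _; simp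
  | succ Y hY ih =>
    intro hμ
    obtain ⟨h1, h2⟩ := ih fun z hz => hμ z (Icc_subset_Icc_right (by omega) hz)
    obtain ⟨w0, w1⟩ := hμ (Y + 1) (mem_Icc.2 ⟨by omega, le_rfl⟩)
    rw [succ_SPR μ (by omega : X - 1 ≤ Y)]
    push_cast
    exact ⟨by linarith, by linarith⟩

lemma rec_SPR (y δ : Fin 3 → ℝ) (M : ℝ) (hy : ∀ i, |y i| ≤ M)
    (h0 : ∀ e < 2, ∑ i, δ i * y i ^ e = 0) (h2 : ∑ i, δ i * y i ^ 2 = 1) (e : ℕ) :
    |∑ i, δ i * y i ^ (e + 2)| ≤ (7 * M) ^ e := by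
  have hM : 0 ≤ M := (abs_nonneg _).trans (hy 0)
  obtain ⟨S, hS⟩ : ∃ S : ℕ → ℝ, ∀ e, S e = ∑ i, δ i * y i ^ e := ⟨_, fun _ => rfl⟩
  have hr : ∀ e, S (e + 3) = (y 0 + y 1 + y 2) * S (e + 2) -
      (y 0 * y 1 + y 0 * y 2 + y 1 * y 2) * S (e + 1) + y 0 * y 1 * y 2 * S e := by
    intro e
    simp only [hS, Fin.sum_univ_three]
    ring
  have b1 : |y 0 + y 1 + y 2| ≤ 3 * M := by
    linarith [abs_add_le (y 0 + y 1) (y 2), abs_add_le (y 0) (y 1), hy 0, hy 1, hy 2]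
  have m2 : ∀ i j, |y i * y j| ≤ M ^ 2 := fun i j => by
    rw [abs_mul, sq]
    exact mul_le_mul (hy i) (hy j) (abs_nonneg _) hM
  have b2 : |y 0 * y 1 + y 0 * y 2 + y 1 * y 2| ≤ 3 * M ^ 2 := by
    linarith [abs_add_le (y 0 * y 1 + y 0 * y 2) (y 1 * y 2), abs_add_le (y 0 * y 1) (y 0 * y 2),
      m2 0 1, m2 0 2, m2 1 2]
  have b3 : |y 0 * y 1 * y 2| ≤ M ^ 3 := by
    rw [abs_mul, pow_succ]
    exact mul_le_mul (m2 0 1) (hy 2) (abs_nonneg _) (by positivity)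
  have key : ∀ e, |S (e + 2)| ≤ (7 * M) ^ e ∧ M * |S (e + 1)| ≤ (7 * M) ^ e ∧
      M ^ 2 * |S e| ≤ (7 * M) ^ e := by
    intro e
    induction e with
    | zero =>
      rw [hS, hS, hS, h2, h0 1 (by norm_num), h0 0 (by norm_num)]
      simp
    | succ e ih =>
      obtain ⟨a1, a2, a3⟩ := ih
      have c0 : 0 ≤ (7 * M) ^ e := by positivity
      have c1 := mul_le_mul b1 a1 (abs_nonneg _) (by positivity)
      have c2 := mul_le_mul_of_nonneg_right b2 (abs_nonneg (S (e + 1)))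
      have c3 := mul_le_mul_of_nonneg_right b3 (abs_nonneg (S e))
      have c4 := mul_le_mul_of_nonneg_left a1 hM
      have c5 := mul_le_mul_of_nonneg_left a2 hM
      have c6 := mul_le_mul_of_nonneg_left a3 hM
      have c7 := mul_nonneg hM c0
      rw [pow_succ]
      refine ⟨?_, by linarith, by nlinarith⟩
      rw [hr]
      refine (abs_add_le _ _).trans ((add_le_add_left (abs_sub _ _) _).trans ?_)
      rw [abs_mul, abs_mul, abs_mul (y 0 * y 1 * y 2)]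
      nlinarith
  rw [← hS]
  exact (key e).1

lemma avg_SPR (h : CHB_st) (q : ℕ) (S : Finset ℤ) (G : Fin (q + 1) → Finset ℤ) (μ : ℤ → ℝ)
    {M g : ℝ} (hG : ∀ i, G i ⊆ S) (hμ : ∀ z ∈ S, 0 ≤ μ z) (hM0 : 0 < M)
    (hM : ∀ i, M ≤ ∑ z ∈ G i, μ z) (hg : 0 < g)
    (hgap : ∀ i j, i < j → ∀ y ∈ G i, ∀ y' ∈ G j, g ≤ (y' : ℝ) - y) :
    ∃ ν : ℤ → ℝ, (∀ z ∈ S, ν z * (M * g ^ q) ≤ (q + 1) * μ z) ∧
      (∀ e < q, ∑ z ∈ S, ν z * (z : ℝ) ^ e = 0) ∧ ∑ z ∈ S, ν z * (z : ℝ) ^ q = 1 ∧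
      ∀ (e : ℕ) (B : ℝ), (∀ (y : Fin (q + 1) → ℤ) (δ : Fin (q + 1) → ℝ), (∀ i, y i ∈ S) →
        (∀ e < q, ∑ i, δ i * (y i : ℝ) ^ e = 0) → ∑ i, δ i * (y i : ℝ) ^ q = 1 →
        |∑ i, δ i * (y i : ℝ) ^ e| ≤ B) → |∑ z ∈ S, ν z * (z : ℝ) ^ e| ≤ B := by
  have hδ : ∀ y : Fin (q + 1) → ℤ, ∃ δ : Fin (q + 1) → ℝ, y ∈ Fintype.piFinset G →
      (∀ e < q, ∑ i, δ i * (y i : ℝ) ^ e = 0) ∧ ∑ i, δ i * (y i : ℝ) ^ q = 1 ∧
        ∀ i, |δ i| * g ^ q ≤ 1 := by
    intro y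
    by_cases hy : y ∈ Fintype.piFinset G
    · rw [Fintype.mem_piFinset] at hy
      obtain ⟨δ, h1, h2, -, h3⟩ := h q (fun i => (y i : ℝ)) g hg
        fun i j hij => hgap i j hij _ (hy i) _ (hy j)
      exact ⟨δ, fun _ => ⟨h1, h2, h3⟩⟩
    · exact ⟨0, fun h' => absurd h' hy⟩
  choose δ hδ using hδ
  obtain ⟨p, hp⟩ : ∃ p : Fin (q + 1) → ℤ → ℝ, ∀ i z, p i z = μ z / ∑ x ∈ G i, μ x :=
    ⟨_, fun _ _ => rfl⟩
  have p1 : ∀ i, ∑ z ∈ G i, p i z = 1 := fun i => by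
    simp only [hp]
    rw [← sum_div, div_self (hM0.trans_le (hM i)).ne']
  have p0 : ∀ y ∈ Fintype.piFinset G, 0 ≤ ∏ i, p i (y i) := fun y hy =>
    prod_nonneg fun i _ => by
      rw [hp]
      exact div_nonneg (hμ _ (hG i (Fintype.mem_piFinset.1 hy i))) (hM0.le.trans (hM i))
  have w1 : ∑ y ∈ Fintype.piFinset G, ∏ i, p i (y i) = 1 := by
    rw [← prod_univ_sum G p]
    exact prod_eq_one fun i _ => p1 i
  have mom : ∀ e : ℕ, ∑ z ∈ S, (∑ y ∈ Fintype.piFinset G, (∏ i, p i (y i)) *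
      ∑ i, if y i = z then δ y i else 0) * (z : ℝ) ^ e =
      ∑ y ∈ Fintype.piFinset G, (∏ i, p i (y i)) * ∑ i, δ y i * (y i : ℝ) ^ e := by
    intro e
    simp only [sum_mul]
    rw [sum_comm]
    refine sum_congr rfl fun y hy => ?_
    simp only [mul_assoc]
    rw [← mul_sum]
    congr 1
    simp only [sum_mul]
    rw [sum_comm]
    refine sum_congr rfl fun i _ => ?_
    simp only [ite_mul, zero_mul]
    rw [sum_ite_eq, if_pos (hG i (Fintype.mem_piFinset.1 hy i))]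
  have mar : ∀ z ∈ S, ∀ i, (∑ y ∈ Fintype.piFinset G, (∏ j, p j (y j)) *
      if y i = z then 1 else 0) * M ≤ μ z := by
    intro z hz i
    have e1 := prod_univ_sum G
      (fun j x => p j x * if j = i then (if x = z then (1 : ℝ) else 0) else 1)
    simp only [prod_mul_distrib, prod_ite_eq', mem_univ, if_true] at e1
    rw [← e1, prod_eq_single i (fun j _ hj => by simp [hj, p1]) (by simp)]
    simp only [if_true, mul_ite, mul_one, mul_zero, sum_ite_eq']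
    split_ifs
    · rw [hp, div_mul_eq_mul_div, div_le_iff₀ (hM0.trans_le (hM i))]
      exact mul_le_mul_of_nonneg_left (hM i) (hμ z hz)
    · rw [zero_mul]; exact hμ z hz
  refine ⟨fun z => ∑ y ∈ Fintype.piFinset G, (∏ i, p i (y i)) *
    ∑ i, if y i = z then δ y i else 0, fun z hz => ?_, fun e he => ?_, ?_, fun e B hB => ?_⟩
  · calc _ = (∑ y ∈ Fintype.piFinset G, (∏ i, p i (y i)) *
          ((∑ i, if y i = z then δ y i else 0) * g ^ q)) * M := by
          simp only [← mul_assoc]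
          rw [← sum_mul, mul_right_comm]
      _ ≤ (∑ y ∈ Fintype.piFinset G, (∏ i, p i (y i)) *
          ∑ i, if y i = z then 1 else 0) * M := by
          refine mul_le_mul_of_nonneg_right (sum_le_sum fun y hy =>
            mul_le_mul_of_nonneg_left ?_ (p0 y hy)) hM0.le
          rw [sum_mul]
          refine sum_le_sum fun i _ => ?_
          split_ifs
          · exact (mul_le_mul_of_nonneg_right (le_abs_self _) (by positivity)).trans
              ((hδ y hy).2.2 i)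
          · simp
      _ = ∑ i, (∑ y ∈ Fintype.piFinset G, (∏ j, p j (y j)) * if y i = z then 1 else 0) * M := by
          rw [← sum_mul, sum_comm]
          simp only [mul_sum]
      _ ≤ ∑ _i : Fin (q + 1), μ z := sum_le_sum fun i _ => mar z hz i
      _ = _ := by simp
  · rw [mom]
    exact sum_eq_zero fun y hy => by rw [(hδ y hy).1 e he, mul_zero]
  · rw [mom, ← w1]
    exact sum_congr rfl fun y hy => by rw [(hδ y hy).2.1, mul_one]
  · rw [mom, ← one_mul B, ← w1, sum_mul]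
    refine (abs_sum_le_sum_abs _ _).trans (sum_le_sum fun y hy => ?_)
    rw [abs_mul, abs_of_nonneg (p0 y hy)]
    exact mul_le_mul_of_nonneg_left (hB y (δ y) (fun i => hG i (Fintype.mem_piFinset.1 hy i))
      (hδ y hy).1 (hδ y hy).2.1) (p0 y hy)

theorem gen_SPR (h : CHB_st) (q : ℕ) : ∃ c C : ℝ, 0 < c ∧ 0 < C ∧
    ∀ (X Y : ℤ) (μ : ℤ → ℝ) (D m t : ℝ),
    0 < D → (∀ z ∈ Icc X Y, 0 ≤ μ z ∧ μ z ≤ D) → m ≤ ∑ z ∈ Icc X Y, μ z → C * D ≤ m → 0 ≤ t →
    t ≤ c * m * (m / D) ^ q → ∃ μ' : ℤ → ℝ, (∀ z ∈ Icc X Y, 0 ≤ μ' z) ∧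
      (∀ e < q, ∑ z ∈ Icc X Y, μ' z * (z : ℝ) ^ e = ∑ z ∈ Icc X Y, μ z * (z : ℝ) ^ e) ∧
      ∑ z ∈ Icc X Y, μ' z * (z : ℝ) ^ q = ∑ z ∈ Icc X Y, μ z * (z : ℝ) ^ q - t ∧
      ∀ (e : ℕ) (B : ℝ), (∀ (y : Fin (q + 1) → ℤ) (δ : Fin (q + 1) → ℝ), (∀ i, y i ∈ Icc X Y) →
        (∀ e < q, ∑ i, δ i * (y i : ℝ) ^ e = 0) → ∑ i, δ i * (y i : ℝ) ^ q = 1 →
        |∑ i, δ i * (y i : ℝ) ^ e| ≤ B) →
        |∑ z ∈ Icc X Y, μ' z * (z : ℝ) ^ e - ∑ z ∈ Icc X Y, μ z * (z : ℝ) ^ e| ≤ t * B := by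
  refine ⟨1 / (2 * ((q : ℝ) + 1) * (2 * q + 2) ^ (q + 1)), 4 * q + 4, by positivity, by positivity,
    fun X Y μ D m t hD hμ hm hC ht htc => ?_⟩
  have hq : (0 : ℝ) < 2 * q + 2 := by positivity
  obtain ⟨u, hu⟩ : ∃ u : ℝ, m = (2 * q + 2) * u := ⟨m / (2 * q + 2), by field_simp⟩
  have hDu : 2 * D ≤ u := le_of_mul_le_mul_left (by linarith) hq
  have hu0 : 0 < u := by linarith
  have hY : X - 1 ≤ Y := by
    by_contra hlt
    rw [Icc_eq_empty (by omega), sum_empty] at hm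
    nlinarith
  obtain ⟨ν, h1, h2, h3, h4⟩ := avg_SPR h q (Icc X Y) (fun i => (Icc X Y).filter fun z =>
      2 * (i : ℕ) * u < ∑ x ∈ Icc X z, μ x ∧ ∑ x ∈ Icc X z, μ x ≤ (2 * (i : ℕ) + 1) * u) μ
    (M := u / 2) (g := u / D) (fun _ => filter_subset _ _) (fun z hz => (hμ z hz).1)
    (by positivity) (fun i => by
      have hi : ((i : ℕ) : ℝ) ≤ q := by exact_mod_cast Nat.le_of_lt_succ i.2
      have a1 := (cut_SPR μ X hD.le (s := 2 * (i : ℕ) * u) (by positivity) Y hY hμ).1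
      have a2 := (cut_SPR μ X hD.le (s := (2 * (i : ℕ) + 1) * u) (by positivity) Y hY hμ).2.2
        (by nlinarith)
      have a3 : ∑ z ∈ (Icc X Y).filter (fun z => 2 * (i : ℕ) * u < ∑ x ∈ Icc X z, μ x ∧
          ∑ x ∈ Icc X z, μ x ≤ (2 * (i : ℕ) + 1) * u), μ z =
          (∑ z ∈ Icc X Y, if ∑ x ∈ Icc X z, μ x ≤ (2 * (i : ℕ) + 1) * u then μ z else 0) -
          ∑ z ∈ Icc X Y, if ∑ x ∈ Icc X z, μ x ≤ 2 * (i : ℕ) * u then μ z else 0 := by
        rw [sum_filter, ← sum_sub_distrib]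
        refine sum_congr rfl fun z _ => ?_
        by_cases b1 : ∑ x ∈ Icc X z, μ x ≤ 2 * (i : ℕ) * u
        · rw [if_neg fun b => absurd b1 (not_le.2 b.1), if_pos b1, if_pos (by linarith), sub_self]
        · simp only [not_le.1 b1, true_and, if_neg b1, sub_zero]
      linarith) (by positivity) (fun i j hij y hy y' hy' => by
      rw [mem_filter, mem_Icc] at hy hy'
      have hi : ((i : ℕ) : ℝ) + 1 ≤ (j : ℕ) := by exact_mod_cast hij
      have a1 : u < ∑ x ∈ Icc X y', μ x - ∑ x ∈ Icc X y, μ x := by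
        nlinarith [hy.2.2, hy'.2.1]
      rcases le_total y y' with b | b
      · have a2 := (gap_SPR μ hy.1.1 y' b fun z hz =>
          hμ z (Icc_subset_Icc_right hy'.1.2 hz)).2
        rw [div_le_iff₀ hD]
        linarith
      · have a2 := (gap_SPR μ hy'.1.1 y b fun z hz =>
          hμ z (Icc_subset_Icc_right hy.1.2 hz)).1
        linarith)
  have hP : 0 < u / 2 * (u / D) ^ q := by positivity
  have ht2 : t * (q + 1) ≤ u / 2 * (u / D) ^ q := by
    refine (mul_le_mul_of_nonneg_right htc (by positivity)).trans (le_of_eq ?_)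
    rw [hu, mul_div_assoc, mul_pow, pow_succ]
    field_simp
  refine ⟨fun z => μ z - t * ν z, fun z hz => ?_, fun e he => ?_, ?_, fun e B hB => ?_⟩
  · refine sub_nonneg.2 (le_of_mul_le_mul_right ?_ hP)
    have a1 := mul_le_mul_of_nonneg_left (h1 z hz) ht
    have a2 := mul_le_mul_of_nonneg_right ht2 (hμ z hz).1
    linarith
  · simp only [sub_mul, mul_assoc, sum_sub_distrib, ← mul_sum, h2 e he, mul_zero, sub_zero]
  · simp only [sub_mul, mul_assoc, sum_sub_distrib, ← mul_sum, h3, mul_one]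
  · simp only [sub_mul, mul_assoc, sum_sub_distrib, ← mul_sum]
    rw [sub_sub_cancel_left, abs_neg, abs_mul, abs_of_nonneg ht]
    exact mul_le_mul_of_nonneg_left (h4 e B hB) ht

theorem SPR2_pf (h : CHB_st) : SPR2_st := by
  obtain ⟨c, C, hc, hC, h1⟩ := gen_SPR h 2
  refine ⟨c, C, hc, hC, fun X Y μ D m t M a1 a2 a3 a4 a5 a6 a7 => ?_⟩
  obtain ⟨μ', b1, b2, b3, b4⟩ := h1 X Y μ D m t a1 a2 a3 a4 a5 a6
  exact ⟨μ', b1, b2, b3, fun e => b4 _ _ fun y δ c1 c2 c3 =>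
    rec_SPR (fun i => (y i : ℝ)) δ M (fun i => a7 _ (c1 i)) c2 c3 e⟩

end

section


theorem dual_LAG (r : ℕ) : ∃ v : ℕ → ℕ → ℝ, ∀ e, ∀ e' < r,
    ∑ i ∈ range r, v e i * (i : ℝ) ^ e' = if e = e' then 1 else 0 := by
  refine ⟨fun e i => (Lagrange.basis (range r) (fun i : ℕ => (i : ℝ)) i).coeff e, fun e e' he => ?_⟩
  have h1 := Lagrange.eq_interpolate (s := range r) (v := fun i : ℕ => (i : ℝ))
    (f := (Polynomial.X : Polynomial ℝ) ^ e') (fun a _ b _ h => Nat.cast_injective (R := ℝ) h)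
    (by rw [Polynomial.degree_X_pow, card_range]; exact_mod_cast he)
  have h2 := congrArg (fun p => Polynomial.coeff p e) h1
  simp only [Lagrange.interpolate_apply, Polynomial.finsetSum_coeff, Polynomial.coeff_C_mul,
    Polynomial.coeff_X_pow, Polynomial.eval_pow, Polynomial.eval_X] at h2
  rw [h2]
  exact sum_congr rfl fun i _ => mul_comm _ _

theorem LAG_pf : LAG_st := by
  intro r
  obtain ⟨v, hv⟩ := dual_LAG r
  refine ⟨∑ i ∈ range r, ∑ e ∈ range r, |v e i|,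
    sum_nonneg fun _ _ => sum_nonneg fun _ _ => abs_nonneg _, ?_⟩
  intro X Y g E b hg hX hY hb hE
  have hg0 : (0 : ℝ) < g := by exact_mod_cast hg
  obtain ⟨x, hx⟩ : ∃ x : ℕ → ℝ, ∀ i, x i = ∑ e ∈ range r, E e / (g : ℝ) ^ e * v e i :=
    ⟨_, fun _ => rfl⟩
  have hmem : ∀ i ∈ range r, ((i * g : ℕ) : ℤ) ∈ Icc X Y := by
    intro i hi
    have h1 : i * g ≤ r * g := Nat.mul_le_mul_right g (mem_range.mp hi).le
    have h2 : ((i * g : ℕ) : ℤ) ≤ (r * g : ℤ) := by exact_mod_cast h1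
    rw [mem_Icc]
    constructor <;> omega
  refine ⟨fun c => ∑ i ∈ range r, if c = ((i * g : ℕ) : ℤ) then x i else 0, ?_, fun e' he' => ?_⟩
  · calc ∑ c ∈ Icc X Y, |∑ i ∈ range r, if c = ((i * g : ℕ) : ℤ) then x i else 0|
        ≤ ∑ c ∈ Icc X Y, ∑ i ∈ range r, if c = ((i * g : ℕ) : ℤ) then |x i| else 0 := by
          refine sum_le_sum fun c _ => le_trans (abs_sum_le_sum_abs _ _) (sum_le_sum fun i _ => ?_)
          split_ifs
          · exact le_rfl
          · simp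
      _ = ∑ i ∈ range r, |x i| := by
          rw [sum_comm]
          refine sum_congr rfl fun i hi => ?_
          rw [sum_ite_eq', if_pos (hmem i hi)]
      _ ≤ (∑ i ∈ range r, ∑ e ∈ range r, |v e i|) * b := by
          rw [sum_mul]
          refine sum_le_sum fun i _ => ?_
          rw [hx, sum_mul]
          refine le_trans (abs_sum_le_sum_abs _ _) (sum_le_sum fun e he => ?_)
          rw [abs_mul, mul_comm]
          refine mul_le_mul_of_nonneg_left ?_ (abs_nonneg _)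
          rw [abs_div, abs_of_pos (pow_pos hg0 e), div_le_iff₀ (pow_pos hg0 e)]
          exact hE e (mem_range.mp he)
  · calc ∑ c ∈ Icc X Y, (∑ i ∈ range r, if c = ((i * g : ℕ) : ℤ) then x i else 0) * (c : ℝ) ^ e'
        = ∑ c ∈ Icc X Y, ∑ i ∈ range r,
            if c = ((i * g : ℕ) : ℤ) then x i * (c : ℝ) ^ e' else 0 := by
          refine sum_congr rfl fun c _ => ?_
          rw [sum_mul]
          exact sum_congr rfl fun i _ => by split_ifs <;> simp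
      _ = ∑ i ∈ range r, x i * ((i : ℝ) * g) ^ e' := by
          rw [sum_comm]
          refine sum_congr rfl fun i hi => ?_
          rw [sum_ite_eq', if_pos (hmem i hi)]
          push_cast
          rfl
      _ = ∑ e ∈ range r, E e / (g : ℝ) ^ e * (g : ℝ) ^ e' *
            ∑ i ∈ range r, v e i * (i : ℝ) ^ e' := by
          simp only [hx, sum_mul, mul_sum]
          rw [sum_comm]
          refine sum_congr rfl fun e _ => sum_congr rfl fun i _ => ?_
          rw [mul_pow]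
          ring
      _ = E e' := by
          simp only [hv _ e' he', mul_ite, mul_one, mul_zero]
          rw [sum_ite_eq', if_pos (mem_range.mpr he'), div_mul_cancel₀ _ (pow_pos hg0 e').ne']

end

section


theorem chain_PIG (f : ℕ → ℝ) (h0 : ∀ i, 0 ≤ f i) (W : Finset ℕ) :
    (∀ i ∈ W, ∀ i' ∈ W, i < i' → f i + 1 ≤ f i') → ∀ M : ℝ, -1 ≤ M → (∀ i ∈ W, f i ≤ M) →
      (W.card : ℝ) ≤ M + 1 := by
  induction W using Finset.induction_on_max with
  | empty => intro _ M hM _; simp; linarith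
  | insert a s ha ih =>
    intro h M _ hM
    have h1 := hM a (mem_insert_self _ _)
    have h2 := ih (fun i hi i' hi' => h i (mem_insert_of_mem hi) i' (mem_insert_of_mem hi')) (M - 1)
      (by linarith [h0 a]) fun i hi => by
        linarith [h i (mem_insert_of_mem hi) a (mem_insert_self _ _) (ha i hi)]
    rw [card_insert_of_notMem fun h => lt_irrefl _ (ha a h)]
    push_cast
    linarith

theorem tel_PIG {n : ℕ} {h : ℕ → ℤ} {w : ℕ → ℝ} {B : ℝ}
    (hw : ∀ i < n, |((h (i + 1) - h i : ℤ) : ℝ)| ≤ B * w i) {i j : ℕ} (hij : i ≤ j) (hj : j ≤ n) :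
    |((h j - h i : ℤ) : ℝ)| ≤ B * (∑ k ∈ range j, w k - ∑ k ∈ range i, w k) := by
  induction j, hij using Nat.le_induction with
  | base => simp
  | succ j _ ih =>
    have h1 := ih (by omega)
    have h2 := hw j hj
    rw [sum_range_succ]
    push_cast at *
    linarith [abs_sub_le (h (j + 1) : ℝ) (h j) (h i)]

theorem PIG_pf : PIG_st := by
  intro A R0
  obtain ⟨B, hA, hB⟩ : ∃ B : ℝ, A ≤ B ∧ 1 ≤ B := ⟨max A 1, le_max_left _ _, le_max_right _ _⟩
  set Q := range R0 ×ˢ Icc (-⌈B⌉) ⌈B⌉ with hQ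
  refine ⟨(Q.card + 1) * (2 * B), by positivity, fun n h w lab E c K η hw hK hl hE hη => ?_⟩
  have q0 : (0 : ℝ) ≤ Q.card := Nat.cast_nonneg _
  have e1 : 2 * B ≤ η := by nlinarith
  have e2 : 0 < η := by linarith
  set N := E.filter fun i => i < n ∧ |((h i - c : ℤ) : ℝ)| ≤ η with hN
  have mono : ∀ i j, i ≤ j → j ≤ n → ∑ k ∈ range i, w k ≤ ∑ k ∈ range j, w k := fun i j h1 h2 =>
    sum_le_sum_of_subset_of_nonneg (range_mono h1) fun k hk _ =>
      (hw k ((mem_range.1 hk).trans_le h2)).1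
  have K0 : 0 ≤ K := (mono 0 n (Nat.zero_le _) le_rfl).trans' (by simp) |>.trans hK
  have c0 : 0 ≤ 2 * B / η := by positivity
  let f : ℕ → ℝ := fun i => ((N ∩ range i).card : ℝ) + 2 * B / η * ∑ k ∈ range (min i n), w k
  have f0 : ∀ i, 0 ≤ f i := fun i => add_nonneg (Nat.cast_nonneg _)
    (mul_nonneg c0 ((mono 0 _ (Nat.zero_le _) (min_le_right _ _)).trans' (by simp)))
  have f1 : ∀ i, f i ≤ N.card + 2 * B / η * K := fun i =>
    add_le_add (Nat.cast_le.2 (card_le_card inter_subset_left))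
      (mul_le_mul_of_nonneg_left ((mono _ n (min_le_right _ _) le_rfl).trans hK) c0)
  have f2 : ∀ i i', i < i' → i' < n → |((h i - c : ℤ) : ℝ)| ≤ A → lab i = lab i' → h i = h i' →
      f i + 1 ≤ f i' := by
    intro i i' h1 h2 h3 h4 h5
    obtain ⟨j, j1, j2, j3⟩ := hE i i' h1 h2.le h4 h5
    have s1 : N ∩ range i ⊆ N ∩ range i' := inter_subset_inter_left (range_mono h1.le)
    simp only [f, min_eq_left h2.le, min_eq_left (h1.trans h2).le]
    by_cases hj : |((h j - c : ℤ) : ℝ)| ≤ η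
    · have s2 : (N ∩ range i).card + 1 ≤ (N ∩ range i').card := card_lt_card ⟨s1, fun h => by
        have := h (mem_inter.2 ⟨mem_filter.2 ⟨j1, j3.trans h2, hj⟩, mem_range.2 j3⟩)
        exact absurd (mem_range.1 (mem_inter.1 this).2) (not_lt.2 j2)⟩
      have s3 : ((N ∩ range i).card : ℝ) + 1 ≤ (N ∩ range i').card := by exact_mod_cast s2
      linarith [mul_le_mul_of_nonneg_left (mono i i' h1.le h2.le) c0]
    · have s2 : ((N ∩ range i).card : ℝ) ≤ (N ∩ range i').card := Nat.cast_le.2 (card_le_card s1)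
      have s3 := tel_PIG (B := B) (fun k hk => (hw k hk).2.trans
        (mul_le_mul_of_nonneg_right hA (hw k hk).1)) j2 (j3.trans h2).le
      have s4 := mul_le_mul_of_nonneg_left (mono j i' j3.le h2.le) c0
      have s5 : 1 ≤ 2 * B / η * (∑ k ∈ range j, w k - ∑ k ∈ range i, w k) := by
        rw [div_mul_eq_mul_div, one_le_div e2]
        push_cast at s3 hj h3
        linarith [abs_sub_le (h j : ℝ) (h i) c, not_le.1 hj]
      linarith
  rw [card_eq_sum_card_fiberwise (f := fun i => (lab i, h i - c)) (t := Q) fun i hi => by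
    obtain ⟨h1, h2⟩ := mem_filter.1 hi
    have h3 : |h i - c| ≤ ⌈B⌉ := by
      exact_mod_cast (show ((|h i - c| : ℤ) : ℝ) ≤ (⌈B⌉ : ℤ) by
        rw [Int.cast_abs]
        exact (h2.trans hA).trans (Int.le_ceil B))
    exact mem_product.2 ⟨mem_range.2 (hl i (mem_range.1 h1).le), mem_Icc.2 (abs_le.1 h3)⟩]
  push_cast [-Int.cast_sub]
  refine (sum_le_card_nsmul Q _ (N.card + 2 * B / η * K + 1) fun q _ =>
    chain_PIG f f0 _ (fun i hi i' hi' hlt => ?_) _ ((f0 0).trans (f1 0) |>.trans' (by norm_num))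
      fun i _ => f1 i).trans ?_
  · obtain ⟨a1, a2⟩ := mem_filter.1 hi
    obtain ⟨b1, b2⟩ := mem_filter.1 hi'
    obtain ⟨c1, c2⟩ := Prod.mk.inj (a2.trans b2.symm)
    exact f2 i i' hlt (mem_range.1 (mem_filter.1 b1).1) (mem_filter.1 a1).2 c1 (by omega)
  · have n0 : (0 : ℝ) ≤ N.card := Nat.cast_nonneg _
    have k0 : 0 ≤ K / η := by positivity
    rw [nsmul_eq_mul, mul_assoc, show 2 * B / η * K = 2 * B * (K / η) by ring]
    exact mul_le_mul (by linarith) (by nlinarith) (by positivity) (by positivity)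

end

section


theorem sum_EXC {n : ℕ} {E : Finset ℕ} (hE : ∀ i ∈ E, i < n) (f g : ℕ → ℝ)
    (h : ∀ i, i ∉ E → f i = g i) :
    ∑ i ∈ range n, f i - ∑ i ∈ range n, g i = ∑ i ∈ E, (f i - g i) := by
  rw [← sum_sub_distrib]
  exact (sum_subset (fun i hi => mem_range.2 (hE i hi)) fun i _ hi => by
    rw [h i hi, sub_self]).symm

theorem abs_EXC {E : Finset ℕ} {f : ℕ → ℝ} {G : ℝ} (h : ∀ i ∈ E, |f i| ≤ G) :
    |∑ i ∈ E, f i| ≤ G * E.card := by
  refine (abs_sum_le_sum_abs _ _).trans ((sum_le_card_nsmul _ _ _ h).trans ?_)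
  rw [nsmul_eq_mul, mul_comm]

theorem div_EXC {d a : ℤ} {B : ℝ} (hd : |(d : ℝ)| ≤ B) (h : (0 ≤ d ∧ 0 < a) ∨ (d < 0 ∧ a < 0)) :
    0 ≤ (d : ℝ) / a ∧ (d : ℝ) / a ≤ B ∧ (d : ℝ) = (d : ℝ) / a * a := by
  have hB := abs_le.1 hd
  rcases h with ⟨h1, h2⟩ | ⟨h1, h2⟩
  · have h1' : (0 : ℝ) ≤ d := by exact_mod_cast h1
    have h2' : (1 : ℝ) ≤ a := by exact_mod_cast h2
    refine ⟨div_nonneg h1' (by linarith), (div_le_self h1' h2').trans hB.2, ?_⟩
    rw [div_mul_cancel₀ _ (by linarith)]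
  · have h1' : (0 : ℝ) ≤ -d := by
      have : (d : ℝ) < 0 := by exact_mod_cast h1
      linarith
    have h2' : (1 : ℝ) ≤ -a := by
      have : (a : ℝ) ≤ -1 := by exact_mod_cast Int.le_sub_one_of_lt h2
      linarith
    rw [← neg_div_neg_eq]
    refine ⟨div_nonneg h1' (by linarith), (div_le_self h1' h2').trans (by linarith [hB.1]), ?_⟩
    rw [neg_div_neg_eq, div_mul_cancel₀ _ (by linarith)]

theorem share_EXC {α : Type u} (I I' : Itm α) (β : α → ℝ) (hd : I'.d = I.d) (i : ℕ) (z : ℤ) {G : ℝ}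
    (h : |I'.w i * β (I'.x i) - I.w i * β (I.x i)| ≤ G) :
    |I'.share β i z - I.share β i z| ≤ G := by
  have hh : I'.h = I.h := by
    funext j
    simp only [Itm.h, hd]
  have hG : 0 ≤ G := (abs_nonneg _).trans h
  unfold Itm.share
  rw [hh, hd]
  by_cases h0 : I.d i = 0
  · rw [if_pos h0, if_pos h0]
    by_cases h1 : I.h i = z
    · rw [if_pos h1, if_pos h1]; exact h
    · rw [if_neg h1, if_neg h1, sub_self, abs_zero]; exact hG
  · rw [if_neg h0, if_neg h0]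
    by_cases h1 : min (I.h i) (I.h (i + 1)) ≤ z ∧ z < max (I.h i) (I.h (i + 1))
    · rw [if_pos h1, if_pos h1, ← sub_div, abs_div, abs_abs]
      have h2 : (1 : ℝ) ≤ |(I.d i : ℝ)| := by exact_mod_cast Int.one_le_abs h0
      exact (div_le_self (abs_nonneg _) h2).trans h
    · rw [if_neg h1, if_neg h1, sub_self, abs_zero]; exact hG

theorem pw_EXC {x y A K δ : ℝ} {e r : ℕ} (hA : 1 ≤ A) (hK : 1 ≤ K) (hδ : 0 ≤ δ) (hx : |x| ≤ A * K)
    (hy : |y| ≤ A * K) (hxy : |x - y| ≤ δ * K) (he : e < r) :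
    |x ^ e - y ^ e| ≤ r * A ^ r * δ * K ^ e := by
  have h := pow_dif hx hy e
  have hK0 : 0 < K := by linarith
  have h1 : A ^ e ≤ A ^ r := pow_le_pow_right₀ hA he.le
  have h2 : (e : ℝ) ≤ r := by exact_mod_cast he.le
  have h3 : K * |x ^ e - y ^ e| ≤ A * K * |x ^ e - y ^ e| :=
    mul_le_mul_of_nonneg_right (le_mul_of_one_le_left hK0.le hA) (abs_nonneg _)
  have h4 : e * |x - y| * (A * K) ^ e ≤ r * (δ * K) * (A ^ r * K ^ e) := by
    rw [mul_pow]
    gcongr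
  refine le_of_mul_le_mul_left ?_ hK0
  calc K * |x ^ e - y ^ e| ≤ r * (δ * K) * (A ^ r * K ^ e) := (h3.trans h).trans h4
    _ = K * (r * A ^ r * δ * K ^ e) := by ring

theorem EXC_pf : EXC_st.{u} := by
  classical
  intro α P r A s s' hs hs' ha ha' ht ht'
  obtain ⟨B, hB1, hB⟩ := P.bd
  have hB1' : (1 : ℝ) ≤ B := by exact_mod_cast hB1
  obtain ⟨A1, hA1, hAA⟩ : ∃ A1 : ℝ, 1 ≤ A1 ∧ A ≤ A1 := ⟨max A 1, le_max_right _ _, le_max_left _ _⟩
  obtain ⟨G, hG⟩ : ∃ G : ℝ, G = B * B + B := ⟨_, rfl⟩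
  have hGB : (B : ℝ) ≤ G := by rw [hG]; nlinarith
  have hr : 0 ≤ (r : ℝ) * A1 ^ r := by positivity
  have hGC : G ≤ G * (1 + r * A1 ^ r) := le_mul_of_one_le_right (by linarith) (by linarith)
  refine ⟨G * (1 + r * A1 ^ r), by linarith, ?_⟩
  intro I E c K δ ρ hK hδ hI _ hc hE
  obtain ⟨y, hy⟩ : ∃ y : ℕ → α, ∀ i,
      y i = if i ∈ E then (if 0 ≤ I.d i then s else s') else I.x i := ⟨_, fun _ => rfl⟩
  obtain ⟨v, hv⟩ : ∃ v : ℕ → ℝ, ∀ i,
      v i = if i ∈ E then (I.d i : ℝ) / P.a (y i) else I.w i := ⟨_, fun _ => rfl⟩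
  have hy0 : ∀ i, i ∉ E → y i = I.x i := fun i hi => by rw [hy, if_neg hi]
  have hv0 : ∀ i, i ∉ E → v i = I.w i := fun i hi => by rw [hv, if_neg hi]
  have hin : ∀ i ∈ E, y i ∈ P.T ∧ P.β (y i) + P.lam * P.a (y i) = P.θ ∧ 0 ≤ v i ∧ v i ≤ B ∧
      (I.d i : ℝ) = v i * P.a (y i) := by
    intro i hi
    obtain ⟨h1, h2, h3, h4⟩ := hI i (hE i hi).1
    have hd : |(I.d i : ℝ)| ≤ B := by
      rw [h4, abs_mul, abs_of_nonneg h2]
      exact (mul_le_of_le_one_left (abs_nonneg _) h3).trans (hB _ h1).2.1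
    rw [hv, if_pos hi, hy, if_pos hi]
    by_cases h0 : 0 ≤ I.d i
    · rw [if_pos h0]
      exact ⟨hs, ht, div_EXC hd (Or.inl ⟨h0, ha⟩)⟩
    · rw [if_neg h0]
      exact ⟨hs', ht', div_EXC hd (Or.inr ⟨not_le.1 h0, ha'⟩)⟩
  have hdf : ∀ i ∈ E, |v i * P.β (y i) - I.w i * P.β (I.x i)| ≤ G := by
    intro i hi
    obtain ⟨h1, h2, h3, -⟩ := hI i (hE i hi).1
    obtain ⟨k1, -, k3, k4, -⟩ := hin i hi
    refine (abs_sub _ _).trans ?_
    rw [hG, abs_mul, abs_mul, abs_of_nonneg k3, abs_of_nonneg h2]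
    exact add_le_add (mul_le_mul k4 (hB _ k1).2.2 (abs_nonneg _) (by linarith))
      ((mul_le_of_le_one_left (abs_nonneg _) h3).trans (hB _ h1).2.2)
  have hEn : ∀ i ∈ E, i < I.n := fun i hi => (hE i hi).1
  have hc0 : (0 : ℝ) ≤ E.card := Nat.cast_nonneg _
  refine ⟨⟨I.n, y, v, I.d⟩, ∑ i ∈ E, (v i * P.β (y i) - I.w i * P.β (I.x i)), rfl, rfl, ?_, ?_, ?_,
    ?_, ?_⟩
  · intro i hi
    show y i ∈ P.T ∧ 0 ≤ v i ∧ v i ≤ G * (1 + r * A1 ^ r) ∧ (I.d i : ℝ) = v i * P.a (y i)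
    by_cases h : i ∈ E
    · obtain ⟨k1, -, k3, k4, k5⟩ := hin i h
      exact ⟨k1, k3, by linarith, k5⟩
    · obtain ⟨h1, h2, h3, h4⟩ := hI i hi
      rw [hy0 i h, hv0 i h]
      exact ⟨h1, h2, by linarith, h4⟩
  · exact (abs_EXC hdf).trans (mul_le_mul_of_nonneg_right hGC hc0)
  · have h1 := sum_EXC hEn v I.w hv0
    have h2 : ∑ i ∈ E, (P.θ * (v i - I.w i) + ρ) ≤
        ∑ i ∈ E, (v i * P.β (y i) - I.w i * P.β (I.x i)) := by
      refine sum_le_sum fun i hi => ?_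
      obtain ⟨-, -, -, h4⟩ := hI i (hE i hi).1
      obtain ⟨-, k2, -, -, k5⟩ := hin i hi
      have k6 := (hE i hi).2.2.2
      have k7 : v i * P.β (y i) = P.θ * v i - P.lam * (I.w i * P.a (I.x i)) := by
        rw [← h4, k5, ← k2]; ring
      rw [k7]
      linarith
    rw [sum_add_distrib, ← mul_sum, ← h1, sum_const, nsmul_eq_mul] at h2
    show ∑ i ∈ range I.n, v i - (∑ i ∈ E, (v i * P.β (y i) - I.w i * P.β (I.x i))) / P.θ ≤
      ∑ i ∈ range I.n, I.w i - ρ / P.θ * E.card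
    have h3 := div_le_div_of_nonneg_right h2 P.θ_pos.le
    rw [add_div, mul_div_cancel_left₀ _ P.θ_pos.ne'] at h3
    have h4 : (E.card : ℝ) * ρ / P.θ = ρ / P.θ * E.card := by ring
    linarith
  · intro z
    have h1 := sum_EXC hEn (fun i => (⟨I.n, y, v, I.d⟩ : Itm α).share P.β i z)
      (fun i => I.share P.β i z) (fun i hi => by
        have h2 := share_EXC I ⟨I.n, y, v, I.d⟩ P.β rfl i z (G := 0) (by
          show |v i * P.β (y i) - I.w i * P.β (I.x i)| ≤ 0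
          rw [hy0 i hi, hv0 i hi, sub_self, abs_zero])
        exact sub_eq_zero.1 (abs_nonpos_iff.1 h2))
    have h3 := abs_EXC fun i hi => share_EXC I ⟨I.n, y, v, I.d⟩ P.β rfl i z (hdf i hi)
    rw [← h1] at h3
    exact h3.trans (mul_le_mul_of_nonneg_right hGC hc0)
  · intro e he
    have h1 := sum_EXC hEn (fun i => v i * P.β (y i) * (I.h i : ℝ) ^ e)
      (fun i => I.w i * P.β (I.x i) * (I.h i : ℝ) ^ e) (fun i hi => by rw [hy0 i hi, hv0 i hi])
    have h2 : ∑ i ∈ range I.n, v i * P.β (y i) * (I.h i : ℝ) ^ e -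
        (∑ i ∈ E, (v i * P.β (y i) - I.w i * P.β (I.x i))) * (c : ℝ) ^ e -
        ∑ i ∈ range I.n, I.w i * P.β (I.x i) * (I.h i : ℝ) ^ e =
        ∑ i ∈ E, (v i * P.β (y i) - I.w i * P.β (I.x i)) * ((I.h i : ℝ) ^ e - (c : ℝ) ^ e) := by
      rw [sub_right_comm, h1, sum_mul, ← sum_sub_distrib]
      exact sum_congr rfl fun i _ => by ring
    have hK0 : 0 ≤ K := by linarith
    have hAK : A * K ≤ A1 * K := mul_le_mul_of_nonneg_right hAA hK0
    have h3 : ∀ i ∈ E, |(v i * P.β (y i) - I.w i * P.β (I.x i)) *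
        ((I.h i : ℝ) ^ e - (c : ℝ) ^ e)| ≤ G * (r * A1 ^ r * δ * K ^ e) := by
      intro i hi
      obtain ⟨-, k1, k2, -⟩ := hE i hi
      rw [abs_mul]
      rw [Int.cast_sub] at k2
      exact mul_le_mul (hdf i hi) (pw_EXC hA1 hK hδ (k1.trans hAK) (hc.trans hAK) k2 he)
        (abs_nonneg _) (by linarith)
    have h4 := abs_EXC h3
    rw [← h2] at h4
    refine h4.trans ?_
    have h5 : 0 ≤ G * (E.card * δ * K ^ e) := mul_nonneg (by linarith) (by positivity)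
    linarith

end

section


theorem SLB_pf : SLB_st := by
  classical
  intro J _ _ E A j τ M hτ hE hA hAE hM hd
  have hτ' : 0 < |τ| := abs_pos.2 hτ
  let v : J → ℝ := Pi.single j τ
  have hv : ∀ (z : J → ℝ) (n : ℕ), (z + (n : ℝ) • v) j = z j + n * τ := fun z n => by
    simp [v]
  let Lo : Set (J → ℝ) := {z | z ∈ E ∧ z - v ∉ E}
  have hLo : MeasurableSet Lo := hE.inter (measurable_sub_const v hE).compl
  let T : ℕ → Set (J → ℝ) := fun n => (fun z => z + (n : ℝ) • v) ⁻¹' A ∩ Lo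
  have hT : ∀ n, MeasurableSet (T n) := fun n => (measurable_add_const _ hA).inter hLo
  have hdis : Pairwise (Function.onFun Disjoint T) := by
    intro m n hmn
    refine Set.disjoint_left.2 fun z h1 h2 => ?_
    have h3 := hd (z + (m : ℝ) • v) h1.1 (z + (n : ℝ) • v) h2.1
    rw [hv, hv, add_sub_add_left_eq_sub, ← sub_mul, abs_mul] at h3
    have h4 : (1 : ℤ) ≤ |(m : ℤ) - n| :=
      Int.one_le_abs (sub_ne_zero.2 fun h => hmn (by exact_mod_cast h))
    have h5 : (1 : ℝ) ≤ |(m : ℝ) - n| := by exact_mod_cast h4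
    nlinarith
  have hcov : A ⊆ ⋃ n : ℕ, (fun z => z + -((n : ℝ) • v)) ⁻¹' T n := by
    intro z hz
    have hex : ∃ n : ℕ, z + -(((n + 1 : ℕ) : ℝ) • v) ∉ E := by
      obtain ⟨n, hn⟩ := exists_nat_gt (2 * M / |τ|)
      refine ⟨n, fun h => ?_⟩
      have h1 := hM _ h
      have h2 := hM _ (hAE hz)
      have h3 := hv (z + -(((n + 1 : ℕ) : ℝ) • v)) (n + 1)
      rw [neg_add_cancel_right] at h3
      have h4 : |((n + 1 : ℕ) : ℝ) * τ| ≤ 2 * M := by
        rw [← add_sub_cancel_left ((z + -(((n + 1 : ℕ) : ℝ) • v)) j) (((n + 1 : ℕ) : ℝ) * τ), ← h3]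
        exact (abs_sub _ _).trans (by linarith)
      rw [div_lt_iff₀ hτ'] at hn
      rw [abs_mul, Nat.abs_cast, Nat.cast_succ] at h4
      nlinarith
    have h1 := Nat.find_spec hex
    refine Set.mem_iUnion.2 ⟨Nat.find hex, ?_, ?_, ?_⟩
    · change z + -_ + _ ∈ A
      rwa [neg_add_cancel_right]
    · change z + -_ ∈ E
      rcases Nat.eq_zero_or_pos (Nat.find hex) with h | h
      · rw [h, Nat.cast_zero, zero_smul, neg_zero, add_zero]
        exact hAE hz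
      · have h2 := Nat.find_min hex (Nat.sub_one_lt_of_lt h)
        rwa [not_not, Nat.sub_add_cancel h] at h2
    · rwa [Nat.cast_succ, add_smul, one_smul, neg_add, ← add_assoc, ← sub_eq_add_neg _ v] at h1
  calc volume A ≤ ∑' n : ℕ, volume ((fun z => z + -((n : ℝ) • v)) ⁻¹' T n) :=
        (measure_mono hcov).trans (measure_iUnion_le _)
    _ = ∑' n : ℕ, volume (T n) := tsum_congr fun n => measure_preimage_add_right _ _ _
    _ = volume (⋃ n, T n) := (measure_iUnion hdis hT).symm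
    _ ≤ volume Lo := measure_mono (Set.iUnion_subset fun n => Set.inter_subset_right)

end

section


theorem hom_POL {N : Type u} [Group N] {f : N → ℤ} (h : ∀ g h, f (g * h) = f g + f h) :
    f 1 = 0 ∧ ∀ g, f g⁻¹ = -f g := by
  have h1 : f 1 = 0 := by
    have := h 1 1
    rw [mul_one] at this
    omega
  refine ⟨h1, fun g => ?_⟩
  have := h g g⁻¹
  rw [mul_inv_cancel, h1] at this
  omega

theorem lp_POL {α : Type u} (T : Finset α) (a β : α → ℝ) (h1 : ∃ s ∈ T, 0 < a s)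
    (h2 : ∃ s ∈ T, a s ≤ 0) : ∃ θ lam : ℝ, (∀ s ∈ T, β s + lam * a s ≤ θ) ∧
      ((∃ s ∈ T, a s = 0 ∧ β s = θ) ∨ ∃ s ∈ T, ∃ s' ∈ T, 0 < a s ∧ a s' < 0 ∧
        β s + lam * a s = θ ∧ β s' + lam * a s' = θ) := by
  classical
  obtain ⟨t, ht, ht'⟩ := h1
  obtain ⟨t', ht2, ht2'⟩ := h2
  obtain ⟨⟨s, s'⟩, hs, hmax⟩ := exists_max_image
    ((T ×ˢ T).filter fun p => 0 < a p.1 ∧ a p.2 ≤ 0)
    (fun p => (a p.1 * β p.2 - a p.2 * β p.1) / (a p.1 - a p.2))
    ⟨(t, t'), by simp [ht, ht', ht2, ht2']⟩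
  simp only [mem_filter, mem_product] at hs hmax
  obtain ⟨θ, hθ⟩ : ∃ θ, θ = (a s * β s' - a s' * β s) / (a s - a s') := ⟨_, rfl⟩
  rw [← hθ] at hmax
  obtain ⟨⟨hsT, hsT'⟩, hs1, hs2⟩ := hs
  rw [eq_div_iff (by linarith)] at hθ
  obtain ⟨v, hv, hmin⟩ := exists_min_image (T.filter fun p => 0 < a p)
    (fun p => (θ - β p) / a p) ⟨t, by simp [ht, ht']⟩
  simp only [mem_filter] at hv hmin
  obtain ⟨lam, hl⟩ : ∃ lam, lam = (θ - β v) / a v := ⟨_, rfl⟩
  rw [← hl] at hmin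
  rw [eq_div_iff hv.2.ne'] at hl
  have up : ∀ x ∈ T, β x + lam * a x ≤ θ := by
    intro x hx
    by_cases h : 0 < a x
    · have := hmin x ⟨hx, h⟩
      rw [le_div_iff₀ h] at this
      linarith
    · rw [not_lt] at h
      have := hmax (v, x) ⟨⟨hv.1, hx⟩, hv.2, h⟩
      rw [div_le_iff₀ (by linarith [hv.2])] at this
      refine le_of_mul_le_mul_left ?_ hv.2
      have e : a v * (β x + lam * a x) = a v * β x + (θ - β v) * a x := by
        linear_combination a x * hl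
      rw [e]
      linarith
  refine ⟨θ, lam, up, ?_⟩
  rcases hs2.eq_or_lt with h | h
  · refine Or.inl ⟨s', hsT', h, mul_left_cancel₀ hs1.ne' ?_⟩
    rw [h] at hθ
    linarith
  · have u1 := mul_nonneg (neg_nonneg.2 hs2) (sub_nonneg.2 (up s hsT))
    have u2 := mul_nonneg hs1.le (sub_nonneg.2 (up s' hsT'))
    have e : -a s' * (θ - (β s + lam * a s)) + a s * (θ - (β s' + lam * a s')) = 0 := by
      linear_combination hθ
    have e1 : -a s' * (θ - (β s + lam * a s)) = 0 := by linarith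
    have e2 : a s * (θ - (β s' + lam * a s')) = 0 := by linarith
    refine Or.inr ⟨s, hsT, s', hsT', hs1, h, ?_, ?_⟩
    · linarith [(mul_eq_zero.1 e1).resolve_left (by linarith)]
    · linarith [(mul_eq_zero.1 e2).resolve_left hs1.ne']

theorem POL_pf : POL_st.{u} := by
  intro N _ T a β sym gen ha hβ ⟨s0, hs0, h0⟩ ⟨x, hx1, hx2⟩
  obtain ⟨a1, ai⟩ := hom_POL ha
  obtain ⟨b1, bi⟩ := hom_POL hβ
  have h1 : ∃ s ∈ T, 0 < a s := by
    rcases lt_or_gt_of_ne h0 with h | h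
    · exact ⟨_, sym _ hs0, by rw [ai]; omega⟩
    · exact ⟨_, hs0, h⟩
  obtain ⟨s1, hs1, h1⟩ := h1
  obtain ⟨θ, lam, up, att⟩ := lp_POL T (fun g => (a g : ℝ)) (fun g => (β g : ℝ))
    ⟨s1, hs1, by exact_mod_cast h1⟩
    ⟨_, sym _ hs1, by rw [ai]; exact_mod_cast (by omega : -a s1 ≤ 0)⟩
  have lo : ∀ s ∈ T, -θ ≤ β s + lam * a s := fun s hs => by
    have := up _ (sym s hs)
    rw [ai, bi] at this
    push_cast at this
    linarith
  have pos : 0 < θ := by
    by_contra h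
    rw [not_lt] at h
    have key : ∀ g : N, (β g : ℝ) + lam * a g = 0 := by
      intro g
      have hg : g ∈ Subgroup.closure (T : Set N) := gen ▸ Subgroup.mem_top g
      induction hg using Subgroup.closure_induction with
      | mem s hs => linarith [up s hs, lo s hs]
      | one => simp [a1, b1]
      | mul g g' _ _ h1 h2 =>
        rw [ha, hβ]
        push_cast
        linarith
      | inv g _ h1 =>
        rw [ai, bi]
        push_cast
        linarith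
    have := key x
    rw [hx1, Int.cast_zero, mul_zero, add_zero] at this
    exact hx2 (by exact_mod_cast this)
  refine ⟨⟨T, a, fun g => β g, θ, lam, pos, up, lo⟩, rfl, fun _ => rfl, fun _ => rfl, ?_⟩
  rcases att with ⟨s, hs, h2, h3⟩ | ⟨s, hs, s', hs', h2, h3, h4, h5⟩
  · exact Or.inl ⟨s, hs, by exact_mod_cast h2, h3⟩
  · exact Or.inr ⟨s, s', hs, hs', by exact_mod_cast h2, by exact_mod_cast h3, h4, h5⟩

end

section


theorem top_ANU (V C : ℝ) (M C1 e k : ℕ) (hV : 0 < V) (hM : 1 ≤ M) (hk : 1 ≤ k) :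
    ((k / M + C1 : ℕ) : ℝ) ^ (e + 1) * V + C * ((k / M + C1 : ℕ) : ℝ) ^ e ≤
      V / M ^ (e + 1) * (k : ℝ) ^ (e + 1) +
        (V * (C1 * (e + 1)) + |C|) * (1 + C1) ^ e * (k : ℝ) ^ e := by
  have hM' : (1 : ℝ) ≤ M := by exact_mod_cast hM
  have hk' : (1 : ℝ) ≤ k := by exact_mod_cast hk
  have hC1 : (0 : ℝ) ≤ C1 := Nat.cast_nonneg _
  set y : ℝ := ((k / M + C1 : ℕ) : ℝ) with hy
  set x : ℝ := (k : ℝ) / M with hx
  have hx0 : 0 ≤ x := by positivity
  have hy0 : 0 ≤ y := Nat.cast_nonneg _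
  have hyx : y ≤ x + C1 := by
    rw [hy, Nat.cast_add]
    exact add_le_add_left Nat.cast_div_le _
  have hxk : x ≤ k := div_le_self (by positivity) hM'
  have hB : x + C1 ≤ (1 + C1) * k := by nlinarith
  have hp : (x + C1) ^ e ≤ (1 + C1) ^ e * (k : ℝ) ^ e := by
    rw [← mul_pow]
    exact pow_le_pow_left₀ (by positivity) hB e
  have h1 : (x + C1) ^ (e + 1) - x ^ (e + 1) ≤ C1 * (e + 1) * (x + C1) ^ e := by
    have h := (le_abs_self _).trans (abs_pow_sub_pow_le (x + C1) x (e + 1))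
    rw [add_sub_cancel_left, abs_of_nonneg hC1, abs_of_nonneg hx0,
      abs_of_nonneg (add_nonneg hx0 hC1), max_eq_left (le_add_of_nonneg_right hC1),
      Nat.add_sub_cancel, Nat.cast_succ] at h
    exact h
  have h2 : y ^ (e + 1) ≤ (x + C1) ^ (e + 1) := pow_le_pow_left₀ hy0 hyx _
  have h3 : C * y ^ e ≤ |C| * ((1 + C1) ^ e * (k : ℝ) ^ e) :=
    mul_le_mul (le_abs_self C) ((pow_le_pow_left₀ hy0 hyx e).trans hp) (by positivity)
      (abs_nonneg C)
  have h4 : (C1 : ℝ) * (e + 1) * (x + C1) ^ e ≤ C1 * (e + 1) * ((1 + C1) ^ e * (k : ℝ) ^ e) :=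
    mul_le_mul_of_nonneg_left hp (by positivity)
  have h5 : y ^ (e + 1) * V ≤
      (x ^ (e + 1) + C1 * (e + 1) * ((1 + C1) ^ e * (k : ℝ) ^ e)) * V :=
    mul_le_mul_of_nonneg_right (by linarith) hV.le
  have h6 : x ^ (e + 1) * V = V / M ^ (e + 1) * (k : ℝ) ^ (e + 1) := by
    rw [hx, div_pow]
    ring
  nlinarith

theorem low_ANU (M C1 k : ℕ) (hM : 1 ≤ M) (hk : 2 * M ≤ k) :
    (k : ℝ) / (2 * M) ≤ ((k / M + C1 : ℕ) : ℝ) := by
  have hM' : (0 : ℝ) < M := by exact_mod_cast hM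
  have h1 : k < M * (k / M + 1) := Nat.lt_mul_div_succ k hM
  have h2 : 1 ≤ k / M := (Nat.le_div_iff_mul_le hM).mpr (by omega)
  have h3 : k ≤ (k / M + C1) * (2 * M) := by nlinarith [Nat.zero_le (C1 * M)]
  rw [div_le_iff₀ (by positivity)]
  exact_mod_cast h3

theorem ANU_pf : ANU_st := by
  intro b f q V c C D0 M C1 e r s hq hV hM hr hrs hb
  have hM' : (1 : ℝ) ≤ M := by exact_mod_cast hM
  set C2 : ℝ := (V * (C1 * (e + 1)) + |C|) * (1 + C1) ^ e with hC2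
  have hev : ∀ᶠ k : ℕ in Filter.atTop, 2 * M ≤ k := Filter.eventually_ge_atTop _
  have hone : ∀ k : ℕ, 2 * M ≤ k → (1 : ℝ) ≤ (k : ℝ) / (2 * M) := fun k hk => by
    rw [le_div_iff₀ (by positivity), one_mul]
    exact_mod_cast hk
  refine ⟨fun hf => ⟨q * C2, ?_⟩, fun hc hf => ?_⟩
  · have h2 : ∀ᶠ k : ℕ in Filter.atTop, D0 * (2 * M) ≤ (k : ℝ) :=
      tendsto_natCast_atTop_atTop.eventually_ge_atTop _
    filter_upwards [hev, h2] with k hk hD
    have hk1 : 1 ≤ k := by omega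
    have hk' : (0 : ℝ) < k := by exact_mod_cast hk1
    have hl := low_ANU M C1 k hM hk
    have h1 : 1 ≤ k / M + C1 := by exact_mod_cast (hone k hk).trans hl
    have h3 : D0 ≤ ((k / M + C1 : ℕ) : ℝ) :=
      ((le_div_iff₀ (by positivity)).mpr hD).trans hl
    have h4 := mul_le_mul_of_nonneg_left ((hf _ h1 h3).trans (top_ANU V C M C1 e k hV hM hk1)) hq.le
    rw [div_le_iff₀ (by positivity)]
    have h5 := hb k
    rw [← hC2] at h4
    have h6 : q * V / M ^ (e + 1) * (k : ℝ) ^ (e + 1) =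
        q * (V / M ^ (e + 1) * (k : ℝ) ^ (e + 1)) := by ring
    nlinarith
  · have hs : (1 : ℝ) ≤ s := by exact_mod_cast hr.trans hrs
    have hr' : (1 : ℝ) ≤ r := by exact_mod_cast hr
    have hrs' : (r : ℝ) ≤ s := by exact_mod_cast hrs
    have hT : Filter.Tendsto (fun k : ℕ => (k : ℝ) ^ (1 / (s : ℝ))) Filter.atTop Filter.atTop :=
      (tendsto_rpow_atTop (by positivity)).comp tendsto_natCast_atTop_atTop
    set c1 : ℝ := q * c / (2 * M) ^ (e + 1) with hc1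
    have hc0 : 0 < c1 := by positivity
    refine ⟨c1 / 2, by positivity, ?_⟩
    filter_upwards [hev, hT.eventually_ge_atTop (D0 * (2 * M)),
      hT.eventually_ge_atTop (q * C2 / (c1 / 2))] with k hk hD hC
    have hk1 : 1 ≤ k := by omega
    have hk' : (0 : ℝ) < k := by exact_mod_cast hk1
    have hl := low_ANU M C1 k hM hk
    have ho := hone k hk
    set y : ℝ := ((k / M + C1 : ℕ) : ℝ) with hy
    set t : ℝ := (k : ℝ) ^ (1 / (s : ℝ)) with ht
    have ht0 : 0 ≤ t := by positivity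
    have hD1 : t / (2 * M) ≤ y ^ ((r : ℝ)⁻¹) := by
      calc t / (2 * M) ≤ t / (2 * M : ℝ) ^ (1 / (s : ℝ)) := by
            refine div_le_div_of_nonneg_left ht0 (by positivity) ?_
            refine (Real.rpow_le_rpow_of_exponent_le (by linarith) ?_).trans (Real.rpow_one _).le
            exact (div_le_one (by positivity)).mpr hs
        _ = ((k : ℝ) / (2 * M)) ^ (1 / (s : ℝ)) := by
            rw [ht, Real.div_rpow hk'.le (by positivity)]
        _ ≤ y ^ (1 / (s : ℝ)) := Real.rpow_le_rpow (by positivity) hl (by positivity)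
        _ ≤ _ := by
            refine Real.rpow_le_rpow_of_exponent_le (ho.trans hl) ?_
            rw [one_div]
            exact inv_anti₀ (by positivity) hrs'
    have hy0 : 0 ≤ y := Nat.cast_nonneg _
    have h1 := hf (k / M + C1) (y ^ ((r : ℝ)⁻¹)) (((le_div_iff₀ (by positivity)).mpr hD).trans hD1)
      (Real.rpow_inv_natCast_pow hy0 (by omega)).le
    have h2 := top_ANU V C M C1 e k hV hM hk1
    rw [← hy] at h1 h2
    rw [← hC2] at h2
    have h3 : t / (2 * M) * ((k : ℝ) / (2 * M)) ^ e ≤ y ^ ((r : ℝ)⁻¹) * y ^ e :=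
      mul_le_mul hD1 (pow_le_pow_left₀ (by positivity) hl e) (by positivity) (by positivity)
    have h4 : q * c * (t / (2 * M) * ((k : ℝ) / (2 * M)) ^ e) = c1 * t * (k : ℝ) ^ e := by
      rw [hc1, div_pow, pow_succ]
      field_simp
    have h5 := mul_le_mul_of_nonneg_left h3 (mul_pos hq hc).le
    have h6 : f (k / M + C1) ≤ V / M ^ (e + 1) * (k : ℝ) ^ (e + 1) + C2 * (k : ℝ) ^ e -
        c * (y ^ ((r : ℝ)⁻¹) * y ^ e) := by linarith
    have h7 := (hb k).trans (mul_le_mul_of_nonneg_left h6 hq.le)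
    have h8 : q * C2 * (k : ℝ) ^ e ≤ t * (c1 / 2) * (k : ℝ) ^ e :=
      mul_le_mul_of_nonneg_right ((div_le_iff₀ (by positivity)).mp hC) (by positivity)
    rw [div_le_iff₀ (by positivity)]
    have h9 : q * V / M ^ (e + 1) * (k : ℝ) ^ (e + 1) =
        q * (V / M ^ (e + 1) * (k : ℝ) ^ (e + 1)) := by ring
    linarith

end

section


theorem key_ANL {B F q V C R : ℝ} {M C1 e k : ℕ} (hq : 0 < q) (hV : 0 < V) (hM : 1 ≤ M)
    (hk : C1 + M ≤ k) (hR : 1 ≤ R) (h1 : q * F ≤ B)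
    (h2 : (((k - C1) / M : ℕ) : ℝ) ^ (e + 1) * V ≤ F + C * R * (((k - C1) / M : ℕ) : ℝ) ^ e) :
    -(q * (|C| + V * ((e + 1) * (C1 + 1)))) * R ≤
      (B - q * V / M ^ (e + 1) * (k : ℝ) ^ (e + 1)) / (k : ℝ) ^ e := by
  have a1 : (k - C1) / M * M ≤ k := (Nat.div_mul_le_self _ _).trans (Nat.sub_le _ _)
  have a2 : k ≤ (k - C1) / M * M + M + C1 := by
    have := Nat.lt_div_mul_add (a := k - C1) (b := M) hM
    omega
  generalize (k - C1) / M = y at a1 a2 h2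
  have m1 : (1 : ℝ) ≤ M := by exact_mod_cast hM
  have k0 : (0 : ℝ) < k := by exact_mod_cast (by omega : 0 < k)
  have b1 : (y : ℝ) * M ≤ k := by exact_mod_cast a1
  have b2 : (k : ℝ) ≤ y * M + M + C1 := by exact_mod_cast a2
  have y0 : (0 : ℝ) ≤ y := Nat.cast_nonneg y
  have c0 : (0 : ℝ) ≤ C1 := Nat.cast_nonneg C1
  have x1 : (y : ℝ) ≤ k / M := by rwa [le_div_iff₀ (by linarith)]
  have x2 : (k : ℝ) / M ≤ k := div_le_self k0.le m1
  have x3 : (k : ℝ) / M - y ≤ C1 + 1 := by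
    rw [sub_le_iff_le_add, div_le_iff₀ (by linarith)]
    nlinarith
  have d1 := pow_dif (x := (k : ℝ) / M) (y := y) (M := k) (by rwa [abs_of_nonneg (y0.trans x1)])
    (by rw [abs_of_nonneg y0]; exact x1.trans x2) (e + 1)
  have d2 : ((k : ℝ) / M) ^ (e + 1) - y ^ (e + 1) ≤ (e + 1) * (C1 + 1) * k ^ e := by
    refine le_of_mul_le_mul_left ((mul_le_mul_of_nonneg_left (le_abs_self _) k0.le).trans
      (d1.trans ?_)) k0
    rw [abs_of_nonneg (sub_nonneg.2 x1)]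
    push_cast
    calc ((e : ℝ) + 1) * (k / M - y) * k ^ (e + 1) ≤ (e + 1) * (C1 + 1) * k ^ (e + 1) := by
          gcongr
      _ = _ := by ring
  have d3 : C * R * (y : ℝ) ^ e ≤ |C| * R * k ^ e := by
    have := le_abs_self C
    have := x1.trans x2
    gcongr
  have d4 : V * ((e + 1) * (C1 + 1) * k ^ e) ≤ V * ((e + 1) * (C1 + 1) * k ^ e) * R :=
    le_mul_of_one_le_right (by positivity) hR
  have d5 := mul_le_mul_of_nonneg_left d2 hV.le
  have d6 : V * ((k : ℝ) / M) ^ (e + 1) - (|C| + V * ((e + 1) * (C1 + 1))) * R * k ^ e ≤ F := by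
    linarith
  have d7 := mul_le_mul_of_nonneg_left d6 hq.le
  rw [le_div_iff₀ (by positivity),
    show q * V / M ^ (e + 1) * (k : ℝ) ^ (e + 1) = q * (V * ((k : ℝ) / M) ^ (e + 1)) by
      rw [div_pow]; ring]
  linarith

theorem ANL_pf : ANL_st := by
  intro b f q V C M C1 e hq hV hM hb
  have p1 : ∀ k, C1 + M ≤ k → 1 ≤ (k - C1) / M := fun k hk =>
    (Nat.le_div_iff_mul_le hM).2 (by omega)
  refine ⟨fun h => ⟨q * (|C| + V * ((e + 1) * (C1 + 1))), ?_⟩,
    fun h => ⟨q * (|C| + V * ((e + 1) * (C1 + 1))), ?_⟩⟩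
  · filter_upwards [Filter.eventually_ge_atTop (C1 + M)] with k hk
    have := key_ANL (C := C) (e := e) hq hV hM hk le_rfl (hb k (by omega))
      (by rw [mul_one]; exact h _ (p1 k hk))
    rwa [mul_one] at this
  · filter_upwards [Filter.eventually_ge_atTop (C1 + M)] with k hk
    have k1 : (1 : ℝ) ≤ k := by exact_mod_cast (by omega : 1 ≤ k)
    have r1 : (1 : ℝ) ≤ (k : ℝ) ^ (1 / 3 : ℝ) := Real.one_le_rpow k1 (by norm_num)
    refine key_ANL hq hV hM hk r1 (hb k (by omega)) (h _ _ (p1 k hk) r1 ?_)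
    rw [← Real.rpow_natCast, ← Real.rpow_mul (by linarith)]
    norm_num
    exact (Nat.div_le_self _ _).trans (Nat.sub_le _ _)

end

end Pool.Agent.MP_b3b911_al.Dich
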