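import Pool.Agent.MP_b3b911_al.Dich.Defs
import Pool.Agent.Mg.Fb3b911.G6bbfaa

/-! Definitions and statements of the steps for the dichotomy in virtually filiform groups. -/

open Finset MeasureTheory

noncomputable section

namespace Pool.Agent.MP_b3b911_al.Dich

open Fil

universe u

/-- An alphabet: every letter has a height increment `a` and a mass `β`. -/
structure Alph (α : Type u) where
  T : Finset α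
  a : α → ℤ
  β : α → ℝ
  θ : ℝ
  lam : ℝ
  θ_pos : 0 < θ
  up : ∀ s ∈ T, β s + lam * a s ≤ θ
  lo : ∀ s ∈ T, -θ ≤ β s + lam * a s

/-- A sequence of `n` weighted letters. -/
structure Itm (α : Type u) where
  n : ℕ
  x : ℕ → α
  w : ℕ → ℝ
  d : ℕ → ℤ

variable {α : Type u}

/-- The height before the item `i`. -/
def Itm.h (I : Itm α) (i : ℕ) : ℤ := ∑ i' ∈ range i, I.d i'

/-- The total time. -/
def Itm.time (I : Itm α) : ℝ := ∑ i ∈ range I.n, I.w i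

/-- The moments of the mass. -/
def Itm.mom (I : Itm α) (β : α → ℝ) (e : ℕ) : ℝ :=
  ∑ i ∈ range I.n, I.w i * β (I.x i) * (I.h i : ℝ) ^ e

/-- The items are letters with weights at most `A`, and the steps fit. -/
def Itm.Ok (I : Itm α) (P : Alph α) (A : ℝ) : Prop :=
  ∀ i < I.n, I.x i ∈ P.T ∧ 0 ≤ I.w i ∧ I.w i ≤ A ∧ (I.d i : ℝ) = I.w i * P.a (I.x i)

/-- The mass that the item `i` leaves in the cell `c`. -/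
def Itm.share (I : Itm α) (β : α → ℝ) (i : ℕ) (c : ℤ) : ℝ :=
  if I.d i = 0 then (if I.h i = c then I.w i * β (I.x i) else 0)
  else if min (I.h i) (I.h (i + 1)) ≤ c ∧ c < max (I.h i) (I.h (i + 1)) then
    I.w i * β (I.x i) / |(I.d i : ℝ)| else 0

/-- The total mass in the cell `c`. -/
def Itm.tot (I : Itm α) (β : α → ℝ) (c : ℤ) : ℝ := ∑ i ∈ range I.n, I.share β i c

/-- The number of forced upward crossings of the cell `c` for a path from `0` to `n`. -/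
def mU (n c : ℤ) : ℝ := if n ≤ c ∧ c < 0 then 0 else 1

/-- The number of forced downward crossings of the cell `c` for a path from `0` to `n`. -/
def mD (n c : ℤ) : ℝ := if 0 ≤ c ∧ c < n then 0 else 1

/-- A configuration: range, end point, letter weights of the forced crossings, atoms. -/
structure Cfg (α : Type u) where
  X : ℤ
  Y : ℤ
  n : ℤ
  U : ℤ → α → ℝ
  D : ℤ → α → ℝ
  μ : ℤ → ℝ

/-- The configuration is admissible. -/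
def Cfg.Ok (Q : Cfg α) (P : Alph α) : Prop :=
  Q.X ≤ 0 ∧ Q.X ≤ Q.n ∧ 0 ≤ Q.Y ∧ Q.n ≤ Q.Y ∧ ∀ c ∈ Ico Q.X Q.Y,
    (∀ s ∈ P.T, 0 ≤ Q.U c s ∧ (Q.U c s ≠ 0 → 0 < P.a s)) ∧ ∑ s ∈ P.T, Q.U c s = mU Q.n c ∧
    (∀ s ∈ P.T, 0 ≤ Q.D c s ∧ (Q.D c s ≠ 0 → P.a s < 0)) ∧ ∑ s ∈ P.T, Q.D c s = mD Q.n c

/-- The time of the forced crossings. -/
def Cfg.time0 (Q : Cfg α) (P : Alph α) : ℝ :=
  ∑ c ∈ Ico Q.X Q.Y, ∑ s ∈ P.T, (Q.U c s + Q.D c s) / |(P.a s : ℝ)|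

/-- The moments of the forced crossings. -/
def Cfg.mom0 (Q : Cfg α) (P : Alph α) (e : ℕ) : ℝ :=
  ∑ c ∈ Ico Q.X Q.Y, (∑ s ∈ P.T, (Q.U c s + Q.D c s) * P.β s / |(P.a s : ℝ)|) * (c : ℝ) ^ e

/-- The total time. -/
def Cfg.time (Q : Cfg α) (P : Alph α) : ℝ := Q.time0 P + ∑ c ∈ Icc Q.X Q.Y, |Q.μ c| / P.θ

/-- The moments. -/
def Cfg.mom (Q : Cfg α) (P : Alph α) (e : ℕ) : ℝ :=
  Q.mom0 P e + ∑ c ∈ Icc Q.X Q.Y, Q.μ c * (c : ℝ) ^ e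

/-- The word spelled by a list of syllables. -/
def syl (L : List (α × ℕ)) : List α := L.flatMap fun p => List.replicate p.2 p.1

/-- The height reached after `i` letters. -/
def ht (a : α → ℤ) (l : List α) (i : ℕ) : ℤ := ((l.take i).map a).sum

theorem Alph.bd (P : Alph α) :
    ∃ B : ℕ, 1 ≤ B ∧ ∀ s ∈ P.T, |P.a s| ≤ B ∧ |(P.a s : ℝ)| ≤ B ∧ |P.β s| ≤ B := by
  obtain ⟨B, hB⟩ := exists_nat_ge (1 + ∑ s ∈ P.T, (|(P.a s : ℝ)| + |P.β s|))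
  have h0 : 0 ≤ ∑ s ∈ P.T, (|(P.a s : ℝ)| + |P.β s|) := sum_nonneg fun _ _ => by positivity
  refine ⟨B, by exact_mod_cast (by linarith : (1 : ℝ) ≤ B), fun s hs => ?_⟩
  have h1 := single_le_sum (f := fun s => |(P.a s : ℝ)| + |P.β s|) (fun _ _ => by positivity) hs
  have h2 : |(P.a s : ℝ)| ≤ B := by linarith [abs_nonneg (P.β s)]
  exact ⟨by exact_mod_cast h2, h2, by linarith [abs_nonneg (P.a s : ℝ)]⟩

theorem Itm.h_zero (I : Itm α) : I.h 0 = 0 := by simp [Itm.h]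

theorem Itm.h_succ (I : Itm α) (i : ℕ) : I.h (i + 1) = I.h i + I.d i := by
  simp [Itm.h, sum_range_succ]

theorem pow_dif {x y M : ℝ} (hx : |x| ≤ M) (hy : |y| ≤ M) (e : ℕ) :
    M * |x ^ e - y ^ e| ≤ e * |x - y| * M ^ e := CCoa_pow hx hy e

theorem isum_app (a : α → ℤ) (c : α → ℝ) (e : ℕ) (l₁ l₂ : List α) (y : ℤ) :
    Isum a c e y (l₁ ++ l₂) = Isum a c e y l₁ + Isum a c e (y + (l₁.map a).sum) l₂ :=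
  CRef_append a c e l₁ l₂ y

/-- divided differences -/
def CHB_st : Prop := ∀ (q : ℕ) (y : Fin (q + 1) → ℝ) (g : ℝ), 0 < g →
  (∀ i j, i < j → g ≤ y j - y i) → ∃ δ : Fin (q + 1) → ℝ,
    (∀ e < q, ∑ i, δ i * y i ^ e = 0) ∧ ∑ i, δ i * y i ^ q = 1 ∧
    (∀ i : Fin (q + 1), 0 < (-1 : ℝ) ^ (q - (i : ℕ)) * δ i) ∧ ∀ i, |δ i| * g ^ q ≤ 1

/-- bang-bang principle on an interval of cells -/
def BBP_st : Prop := ∀ (α : Type u) [DecidableEq α] (U : Finset α) (τ b : α → ℝ) (r : ℕ), 1 ≤ r →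
  ∃ (m : ℕ) (C : ℝ), 0 ≤ C ∧ ∀ (p q : ℤ) (K : ℝ) (l : ℤ → α → ℝ), 1 ≤ K → |(p : ℝ)| ≤ K →
    |(q : ℝ)| ≤ K → p < q → (∀ c ∈ Ico p q, (∀ s ∈ U, 0 ≤ l c s) ∧ ∑ s ∈ U, l c s = 1) →
    ∃ σ : ℤ → α, (∀ c ∈ Ico p q, σ c ∈ U) ∧
      ((Ico p (q - 1)).filter fun c => σ c ≠ σ (c + 1)).card ≤ m ∧
      ∑ c ∈ Ico p q, τ (σ c) ≤ ∑ c ∈ Ico p q, ∑ s ∈ U, l c s * τ s + C ∧
      ∀ e < r, |∑ c ∈ Ico p q, b (σ c) * (c : ℝ) ^ e -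
        ∑ c ∈ Ico p q, (∑ s ∈ U, l c s * b s) * (c : ℝ) ^ e| ≤ C * K ^ e

/-- one upward pass as a word with few syllables -/
def PSU_st : Prop := ∀ (α : Type u) [DecidableEq α] (U : Finset α) (a : α → ℤ) (β : α → ℝ)
  (A : ℕ) (r : ℕ), (∀ s ∈ U, 0 < a s ∧ a s ≤ A) →
  ∃ C : ℝ, 0 ≤ C ∧ ∀ (p q y : ℤ) (K : ℝ) (σ : ℤ → α) (m : ℕ), 1 ≤ K → |(p : ℝ)| ≤ K →
    |(q : ℝ)| ≤ K → p ≤ q → |y - p| ≤ A → (∀ c ∈ Ico p q, σ c ∈ U) →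
    ((Ico p (q - 1)).filter fun c => σ c ≠ σ (c + 1)).card ≤ m →
    ∃ L : List (α × ℕ), L.length ≤ m + 1 ∧ (∀ x ∈ L, x.1 ∈ U) ∧
      |y + ((syl L).map a).sum - q| ≤ A ∧
      ((syl L).length : ℝ) ≤ ∑ c ∈ Ico p q, 1 / (a (σ c) : ℝ) + C * (m + 1) ∧
      ∀ e < r, |Isum a β e y (syl L) - ∑ c ∈ Ico p q, β (σ c) / (a (σ c) : ℝ) * (c : ℝ) ^ e| ≤
        C * (m + 1) * K ^ e

/-- one pass in either direction, for mixed weights -/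
def PSS_st : Prop := ∀ (α : Type u) (P : Alph α) (A : ℕ) (r : ℕ), (∀ s ∈ P.T, |P.a s| ≤ A) →
  ∃ (m : ℕ) (C : ℝ), 0 ≤ C ∧ ∀ (ε p q y : ℤ) (K : ℝ) (l : ℤ → α → ℝ), (ε = 1 ∨ ε = -1) → 1 ≤ K →
    |(p : ℝ)| ≤ K → |(q : ℝ)| ≤ K → p ≤ q → |y - (if ε = 1 then p else q)| ≤ A →
    (∀ c ∈ Ico p q, (∀ s ∈ P.T, 0 ≤ l c s ∧ (l c s ≠ 0 → 0 < ε * P.a s)) ∧ ∑ s ∈ P.T, l c s = 1) →
    ∃ L : List (α × ℕ), L.length ≤ m ∧ (∀ x ∈ L, x.1 ∈ P.T) ∧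
      |y + ((syl L).map P.a).sum - (if ε = 1 then q else p)| ≤ A ∧
      ((syl L).length : ℝ) ≤ ∑ c ∈ Ico p q, ∑ s ∈ P.T, l c s / |(P.a s : ℝ)| + C ∧
      ∀ e < r, |Isum P.a P.β e y (syl L) -
        ∑ c ∈ Ico p q, (∑ s ∈ P.T, l c s * P.β s / |(P.a s : ℝ)|) * (c : ℝ) ^ e| ≤ C * K ^ e

/-- the forced crossings as a word with few syllables -/
def SKL_st : Prop := ∀ (α : Type u) (P : Alph α) (r : ℕ) (A : ℝ),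
  ∃ (m : ℕ) (C : ℝ), 1 ≤ C ∧ ∀ (Q : Cfg α) (K : ℝ), 1 ≤ K → Q.Ok P → Q.time0 P ≤ A * K →
    |(Q.X : ℝ)| ≤ C * K ∧ |(Q.Y : ℝ)| ≤ C * K ∧
    ∃ L : List (α × ℕ), L.length ≤ m ∧ (∀ x ∈ L, x.1 ∈ P.T) ∧
      |((((syl L).map P.a).sum - Q.n : ℤ) : ℝ)| ≤ C ∧ ((syl L).length : ℝ) ≤ Q.time0 P + C ∧
      (∀ e < r, |Isum P.a P.β e 0 (syl L) - Q.mom0 P e| ≤ C * K ^ e) ∧
      ∀ c ∈ Icc Q.X Q.Y, ∃ i, |((ht P.a (syl L) i - c : ℤ) : ℝ)| ≤ C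

/-- few atoms suffice -/
def CAR_st : Prop := ∀ (r : ℕ) (F : Finset ℤ) (μ : ℤ → ℝ), 1 ≤ r → ∃ Λ : List (ℤ × ℝ),
  Λ.length ≤ 2 * r ∧ (∀ p ∈ Λ, p.1 ∈ F) ∧ (Λ.map fun p => |p.2|).sum ≤ ∑ c ∈ F, |μ c| ∧
  ∀ e < r, (Λ.map fun p => p.2 * (p.1 : ℝ) ^ e).sum = ∑ c ∈ F, μ c * (c : ℝ) ^ e

/-- crossing numbers of a path -/
def CRS_st : Prop := ∀ (n : ℕ) (h : ℕ → ℤ) (X Y c : ℤ), h 0 = 0 → (∃ i ≤ n, h i = X) →
  (∃ i ≤ n, h i = Y) → X ≤ c → c < Y →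
  mU (h n) c ≤ ((range n).filter fun i => h i ≤ c ∧ c < h (i + 1)).card ∧
  mD (h n) c ≤ ((range n).filter fun i => h (i + 1) ≤ c ∧ c < h i).card ∧
  (((range n).filter fun i => h i ≤ c ∧ c < h (i + 1)).card : ℝ) - mU (h n) c =
    ((range n).filter fun i => h (i + 1) ≤ c ∧ c < h i).card - mD (h n) c

/-- the cell masses have the moments of the items -/
def SHM_st : Prop := ∀ (α : Type u) (P : Alph α) (r : ℕ) (A : ℝ), ∃ C : ℝ, 0 ≤ C ∧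
  ∀ (I : Itm α) (K : ℝ) (X Y : ℤ), 1 ≤ K → I.Ok P A → I.time ≤ A * K →
    (∀ i ≤ I.n, X ≤ I.h i ∧ I.h i ≤ Y) →
    (∀ i ≤ I.n, |(I.h i : ℝ)| ≤ C * K) ∧
    (∀ c : ℤ, |I.tot P.β c| ≤ C * ((range I.n).filter fun i => |((I.h i - c : ℤ) : ℝ)| ≤ C).card) ∧
    ∀ e < r, |∑ c ∈ Icc X Y, I.tot P.β c * (c : ℝ) ^ e - I.mom P.β e| ≤ C * K ^ e

/-- from items to a configuration -/
def W2C_st : Prop := ∀ (α : Type u) (P : Alph α) (r : ℕ) (A : ℝ), ∃ C : ℝ, 0 ≤ C ∧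
  ∀ (I : Itm α) (K : ℝ), 1 ≤ K → I.Ok P A → I.time ≤ A * K → ∃ Q : Cfg α, Q.Ok P ∧
    Q.n = I.h I.n ∧ (∀ i ≤ I.n, Q.X ≤ I.h i ∧ I.h i ≤ Q.Y) ∧ (∃ i ≤ I.n, I.h i = Q.X) ∧
    (∃ i ≤ I.n, I.h i = Q.Y) ∧ Q.time P ≤ I.time ∧
    (∀ e < r, |Q.mom P e - I.mom P.β e| ≤ C * K ^ e) ∧
    ∀ c ∈ Icc Q.X Q.Y, |Q.μ c - I.tot P.β c| ≤ C

/-- small regret and small second moment force a small range -/
def RNG_st : Prop := ∀ (α : Type u) (P : Alph α) (η : ℝ), 0 < η → ∃ ε K0 : ℝ, 0 < ε ∧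
  ∀ (I : Itm α) (K : ℝ), K0 ≤ K → I.Ok P 1 → I.time ≤ K →
    P.θ * I.time - I.mom P.β 0 - P.lam * I.h I.n ≤ ε * K → |(I.h I.n : ℝ)| ≤ ε * K →
    I.mom P.β 2 ≤ ε * K ^ 3 → ∀ i ≤ I.n, |(I.h i : ℝ)| ≤ η * K

/-- a mass of bounded density is not extremal -/
def SPR_st : Prop := ∀ q : ℕ, ∃ c C : ℝ, 0 < c ∧ 0 < C ∧ ∀ (X Y : ℤ) (μ : ℤ → ℝ) (D m t : ℝ),
  0 < D → (∀ z ∈ Icc X Y, 0 ≤ μ z ∧ μ z ≤ D) → m ≤ ∑ z ∈ Icc X Y, μ z → C * D ≤ m → 0 ≤ t →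
  t ≤ c * m * (m / D) ^ q → ∃ μ' : ℤ → ℝ, (∀ z ∈ Icc X Y, 0 ≤ μ' z) ∧
    (∀ e < q, ∑ z ∈ Icc X Y, μ' z * (z : ℝ) ^ e = ∑ z ∈ Icc X Y, μ z * (z : ℝ) ^ e) ∧
    ∑ z ∈ Icc X Y, μ' z * (z : ℝ) ^ q = ∑ z ∈ Icc X Y, μ z * (z : ℝ) ^ q - t

/-- many visits give many marked items nearby -/
def PIG_st : Prop := ∀ (A : ℝ) (R0 : ℕ), ∃ C : ℝ, 0 < C ∧ ∀ (n : ℕ) (h : ℕ → ℤ) (w : ℕ → ℝ)
  (lab : ℕ → ℕ) (E : Finset ℕ) (c : ℤ) (K η : ℝ), (∀ i < n, 0 ≤ w i ∧ |((h (i + 1) - h i : ℤ) : ℝ)| ≤ A * w i) →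
  ∑ i ∈ range n, w i ≤ K → (∀ i ≤ n, lab i < R0) →
  (∀ i i', i < i' → i' ≤ n → lab i = lab i' → h i = h i' → ∃ j ∈ E, i ≤ j ∧ j < i') → C ≤ η →
  (((range n).filter fun i => |((h i - c : ℤ) : ℝ)| ≤ A).card : ℝ) ≤
    C * (((E.filter fun i => i < n ∧ |((h i - c : ℤ) : ℝ)| ≤ η).card : ℝ) + 1 + K / η)

/-- replacing wasteful items by tight letters -/
def EXC_st : Prop := ∀ (α : Type u) (P : Alph α) (r : ℕ) (A : ℝ) (s s' : α), s ∈ P.T → s' ∈ P.T →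
  0 < P.a s → P.a s' < 0 → P.β s + P.lam * P.a s = P.θ → P.β s' + P.lam * P.a s' = P.θ →
  ∃ C : ℝ, 1 ≤ C ∧ ∀ (I : Itm α) (E : Finset ℕ) (c : ℤ) (K δ ρ : ℝ), 1 ≤ K → 0 ≤ δ → I.Ok P 1 →
    (∀ i < I.n, 0 < I.w i) → |(c : ℝ)| ≤ A * K →
    (∀ i ∈ E, i < I.n ∧ |(I.h i : ℝ)| ≤ A * K ∧ |((I.h i - c : ℤ) : ℝ)| ≤ δ * K ∧
      ρ ≤ I.w i * (P.θ - P.β (I.x i) - P.lam * P.a (I.x i))) →
    ∃ (I' : Itm α) (Δ : ℝ), I'.n = I.n ∧ I'.d = I.d ∧ I'.Ok P C ∧ |Δ| ≤ C * E.card ∧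
      I'.time - Δ / P.θ ≤ I.time - ρ / P.θ * E.card ∧
      (∀ z, |I'.tot P.β z - I.tot P.β z| ≤ C * E.card) ∧
      ∀ e < r, |I'.mom P.β e - Δ * (c : ℝ) ^ e - I.mom P.β e| ≤ C * E.card * δ * K ^ e

/-- the lowest points on lines through a slab -/
def SLB_st : Prop := ∀ (J : Type) [Fintype J] [DecidableEq J] (E A : Set (J → ℝ)) (j : J) (τ M : ℝ),
  τ ≠ 0 → MeasurableSet E → MeasurableSet A → A ⊆ E → (∀ z ∈ E, |z j| ≤ M) →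
  (∀ z ∈ A, ∀ z' ∈ A, |z j - z' j| < |τ|) →
  volume A ≤ volume {z | z ∈ E ∧ z - Pi.single j τ ∉ E}

section
variable {N : Type u} [Group N]

/-- A length function for which powers of letters are cheap. -/
structure Len (T : Finset N) (len : N → ℝ) (C0 : ℝ) : Prop where
  nn : 0 ≤ C0
  one : len 1 = 0
  mul : ∀ x y, len (x * y) ≤ len x + len y
  inv : ∀ x, len x⁻¹ = len x
  pow : ∀ x ∈ T, ∀ j : ℕ, len (x ^ j) ≤ j + C0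

/-- The word is a concatenation of at most `σ` pieces, each with a rate at least `ω` that bounds the
length of its factors up to `C`; the total of rate times size is at most `τ`. -/
def Pcs (len : N → ℝ) (ω C : ℝ) (l : List N) (τ σ : ℝ) : Prop :=
  ∃ L : List (List N × ℝ), (L.map Prod.fst).flatten = l ∧ (L.length : ℝ) ≤ σ ∧
    (L.map fun p : List N × ℝ => p.2 * (p.1.length : ℝ)).sum ≤ τ ∧
    ∀ p ∈ L, 0 ≤ p.2 ∧ ω ≤ p.2 ∧ ∀ v, v <:+: p.1 → len v.prod ≤ p.2 * v.length + C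

/-- Every element is a product of weighted items, with labels. -/
def Emit (T : Finset N) (len : N → ℝ) (C0 w0 : ℝ) (R0 : ℕ) : Prop :=
  ∀ g : N, ∃ (n : ℕ) (x y : ℕ → N) (w : ℕ → ℝ) (lab : ℕ → ℕ) (ρ : N),
    (∀ i < n, x i ∈ T ∧ y i ∈ T ∧ w0 ≤ w i ∧ w i ≤ 1 ∧ ∃ m : ℕ, y i ^ m = x i ∧ m * w i = 1) ∧
    ρ ∈ T ∧ ((List.range n).map y).prod * ρ = g ∧ ∑ i ∈ range n, w i ≤ len g ∧
    (∀ i ≤ n, lab i < R0) ∧ ∀ i i', i ≤ i' → i' ≤ n → lab i = lab i' → ∀ j : ℕ,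
      len (((List.range' i (i' - i)).map y).prod ^ j) ≤ j * ∑ i'' ∈ Ico i i', w i'' + C0

/-- The shape of the coordinates of a filiform group. -/
structure Shape {T : Finset N} {J : Type} [Fintype J] (Z : Sys T J) (β : N → ℤ) (κ : J → ℝ)
    (r : ℕ) : Prop where
  β_mul : ∀ g h, β (g * h) = β g + β h
  r_pos : 1 ≤ r
  c0 : ∀ s ∈ T, Z.c s Z.j0 = Z.co s Z.j0
  cκ : ∀ s ∈ T, ∀ j, j ≠ Z.j0 → Z.c s j = κ j * β s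
  κ_ne : ∀ j, j ≠ Z.j0 → κ j ≠ 0
  W_le : ∀ j, Z.W j ≤ r
  occ : ∀ q, 1 ≤ q → q ≤ r → ∃ j, j ≠ Z.j0 ∧ Z.W j = q
  inj : ∀ j j', j ≠ Z.j0 → j' ≠ Z.j0 → Z.W j = Z.W j' → j = j'

/-- A tight pair of letters. -/
def Pair (P : Alph α) (s s' : α) : Prop :=
  s ∈ P.T ∧ s' ∈ P.T ∧ 0 < P.a s ∧ P.a s' < 0 ∧ P.β s + P.lam * P.a s = P.θ ∧
    P.β s' + P.lam * P.a s' = P.θ

/-- All the data on the nilpotent group. -/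
structure Fd (T : Finset N) (J : Type) [Fintype J] where
  Z : Sys T J
  β : N → ℤ
  κ : J → ℝ
  r : ℕ
  P : Alph N
  sh : Shape Z β κ r
  sym : ∀ s ∈ T, s⁻¹ ∈ T
  gen : Subgroup.closure (T : Set N) = ⊤
  hT : P.T = T
  ha : ∀ g, P.a g = Z.co g Z.j0
  hβ : ∀ g, P.β g = β g
  att : (∃ s ∈ T, P.a s = 0 ∧ P.β s = P.θ) ∨ ∃ s s', Pair P s s'

variable {T : Finset N} {J : Type} [Fintype J]

/-- The point `z` is close to the height `n` and the moments `m`. -/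
def Fd.Cl (F : Fd T J) (z : J → ℝ) (n : ℤ) (m : ℕ → ℝ) (R K : ℝ) : Prop :=
  |z F.Z.j0 - n| ≤ R ∧ ∀ j, j ≠ F.Z.j0 → |z j - F.κ j * m (F.Z.W j - 1)| ≤ R * K ^ (F.Z.W j - 1)

/-- The vertical direction is realised with bounded defect. -/
def Fd.Real (F : Fd T J) (len : N → ℝ) : Prop :=
  ∃ g, F.P.a g = 0 ∧ 0 < F.P.β g ∧ ∃ C : ℝ, ∀ j : ℕ, len (g ^ j) ≤ j * F.P.β g / F.P.θ + C

/-- A vertical piece of mass `μ`. -/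
def Fd.Vp (F : Fd T J) (len : N → ℝ) (ω A C K R μ : ℝ) (v : List N) : Prop :=
  (∀ x ∈ v, x ∈ T) ∧ (v.map F.P.a).sum = 0 ∧ (v.length : ℝ) ≤ C * K ∧
    Pcs len ω C v (|μ| / F.P.θ + C * R) (C * R) ∧
    ∀ y : ℤ, |(y : ℝ)| ≤ A * K → ∀ e < F.r,
      |Isum F.P.a F.P.β e y v - μ * (y : ℝ) ^ e| ≤ C * R * K ^ e

/-- Vertical pieces exist under the side condition `p`. -/
def Fd.VP (F : Fd T J) (len : N → ℝ) (ω : ℝ) (p : ℝ → ℝ → Prop) : Prop :=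
  ∀ A : ℝ, ∃ C : ℝ, 0 ≤ C ∧ ∀ K R : ℝ, 1 ≤ K → 1 ≤ R → R ≤ A * K → p K R →
    ∀ μ : ℝ, |μ| ≤ A * K → ∃ v, F.Vp len ω A C K R μ v

/-- The points whose group element has length at most `k`. -/
def Fd.D (F : Fd T J) (len : N → ℝ) (k : ℕ) : Set (J → ℝ) := {z | len (F.Z.pt z) ≤ k}

/-- The region near the vertical direction. -/
def Fd.Reg (F : Fd T J) (j1 j2 : J) (ε ε' k : ℝ) (z : J → ℝ) : Prop :=
  ε' * k ≤ z F.Z.j0 ∧ z F.Z.j0 ≤ ε * k ∧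
    F.P.θ * (1 - ε) * k ≤ z j1 / F.κ j1 + F.P.lam * z F.Z.j0 ∧ z j2 / F.κ j2 ≤ ε * k ^ 3

/-- The items that describe `g`. -/
def Fd.Desc (F : Fd T J) (len : N → ℝ) (w0 C K : ℝ) (R0 : ℕ) (g : N) (I : Itm N) (lab : ℕ → ℕ) :
    Prop :=
  I.Ok F.P 1 ∧ (∀ i < I.n, w0 ≤ I.w i) ∧ I.time ≤ len g ∧
    F.Cl (fun j => F.Z.co g j) (I.h I.n) (I.mom F.P.β) C K ∧ (∀ i ≤ I.n, lab i < R0) ∧
    (∃ u : List N, Word T u ∧ (u.length : ℝ) ≤ C * K ∧ u.prod = g ∧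
      ∀ i, ∃ i' ≤ I.n, |((F.Z.co (u.take i).prod F.Z.j0 - I.h i' : ℤ) : ℝ)| ≤ C) ∧
    (¬ F.Real len → ∀ i i', i < i' → i' ≤ I.n → lab i = lab i' → I.h i = I.h i' →
      ∃ j, i ≤ j ∧ j < i' ∧ F.P.β (I.x j) + F.P.lam * F.P.a (I.x j) ≠ F.P.θ)

theorem Fd.word (F : Fd T J) (l : List N) : Word T l ↔ ∀ x ∈ l, x ∈ T :=
  ⟨fun h x hx => (h x hx).elim id fun h' => by simpa using F.sym _ h',
    fun h x hx => Or.inl (h x hx)⟩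

theorem Fd.a_mul (F : Fd T J) (g h : N) : F.P.a (g * h) = F.P.a g + F.P.a h := by
  rw [F.ha, F.ha, F.ha, F.Z.add]

theorem Fd.β_mul (F : Fd T J) (g h : N) : F.P.β (g * h) = F.P.β g + F.P.β h := by
  rw [F.hβ, F.hβ, F.hβ, F.sh.β_mul, Int.cast_add]

theorem Fd.a_one (F : Fd T J) : F.P.a 1 = 0 := by
  have := F.a_mul 1 1
  rw [mul_one] at this
  omega

theorem Fd.β_one (F : Fd T J) : F.P.β 1 = 0 := by
  have := F.β_mul 1 1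
  rw [mul_one] at this
  linarith

theorem Fd.a_inv (F : Fd T J) (g : N) : F.P.a g⁻¹ = -F.P.a g := by
  have := F.a_mul g g⁻¹
  rw [mul_inv_cancel, F.a_one] at this
  omega

theorem Fd.β_inv (F : Fd T J) (g : N) : F.P.β g⁻¹ = -F.P.β g := by
  have := F.β_mul g g⁻¹
  rw [mul_inv_cancel, F.β_one] at this
  linarith

theorem Fd.a_pow (F : Fd T J) (g : N) (m : ℕ) : F.P.a (g ^ m) = m * F.P.a g := by
  induction m with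
  | zero => simp [F.a_one]
  | succ m ih => rw [pow_succ, F.a_mul, ih]; push_cast; ring

theorem Fd.β_pow (F : Fd T J) (g : N) (m : ℕ) : F.P.β (g ^ m) = m * F.P.β g := by
  induction m with
  | zero => simp [F.β_one]
  | succ m ih => rw [pow_succ, F.β_mul, ih]; push_cast; ring

theorem Fd.kbd (F : Fd T J) : ∃ k : ℝ, 1 ≤ k ∧ ∀ j, |F.κ j| ≤ k := by
  refine ⟨1 + ∑ j, |F.κ j|, le_add_of_nonneg_right (sum_nonneg fun _ _ => abs_nonneg _),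
    fun j => ?_⟩
  have := single_le_sum (f := fun j => |F.κ j|) (fun _ _ => abs_nonneg _) (mem_univ j)
  linarith

theorem Fd.W_lt (F : Fd T J) (j : J) : F.Z.W j - 1 < F.r := by
  have := F.sh.W_le j
  have := F.Z.W_pos j
  omega

theorem Fd.Cl.mono {F : Fd T J} {z : J → ℝ} {n : ℤ} {m : ℕ → ℝ} {R R' K : ℝ}
    (h : F.Cl z n m R K) (hR : R ≤ R') (hK : 0 ≤ K) : F.Cl z n m R' K :=
  ⟨h.1.trans hR, fun j hj => (h.2 j hj).trans (mul_le_mul_of_nonneg_right hR (pow_nonneg hK _))⟩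

/-- Moving the point, the end height and the moments. -/
theorem Fd.Cl.move {F : Fd T J} {z z' : J → ℝ} {n n' : ℤ} {m m' : ℕ → ℝ} {R R1 R2 k K : ℝ}
    (h : F.Cl z n m R K) (hk : ∀ j, |F.κ j| ≤ k) (hk1 : 1 ≤ k) (hK : 0 ≤ K)
    (hz : ∀ j, |z' j - z j| ≤ R1 * K ^ (F.Z.W j - 1)) (hn : |(n : ℝ) - n'| ≤ R2)
    (hm : ∀ e < F.r, |m e - m' e| ≤ R2 * K ^ e) : F.Cl z' n' m' (R + R1 + k * R2) K := by
  have hR2 : 0 ≤ R2 := (abs_nonneg _).trans hn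
  constructor
  · have h1 := hz F.Z.j0
    rw [F.Z.W_j0, Nat.sub_self, pow_zero, mul_one] at h1
    have h2 := abs_sub_le (z' F.Z.j0) (z F.Z.j0) n'
    have h3 := abs_sub_le (z F.Z.j0) n n'
    have h4 := h.1
    nlinarith
  · intro j hj
    have h1 := hz j
    have h2 := h.2 j hj
    have h3 := abs_sub_le (z' j) (z j) (F.κ j * m' (F.Z.W j - 1))
    have h4 := abs_sub_le (z j) (F.κ j * m (F.Z.W j - 1)) (F.κ j * m' (F.Z.W j - 1))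
    have h5 : |F.κ j * m (F.Z.W j - 1) - F.κ j * m' (F.Z.W j - 1)| ≤
        k * (R2 * K ^ (F.Z.W j - 1)) := by
      rw [← mul_sub, abs_mul]
      exact mul_le_mul (hk j) (hm _ (F.W_lt j)) (abs_nonneg _) (by linarith)
    nlinarith

end

/-- calculus of pieces -/
def PCS_st : Prop := ∀ (N : Type u) [Group N] (T : Finset N) (len : N → ℝ) (C0 ω : ℝ),
  Len T len C0 → ω ≤ 1 →
  (∀ C C' l τ τ' σ σ', C ≤ C' → τ ≤ τ' → σ ≤ σ' → Pcs len ω C l τ σ → Pcs len ω C' l τ' σ') ∧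
  (∀ C l l' τ τ' σ σ', Pcs len ω C l τ σ → Pcs len ω C l' τ' σ' →
    Pcs len ω C (l ++ l') (τ + τ') (σ + σ')) ∧
  (∀ C l l' v τ τ' σ σ', Pcs len ω C (l ++ l') τ σ → Pcs len ω C v τ' σ' →
    Pcs len ω C (l ++ v ++ l') (τ + τ') (σ + σ' + 1)) ∧
  (∀ L : List (N × ℕ), (∀ p ∈ L, p.1 ∈ T) → Pcs len ω C0 (syl L) (syl L).length L.length) ∧
  (∀ C l τ σ, Pcs len ω C l τ σ → ω * l.length ≤ τ) ∧
  ∀ C l l' τ σ, 0 ≤ C → Pcs len ω C l τ σ → l.Sublist l' → (∀ x ∈ l', x ∈ T) →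
    len l'.prod ≤ τ + C * σ + (C + C0 + 1) * (l'.length - l.length)

/-- words are close to their moments -/
def NEA_st : Prop := ∀ (N : Type u) [Group N] (T : Finset N) (J : Type) [Fintype J] (F : Fd T J)
  (A : ℝ), (∀ l : List N, F.P.a l.prod = (l.map F.P.a).sum ∧ F.P.β l.prod = (l.map F.P.β).sum) ∧
  (∀ (l : List N) (e : ℕ), Isum F.P.a F.P.β e 0 l =
    (⟨l.length, fun i => l.getD i 1, fun _ => 1, fun i => F.P.a (l.getD i 1)⟩ : Itm N).mom F.P.β e) ∧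
  (∀ (l : List N) (i : ℕ), i ≤ l.length → F.P.a (l.take i).prod =
    (⟨l.length, fun i => l.getD i 1, fun _ => 1, fun i => F.P.a (l.getD i 1)⟩ : Itm N).h i) ∧
  ∃ C : ℝ, 1 ≤ C ∧ ∀ (K : ℝ) (l : List N), 1 ≤ K → (∀ x ∈ l, x ∈ T) → (l.length : ℝ) ≤ A * K →
    F.Cl (fun j => F.Z.co l.prod j) (l.map F.P.a).sum (fun e => Isum F.P.a F.P.β e 0 l) C K

/-- the description of an element by items -/
def DSC_st : Prop := ∀ (N : Type u) [Group N] (T : Finset N) (J : Type) [Fintype J] (F : Fd T J)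
  (len : N → ℝ) (C0 w0 : ℝ) (R0 : ℕ), 0 < w0 → Emit T len C0 w0 R0 →
  (∀ k : ℝ, {g | len g ≤ k}.Finite) ∧
  (∃ C : ℝ, ∀ g, F.P.β g + F.P.lam * F.P.a g ≤ F.P.θ * len g + C) ∧
  ∃ C : ℝ, 1 ≤ C ∧ ∀ (K : ℝ) (g : N), 1 ≤ K → len g ≤ K → ∃ I lab, F.Desc len w0 C K R0 g I lab

/-- vertical pieces from one cheap vertical word -/
def VPW_st : Prop := ∀ (N : Type u) [Group N] (T : Finset N) (J : Type) [Fintype J] (F : Fd T J)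
  (len : N → ℝ) (C0 ω C1 : ℝ) (w : List N), Len T len C0 → (∀ x ∈ w, x ∈ T) → F.P.a w.prod = 0 →
  0 < F.P.β w.prod → (∀ j : ℕ, len (w.prod ^ j) ≤ j * F.P.β w.prod / F.P.θ + C1) →
  ω * w.length ≤ F.P.β w.prod / F.P.θ → F.VP len ω fun _ _ => True

/-- the moments of one symmetric zigzag -/
def ZIG_st : Prop := ∀ (α : Type u) (a : α → ℤ) (β : α → ℝ) (s s' : α) (A : ℝ) (r : ℕ), 0 < a s →
  a s' < 0 → ∃ C : ℝ, 0 ≤ C ∧ ∀ (i : ℕ) (y : ℤ) (K : ℝ), 1 ≤ K → (i : ℝ) ≤ A * K →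
    |(y : ℝ)| ≤ A * K → ∀ e < r,
    K ^ 2 * |Isum a β e y (syl [(s, i * (a s').natAbs), (s', 2 * i * (a s).natAbs),
        (s, i * (a s').natAbs)]) -
      2 * i * ((a s').natAbs * β s + (a s).natAbs * β s') * (y : ℝ) ^ e| ≤
      C * (K * i + if e ≤ 1 then 0 else (i : ℝ) ^ 3) * K ^ e

/-- vertical pieces from zigzags -/
def VPZ_st : Prop := ∀ (N : Type u) [Group N] (T : Finset N) (J : Type) [Fintype J] (F : Fd T J)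
  (len : N → ℝ) (C0 : ℝ) (s s' : N), Len T len C0 → Pair F.P s s' →
  F.VP len 0 fun K R => K ≤ R ^ 3 ∨ F.r ≤ 2

/-- insertion of the atoms -/
def INS_st : Prop := ∀ (N : Type u) [Group N] (T : Finset N) (J : Type) [Fintype J] (F : Fd T J)
  (len : N → ℝ) (C0 ω A Cv ρ : ℝ), Len T len C0 → ω ≤ 1 → 0 ≤ A → 0 ≤ Cv → 0 ≤ ρ →
  ∃ C : ℝ, 0 ≤ C ∧ ∀ (K R : ℝ) (X Y : ℤ) (Λ : List (ℤ × ℝ)) (l : List N) (τ σ : ℝ), 1 ≤ K → 1 ≤ R →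
    |(X : ℝ)| + ρ ≤ A * K → |(Y : ℝ)| + ρ ≤ A * K →
    (∀ p ∈ Λ, p.1 ∈ Icc X Y ∧ |p.2| ≤ A * K ∧ ∃ v, F.Vp len ω A Cv K R p.2 v) →
    (∀ x ∈ l, x ∈ T) → Pcs len ω Cv l τ σ →
    (∀ c ∈ Icc X Y, ∃ i, |((ht F.P.a l i - c : ℤ) : ℝ)| ≤ ρ) →
    ∃ l' : List N, (∀ x ∈ l', x ∈ T) ∧ (l'.length : ℝ) ≤ l.length + Λ.length * Cv * K ∧
      Pcs len ω Cv l' (τ + (Λ.map fun p => |p.2|).sum / F.P.θ + Λ.length * Cv * R)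
        (σ + Λ.length * (Cv * R + 1)) ∧
      (l'.map F.P.a).sum = (l.map F.P.a).sum ∧
      (∀ c ∈ Icc X Y, ∃ i, |((ht F.P.a l' i - c : ℤ) : ℝ)| ≤ ρ) ∧
      ∀ e < F.r, |Isum F.P.a F.P.β e 0 l' - Isum F.P.a F.P.β e 0 l -
        (Λ.map fun p => p.2 * (p.1 : ℝ) ^ e).sum| ≤ Λ.length * C * R * K ^ e

/-- realisation of a configuration by a word with few pieces -/
def RLZ_st : Prop := ∀ (N : Type u) [Group N] (T : Finset N) (J : Type) [Fintype J] (F : Fd T J)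
  (len : N → ℝ) (C0 ω : ℝ) (p : ℝ → ℝ → Prop), Len T len C0 → ω ≤ 1 → F.VP len ω p →
  ∀ A : ℝ, ∃ C : ℝ, 1 ≤ C ∧ ∀ (K L R : ℝ) (Q : Cfg N), 1 ≤ L → L ≤ K → 1 ≤ R → R ≤ A * K → p K R →
    Q.Ok F.P → Q.time F.P ≤ A * K → L ≤ (max (-Q.X) Q.Y : ℤ) + A →
    ∃ l : List N, (∀ x ∈ l, x ∈ T) ∧ (l.length : ℝ) ≤ C * K ∧
      Pcs len ω C l (Q.time F.P + C * R) (C * R) ∧
      F.Cl (fun j => F.Z.co l.prod j) Q.n (Q.mom F.P) (C * R) K ∧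
      ∃ (L' : ℝ) (i : ℕ), 1 ≤ L' ∧ L' ≤ L ∧ L ≤ C * L' ∧ L' ≤ |(F.Z.co (l.take i).prod F.Z.j0 : ℝ)|

/-- points near a word lie in a slightly larger limit ball -/
def UP2_st : Prop := ∀ (N : Type u) [Group N] (T : Finset N) (J : Type) [Fintype J] (Z : Sys T J)
  (A : ℝ), ∃ C : ℝ, 0 ≤ C ∧ ∀ K L R : ℝ, 1 ≤ L → L ≤ K → 1 ≤ R → R * (K / L) ^ Z.p ≤ A * K →
    ∀ u : List N, Word T u → (u.length : ℝ) ≤ K → (∃ n, L ≤ |(Z.co (u.take n).prod Z.j0 : ℝ)|) →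
    ∀ z : J → ℝ, (∀ j, |(Z.co u.prod j : ℝ) - z j| ≤ R * K ^ (Z.W j - 1)) →
      z ∈ Z.B (u.length + C * R * (K / L) ^ Z.p)

/-- points near a configuration lie in the limit ball -/
def RCB_st : Prop := ∀ (N : Type u) [Group N] (T : Finset N) (J : Type) [Fintype J] (F : Fd T J)
  (A : ℝ), ∃ C : ℝ, 0 ≤ C ∧ ∀ (K L R : ℝ) (Q : Cfg N), 1 ≤ L → L ≤ K → 1 ≤ R →
    R * (K / L) ^ F.Z.p ≤ A * K → Q.Ok F.P → Q.time F.P ≤ A * K → L ≤ (max (-Q.X) Q.Y : ℤ) + A →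
    ∀ z, F.Cl z Q.n (Q.mom F.P) R K → z ∈ F.Z.B (Q.time F.P + C * R * (K / L) ^ F.Z.p)

/-- elements near a configuration are short -/
def RCG_st : Prop := ∀ (N : Type u) [Group N] (T : Finset N) (J : Type) [Fintype J] (F : Fd T J)
  (len : N → ℝ) (C0 : ℝ) (p : ℝ → ℝ → Prop), Len T len C0 → F.VP len 0 p →
  ∀ A : ℝ, ∃ C : ℝ, 0 ≤ C ∧ ∀ (K L R : ℝ) (Q : Cfg N), 1 ≤ L → L ≤ K → 1 ≤ R →
    R * (K / L) ^ F.Z.p ≤ A * K → p K R → Q.Ok F.P → Q.time F.P ≤ A * K →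
    L ≤ (max (-Q.X) Q.Y : ℤ) + A → ∀ g, F.Cl (fun j => F.Z.co g j) Q.n (Q.mom F.P) (A * R) K →
      len g ≤ Q.time F.P + C * R * (K / L) ^ F.Z.p

/-- a straight vertical element has the optimal slope -/
def AB1_st : Prop := ∀ (N : Type u) [Group N] (T : Finset N) (J : Type) [Fintype J] (F : Fd T J)
  (len : N → ℝ) (C0 : ℝ) (s s' : N), Len T len C0 → Pair F.P s s' → ∀ g, F.P.a g = 0 →
  0 < F.P.β g → (∃ τ C : ℝ, ∀ j : ℕ, |len (g ^ j) - τ * j| ≤ C) → F.Real len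

/-- in class at most two the vertical direction is realised -/
def AB2_st : Prop := ∀ (N : Type u) [Group N] (T : Finset N) (J : Type) [Fintype J] (F : Fd T J)
  (len : N → ℝ) (C0 : ℝ) (s s' : N), Len T len C0 → Pair F.P s s' → F.r ≤ 2 → F.Real len

/-- location of a point near a word of length a multiple of `k` -/
def LOC_st : Prop := ∀ (N : Type u) [Group N] (T : Finset N) (J : Type) [Fintype J] (Z : Sys T J)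
  (R : ℝ), 1 ≤ R → ∃ A : ℝ, 0 ≤ A ∧ ∀ k : ℕ, 1 ≤ k → ∀ u : List N, Word T u →
    (u.length : ℝ) ≤ R * k → ∀ z : J → ℝ,
    (∀ j, |(Z.co u.prod j : ℝ) - z j| ≤ R * (k : ℝ) ^ (Z.W j - 1)) →
    z ∈ Thin Z.W A k ∨ ∃ i : ℕ, (2 : ℝ) ^ i ≤ k ∧ z ∈ Box Z.W Z.j0 A (2 ^ i) k ∧
      ∃ n, (2 : ℝ) ^ i ≤ |(Z.co (u.take n).prod Z.j0 : ℝ)|

/-- the upper volume bound, with room for a set that is missed -/
def UPV_st : Prop := ∀ (N : Type u) [Group N] (T : Finset N) (J : Type) [Fintype J] (F : Fd T J)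
  (len : N → ℝ) (C0 w0 : ℝ) (R0 : ℕ), 0 < w0 → Emit T len C0 w0 R0 → ∀ C1 : ℝ, 0 ≤ C1 →
  ∃ C : ℝ, ∀ k : ℕ, 1 ≤ k → C1 ≤ k → ∀ X : Set (J → ℝ), MeasurableSet X → X ⊆ F.Z.B (k + C1) →
    Disjoint X (F.D len k) → volume.real (F.D len k) + volume.real X ≤
      (k : ℝ) ^ (∑ j, F.Z.W j) * volume.real (F.Z.B 1) + C * (k : ℝ) ^ (∑ j, F.Z.W j - 1)

/-- the dyadic lower bound with a parameter -/
def DYL_st : Prop := ∀ (J : Type) [Fintype J] (W : J → ℕ) (B : ℝ → Set (J → ℝ)), Fam W B →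
  (∀ j, 1 ≤ W j) → ∀ j0 : J, W j0 = 1 → ∀ p : ℕ, p + Fintype.card J ≤ ∑ j, W j → ∀ A : ℝ, 0 ≤ A →
  ∃ C' : ℝ, ∀ k : ℕ, 1 ≤ k → ∀ M : ℝ, 1 ≤ M → ∀ D : Set (J → ℝ), volume D ≠ ⊤ →
    (∀ z ∈ B k, z ∉ D → z ∈ Thin W A k ∨ ∃ i : ℕ, (2 : ℝ) ^ i ≤ k ∧ z ∈ Box W j0 A (2 ^ i) k ∧
      (M * ((k : ℝ) / 2 ^ i) ^ p ≤ k → z ∉ B (k - M * ((k : ℝ) / 2 ^ i) ^ p))) →
    (k : ℝ) ^ (∑ j, W j) * volume.real (B 1) ≤
      volume.real D + C' * M * (k : ℝ) ^ (∑ j, W j - 1)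

/-- the lower volume bound -/
def LOV_st : Prop := ∀ (N : Type u) [Group N] (T : Finset N) (J : Type) [Fintype J] (F : Fd T J)
  (len : N → ℝ) (C0 : ℝ) (p : ℝ → ℝ → Prop), Len T len C0 → F.VP len 0 p →
  (∀ k : ℝ, {g | len g ≤ k}.Finite) → ∃ C : ℝ, ∀ (k : ℕ) (R : ℝ), 1 ≤ k → 1 ≤ R → p k R →
    (k : ℝ) ^ (∑ j, F.Z.W j) * volume.real (F.Z.B 1) ≤
      volume.real (F.D len k) + C * R * (k : ℝ) ^ (∑ j, F.Z.W j - 1)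

/-- in the region the range is small and the atoms are heavy -/
def PRE_st : Prop := ∀ (N : Type u) [Group N] (T : Finset N) (J : Type) [Fintype J] (F : Fd T J)
  (len : N → ℝ) (w0 C1 C2 : ℝ) (R0 : ℕ) (j1 j2 : J), j1 ≠ F.Z.j0 → j2 ≠ F.Z.j0 → F.Z.W j1 = 1 →
  F.Z.W j2 = 3 → ∃ ε : ℝ, 0 < ε ∧ ∀ ε' : ℝ, 0 < ε' → ∃ K0 : ℝ, ∀ (k : ℝ) (z : J → ℝ) (I : Itm N)
    (lab : ℕ → ℕ) (Q : Cfg N), K0 ≤ k → len (F.Z.pt z) ≤ k → F.Reg j1 j2 ε ε' k z →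
    F.Desc len w0 C1 k R0 (F.Z.pt z) I lab → Q.Ok F.P → Q.n = I.h I.n →
    (∃ i ≤ I.n, I.h i = Q.X) → (∃ i ≤ I.n, I.h i = Q.Y) →
    |Q.mom F.P 0 - I.mom F.P.β 0| ≤ C2 →
    (∀ i ≤ I.n, |(I.h i : ℝ)| ≤ k) ∧ ε' / 2 * k ≤ Q.Y ∧ ε' ≤ 1 ∧
      F.P.θ / 2 * k ≤ ∑ c ∈ Icc Q.X Q.Y, Q.μ c

/-- the shift when all atoms are light -/
def SH2_st : Prop := ∀ (N : Type u) [Group N] (T : Finset N) (J : Type) [Fintype J] [DecidableEq J]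
  (F : Fd T J) (jt : J) (ε' C1 : ℝ), jt ≠ F.Z.j0 → F.Z.W jt = F.r → 2 ≤ F.r → 0 < ε' → ε' ≤ 1 →
  1 ≤ C1 → ∃ c C D0 : ℝ, 0 < c ∧ 0 ≤ C ∧ ∀ (k D t : ℝ) (z : J → ℝ) (Q : Cfg N), D0 ≤ D →
    D ^ F.r ≤ k → Q.Ok F.P → Q.time F.P ≤ k → F.Cl z Q.n (Q.mom F.P) C1 k → ε' / 2 * k ≤ Q.Y →
    F.P.θ / 2 * k ≤ ∑ c ∈ Icc Q.X Q.Y, Q.μ c → (∀ c ∈ Icc Q.X Q.Y, Q.μ c ≤ D) → 0 ≤ t →
    t ≤ c * D * k ^ (F.r - 1) → z - Pi.single jt (F.κ jt * t) ∈ F.Z.B (k + C)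

/-- the shift when an atom is heavy -/
def SH1_st : Prop := ∀ (N : Type u) [Group N] (T : Finset N) (J : Type) [Fintype J] [DecidableEq J]
  (F : Fd T J) (len : N → ℝ) (w0 C1 C2 : ℝ) (R0 : ℕ) (s s' : N) (jt : J) (ε' : ℝ), 0 < w0 →
  Pair F.P s s' → ¬ F.Real len → jt ≠ F.Z.j0 → F.Z.W jt = F.r → 2 ≤ F.r → 0 < ε' → ε' ≤ 1 →
  1 ≤ C1 → ∃ c C D0 : ℝ, 0 < c ∧ 0 ≤ C ∧ ∀ (k D t : ℝ) (z : J → ℝ) (I : Itm N) (lab : ℕ → ℕ)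
    (c0 : ℤ), D0 ≤ D → D ^ F.r ≤ k → len (F.Z.pt z) ≤ k →
    F.Desc len w0 C1 k R0 (F.Z.pt z) I lab → (∀ i ≤ I.n, |(I.h i : ℝ)| ≤ k) →
    (∃ i ≤ I.n, ε' / 2 * k ≤ I.h i) → (∃ i ≤ I.n, I.h i ≤ c0) → (∃ i ≤ I.n, c0 ≤ I.h i) →
    D - C2 ≤ I.tot F.P.β c0 → 0 ≤ t → t ≤ c * D * k ^ (F.r - 1) →
    z - Pi.single jt (F.κ jt * t) ∈ F.Z.B (k + C)

/-- the shift -/
def SHF_st : Prop := ∀ (N : Type u) [Group N] (T : Finset N) (J : Type) [Fintype J] [DecidableEq J]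
  (F : Fd T J) (len : N → ℝ) (C0 w0 : ℝ) (R0 : ℕ) (s s' : N) (j1 j2 jt : J), 0 < w0 →
  Emit T len C0 w0 R0 → Pair F.P s s' → ¬ F.Real len → j1 ≠ F.Z.j0 → j2 ≠ F.Z.j0 → jt ≠ F.Z.j0 →
  F.Z.W j1 = 1 → F.Z.W j2 = 3 → F.Z.W jt = F.r → ∃ ε : ℝ, 0 < ε ∧ ∀ ε' : ℝ, 0 < ε' →
    ∃ c C D0 : ℝ, 0 < c ∧ 0 ≤ C ∧ ∀ (k D t : ℝ) (z : J → ℝ), D0 ≤ D → D ^ F.r ≤ k →
      len (F.Z.pt z) ≤ k → F.Reg j1 j2 ε ε' k z → 0 ≤ t → t ≤ c * D * k ^ (F.r - 1) →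
      z - Pi.single jt (F.κ jt * t) ∈ F.Z.B (k + C)

/-- a box of the unit ball inside the region -/
def BOX_st : Prop := ∀ (N : Type u) [Group N] (T : Finset N) (J : Type) [Fintype J] (F : Fd T J)
  (j1 j2 : J), j1 ≠ F.Z.j0 → j2 ≠ F.Z.j0 → F.Z.W j1 = 1 → F.Z.W j2 = 3 → ∀ ε : ℝ, 0 < ε →
  ∃ (ε' η : ℝ) (lo : J → ℝ), 0 < ε' ∧ 0 < η ∧ ∀ z : J → ℝ, (∀ j, lo j ≤ z j ∧ z j ≤ lo j + η) →
    z ∈ F.Z.B 1 ∧ F.Reg j1 j2 ε ε' 1 z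

/-- the volume deficit -/
def DEF_st : Prop := ∀ (N : Type u) [Group N] (T : Finset N) (J : Type) [Fintype J] (F : Fd T J)
  (len : N → ℝ) (C0 w0 : ℝ) (R0 : ℕ) (s s' : N), 0 < w0 → Emit T len C0 w0 R0 → Pair F.P s s' →
  ¬ F.Real len → 3 ≤ F.r → ∃ c C D0 : ℝ, 0 < c ∧ ∀ (k : ℕ) (D : ℝ), D0 ≤ D → D ^ F.r ≤ k →
    volume.real (F.D len k) ≤ (k : ℝ) ^ (∑ j, F.Z.W j) * volume.real (F.Z.B 1) +
      C * (k : ℝ) ^ (∑ j, F.Z.W j - 1) - c * D * (k : ℝ) ^ (∑ j, F.Z.W j - 1)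

/-- the best vertical rate and its supporting functional -/
def POL_st : Prop := ∀ (N : Type u) [Group N] (T : Finset N) (a β : N → ℤ),
  (∀ s ∈ T, s⁻¹ ∈ T) → Subgroup.closure (T : Set N) = ⊤ → (∀ g h, a (g * h) = a g + a h) →
  (∀ g h, β (g * h) = β g + β h) → (∃ s ∈ T, a s ≠ 0) → (∃ x, a x = 0 ∧ β x ≠ 0) →
  ∃ P : Alph N, P.T = T ∧ (∀ g, P.a g = a g) ∧ (∀ g, P.β g = β g) ∧
    ((∃ s ∈ T, P.a s = 0 ∧ P.β s = P.θ) ∨ ∃ s s', Pair P s s')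

/-- adapted data with their origin -/
def FD1_st : Prop := ∀ (N : Type u) [Group N] [Group.IsNilpotent N] (T : Finset N)
  (φ : N →* Multiplicative ℤ), (∀ g : N, IsOfFinOrder g → g = 1) →
  Subgroup.closure (T : Set N) = ⊤ → Function.Surjective φ →
  (∀ j : ℕ, ∀ x ∈ φ.ker, ∀ y ∈ φ.ker, y ∈ (⊤ : Subgroup N).lowerCentralSeries j →
    ∃ n : ℕ, 0 < n ∧ (x * y * x⁻¹ * y⁻¹) ^ n ∈ (⊤ : Subgroup N).lowerCentralSeries (j + 2)) →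
  ∃ (J : Type) (_ : Fintype J) (_ : DecidableEq J) (Z : Pre T J),
    (∀ g, Z.X g = Multiplicative.toAdd (φ g)) ∧ Z.r ≤ Group.nilpotencyClass N ∧
    ∀ g, φ g = 1 → (∃ m : ℕ, 0 < m ∧ g ^ m ∈ commutator N) → Z.P 2 g

/-- the filiform shape -/
def FD2_st : Prop := ∀ (N : Type u) [Group N] (T : Finset N) (J : Type) [Fintype J] [DecidableEq J]
  (Z : Pre T J) (ψ : N → ℤ), (∀ g h, ψ (g * h) = ψ g + ψ h) → (∃ b, Z.X b = 0 ∧ ψ b ≠ 0) →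
  (∀ g, Z.X g = 0 → ψ g = 0 → Z.P 2 g) →
  ∃ (Y : Sys T (Option J)) (κ : Option J → ℝ), (∀ g, Y.co g Y.j0 = Z.X g) ∧
    Shape Y (fun g => ψ g - ψ Z.t * Z.X g) κ Z.r

/-- emission of closed pieces -/
def EMI_st : Prop := ∀ (G : Type u) [Group G] (S : Finset G) (H : Subgroup G) [H.FiniteIndex],
  Subgroup.closure (S : Set G) = ⊤ → ∃ (M : ℕ) (T : Finset H) (C0 w0 : ℝ) (R0 : ℕ), 1 ≤ M ∧
    0 < w0 ∧ (∀ s ∈ T, s⁻¹ ∈ T) ∧ Subgroup.closure (T : Set H) = ⊤ ∧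
    Len T (fun x => (wl S (x : G) : ℝ) / M) C0 ∧ Emit T (fun x => (wl S (x : G) : ℝ) / M) C0 w0 R0

/-- basic facts on the word length -/
def WLB_st : Prop := ∀ (G : Type u) [Group G] (S : Finset G), Subgroup.closure (S : Set G) = ⊤ →
  (∀ g, ∃ l : List G, Word S l ∧ l.prod = g ∧ l.length = wl S g) ∧
  (∀ l : List G, Word S l → wl S l.prod ≤ l.length) ∧ wl S 1 = 0 ∧
  (∀ g h, wl S (g * h) ≤ wl S g + wl S h) ∧ (∀ g, wl S g⁻¹ = wl S g) ∧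
  (∀ k : ℕ, {g | wl S g ≤ k}.Finite) ∧ ∀ k, growth S k = {g | wl S g ≤ k}.ncard

/-- counting in a subgroup of finite index -/
def CNT_st : Prop := ∀ (G : Type u) [Group G] (S : Finset G) (H : Subgroup G) [H.FiniteIndex],
  Subgroup.closure (S : Set G) = ⊤ → ∃ C : ℕ, ∀ k : ℕ,
    growth S k ≤ H.index * {x : H | wl S (x : G) ≤ k + C}.ncard ∧
    H.index * {x : H | wl S (x : G) ≤ k}.ncard ≤ growth S (k + C)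

/-- change of scale: upper bounds -/
def ANU_st : Prop := ∀ (b f : ℕ → ℝ) (q V c C D0 : ℝ) (M C1 e r s : ℕ), 0 < q → 0 < V → 1 ≤ M →
  1 ≤ r → r ≤ s → (∀ k, b k ≤ q * f (k / M + C1)) →
  ((∀ k : ℕ, 1 ≤ k → D0 ≤ k → f k ≤ (k : ℝ) ^ (e + 1) * V + C * (k : ℝ) ^ e) → ∃ C' : ℝ,
    ∀ᶠ k : ℕ in Filter.atTop, (b k - q * V / M ^ (e + 1) * (k : ℝ) ^ (e + 1)) / (k : ℝ) ^ e ≤ C') ∧
  (0 < c → (∀ (k : ℕ) (D : ℝ), D0 ≤ D → D ^ r ≤ k →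
      f k ≤ (k : ℝ) ^ (e + 1) * V + C * (k : ℝ) ^ e - c * D * (k : ℝ) ^ e) → ∃ c' : ℝ, 0 < c' ∧
    ∀ᶠ k : ℕ in Filter.atTop, (b k - q * V / M ^ (e + 1) * (k : ℝ) ^ (e + 1)) / (k : ℝ) ^ e ≤
      -c' * (k : ℝ) ^ (1 / (s : ℝ)))

/-- change of scale: lower bounds -/
def ANL_st : Prop := ∀ (b f : ℕ → ℝ) (q V C : ℝ) (M C1 e : ℕ), 0 < q → 0 < V → 1 ≤ M →
  (∀ k, C1 ≤ k → q * f ((k - C1) / M) ≤ b k) →
  ((∀ k : ℕ, 1 ≤ k → (k : ℝ) ^ (e + 1) * V ≤ f k + C * (k : ℝ) ^ e) → ∃ C' : ℝ,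
    ∀ᶠ k : ℕ in Filter.atTop, -C' ≤ (b k - q * V / M ^ (e + 1) * (k : ℝ) ^ (e + 1)) / (k : ℝ) ^ e) ∧
  ((∀ (k : ℕ) (R : ℝ), 1 ≤ k → 1 ≤ R → k ≤ R ^ 3 →
      (k : ℝ) ^ (e + 1) * V ≤ f k + C * R * (k : ℝ) ^ e) → ∃ C' : ℝ,
    ∀ᶠ k : ℕ in Filter.atTop, -C' * (k : ℝ) ^ (1 / 3 : ℝ) ≤
      (b k - q * V / M ^ (e + 1) * (k : ℝ) ^ (e + 1)) / (k : ℝ) ^ e)

end Pool.Agent.MP_b3b911_al.Dich
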