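import Pool.Agent.MP_b3b911_al.Dich.St

/-! Statements of the steps that give the exact order of the deficit. -/

open Finset MeasureTheory

noncomputable section

namespace Pool.Agent.MP_b3b911_al.Dich

open Fil

universe u

/-- The thin region near the vertical direction, at the height scale `h`. -/
def Fd.Reg2 {N : Type u} [Group N] {T : Finset N} {J : Type} [Fintype J] (F : Fd T J) (j1 j2 : J)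
    (a h k : ℝ) (z : J → ℝ) : Prop :=
  h ≤ z F.Z.j0 ∧ z F.Z.j0 ≤ 2 * h ∧ F.P.θ * k - a * h ≤ z j1 / F.κ j1 + F.P.lam * z F.Z.j0 ∧
    z j2 / F.κ j2 ≤ a * h ^ 3 ∧ ∀ j, j ≠ F.Z.j0 → j ≠ j1 → j ≠ j2 → |z j| ≤ a * h ^ F.Z.W j

/-- the range at the height scale -/
def RNG2_st : Prop := ∀ (α : Type u) (P : Alph α) (a : ℝ), ∃ b : ℝ, 1 ≤ b ∧
  ∀ (I : Itm α) (K h : ℝ), 1 ≤ K → 0 < h → K ^ 2 ≤ h ^ 3 → I.Ok P 1 → I.time ≤ K →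
    P.θ * I.time - I.mom P.β 0 - P.lam * I.h I.n ≤ a * h → |(I.h I.n : ℝ)| ≤ a * h →
    I.mom P.β 2 ≤ a * h ^ 3 → (∀ i ≤ I.n, |(I.h i : ℝ)| ≤ b * h) ∧ |I.mom P.β 2| ≤ b * h ^ 3

/-- lowering the second moment with control on the higher ones -/
def SPR2_st : Prop := ∃ c C : ℝ, 0 < c ∧ 0 < C ∧ ∀ (X Y : ℤ) (μ : ℤ → ℝ) (D m t M : ℝ),
  0 < D → (∀ z ∈ Icc X Y, 0 ≤ μ z ∧ μ z ≤ D) → m ≤ ∑ z ∈ Icc X Y, μ z → C * D ≤ m → 0 ≤ t →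
  t ≤ c * m * (m / D) ^ 2 → (∀ z ∈ Icc X Y, |(z : ℝ)| ≤ M) →
  ∃ μ' : ℤ → ℝ, (∀ z ∈ Icc X Y, 0 ≤ μ' z) ∧
    (∀ e < 2, ∑ z ∈ Icc X Y, μ' z * (z : ℝ) ^ e = ∑ z ∈ Icc X Y, μ z * (z : ℝ) ^ e) ∧
    ∑ z ∈ Icc X Y, μ' z * (z : ℝ) ^ 2 = ∑ z ∈ Icc X Y, μ z * (z : ℝ) ^ 2 - t ∧
    ∀ e : ℕ, |∑ z ∈ Icc X Y, μ' z * (z : ℝ) ^ (e + 2) - ∑ z ∈ Icc X Y, μ z * (z : ℝ) ^ (e + 2)| ≤
      t * (7 * M) ^ e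

/-- signed atoms with prescribed moments -/
def LAG_st : Prop := ∀ r : ℕ, ∃ C : ℝ, 0 ≤ C ∧ ∀ (X Y : ℤ) (g : ℕ) (E : ℕ → ℝ) (b : ℝ), 1 ≤ g →
  X ≤ 0 → (r * g : ℤ) ≤ Y → 0 ≤ b → (∀ e < r, |E e| ≤ b * (g : ℝ) ^ e) →
  ∃ ν : ℤ → ℝ, ∑ c ∈ Icc X Y, |ν c| ≤ C * b ∧ ∀ e < r, ∑ c ∈ Icc X Y, ν c * (c : ℝ) ^ e = E e

/-- in the thin region the atoms sit in a short window -/
def PRE2_st : Prop := ∀ (N : Type u) [Group N] (T : Finset N) (J : Type) [Fintype J] (F : Fd T J)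
  (len : N → ℝ) (w0 C1 C2 a γ : ℝ) (R0 : ℕ) (j1 j2 : J), j1 ≠ F.Z.j0 → j2 ≠ F.Z.j0 →
  F.Z.W j1 = 1 → F.Z.W j2 = 3 → 0 < γ → ∃ ε0 : ℝ, 0 < ε0 ∧ ε0 ≤ 1 ∧ ∀ ε : ℝ, 0 < ε → ε ≤ ε0 →
  ∃ K0 : ℝ, ∀ (k : ℝ) (z : J → ℝ) (I : Itm N) (lab : ℕ → ℕ) (Q : Cfg N), K0 ≤ k →
    len (F.Z.pt z) ≤ k → F.Reg2 j1 j2 a (ε * k) k z → F.Desc len w0 C1 k R0 (F.Z.pt z) I lab →
    Q.Ok F.P → Q.n = I.h I.n → (∃ i ≤ I.n, I.h i = Q.X) → (∃ i ≤ I.n, I.h i = Q.Y) →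
    Q.time F.P ≤ k → (∀ e < F.r, |Q.mom F.P e - I.mom F.P.β e| ≤ C2 * k ^ e) →
    (∀ i ≤ I.n, |(I.h i : ℝ)| ≤ k) ∧ ε / 2 * k ≤ Q.Y ∧ F.P.θ / 4 * k ≤
      ∑ c ∈ (Icc Q.X Q.Y).filter (fun c : ℤ => |(c : ℝ)| ≤ γ * (ε * k)), max (Q.μ c) 0

/-- the shift when all atoms are light -/
def SH2b_st : Prop := ∀ (N : Type u) [Group N] (T : Finset N) (J : Type) [Fintype J] [DecidableEq J]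
  (F : Fd T J) (j2 : J), j2 ≠ F.Z.j0 → F.Z.W j2 = 3 → ∃ a4 : ℝ, 0 ≤ a4 ∧ ∀ ε γ C1 : ℝ, 0 < ε →
  ε ≤ 1 → 0 < γ → γ ≤ 1 → 1 ≤ C1 → ∃ c C D0 : ℝ, 0 < c ∧ 0 ≤ C ∧
  ∀ (k D t : ℝ) (z : J → ℝ) (Q : Cfg N), D0 ≤ D → D ^ 3 ≤ k → Q.Ok F.P → Q.time F.P ≤ k →
    F.Cl z Q.n (Q.mom F.P) C1 k → ε / 2 * k ≤ Q.Y → F.P.θ / 4 * k ≤
      ∑ c ∈ (Icc Q.X Q.Y).filter (fun c : ℤ => |(c : ℝ)| ≤ γ * (ε * k)), max (Q.μ c) 0 →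
    (∀ c ∈ Icc Q.X Q.Y, Q.μ c ≤ D) → 0 ≤ t → t ≤ c * D * k ^ 2 →
    z - Pi.single j2 (F.κ j2 * t) ∈ F.Z.B (k + C + a4 * γ * t / (ε * k) ^ 2)

/-- the shift when an atom is heavy -/
def SH1b_st : Prop := ∀ (N : Type u) [Group N] (T : Finset N) (J : Type) [Fintype J] [DecidableEq J]
  (F : Fd T J) (len : N → ℝ) (w0 C1 C2 : ℝ) (R0 : ℕ) (s s' : N) (jt : J) (ε' : ℝ), 0 < w0 →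
  Pair F.P s s' → ¬ F.Real len → 0 < ε' → ε' ≤ 1 →
  1 ≤ C1 → ∃ c C D0 : ℝ, 0 < c ∧ 0 ≤ C ∧ ∀ (k D t : ℝ) (z : J → ℝ) (I : Itm N) (lab : ℕ → ℕ)
    (c0 : ℤ), D0 ≤ D → D ≤ k → len (F.Z.pt z) ≤ k →
    F.Desc len w0 C1 k R0 (F.Z.pt z) I lab → (∀ i ≤ I.n, |(I.h i : ℝ)| ≤ k) →
    (∃ i ≤ I.n, ε' / 2 * k ≤ I.h i) → (∃ i ≤ I.n, I.h i ≤ c0) → (∃ i ≤ I.n, c0 ≤ I.h i) →
    D - C2 ≤ I.tot F.P.β c0 → 0 ≤ t → t ≤ c * D * k ^ (F.Z.W jt - 1) →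
    z - Pi.single jt (F.κ jt * t) ∈ F.Z.B (k + C)

/-- the shift -/
def SHF2_st : Prop := ∀ (N : Type u) [Group N] (T : Finset N) (J : Type) [Fintype J] [DecidableEq J]
  (F : Fd T J) (len : N → ℝ) (C0 w0 : ℝ) (R0 : ℕ) (s s' : N) (j1 j2 : J) (a γ : ℝ), 0 < w0 →
  Emit T len C0 w0 R0 → Pair F.P s s' → ¬ F.Real len → j1 ≠ F.Z.j0 → j2 ≠ F.Z.j0 →
  F.Z.W j1 = 1 → F.Z.W j2 = 3 → 0 < γ → ∃ ε0 : ℝ, 0 < ε0 ∧ ε0 ≤ 1 ∧ ∀ ε : ℝ, 0 < ε → ε ≤ ε0 →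
    ∃ c C D0 : ℝ, 0 < c ∧ 0 ≤ C ∧ ∀ (k D t : ℝ) (z : J → ℝ), D0 ≤ D → D ^ 3 ≤ k →
      len (F.Z.pt z) ≤ k → F.Reg2 j1 j2 a (ε * k) k z → 0 ≤ t → t ≤ c * D * k ^ 2 →
      z - Pi.single j2 (F.κ j2 * t) ∈ F.Z.B (k + C + γ * t / (ε * k) ^ 2)

/-- a box of the ball inside the thin region -/
def BOX2_st : Prop := ∀ (N : Type u) [Group N] (T : Finset N) (J : Type) [Fintype J] (F : Fd T J)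
  (j1 j2 : J), j1 ≠ F.Z.j0 → j2 ≠ F.Z.j0 → F.Z.W j1 = 1 → F.Z.W j2 = 3 →
  ∃ a ε1 : ℝ, 0 < ε1 ∧ ∀ ε : ℝ, 0 < ε → ε ≤ ε1 → ∃ K0 : ℝ, ∀ k : ℝ, K0 ≤ k → ∃ lo : J → ℝ,
    ∀ z : J → ℝ, (∀ j, lo j ≤ z j ∧ z j ≤ lo j + (ε * k) ^ F.Z.W j) →
      z ∈ F.Z.B k ∧ F.Reg2 j1 j2 a (ε * k) k z

/-- a box that contains the part of the ball in the thin region -/
def BND_st : Prop := ∀ (N : Type u) [Group N] (T : Finset N) (J : Type) [Fintype J] (F : Fd T J)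
  (j1 j2 : J) (a : ℝ), j1 ≠ F.Z.j0 → j2 ≠ F.Z.j0 → F.Z.W j1 = 1 → F.Z.W j2 = 3 →
  ∃ b : ℝ, 0 < b ∧ ∀ ε : ℝ, 0 < ε → ε ≤ 1 → ∃ K0 : ℝ, ∀ (k : ℝ) (z : J → ℝ), K0 ≤ k →
    z ∈ F.Z.B (k + ε * k) → F.Reg2 j1 j2 a (ε * k) k z →
    |z j1| ≤ b * k ∧ ∀ j, j ≠ j1 → |z j| ≤ b * (ε * k) ^ F.Z.W j

/-- the volume deficit -/
def DEF2_st : Prop := ∀ (N : Type u) [Group N] (T : Finset N) (J : Type) [Fintype J] (F : Fd T J)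
  (len : N → ℝ) (C0 w0 : ℝ) (R0 : ℕ) (s s' : N), 0 < w0 → Emit T len C0 w0 R0 → Pair F.P s s' →
  ¬ F.Real len → 3 ≤ F.r → ∃ c C D0 : ℝ, 0 < c ∧ ∀ (k : ℕ) (D : ℝ), D0 ≤ D → D ^ 3 ≤ k →
    volume.real (F.D len k) ≤ (k : ℝ) ^ (∑ j, F.Z.W j) * volume.real (F.Z.B 1) +
      C * (k : ℝ) ^ (∑ j, F.Z.W j - 1) - c * D * (k : ℝ) ^ (∑ j, F.Z.W j - 1)

end Pool.Agent.MP_b3b911_al.Dich
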